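import Pool.Agent.Lib.MP_a300b0_lc.BSpec

/-! The nodes and items suggested by a line of lists. -/

namespace Pool.Agent.Lib.MP_a300b0_lc

open Finset

section general
variable {α : Type}

/-- Maximal families of pairwise compatible elements. -/
def MxP (F : Finset α) (R : α → α → Prop) (D : Finset α) : Prop :=
  D ⊆ F ∧ (∀ a ∈ D, ∀ b ∈ D, a ≠ b → R a b) ∧ ∀ a ∈ F, a ∉ D → ∃ b ∈ D, ¬ R a b

noncomputable def mx (F : Finset α) (R : α → α → Prop) : Finset α := Classical.epsilon (MxP F R)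

theorem mx_spec (F : Finset α) {R : α → α → Prop} (hR : ∀ a b, R a b → R b a) :
    MxP F R (mx F R) := by
  classical
  apply Classical.epsilon_spec
  obtain ⟨D, ⟨h3, h4⟩, h2⟩ := Set.exists_max_image
    {D : Finset α | D ⊆ F ∧ ∀ a ∈ D, ∀ b ∈ D, a ≠ b → R a b} card
    ((F.powerset.finite_toSet).subset fun D h => mem_coe.2 (mem_powerset.2 h.1))
    ⟨∅, empty_subset _, by simp⟩
  refine ⟨D, h3, h4, fun a ha hn => ?_⟩
  by_contra hc
  push Not at hc
  have := h2 (insert a D) ⟨insert_subset ha h3, by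
    intro b hb c hc' hne
    rcases mem_insert.1 hb with e | hb <;> rcases mem_insert.1 hc' with e' | hc'
    · exact absurd (e.trans e'.symm) hne
    · exact e ▸ hc c hc'
    · exact e' ▸ hR _ _ (hc b hb)
    · exact h4 b hb c hc' hne⟩
  rw [card_insert_of_notMem hn] at this
  omega

/-- At most `y` elements of a set, all of them if possible. -/
noncomputable def cap (y : ℕ) (T : Finset α) : Finset α := if T.card ≤ y then T else firstN y T

theorem cap_subset (y : ℕ) (T : Finset α) : cap y T ⊆ T := by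
  unfold cap; split_ifs
  · exact subset_rfl
  · exact firstN_subset _ _

theorem card_cap_le (y : ℕ) (T : Finset α) : (cap y T).card ≤ y := by
  unfold cap; split_ifs with h
  · exact h
  · exact card_firstN_le _ _

theorem cap_eq {y : ℕ} {T : Finset α} (h : T.card ≤ y) : cap y T = T := if_pos h

theorem card_cap {y : ℕ} {T : Finset α} (h : y < T.card) : (cap y T).card = y := by
  unfold cap; rw [if_neg (by omega)]; exact card_firstN h.le

theorem card_biUnion_le_mul {β : Type} [DecidableEq β] {T : Finset α} {f : α → Finset β} {a b : ℕ}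
    (h1 : T.card ≤ a) (h2 : ∀ t ∈ T, (f t).card ≤ b) : (T.biUnion f).card ≤ a * b :=
  card_biUnion_le.trans ((sum_le_card_nsmul _ _ b h2).trans (Nat.mul_le_mul_right _ h1))

end general

variable {S : Shape} {P : Par S}

noncomputable def both (A : Finset (IL P)) : Finset (IL P) := A ∪ A.image neg

theorem mem_both {A : Finset (IL P)} {z l : IL P} (hz : z ∈ A) (e : l.1 = z.1) : l ∈ both A := by
  rcases l with ⟨x, b⟩
  rcases z with ⟨x', b'⟩
  obtain rfl : x = x' := e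
  by_cases h : b = b'
  · exact mem_union_left _ (h ▸ hz)
  · exact mem_union_right _ (mem_image.2 ⟨_, hz, by cases b <;> cases b' <;> simp_all⟩)

theorem card_both (A : Finset (IL P)) : (both A).card ≤ 2 * A.card :=
  (card_union_le _ _).trans (by have := card_image_le (s := A) (f := neg); omega)

noncomputable def rowN (R : Finset (Fin P.nV)) : Finset (Node P) := univ.filter fun v => v.x ∈ R

@[simp] theorem mem_rowN {R : Finset (Fin P.nV)} {v : Node P} : v ∈ rowN R ↔ v.x ∈ R := by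
  simp [rowN]

/-- The number of nodes with a given row. -/
noncomputable def NR (P : Par S) : ℕ := Fintype.card (Pos S) * P.nEl ^ (S.nSlot + 3)

theorem card_rowN {R : Finset (Fin P.nV)} {y : ℕ} (h : R.card ≤ y) : (rowN R).card ≤ y * NR P := by
  refine (card_le_card_of_injOn (t := R ×ˢ univ)
    (fun v : Node P => (v.x, v.pos, v.sl, v.own, v.s0, v.s1)) (fun v hv => ?_) ?_).trans ?_
  · simpa using hv
  · intro v _ v' _ e
    simp only [Prod.mk.injEq] at e
    exact Node.ext e.2.1 e.2.2.1 e.2.2.2.1 e.2.2.2.2.1 e.2.2.2.2.2 e.1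
  · rw [card_product]
    refine Nat.mul_le_mul h (le_of_eq ?_)
    simp only [NR, card_univ, Fintype.card_prod, Fintype.card_pi, Fintype.card_fin, prod_const]
    ring

variable (k : Cst) (y : ℕ) (od : Ax P → List (Lit P)) (N : Finset (List (Lit P)))
  (Q : Finset (Node P))

open Classical in
noncomputable def TS2 : Finset (Node P) :=
  univ.filter fun v => ∃ C ∈ MA N, Touch v C ∧ ¬ ∀ l ∈ C, isG (some v) l

noncomputable def rcl (t : IL P × Option (Node P)) : Option (Fin P.nV) :=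
  match t.2 with
  | none => none
  | some v => if v ∈ Q then none else some v.x

def CR (t t' : IL P × Option (Node P)) : Prop :=
  t.1.1 ≠ t'.1.1 ∧ (rcl Q t = rcl Q t' → rcl Q t = none)

open Classical in
noncomputable def CT : Finset (IL P × Option (Node P)) :=
  mx (univ.filter fun t => Cl (MA N) t.1 t.2 ∧ t.1 ∉ IQ Q) (CR Q)

noncomputable def CZ : Finset (IL P) := (cap y (CT N Q)).image Prod.fst

noncomputable def CV : Finset (Node P) :=
  rowN ((cap y (CT N Q)).biUnion fun t => (rcl Q t).toFinset)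

open Classical in
noncomputable def Rows (L : List (Lit P)) : Finset (Fin P.nV) :=
  (univ.filter fun v : Node P => (Ax.leaf v).valid ∧ L <:+: od (.leaf v)).image Node.x

open Classical in
noncomputable def BF : Finset (List (Lit P)) := N.filter fun L => Orph L.toFinset ∧
  k.h ≤ (OI L.toFinset).card ∧ ∀ q ∈ Q, ¬ OI L.toFinset ⊆ Iv q

noncomputable def BD : Finset (List (Lit P)) :=
  mx (BF k N Q) fun L L' => Disjoint (Rows od L) (Rows od L')

noncomputable def BL : Finset (List (Lit P)) :=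
  (BF k N Q).filter fun L => ¬ Disjoint (Rows od L) ((cap y (BD k od N Q)).biUnion (Rows od))

noncomputable def FB : Finset (Node P) := (BL k y od N Q).biUnion fun L => Cont (OI L.toFinset)

open Classical in
noncomputable def SO (Y : Finset (IL P)) : Finset (Finset (IL P)) :=
  (((MA N).filter Orph).image OI).filter fun Z => Z.card ≤ k.h ∧ (∃ v, Z ⊆ Iv v) ∧
    (∀ q ∈ Q, ¬ Z ⊆ Iv q) ∧ Y ⊂ Z

noncomputable def PD (Y : Finset (IL P)) : Finset (Finset (IL P)) :=
  mx (SO k N Q Y) fun Z Z' => Disjoint ((Z \ Y).image Prod.fst) ((Z' \ Y).image Prod.fst)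

noncomputable def PU (Y : Finset (IL P)) : Finset (IL P) :=
  (cap y (PD k N Q Y)).biUnion fun Z => Z \ Y

noncomputable def Cores : Finset (Finset (IL P)) :=
  (range (k.h + 1)).biUnion (reach fun Y => both (PU k y N Q Y))

/-- The nodes suggested by a line. -/
noncomputable def FM2 : Finset (Node P) :=
  rowN (cap y ((TS2 N).image Node.x)) ∪ Heavy k.h (CZ y N Q) ∪ CV y N Q ∪ FB k y od N Q ∪
    (Cores k y N Q).biUnion fun Y => Heavy k.h (PU k y N Q Y)

/-- The items listed by a line. -/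
noncomputable def LM2 : Finset (Key S × Fin P.nEl) :=
  (both (CZ y N Q) ∪ (Cores k y N Q).biUnion id).image Prod.fst

/-- A bound for the number of cores. -/
def nc (h y : ℕ) : ℕ := (h + 1) * (2 * (y * h) + 1) ^ h

variable {k y od N Q}

theorem CT_spec : MxP (@filter _ (fun t => Cl (MA N) t.1 t.2 ∧ t.1 ∉ IQ Q)
    (fun _ => Classical.propDecidable _) univ) (CR Q) (CT N Q) := by
  have := mx_spec (@filter _ (fun t : IL P × Option (Node P) => Cl (MA N) t.1 t.2 ∧ t.1 ∉ IQ Q)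
    (fun _ => Classical.propDecidable _) univ) (R := CR Q)
    fun a b h => ⟨h.1.symm, fun e => e.trans (h.2 e.symm)⟩
  convert this using 1
  unfold CT
  congr

theorem CT_mem {t : IL P × Option (Node P)} (h : t ∈ CT N Q) :
    Cl (MA N) t.1 t.2 ∧ t.1 ∉ IQ Q := by simpa using CT_spec.1 h

theorem BD_spec : MxP (BF k N Q) (fun L L' => Disjoint (Rows od L) (Rows od L')) (BD k od N Q) :=
  mx_spec _ fun _ _ h => h.symm

theorem PD_spec {Y : Finset (IL P)} : MxP (SO k N Q Y)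
    (fun Z Z' => Disjoint ((Z \ Y).image Prod.fst) ((Z' \ Y).image Prod.fst)) (PD k N Q Y) :=
  mx_spec _ fun _ _ h => h.symm

theorem mem_SO {Y Z : Finset (IL P)} : Z ∈ SO k N Q Y ↔ (∃ C ∈ MA N, Orph C ∧ OI C = Z) ∧
    Z.card ≤ k.h ∧ (∃ v, Z ⊆ Iv v) ∧ (∀ q ∈ Q, ¬ Z ⊆ Iv q) ∧ Y ⊂ Z := by
  simp only [SO, mem_filter, mem_image, and_assoc]

theorem mem_BF {L : List (Lit P)} : L ∈ BF k N Q ↔ L ∈ N ∧ Orph L.toFinset ∧
    k.h ≤ (OI L.toFinset).card ∧ ∀ q ∈ Q, ¬ OI L.toFinset ⊆ Iv q := by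
  simp only [BF, mem_filter]

theorem mem_Rows {L : List (Lit P)} {r : Fin P.nV} :
    r ∈ Rows od L ↔ ∃ v : Node P, (Ax.leaf v).valid ∧ L <:+: od (.leaf v) ∧ v.x = r := by
  simp [Rows, and_assoc]

theorem card_CZ : (CZ y N Q).card ≤ y := card_image_le.trans (card_cap_le _ _)

theorem card_PU (Y : Finset (IL P)) : (PU k y N Q Y).card ≤ y * k.h :=
  card_biUnion_le_mul (card_cap_le _ _) fun _ hZ => (card_le_card sdiff_subset).trans
    (mem_SO.1 (PD_spec.1 (cap_subset _ _ hZ))).2.1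

theorem card_Cores : (Cores k y N Q).card ≤ nc k.h y :=
  card_biUnion_le_mul (card_range _).le fun i hi => (card_reach_le _ k.h (2 * (y * k.h) + 1)
    (fun Y _ => (card_both _).trans (by have := card_PU (k := k) (y := y) (N := N) (Q := Q) Y; omega))
    i (Nat.lt_succ_iff.1 (mem_range.1 hi))).trans
      (Nat.pow_le_pow_right (by omega) (Nat.lt_succ_iff.1 (mem_range.1 hi)))

theorem card_LM2 : (LM2 k y N Q).card ≤ 2 * y + nc k.h y * k.h := by
  refine card_image_le.trans ((card_union_le _ _).trans (add_le_add ((card_both _).trans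
    (Nat.mul_le_mul_left _ card_CZ)) (card_biUnion_le_mul card_Cores fun Y hY => ?_)))
  obtain ⟨i, hi, h⟩ := mem_biUnion.1 hY
  exact (reach_card _ i Y h).le.trans (Nat.lt_succ_iff.1 (mem_range.1 hi))

theorem length_leaf (ho : Ord od) {v : Node P} (hv : (Ax.leaf v).valid) :
    (od (.leaf v)).length ≤ Fintype.card (DL P) := by
  rw [← List.toFinset_card_of_nodup (ho _ hv).1]
  refine (card_le_card (t := univ.image (dl v)) fun l hl => ?_).trans card_image_le
  rcases mem_cl.1 (((ho _ hv).2 l).1 (List.mem_toFinset.1 hl)) with ⟨u, i, e, rfl⟩ | ⟨l', _, rfl⟩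
  · obtain rfl : v = u := by simpa [Ax.owner] using e
    exact mem_image.2 ⟨.inr i, mem_univ _, rfl⟩
  · exact mem_image.2 ⟨.inl l', mem_univ _, rfl⟩

theorem card_Rows (ho : Ord od) {KR : ℕ}
    (hR : ∀ Z : Finset (IL P), k.h ≤ Z.card → ((Cont Z).image Node.x).card ≤ KR)
    {L : List (Lit P)} (hL : L ∈ BF k N Q) : (Rows od L).card ≤ KR := by
  refine (card_le_card fun r hr => ?_).trans (hR _ (mem_BF.1 hL).2.2.1)
  obtain ⟨v, h1, ⟨pre, post, e⟩, rfl⟩ := mem_Rows.1 hr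
  exact mem_image_of_mem _ (mem_Cont.2 fun l hl =>
    mem_Iv.2 (il_mem_leaf.1 (seg_sub ho h1 e.symm (mem_OI.1 hl))))

theorem card_FM2 (ho : Ord od) {Nh KR : ℕ}
    (hN : ∀ Z : Finset (IL P), k.h ≤ Z.card → (Cont Z).card ≤ Nh)
    (hR : ∀ Z : Finset (IL P), k.h ≤ Z.card → ((Cont Z).image Node.x).card ≤ KR) :
    (FM2 k y od N Q).card ≤ y * NR P + y ^ k.h * Nh + y * NR P +
      y * KR * NR P * (Fintype.card (DL P) + 1) ^ 2 * Nh + nc k.h y * ((y * k.h) ^ k.h * Nh) := by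
  classical
  refine (card_union_le _ _).trans (add_le_add ((card_union_le _ _).trans (add_le_add
    ((card_union_le _ _).trans (add_le_add ((card_union_le _ _).trans (add_le_add
      (card_rowN (card_cap_le _ _)) (card_Heavy hN card_CZ))) (card_rowN ?_))) ?_))
    (card_biUnion_le_mul card_Cores fun Y _ => card_Heavy hN (card_PU Y)))
  · simpa using card_biUnion_le_mul (f := fun t => (rcl Q t).toFinset) (b := 1)
      (card_cap_le y (CT N Q)) fun t _ => by cases rcl Q t <;> simp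
  refine card_biUnion_le_mul ?_ fun L hL => hN _ (mem_BF.1 (mem_filter.1 hL).1).2.2.1
  refine (card_le_card (t := (rowN ((cap y (BD k od N Q)).biUnion (Rows od))).biUnion fun v =>
    (range (Fintype.card (DL P) + 1) ×ˢ range (Fintype.card (DL P) + 1)).image
      fun q => ((od (.leaf v)).drop q.1).take q.2) fun L hL => ?_).trans
    (card_biUnion_le_mul (card_rowN (card_biUnion_le_mul (card_cap_le _ _) fun L hL =>
      card_Rows ho hR (BD_spec.1 (cap_subset _ _ hL)))) fun v _ =>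
        card_image_le.trans (by simp [sq]))
  obtain ⟨r, h1, h2⟩ := not_disjoint_iff.1 (mem_filter.1 hL).2
  obtain ⟨v, h3, ⟨pre, post, e⟩, rfl⟩ := mem_Rows.1 h1
  have := length_leaf ho h3
  rw [← e, List.length_append, List.length_append] at this
  exact mem_biUnion.2 ⟨v, mem_rowN.2 h2, mem_image.2 ⟨(pre.length, L.length),
    by simp only [mem_product, mem_range]; omega, by simp [← e]⟩⟩

variable {B : ℕ}

/-- The coins of a node are those of its row. -/
def co (η : Fin P.nV → Fin (B + 2) × Bool) : Option (Node P) → Fin (B + 2) × Bool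
  | none => (0, false)
  | some v => η v.x

open Classical in
noncomputable def PG (W : World P) (k : Cst) (y : ℕ) (N : Finset (List (Lit P)))
    (Q : Finset (Node P)) (Y : Finset (IL P)) : Finset (Finset (IL P)) :=
  (cap y (PD k N Q Y)).filter fun Z => ¬ ∃ p, Z ⊆ Iv (W.node p)

def Burnt2 (W : World P) (X : Finset (IL P)) (Q : Finset (Node P)) (R' : Finset (RP S)) : Prop :=
  ∀ p ∈ R', W.rn p ∉ Q ∧ ∃ l, memI (W.rn p) l ∧ ¬ W.sel l ∧ neg l ∈ X

variable {W : World P} {η : Fin P.nV → Fin (B + 2) × Bool}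

theorem petals (hW : W.Fine) (hO : Ok W (co η) od N) {m : ℕ}
    (hm : m + Fintype.card (Pos S) * k.h < y) {Y : Finset (IL P)} (hY : ∀ z ∈ Y, W.FI z)
    (hH : ∀ v ∈ Heavy k.h (PU k y N Q Y), W.pool v → v ∈ Q) (hc : y < (PD k N Q Y).card) :
    m ≤ (PG W k y N Q Y).card ∧ ∀ Z ∈ PG W k y N Q Y, ∃ z ∈ Z \ Y, W.β z.1 = z.2 := by
  classical
  have hso : ∀ Z ∈ cap y (PD k N Q Y), Z ∈ SO k N Q Y := fun Z h => PD_spec.1 (cap_subset _ _ h)
  constructor
  · rcases isEmpty_or_nonempty (IL P) with he | he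
    · have h1 := card_cap hc
      obtain ⟨Z, hZ⟩ := card_pos.1 (show 0 < (cap y (PD k N Q Y)).card by omega)
      obtain ⟨z, -⟩ := exists_of_ssubset (mem_SO.1 (hso Z hZ)).2.2.2.2
      exact he.elim z
    choose! rep r1 r2 using fun Z (hZ : Z ∈ cap y (PD k N Q Y)) =>
      exists_of_ssubset (mem_SO.1 (hso Z hZ)).2.2.2.2
    have hinj : Set.InjOn rep (cap y (PD k N Q Y)) := fun Z hZ Z' hZ' e => by
      by_contra hne
      exact disjoint_left.1 (PD_spec.2.1 Z (cap_subset _ _ hZ) Z' (cap_subset _ _ hZ') hne)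
        (mem_image_of_mem Prod.fst (mem_sdiff.2 ⟨r1 Z hZ, r2 Z hZ⟩))
        (e ▸ mem_image_of_mem Prod.fst (mem_sdiff.2 ⟨r1 Z' hZ', r2 Z' hZ'⟩))
    by_contra hn
    obtain ⟨p, hp, h⟩ := exists_heavy ((cap y (PD k N Q Y)).image rep)
      ((PG W k y N Q Y).image rep) (univ.filter fun p => W.node p ∉ Q) (fun p => Iv (W.node p))
      k.h (by
        intro l hl
        obtain ⟨Z, hZ, rfl⟩ := mem_image.1 hl
        by_cases c : ∃ p, Z ⊆ Iv (W.node p)
        · obtain ⟨p, c⟩ := c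
          exact Or.inr ⟨p, mem_filter.2 ⟨mem_univ _, fun d =>
            (mem_SO.1 (hso Z hZ)).2.2.2.1 _ d c⟩, c (r1 Z hZ)⟩
        · exact Or.inl (mem_image_of_mem _ (mem_filter.2 ⟨hZ, c⟩))) (by
        rw [card_image_of_injOn hinj, card_cap hc]
        have a1 := card_image_le (s := PG W k y N Q Y) (f := rep)
        have a2 := Nat.mul_le_mul_right k.h (card_le_univ (univ.filter fun p => W.node p ∉ Q))
        omega)
    refine (mem_filter.1 hp).2 (hH _ (mem_Heavy.2 (h.trans (card_le_card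
      (inter_subset_inter_left fun l hl => ?_)))) (W.pool_node p))
    obtain ⟨Z, hZ, rfl⟩ := mem_image.1 hl
    exact mem_biUnion.2 ⟨Z, hZ, mem_sdiff.2 ⟨r1 Z hZ, r2 Z hZ⟩⟩
  · intro Z hZ
    obtain ⟨h1, h2⟩ := mem_filter.1 hZ
    obtain ⟨⟨C, hC, ho, rfl⟩, -⟩ := mem_SO.1 (hso Z h1)
    obtain ⟨L, hL, rfl⟩ := mem_MA.1 hC
    rcases hO.cases hL with c | c
    · obtain ⟨v, hv, h3⟩ := orph_pool hW (hO.j1 _ c.1) ho
      exact absurd ⟨v.pos, fun l hl => mem_Iv.2 ((show v = _ from hv) ▸ h3 l (mem_OI.1 hl))⟩ h2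
    · obtain ⟨t, c1, c2⟩ := c.nf
      obtain ⟨z, rfl⟩ := ho.2 t (List.mem_toFinset.2 c1)
      exact ⟨z, mem_sdiff.2 ⟨mem_OI.2 (List.mem_toFinset.2 c1), fun d => c2 (hY z d)⟩,
        not_not.1 fun d => c2 (Or.inl d)⟩

theorem concl_of2 (hW : W.Fine) (ho : Ord od) (h1 : 1 ≤ k.h) (hO : Ok W (co η) od N)
    (hQ : Closure W k (FM2 k y od N) (LM2 k y N) Q) (hx : 2 * y ≤ k.x) {m : ℕ}
    (hm : m + Fintype.card (Pos S) * k.h < y)
    (hL : ¬ (y < (CT N Q).card ∧ ∀ v, W.pool v → v ∉ Heavy k.h (CZ y N Q)))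
    (hT : ((TS2 N).image Node.x).card ≤ y)
    (hBig : ¬ (y < (BD k od N Q).card ∧ ∀ L ∈ cap y (BD k od N Q), ∃ r ∈ Rows od L, (η r).1 = 0))
    (hP : ∀ Y ∈ Cores k y N Q, ¬ (m ≤ (PG W k y N Q Y).card ∧
      ∀ Z ∈ PG W k y N Q Y, ∃ z ∈ Z \ Y, W.β z.1 = z.2))
    (hB : ∀ R', R'.card = k.r + 1 → ¬ Burnt2 W (both (CZ y N Q)) Q R') :
    ∃ J, Concl W k (MN W N) Q J := by
  classical
  have hcl := hQ.closed
  simp only [FM2, mem_union] at hcl
  have hCT : (CT N Q).card ≤ y := by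
    by_contra hn
    refine hL ⟨by omega, fun v hv hH => ?_⟩
    obtain ⟨l, hl⟩ := card_pos.1 (lt_of_lt_of_le h1 (mem_Heavy.1 hH))
    obtain ⟨t, ht, rfl⟩ := mem_image.1 (mem_inter.1 hl).2
    exact (CT_mem (cap_subset _ _ ht)).2 (mem_IQ.2 ⟨v, hcl v (by tauto) hv,
      mem_Iv.1 (mem_inter.1 hl).1⟩)
  have hX : ∀ l, Ycl (MN W N) l → l ∉ IQ Q → l ∈ both (CZ y N Q) := by
    intro l hY hl
    obtain ⟨src, c1, c2⟩ := cl_of_Ycl hW hO hY
    have hz : ∀ t ∈ CT N Q, t.1 ∈ CZ y N Q := fun t ht =>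
      mem_image_of_mem _ ((cap_eq hCT).symm ▸ ht)
    by_cases c3 : (l, src) ∈ CT N Q
    · exact mem_both (hz _ c3) rfl
    obtain ⟨t, ht, c4⟩ := CT_spec.2.2 (l, src)
      ((@mem_filter _ _ (fun _ => Classical.propDecidable _) _ _).2 ⟨mem_univ _, c1, hl⟩) c3
    by_cases c5 : l.1 = t.1.1
    · exact mem_both (hz _ ht) c5
    exfalso
    refine c4 ⟨c5, fun e => ?_⟩
    rcases src with _ | v
    · rfl
    refine if_pos (not_not.1 fun hv => hv (hcl v (Or.inl (Or.inl (Or.inr (mem_rowN.2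
      (mem_biUnion.2 ⟨t, (cap_eq hCT).symm ▸ ht, ?_⟩))))) c2))
    rw [← e]
    simp [rcl, hv]
  have hrow : ∀ L ∈ BF k N Q, (Rows od L).Nonempty := by
    intro L hL
    obtain ⟨a, ha, pre, post, e⟩ := (hO.seg L (mem_BF.1 hL).1).2.1
    obtain ⟨v, rfl⟩ := leaf_of_orph (seg_sub ho ha e.symm) (mem_BF.1 hL).2.1
    exact ⟨_, mem_Rows.2 ⟨v, ha, ⟨pre, post, e⟩, rfl⟩⟩
  have hBL : ∀ L ∈ BL k y od N Q, L.toFinset ∉ MN W N := by
    intro L hL hC
    obtain ⟨-, c1, -, c2⟩ := mem_BF.1 (mem_filter.1 hL).1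
    obtain ⟨v, hv, c3⟩ := orph_pool hW (hO.j1 _ hC) c1
    have c4 : OI L.toFinset ⊆ Iv v := fun l hl => mem_Iv.2 (c3 l (mem_OI.1 hl))
    exact c2 v (hcl v (Or.inl (Or.inr (mem_biUnion.2 ⟨L, hL, mem_Cont.2 c4⟩))) hv) c4
  have hcapB : ∀ L ∈ cap y (BD k od N Q), L ∈ BL k y od N Q := by
    intro L hL
    have c1 := BD_spec.1 (cap_subset _ _ hL)
    obtain ⟨r, hr⟩ := hrow L c1
    exact mem_filter.2 ⟨c1, not_disjoint_iff.2 ⟨r, hr, mem_biUnion.2 ⟨L, hL, hr⟩⟩⟩
  have hBD : (BD k od N Q).card ≤ y := by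
    by_contra hn
    refine hBig ⟨by omega, fun L hL => ?_⟩
    obtain ⟨c1, c2, -⟩ := mem_BF.1 (BD_spec.1 (cap_subset _ _ hL))
    obtain ⟨v, d1, d2, d3⟩ := acc_orph ho hW ((hO.cases c1).resolve_left
      fun c => hBL L (hcapB L hL) c.1) c2
    exact ⟨v.x, mem_Rows.2 ⟨v, d1, d2, rfl⟩, d3⟩
  have horph : ∀ C ∈ MN W N, Orph C → (∀ q ∈ Q, ¬ OI C ⊆ Iv q) → OI C ∈ Cores k y N Q := by
    intro C hC hor hq
    have hsz : (OI C).card ≤ k.h := by
      by_contra hn
      obtain ⟨L, c1, -, rfl⟩ := mem_MN.1 hC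
      have c2 : L ∈ BF k N Q := mem_BF.2 ⟨c1, hor, by omega, hq⟩
      by_cases c3 : L ∈ BD k od N Q
      · exact hBL L (hcapB L ((cap_eq hBD).symm ▸ c3)) hC
      obtain ⟨L', c4, c5⟩ := BD_spec.2.2 L c2 c3
      obtain ⟨r, c6, c7⟩ := not_disjoint_iff.1 c5
      exact hBL L (mem_filter.2 ⟨c2, not_disjoint_iff.2 ⟨r, c6, mem_biUnion.2
        ⟨L', (cap_eq hBD).symm ▸ c4, c7⟩⟩⟩) hC
    obtain ⟨v, -, hv⟩ := orph_pool hW (hO.j1 _ hC) hor
    have key : ∀ i ≤ (OI C).card, ∃ Y ∈ reach (fun Y => both (PU k y N Q Y)) i, Y ⊆ OI C := by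
      intro i
      induction i with
      | zero => exact fun _ => ⟨∅, by simp [reach], empty_subset _⟩
      | succ i ih =>
        intro hi
        obtain ⟨Y, c1, c2⟩ := ih (by omega)
        have c3 : Y ∈ Cores k y N Q := mem_biUnion.2 ⟨i, mem_range.2 (by omega), c1⟩
        have c4 : Y ⊂ OI C := Finset.ssubset_iff_subset_ne.2 ⟨c2, fun e => by
          have := reach_card _ i Y c1
          rw [e] at this; omega⟩
        have c5 : (PD k N Q Y).card ≤ y := not_lt.1 fun c => hP Y c3 (petals hW hO hm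
          (fun z hz => allF_of_MN hC hor.1 (il z) (mem_OI.1 (c2 hz)))
          (fun u hu => hcl u (Or.inr (mem_biUnion.2 ⟨Y, c3, hu⟩))) c)
        have c6 : OI C ∈ SO k N Q Y := mem_SO.2 ⟨⟨C, MN_sub hC, hor, rfl⟩, hsz,
          ⟨v, fun l hl => mem_Iv.2 (hv l (mem_OI.1 hl))⟩, hq, c4⟩
        obtain ⟨z, d1, d2⟩ : ∃ z ∈ OI C \ Y, z ∈ both (PU k y N Q Y) := by
          by_cases c7 : OI C ∈ PD k N Q Y
          · obtain ⟨z, d1, d2⟩ := exists_of_ssubset c4
            exact ⟨z, mem_sdiff.2 ⟨d1, d2⟩, mem_both (mem_biUnion.2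
              ⟨_, (cap_eq c5).symm ▸ c7, mem_sdiff.2 ⟨d1, d2⟩⟩) rfl⟩
          · obtain ⟨Z, d1, d2⟩ := PD_spec.2.2 _ c6 c7
            obtain ⟨x, d3, d4⟩ := not_disjoint_iff.1 d2
            obtain ⟨z, d5, rfl⟩ := mem_image.1 d3
            obtain ⟨z', d6, e⟩ := mem_image.1 d4
            exact ⟨z, d5, mem_both (mem_biUnion.2 ⟨Z, (cap_eq c5).symm ▸ d1, d6⟩) e.symm⟩
        exact ⟨insert z Y, mem_biUnion.2 ⟨Y, c1, mem_image.2
          ⟨z, mem_sdiff.2 ⟨d2, (mem_sdiff.1 d1).2⟩, rfl⟩⟩, insert_subset (mem_sdiff.1 d1).1 c2⟩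
    obtain ⟨Y, c1, c2⟩ := key _ le_rfl
    rw [← eq_of_subset_of_card_le c2 (reach_card _ _ Y c1).ge]
    exact mem_biUnion.2 ⟨_, mem_range.2 (by omega), c1⟩
  have hJm : ∀ l : IL P, l ∈ both (CZ y N Q) ∪ (Cores k y N Q).biUnion id → W.sel l →
      l.1.1 ∈ ((LM2 k y N Q).filter (fun t => W.ζ t.1 = t.2)).image Prod.fst := fun l hl hs =>
    mem_image_of_mem _ (mem_filter.2 ⟨mem_image_of_mem _ hl, hs.symm⟩)
  refine ⟨((LM2 k y N Q).filter (fun t => W.ζ t.1 = t.2)).image Prod.fst, hQ.pool, hQ.card,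
    card_image_le.trans hQ.few.le, ?_, ?_, fun l hY hs => ?_, ?_, ?_⟩
  · intro v hv C hC ht
    refine hcl v (Or.inl (Or.inl (Or.inl (Or.inl (mem_rowN.2 ?_))))) hv
    rw [cap_eq hT]
    exact mem_image_of_mem _ (mem_filter.2 ⟨mem_univ _, C, MN_sub hC, ht, hO.tg v hv C hC ht⟩)
  · refine (card_le_card fun l hl => hX l (mem_Yv.1 (mem_sdiff.1 hl).1) (mem_sdiff.1 hl).2).trans
      ((card_both _).trans ((Nat.mul_le_mul_left _ card_CZ).trans hx))
  · exact or_iff_not_imp_right.2 fun h => hJm l (mem_union_left _ (hX l hY h)) hs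
  · intro Λ hs _ hh
    refine ⟨Λ.filter (fun l => l ∈ (Cores k y N Q).biUnion id ∨ l ∈ IQ Q), filter_subset _ _,
      fun l hl => (mem_filter.1 hl).2.imp (fun h => hJm l (mem_union_right _ h)
        (hs l (mem_filter.1 hl).1)) id, fun C hC hor => ?_⟩
    obtain ⟨l, c1, c2⟩ := hh C hC hor
    refine ⟨l, mem_filter.2 ⟨c1, ?_⟩, c2⟩
    by_cases hq : ∀ q ∈ Q, ¬ OI C ⊆ Iv q
    · exact Or.inl (mem_biUnion.2 ⟨_, horph C hC hor hq, mem_OI.2 c2⟩)
    · push Not at hq
      obtain ⟨q, c3, c4⟩ := hq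
      exact Or.inr (mem_IQ.2 ⟨q, c3, mem_Iv.1 (c4 (mem_OI.2 c2))⟩)
  · intro R' hR'
    by_contra hn
    obtain ⟨R2, h2, h3⟩ := exists_subset_card_eq (show k.r + 1 ≤ R'.card by omega)
    refine hB R2 h3 fun p hp => ?_
    obtain ⟨h4, l, h5, h6, h7, h8⟩ := hR' p (h2 hp)
    exact ⟨h4, l, h5, h6, hX _ h7 h8⟩

end Pool.Agent.Lib.MP_a300b0_lc
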