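import Pool.Agent.Lib.MP_a300b0_lc.LKDefs

/-! Clause sets written as formulas: every order of the literals and every bracketing. -/

namespace Pool.Agent.Lib.MP_a300b0_lc

variable {V : Type}

/-- `A` is a binary disjunction, with any bracketing, whose leaves from left to right are the
literals of the list `L`. -/
inductive IsDisj : Fm V → List (V × Bool) → Prop
  | lit (l : V × Bool) : IsDisj (litFm l) [l]
  | or {A B : Fm V} {L M : List (V × Bool)} : IsDisj A L → IsDisj B M → IsDisj (.or A B) (L ++ M)

/-- `A` is a binary conjunction, with any bracketing, of disjunctions whose lists of leaves form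
the set `T`. -/
inductive IsConj : Fm V → Set (List (V × Bool)) → Prop
  | disj {A : Fm V} {L : List (V × Bool)} : IsDisj A L → IsConj A {L}
  | and {A B : Fm V} {T U : Set (List (V × Bool))} :
      IsConj A T → IsConj B U → IsConj (.and A B) (T ∪ U)

/-- The list `Γ` writes the clause set `S`: each clause `C` of `S` has a list `ord C` of its
literals without repetition, and `Γ` consists of conjunctions of disjunctions whose lists of
leaves are exactly the lists `ord C`. -/
def Writes [DecidableEq V] (Γ : List (Fm V)) (S : Finset (Finset (V × Bool))) : Prop :=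
  ∃ ord : Finset (V × Bool) → List (V × Bool),
    (∀ C ∈ S, (ord C).Nodup ∧ (ord C).toFinset = C) ∧
    (∀ A ∈ Γ, ∃ T, IsConj A T ∧ ∀ L ∈ T, ∃ C ∈ S, L = ord C) ∧
    ∀ C ∈ S, ∃ A ∈ Γ, ∃ T, IsConj A T ∧ ord C ∈ T

end Pool.Agent.Lib.MP_a300b0_lc
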