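import Pool.Agent.Lib.MP_a300b0_lc.BSys

/-! The adversary for refutations that split lists. -/

namespace Pool.Agent.Lib.MP_a300b0_lc

open Finset

variable {S : Shape} {P : Par S} {W : World P} {k : Cst} {s : St P}

/-! ### Splitting a clause all of whose literals may be false -/

theorem pick {M : Finset (Finset (Lit P))} (h : Inv W k s M) {D : Finset (Lit P)} {a : Ax P}
    (ha : a.valid) (hs : D ⊆ a.cl) (hF : ∀ l ∈ a.cl, W.F l) {t : Lit P} (ht : t ∈ D)
    (hT : T W s t) (hE : ∀ v, isE v t → ¬ Pend W s v) (hO : 2 ≤ D.card → OK W s a D)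
    (horph : Orph D → ∃ t', TI W s t' ∧ W.sel t' ∧ il t' ∈ D)
    (hram : ∀ o ∈ s.R, ∀ u, Ext o u → AllG (W.rn u) D → Ram W k s o u D) :
    Inv W k (s.sat W) (insert D M) where
  wf := h.wf.sat
  cls := by
    intro C hC
    rcases mem_insert.1 hC with rfl | hC
    · by_cases hc : 2 ≤ C.card
      · exact Or.inr ⟨hc, a, ha, hs, fun l hl _ => hF l hl, hO hc⟩
      · exact Or.inl ⟨t, eq_singleton_iff_unique_mem.2
          ⟨ht, fun x hx => card_le_one.1 (by omega) x hx t ht⟩, UnitOK.sat h.wf hT hE⟩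
    · exact h.sat.cls C hC
  orph := by
    intro C hC ho
    rcases mem_insert.1 hC with rfl | hC
    · obtain ⟨t', h1, h2⟩ := horph ho
      exact ⟨t', mem_sat.2 h1, h2⟩
    · exact h.sat.orph C hC ho
  ram := by
    intro o ho u hu C hC hG
    rcases mem_insert.1 hC with rfl | hC
    · exact hram o ho u hu hG
    · exact h.ram o ho u hu C hC hG

theorem pool_of_allF (hW : W.Fine) {a : Ax P} (hF : ∀ l ∈ a.cl, W.F l) : W.poolO a.owner := by
  by_contra hn
  obtain ⟨v, i, h, _⟩ := nonpool_guard (C := ∅) hW (fun l hl _ => hF l hl) hn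
  exact notMem_empty _ h

theorem split_wit (hW : W.Fine) (hf : Fit S k) {M : Finset (Finset (Lit P))} (h : Inv W k s M)
    (hg : Good W k M) {C : Finset (Lit P)} (hC : C ∈ M) (h2 : 2 ≤ C.card)
    (hall : ∀ l ∈ C, W.F l) : ∃ (s' : St P) (a : Ax P) (t : Lit P), Inv W k s' M ∧ a.valid ∧
      C ⊆ a.cl ∧ (∀ l ∈ a.cl, W.F l) ∧ t ∈ C ∧ T W s' t ∧ (∀ v, isE v t → ¬ Pend W s' v) ∧
      ∀ D ⊆ C, t ∈ D → (2 ≤ D.card → OK W s' a D) ∧
        (Orph D → ∃ t', TI W s' t' ∧ W.sel t' ∧ il t' ∈ D) := by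
  have big : ∀ s, Inv W k s M → ∃ a : Ax P, a.valid ∧ C ⊆ a.cl ∧ (∀ l ∈ a.cl, W.F l) ∧
      OK W s a C := by
    intro s h
    rcases h.cls C hC with ⟨t, rfl, _⟩ | ⟨_, a, ha, hs, hF, hOK⟩
    · simp at h2
    · exact ⟨a, ha, hs, fun l hl => (em (l ∈ C)).elim (hall l) (hF l hl), hOK⟩
  obtain ⟨a, ha, hs, hF, -⟩ := big s h
  by_cases ho : Orph C
  · obtain ⟨t, h1, h3, h4⟩ := h.orph C hC ho
    refine ⟨s, a, il t, h, ha, hs, hF, h4, h.wf.ktrue t h1, ?_, fun D hD ht =>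
      ⟨fun hc => Or.inl ⟨hc, fun x hx => ho.2 x (hD hx)⟩, fun _ => ⟨t, h.wf.ktrue t h1, h3, ht⟩⟩⟩
    rintro v ⟨b, w, h6⟩
    simp [il] at h6
  obtain ⟨l, hl, hown⟩ := owned_of_not_orph hs h2 ho
  obtain ⟨s', h', hfr⟩ := exists_free hW hf h hg l
  obtain ⟨a', ha', hs', hF', hOK⟩ := big s' h'
  have hp : ¬ Pend W s' a'.owner := by
    rw [owner_of_owned hs' ⟨l, hl, hown⟩]; exact hfr _ hown
  have hv := pool_of_allF hW hF'
  have hw : Wit W s' a' C := by
    rcases hOK with h3 | h3 | h3 | h3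
    exacts [absurd h3 ho, absurd hv h3, absurd h3.1 hp, h3.2.2]
  obtain ⟨t, h1, h3, h4⟩ := wit_keep hW h'.wf ha' hv hp hw
  refine ⟨s', a', t, h', ha', hs', hF', h1, h3, fun v hE => ?_, fun D hD ht =>
    ⟨fun _ => Or.inr (Or.inr (Or.inr ⟨hv, hp, h4 D ht⟩)), fun hoD => ?_⟩⟩
  · rw [← owner_of_isE (hs' h1) hE]; exact hp
  · obtain ⟨v, rfl⟩ := leaf_of_orph (hD.trans hs') hoD
    obtain ⟨t', h6, h7⟩ := h4 D ht
    exact ⟨t', (leafWit_true h6).1, (leafWit_true h6).2, h7⟩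

theorem split_ok (hW : W.Fine) (hf : Fit S k) {M : Finset (Finset (Lit P))} (h : Inv W k s M)
    (hg : Good W k M) {C1 C2 : Finset (Lit P)} (hC : C1 ∪ C2 ∈ M) (h2 : 2 ≤ (C1 ∪ C2).card)
    (hd : Disjoint C1 C2) (hall : ∀ l ∈ C1 ∪ C2, W.F l) :
    (∃ s', Inv W k s' (insert C1 M)) ∨ ∃ s', Inv W k s' (insert C2 M) := by
  obtain ⟨s', a, t, h', ha, hs, hF, ht, hT, hE, hD⟩ := split_wit hW hf h hg hC h2 hall
  have key : ∀ C1 C2 : Finset (Lit P), C1 ∪ C2 ∈ M → C1 ∪ C2 ⊆ a.cl → Disjoint C1 C2 → t ∈ C1 →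
      ((2 ≤ C1.card → OK W s' a C1) ∧ (Orph C1 → ∃ t', TI W s' t' ∧ W.sel t' ∧ il t' ∈ C1)) →
      (∃ s', Inv W k s' (insert C1 M)) ∨ ∃ s', Inv W k s' (insert C2 M) := by
    intro C1 C2 hC hs hd ht hD
    by_cases hr : ∀ o ∈ s'.R, ∀ u, Ext o u → AllG (W.rn u) C1 → Ram W k s' o u C1
    · exact Or.inl ⟨_, pick h' ha (subset_union_left.trans hs) hF ht hT hE hD.1 hD.2 hr⟩
    right
    push Not at hr
    obtain ⟨o, ho, u, hu, hG, hr⟩ := hr
    have hn := hW.nG
    have g0 : (Var.guard (W.rn u) ⟨0, by omega⟩, false) ∈ a.cl := hs (mem_union_left _ (hG _))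
    obtain rfl := eq_leaf ha (owner_of_isG g0 ⟨_, _, rfl, rfl⟩) (by rw [dep_rn, hu.1])
    have hit : ∀ l ∈ C2, ∃ l', l = il l' := by
      intro l hl
      rcases mem_cl.1 (hs (mem_union_right _ hl)) with ⟨v, i, e, rfl⟩ | ⟨l', _, e⟩
      · obtain rfl : W.rn u = v := by simpa [Ax.owner] using e
        exact absurd hl (disjoint_left.1 hd (hG i))
      · exact ⟨l', e⟩
    rcases h'.ram o ho u hu _ hC (fun i => mem_union_left _ (hG i)) with
      ⟨j, h1, h3, h4⟩ | ⟨A, Ex, h1, h3, h4, h5, h6⟩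
    · have h5 : il (W.zl o j) ∈ C2 :=
        (mem_union.1 h4).resolve_left fun h5 => hr (Or.inl ⟨j, h1, h3, h5⟩)
      have h6 : TI W s' (W.zl o j) := TI_key.2 (Or.inl h3)
      refine ⟨_, pick h' ha (subset_union_right.trans hs) hF h5 h6 ?_
        (fun hc => Or.inl ⟨hc, hit⟩) (fun _ => ⟨_, h6, rfl, h5⟩) (fun o' _ u' _ hG' => ?_)⟩
      · rintro v ⟨b, w, h7⟩
        simp [il] at h7
      · obtain ⟨l', e⟩ := hit _ (hG' ⟨0, by omega⟩)
        simp [il] at e
    · refine absurd (Or.inr ⟨A, Ex, h1, h3, h4, h5, fun j => (h6 j).imp id (fun h => h.mono ?_)⟩) hr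
      intro z hz
      rw [mem_Zc] at hz ⊢
      exact ⟨hz.1, fun h => hz.2 (mem_union_left _ h)⟩
  rcases mem_union.1 ht with h1 | h1
  · exact key C1 C2 hC hs hd h1 (hD _ subset_union_left h1)
  · exact (key C2 C1 (union_comm C1 C2 ▸ hC) (union_comm C1 C2 ▸ hs) hd.symm h1
      (hD _ subset_union_right h1)).symm

/-! ### Lists with a literal that is never false -/

variable {B : ℕ}

/-- Preferred literals of an axiom. -/
def Pref : Ax P → Lit P → Prop
  | .leaf v, t => isG (some v) t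
  | a, t => isE a.owner t

/-- The literals among which the adversary chooses. -/
def Cand (W : World P) (η : Option (Node P) → Fin (B + 2) × Bool) (a : Ax P) (t : Lit P) : Prop :=
  ¬ W.F t ∧ ((η a.owner).1 = 0 ∨ Pref a t ∨ ∀ t' ∈ a.cl, Pref a t' → W.F t')

/-- The list contains the first or the last candidate of an axiom. -/
def Acc (W : World P) (η : Option (Node P) → Fin (B + 2) × Bool) (od : Ax P → List (Lit P))
    (L : List (Lit P)) : Prop :=
  ∃ a : Ax P, a.valid ∧ ∃ pre post, od a = pre ++ L ++ post ∧ (∃ t ∈ L, Cand W η a t) ∧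
    ((η a.owner).2 = false → ∀ t ∈ pre, ¬ Cand W η a t) ∧
    ((η a.owner).2 = true → ∀ t ∈ post, ¬ Cand W η a t)

/-- The orders of the literals of the axioms. -/
def Ord (od : Ax P → List (Lit P)) : Prop :=
  ∀ a : Ax P, a.valid → (od a).Nodup ∧ ∀ l, l ∈ od a ↔ l ∈ a.cl

variable {η : Option (Node P) → Fin (B + 2) × Bool} {od : Ax P → List (Lit P)}

theorem Acc.split {L1 L2 : List (Lit P)} (h : Acc W η od (L1 ++ L2)) :
    Acc W η od L1 ∨ Acc W η od L2 := by
  obtain ⟨a, ha, pre, post, e, ⟨t, h1, h2⟩, h3, h4⟩ := h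
  have left : (∃ t ∈ L1, Cand W η a t) → ((η a.owner).2 = true → ∀ t ∈ L2, ¬ Cand W η a t) →
      Acc W η od L1 := fun c1 c2 =>
    ⟨a, ha, pre, L2 ++ post, by simp [e], c1, h3, fun c t ht =>
      (List.mem_append.1 ht).elim (c2 c t) (h4 c t)⟩
  have right : (∃ t ∈ L2, Cand W η a t) → ((η a.owner).2 = false → ∀ t ∈ L1, ¬ Cand W η a t) →
      Acc W η od L2 := fun c1 c2 =>
    ⟨a, ha, pre ++ L1, post, by simp [e], c1, fun c t ht =>
      (List.mem_append.1 ht).elim (h3 c t) (c2 c t), h4⟩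
  by_cases c1 : ∃ t ∈ L1, Cand W η a t <;> by_cases c2 : ∃ t ∈ L2, Cand W η a t
  · cases hb : (η a.owner).2
    · exact Or.inl (left c1 (by simp [hb]))
    · exact Or.inr (right c2 (by simp [hb]))
  · exact Or.inl (left c1 fun _ t ht h => c2 ⟨t, ht, h⟩)
  · exact Or.inr (right c2 fun _ t ht h => c1 ⟨t, ht, h⟩)
  · exact ((List.mem_append.1 h1).elim (fun h => c1 ⟨t, h, h2⟩) fun h => c2 ⟨t, h, h2⟩).elim

theorem acc_init (ho : Ord od) {a : Ax P} (ha : a.valid) (h : ∃ t ∈ od a, ¬ W.F t) :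
    Acc W η od (od a) := by
  refine ⟨a, ha, [], [], by simp, ?_, by simp, by simp⟩
  by_cases hp : ∀ t' ∈ a.cl, Pref a t' → W.F t'
  · obtain ⟨t, h1, h2⟩ := h
    exact ⟨t, h1, h2, Or.inr (Or.inr hp)⟩
  · push Not at hp
    obtain ⟨t, h1, h2, h3⟩ := hp
    exact ⟨t, ((ho a ha).2 t).2 h1, h3, Or.inr (Or.inl h2)⟩

theorem Acc.nf {L : List (Lit P)} (h : Acc W η od L) : ∃ t ∈ L, ¬ W.F t := by
  obtain ⟨_, _, _, _, _, ⟨t, h1, h2⟩, _⟩ := h
  exact ⟨t, h1, h2.1⟩

open Classical in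
/-- The clauses of a line that the adversary has to watch. -/
noncomputable def MN (W : World P) (N : Finset (List (Lit P))) : Finset (Finset (Lit P)) :=
  (N.filter fun L => L.length = 1 ∨ ∀ t ∈ L, W.F t).image List.toFinset

theorem mem_MN {N : Finset (List (Lit P))} {C : Finset (Lit P)} :
    C ∈ MN W N ↔ ∃ L ∈ N, (L.length = 1 ∨ ∀ t ∈ L, W.F t) ∧ L.toFinset = C := by
  simp [MN, and_assoc]

theorem MN_mono {N N' : Finset (List (Lit P))} (h : N ⊆ N') : MN W N ⊆ MN W N' := by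
  intro C hC
  obtain ⟨L, h1, h2⟩ := mem_MN.1 hC
  exact mem_MN.2 ⟨L, h h1, h2⟩

theorem MN_insert {N : Finset (List (Lit P))} (L : List (Lit P)) :
    MN W (insert L N) ⊆ insert L.toFinset (MN W N) := by
  intro C hC
  obtain ⟨L', h1, h2, rfl⟩ := mem_MN.1 hC
  rcases mem_insert.1 h1 with rfl | h1
  · exact mem_insert_self _ _
  · exact mem_insert_of_mem (mem_MN.2 ⟨L', h1, h2, rfl⟩)

/-- The lists are segments of axioms, accepted if they contain a literal that is never false. -/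
def Seg (W : World P) (η : Option (Node P) → Fin (B + 2) × Bool) (od : Ax P → List (Lit P))
    (L : List (Lit P)) : Prop :=
  L ≠ [] ∧ (∃ a : Ax P, a.valid ∧ L <:+: od a) ∧ ((∃ t ∈ L, ¬ W.F t) → Acc W η od L)

/-- What the invariant says about a line without mention of the state. -/
structure Ok (W : World P) (η : Option (Node P) → Fin (B + 2) × Bool) (od : Ax P → List (Lit P))
    (N : Finset (List (Lit P))) : Prop where
  seg : ∀ L ∈ N, Seg W η od L
  j1 : ∀ C ∈ MN W N, J1 W C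
  tg : ∀ v, W.pool v → ∀ C ∈ MN W N, Touch v C → ¬ ∀ l ∈ C, isG (some v) l

theorem ok_of_inv (hW : W.Fine) {N : Finset (List (Lit P))} (h : Inv W k s (MN W N))
    (hs : ∀ L ∈ N, Seg W η od L) : Ok W η od N := by
  refine ⟨hs, h.j1, fun v hv C hC ht hG => ?_⟩
  rcases ht with ⟨l, rfl, b, w, h1⟩ | ⟨h2, hown, hPF, -⟩
  · obtain ⟨_, _, _, rfl⟩ := hG l (mem_singleton_self _)
    simp at h1
  rcases h.cls C hC with ⟨t, rfl, _⟩ | ⟨_, a, ha, hs, -, hOK⟩
  · simp at h2
  have ho := owner_of_owned hs hown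
  rcases hOK with h3 | h3 | h3 | ⟨h3, h4, h5⟩
  · obtain ⟨l, hl⟩ := card_pos.1 (show 0 < C.card by omega)
    obtain ⟨_, _, _, rfl⟩ := hG l hl
    exact not_orph_of_guard hl h3
  · exact h3 (ho ▸ hv)
  · exact hPF ⟨a, ha, ho, hs, h3.2⟩
  · obtain ⟨l, h6, h7⟩ := wit_true hW h.wf ha h3 h4 h5
    obtain ⟨u, i, e, rfl⟩ := hG l h6
    obtain rfl : v = u := by simpa using e
    rcases h7 with h7 | h7
    · simp at h7
    · exact h7.1 hv

theorem F_of_pool {v : Option (Node P)} {l : Lit P} (hv : W.poolO v) (h : isG v l ∨ isE v l) :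
    W.F l := by
  rcases h with ⟨u, i, rfl, rfl⟩ | ⟨b, w, h⟩
  · exact Or.inl ⟨hv, rfl⟩
  · have : W.FE v l.2 := by
      rcases v with _ | v
      · trivial
      · exact Or.inl hv
    rcases l with ⟨x, pol⟩
    rcases h with h | ⟨d, h⟩ <;> simp only at h <;> subst h <;> exact this

theorem Seg.nodup (ho : Ord od) {L : List (Lit P)} (h : Seg W η od L) : L.Nodup := by
  obtain ⟨a, ha, h1⟩ := h.2.1
  exact (ho a ha).1.sublist h1.sublist

theorem no_refutation2 (hW : W.Fine) (hf : Fit S k) (ho : Ord od)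
    {Pf : List (Finset (List (Lit P)))} (hPf : IValid Pf) {N0 : Finset (List (Lit P))}
    (h0 : N0 ∈ Pf) (h1 : ∀ L ∈ N0, ∃ a : Ax P, a.valid ∧ L = od a)
    (hg : ∀ N ∈ Pf, Ok W η od N → Good W k (MN W N)) : False := by
  have key : ∀ i (hi : i < Pf.length) (s : St P), Inv W k s (MN W Pf[i]) →
      ¬ ∀ L ∈ Pf[i], Seg W η od L := by
    intro i
    induction i using Nat.strong_induction_on with
    | _ i ih =>
      intro hi s h hs
      have prev : ∀ N, (∃ Γ ∈ Pf.take i, Γ ⊆ N) → ∀ s, Inv W k s (MN W N) →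
          ¬ ∀ L ∈ N, Seg W η od L := by
        rintro N ⟨Γ, hΓ, hN⟩ s h hs
        obtain ⟨j, hj, rfl⟩ := List.mem_iff_getElem.1 hΓ
        have hj' : j < i ∧ j < Pf.length := by simpa using hj
        rw [List.getElem_take] at hN
        exact ih j hj'.1 hj'.2 s (h.mono (MN_mono hN)) (fun L hL => hs L (hN hL))
      rcases hPf i hi with ⟨p, e1, e2⟩ | e | ⟨L1, L2, n1, n2, hL, p1, p2⟩
      · have unit : ∀ l, [l] ∈ Pf[i] → T W s l := by
          intro l hl
          rcases h.cls {l} (mem_MN.2 ⟨_, hl, Or.inl rfl, by simp⟩) with ⟨t, h1, h2⟩ | h1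
          · rw [singleton_inj.1 h1]; exact h2.1
          · have := h1.1; simp at this
        exact T_cons h.wf (unit _ e1) (unit _ e2)
      · exact prev _ e s h hs
      obtain ⟨-, ⟨a, ha, hinf⟩, hacc⟩ := hs _ hL
      have fin : ∀ L, L ≠ [] → L <:+: L1 ++ L2 → (∃ Γ ∈ Pf.take i, Γ ⊆ insert L Pf[i]) →
          ((∃ t ∈ L, ¬ W.F t) → Acc W η od L) → ∀ s, ¬ Inv W k s (MN W (insert L Pf[i])) :=
        fun L c1 c2 c3 c4 s c5 => prev _ c3 s c5 ((forall_mem_insert _ _ _).2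
          ⟨⟨c1, ⟨a, ha, c2.trans hinf⟩, c4⟩, hs⟩)
      have i1 : L1 <:+: L1 ++ L2 := (List.prefix_append _ _).isInfix
      have i2 : L2 <:+: L1 ++ L2 := (List.suffix_append _ _).isInfix
      by_cases hall : ∀ t ∈ L1 ++ L2, W.F t
      · have hnd := (hs _ hL).nodup ho
        have e : (L1 ++ L2).toFinset = L1.toFinset ∪ L2.toFinset := List.toFinset_append
        have c1 := List.length_pos_iff.2 n1
        have c2 := List.length_pos_iff.2 n2
        rcases split_ok hW hf h (hg _ (List.getElem_mem hi) (ok_of_inv hW h hs))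
          (e ▸ mem_MN.2 ⟨_, hL, Or.inr hall, rfl⟩)
          (by rw [← e, List.toFinset_card_of_nodup hnd, List.length_append]; omega)
          (List.disjoint_toFinset_iff_disjoint.2 (List.disjoint_of_nodup_append hnd))
          (fun l hl => hall l (by rwa [← e, List.mem_toFinset] at hl)) with ⟨s', h'⟩ | ⟨s', h'⟩
        · exact fin L1 n1 i1 p1 (fun ⟨t, c, d⟩ => absurd (hall t (List.mem_append_left _ c)) d) s'
            (h'.mono (MN_insert _))
        · exact fin L2 n2 i2 p2 (fun ⟨t, c, d⟩ => absurd (hall t (List.mem_append_right _ c)) d) s'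
            (h'.mono (MN_insert _))
      · have st : ∀ L, Acc W η od L → ∃ s, Inv W k s (MN W (insert L Pf[i])) := by
          intro L hA
          obtain ⟨t, c1, c2⟩ := hA.nf
          by_cases c3 : L.length = 1
          · obtain ⟨x, rfl⟩ := List.length_eq_one_iff.1 c3
            obtain rfl := List.mem_singleton.1 c1
            exact ⟨_, (answer_true hW h (fun v hv hp => c2 (F_of_pool (pend_pool hp) hv))
              (not_not.1 fun c => c2 (F_of_not_T h.wf c))).mono (by simpa using MN_insert [t])⟩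
          · refine ⟨s, h.mono fun C hC => ?_⟩
            obtain ⟨L', d1, d2, d3⟩ := mem_MN.1 hC
            rcases mem_insert.1 d1 with rfl | d1
            · exact (d2.elim c3 fun d => c2 (d t c1)).elim
            · exact mem_MN.2 ⟨L', d1, d2, d3⟩
        push Not at hall
        rcases (hacc hall).split with hA | hA
        · obtain ⟨s', h'⟩ := st _ hA
          exact fin L1 n1 i1 p1 (fun _ => hA) s' h'
        · obtain ⟨s', h'⟩ := st _ hA
          exact fin L2 n2 i2 p2 (fun _ => hA) s' h'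
  obtain ⟨s, hs⟩ := exists_init hW k
  obtain ⟨i, hi, rfl⟩ := List.mem_iff_getElem.1 h0
  have e : ∀ a : Ax P, a.valid → (od a).toFinset = a.cl := fun a ha => by
    ext l; rw [List.mem_toFinset, (ho a ha).2]
  refine key i hi s (hs.mono fun C hC => ?_) fun L hL => ?_
  · obtain ⟨L, c1, -, rfl⟩ := mem_MN.1 hC
    obtain ⟨a, ha, rfl⟩ := h1 L c1
    exact mem_Sig.2 ⟨a, ha, (e a ha).symm⟩
  · obtain ⟨a, ha, rfl⟩ := h1 L hL
    refine ⟨fun c => ?_, ⟨a, ha, List.infix_rfl⟩, acc_init ho ha⟩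
    have := two_le_cl hW ha
    rw [← e a ha, c] at this
    simp at this

end Pool.Agent.Lib.MP_a300b0_lc
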