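import Pool.Agent.Lib.MP_a300b0_lc.BProb

/-! Choice of the parameters and the separation theorem for all orders and bracketings. -/

namespace Pool.Agent.Lib.MP_a300b0_lc

open Finset

theorem card_rows {S : Shape} {P : Par S} {hφ K3 : ℕ} (hT : ∀ T : Finset (Lv S × Fin P.nEl),
    hφ ≤ T.card → (fs (fun x => ∀ t ∈ T, P.mem x t.1 t.2)).card ≤ K3) (Z : Finset (IL P))
    (hZ : hφ + S.nSlot + 3 ≤ Z.card) :
    ((Cont Z).image Node.x).card ≤ Fintype.card (Pos S) * K3 := by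
  classical
  refine (card_le_card (t := univ.biUnion fun p => ((Cont Z).filter (·.pos = p)).image Node.x)
    fun r hr => ?_).trans (card_biUnion_le_mul card_univ.le fun pos _ => ?_)
  · obtain ⟨v, hv, rfl⟩ := mem_image.1 hr
    exact mem_biUnion.2 ⟨v.pos, mem_univ _, mem_image_of_mem _ (mem_filter.2 ⟨hv, rfl⟩)⟩
  rcases ((Cont Z).filter (·.pos = pos)).eq_empty_or_nonempty with h | ⟨v0, h0⟩
  · rw [h]; simp
  obtain ⟨h1, h2⟩ := mem_filter.1 h0
  rcases pos with p | ⟨o, d⟩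
  swap
  · have : Z ⊆ {((.sp o false, v0.s0), true), ((.sp o true, v0.s1), true)} := by
      intro l hl
      have := mem_Iv.1 (mem_Cont.1 h1 hl)
      simp only [memI, h2] at this
      simpa using this
    have := (card_le_card this).trans (card_le_two)
    omega
  set T : Finset (Lv S × Fin P.nEl) := univ.filter (fun t =>
    ((p.key t.1, t.2), p.bits t.1) ∈ Z ∧ ∀ s, p.lv s ≠ t.1) with hTd
  have hc : hφ ≤ T.card := by
    have hsub : Z ⊆ T.image (fun t => ((p.key t.1, t.2), p.bits t.1)) ∪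
        univ.image (fun s => ((p.key (p.lv s), v0.sl s), p.bits (p.lv s))) ∪
        {((.sp p false, v0.s0), true)} := by
      rintro ⟨⟨κ, y⟩, b⟩ hl
      have := mem_Iv.1 (mem_Cont.1 h1 hl)
      simp only [memI, h2, inS] at this
      rcases this with ⟨j, _, rfl, rfl, ⟨s, rfl, rfl⟩ | h3⟩ | h3
      · exact mem_union_left _ (mem_union_right _ (mem_image.2 ⟨s, mem_univ _, rfl⟩))
      · exact mem_union_left _ (mem_union_left _ (mem_image.2 ⟨(j, y), mem_filter.2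
          ⟨mem_univ _, hl, h3.1⟩, rfl⟩))
      · exact mem_union_right _ (mem_singleton.2 h3)
    have h3 := (card_le_card hsub).trans ((card_union_le _ _).trans (add_le_add
      ((card_union_le _ _).trans (add_le_add card_image_le card_image_le)) le_rfl))
    simp only [card_univ, Fintype.card_fin, card_singleton] at h3
    omega
  refine le_trans (card_le_card fun r hr => ?_) (hT T hc)
  obtain ⟨v, hv, rfl⟩ := mem_image.1 hr
  obtain ⟨h3, h4⟩ := mem_filter.1 hv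
  refine mem_fs.2 fun t ht => ?_
  obtain ⟨_, h5, h6⟩ := mem_filter.1 ht
  have := mem_Iv.1 (mem_Cont.1 h3 h5)
  simp only [memI, h4, inS] at this
  rcases this with ⟨j, _, h7, _, ⟨s, h8, _⟩ | h8⟩ | h7
  · exact absurd (h8.trans (key_inj h7).1.symm) (h6 s)
  · rw [(key_inj h7).1]; exact h8.2
  · simp at h7

/-- Properties that follow from a bound of a polynomial by the exponential. -/
def Ev (p : ℕ → Prop) : Prop := ∃ f, Sm f ∧ ∀ s, f s ≤ 2 ^ s → p s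

theorem Sm.ev {f : ℕ → ℕ} (hf : Sm f) : Ev fun s => f s ≤ 2 ^ s := ⟨f, hf, fun _ h => h⟩

theorem Ev.and {p q : ℕ → Prop} (hp : Ev p) (hq : Ev q) : Ev fun s => p s ∧ q s := by
  obtain ⟨f, a1, a2⟩ := hp
  obtain ⟨g, b1, b2⟩ := hq
  exact ⟨_, a1.add b1, fun s h => ⟨a2 s (le_of_add_le_left h), b2 s (le_of_add_le_right h)⟩⟩

theorem Ev.ex {p : ℕ → Prop} (hp : Ev p) : ∃ s, p s := by
  obtain ⟨f, a1, a2⟩ := hp
  exact a1.exists_le.imp a2

theorem exists_par2 (S : Shape) {c c2 u ν : ℕ} (hν : ν = 2 * (S.L + 1))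
    (hu : u + 1 = (ν + 1) * (2 * S.nSlot + 11)) (hc2 : c2 = 2 * c * (2 * S.nSlot + 11) + 1)
    (hfit : ∀ x h, Fit S ⟨c, c2, x, h, c * (u + 1)⟩) (p0 : RP S) (hd : p0.d = 0) (C0 : ℕ) :
    ∃ (P : Par S) (Y : ℕ), C0 ≤ Y ∧ 16 ≤ Y ∧ S.L + 2 ≤ Y ∧ Fintype.card (Node P) ≤ Y ^ 3 ∧
      Fintype.card (DL P) ≤ Y ∧ ∅ ∉ Sig P ∧
      (∀ Pf, IsGCNFRefutation Pf (Sig P) → Y ^ c ≤ 12 * litCount Pf) ∧
      ∀ od : Ax P → List (Lit P), Ord od → ∀ Pf, IValid Pf → ∀ N0 ∈ Pf,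
        (∀ L ∈ N0, ∃ a : Ax P, a.valid ∧ L = od a) → Y ^ c ≤ 12 * isz Pf := by
  classical
  obtain ⟨N, hN⟩ : ∃ N, N = S.L + 1 := ⟨_, rfl⟩
  obtain ⟨np, hnp⟩ : ∃ np, np = Fintype.card (Pos S) := ⟨_, rfl⟩
  obtain ⟨nk, hnk⟩ : ∃ nk, nk = Fintype.card (Key S) := ⟨_, rfl⟩
  obtain ⟨hφ, hhφ⟩ : ∃ hφ, hφ = u + 1 + N := ⟨_, rfl⟩
  obtain ⟨h, hh⟩ : ∃ h, h = hφ + S.nSlot + 3 := ⟨_, rfl⟩
  obtain ⟨G, hG⟩ : ∃ G, G = (ν + 1) * N + 2 * (u + 1) + (ν + 2) + (ν + 2) * hφ := ⟨_, rfl⟩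
  obtain ⟨s, g, m0, m1, y, x, q, hq, hg, hm0, hm1, hy, hx, b1, b2, b3, b4, b5, b6, b7, b8, b9, b10,
      b11⟩ : ∃ s g m0 m1 y x q, q = 2 ^ s ∧ g = s * G + 2 ∧ m0 = np + s * (c * (u + 1)) + s ∧
      m1 = 2 * ((2 * (np * (6 * g)) + 2) * 2) * (2 ^ h * m0) ∧
      y = m1 + np * h + nk * 2 + np + 1 ∧ x = 2 * y ∧
      N + 1 + C0 + 16 + c + 2 ^ np * 2 ^ Fintype.card (RP S) ≤ q ∧
      x + x ^ h * (6 * g * np) + 6 * g * np ≤ q ∧
      2 ^ c * ((x + c * h + 1) ^ h * (6 * g * np)) ≤ q ∧ x + (h + 1) ^ c2 ≤ q ∧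
      2 ^ c * (x + c * h + 1) ≤ q ∧ np * g ≤ q ∧ nk * 2 + (s * (3 * (u + 1)) + 3) + 1 ≤ q ∧
      6 * (x * g) ≤ q ∧ y * np + y ^ h * (6 * g * np) + y * np +
        y * (np * (6 * g)) * np * (6 * g * np) + nc h y * ((y * h) ^ h * (6 * g * np)) ≤ q ∧
      2 * y + nc h y * h ≤ q ∧ 3 + nc h y ≤ q := by
    have sg : Sm (fun s => s * G + 2) := (Sm.id.mul (.const _)).add (.const _)
    have s6 := (Sm.const 6).mul sg
    have sK := (Sm.const np).mul s6
    have s0 := ((Sm.const np).add (Sm.id.mul (.const (c * (u + 1))))).add Sm.id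
    have s1 := ((Sm.const 2).mul ((((Sm.const 2).mul sK).add (.const 2)).mul (.const 2))).mul
      ((Sm.const (2 ^ h)).mul s0)
    have sy := (((s1.add (.const (np * h))).add (.const (nk * 2))).add (.const np)).add (.const 1)
    have sx := (Sm.const 2).mul sy
    have sx' := (sx.add (.const (c * h))).add (.const 1)
    have sn := s6.mul (.const np)
    have sh := sy.mul (.const h)
    have sp := sy.mul (.const np)
    have sc := (Sm.const (h + 1)).mul ((((Sm.const 2).mul sh).add (.const 1)).pow h)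
    obtain ⟨s, hs⟩ := ((Sm.const (N + 1 + C0 + 16 + c + 2 ^ np * 2 ^ Fintype.card (RP S))).ev.and <|
      ((sx.add ((sx.pow h).mul sn)).add sn).ev.and <|
      ((Sm.const (2 ^ c)).mul ((sx'.pow h).mul sn)).ev.and <|
      (sx.add (.const ((h + 1) ^ c2))).ev.and <| ((Sm.const (2 ^ c)).mul sx').ev.and <|
      ((Sm.const np).mul sg).ev.and <| (((Sm.const (nk * 2)).add
        ((Sm.id.mul (.const (3 * (u + 1)))).add (.const 3))).add (.const 1)).ev.and <|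
      ((Sm.const 6).mul (sx.mul sg)).ev.and <|
      ((((sp.add ((sy.pow h).mul sn)).add sp).add (((sy.mul sK).mul (.const np)).mul sn)).add
        (sc.mul ((sh.pow h).mul sn))).ev.and <|
      (sx.add (sc.mul (.const h))).ev.and ((Sm.const 3).add sc).ev).ex
    exact ⟨s, _, _, _, _, _, _, rfl, rfl, rfl, rfl, rfl, rfl, hs⟩
  rw [← hN] at hν
  have q1 : 1 ≤ q := by omega
  have pw : ∀ i j, i ≤ j → q ^ i ≤ q ^ j := fun i j h => Nat.pow_le_pow_right q1 h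
  have hcL : Fintype.card (Lv S) = N := by rw [hN]; exact Fintype.card_fin _
  obtain ⟨mem, emb, t1, t2, t3, t4⟩ := exists_table (Lv S) (q ^ (ν + 1)) (q ^ 2)
    (q ^ (2 * (u + 1))) g hφ (6 * g * q ^ (2 * u)) (by positivity) (le_of_eq (by ring))
    ((Nat.le_mul_of_pos_left g (by norm_num : 0 < 6)).trans
      (Nat.le_mul_of_pos_right _ (by positivity))) (le_of_eq (by rw [hcL, hhφ]; ring)) (by
      rw [hcL]
      have a1 : (q ^ (ν + 1)) ^ N * q ^ (2 * (u + 1)) ≤ q ^ G := by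
        rw [← pow_mul, ← pow_add]; exact pw _ _ (by omega)
      have a0 : N * q ^ (ν + 1) ≤ q ^ (ν + 2) := by
        rw [pow_succ q (ν + 1), mul_comm]; exact Nat.mul_le_mul_left _ (by omega)
      have a2 : (q ^ (ν + 1)) ^ N * (N * q ^ (ν + 1)) ≤ q ^ G := by
        refine (Nat.mul_le_mul_left _ a0).trans ?_
        rw [← pow_mul, ← pow_add]; exact pw _ _ (by omega)
      have a3 : (N * q ^ (ν + 1)) ^ hφ ≤ q ^ G := by
        refine (Nat.pow_le_pow_left a0 _).trans ?_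
        rw [← pow_mul]; exact pw _ _ (by omega)
      have a4 : 2 ^ g = 4 * q ^ G := by rw [hg, hq]; ring
      have a5 := pw 0 G (by omega)
      rw [pow_zero] at a5
      omega)
  let P : Par S := ⟨q ^ (ν + 1), _, s * (3 * (u + 1)) + 3, mem⟩
  let t : Tab P (q ^ (2 * (u + 1))) := ⟨emb, t1, t2⟩
  let k : Cst := ⟨c, c2, x, h, c * (u + 1)⟩
  have hqY : q ≤ q ^ (u + 1) := by simpa using pw 1 (u + 1) (by omega)
  have hu' : u + 1 = (ν + 1) * (S.nSlot + 3) + (ν + 1) + (ν + 1) * (S.nSlot + 7) := by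
    rw [hu]; ring
  have hm1' : 2 ^ h * m0 ≤ m1 := hm1 ▸ Nat.le_mul_of_pos_left _ (by omega)
  have hm0' : m0 ≤ 2 ^ h * m0 := Nat.le_mul_of_pos_left _ (by positivity)
  have key : ∀ a, a ≤ q → a * (q ^ (ν + 1)) ^ (S.nSlot + 3) ≤ q ^ (u + 1) := by
    intro a ha
    refine (Nat.mul_le_mul_right _ ha).trans ?_
    rw [← pow_mul, ← pow_succ']; exact pw _ _ (by omega)
  have hnum : Num k t (6 * g * q ^ (2 * u)) (6 * g * (np * (q ^ (ν + 1)) ^ (S.nSlot + 3)))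
      (q ^ (u + 1)) q (np + s * (c * (u + 1))) := by
    refine ⟨fun Z hZ => hnp ▸ card_cont (P := P) t4 Z (hh ▸ hZ), by show 1 ≤ h; omega, ?_, ?_,
      pw _ _ (by omega), b4, b5, by rw [← hnp, ← hnk]; show _ + np * h + _ ≤ x; omega, t3⟩
    · refine le_trans ?_ (key _ b2)
      show x + x ^ h * _ + _ ≤ _
      have : 1 ≤ (q ^ (ν + 1)) ^ (S.nSlot + 3) := Nat.one_le_pow _ _ (by positivity)
      have := Nat.mul_le_mul_left (x) this
      linarith
    · refine le_trans (le_of_eq ?_) (key _ b3)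
      show 2 ^ c * ((x + c * h + 1) ^ h * _) = _
      ring
  have hDL : Fintype.card (DL P) + 1 ≤ q * q ^ (ν + 1) := by
    rw [card_DL, ← hnk]
    show nk * q ^ (ν + 1) * 2 + (s * (3 * (u + 1)) + 3) + 1 ≤ _
    have a1 := pw 0 (ν + 1) (by omega)
    have a3 := Nat.mul_le_mul_right (q ^ (ν + 1)) b7
    have a4 := Nat.mul_le_mul_left (s * (3 * (u + 1)) + 3 + 1) a1
    linarith
  have hnum2 : Num2 P k (6 * g * (np * (q ^ (ν + 1)) ^ (S.nSlot + 3))) (q ^ (u + 1)) q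
      (np + s * (c * (u + 1))) y s m1 (np * (6 * g)) (2 * (np * (6 * g))) := by
    refine ⟨fun Z hZ => hnp ▸ card_rows (P := P) t4 Z (hh ▸ hZ), ?_, b10, hq ▸ b11, ?_, hm0 ▸ hm1',
      by rw [← hnp, ← hnk]; show _ + np * h + _ + _ < y; omega, by omega, hx.ge⟩
    · obtain ⟨E, hE⟩ : ∃ E, E = (q ^ (ν + 1)) ^ (S.nSlot + 3) := ⟨_, rfl⟩
      obtain ⟨D, hD⟩ : ∃ D, D = (q * q ^ (ν + 1)) ^ 2 := ⟨_, rfl⟩
      have a1 : NR P = np * E := by rw [hnp, hE]; rfl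
      have a2 : (Fintype.card (DL P) + 1) ^ 2 ≤ D := hD ▸ Nat.pow_le_pow_left hDL 2
      have a3 : E ≤ E * D * E := by
        rw [mul_assoc]; exact Nat.le_mul_of_pos_right _ (by rw [hE, hD]; positivity)
      have a4 : q * (E * D * E) ≤ q ^ (u + 1) := by
        have : q * (E * D * E) = q ^ (3 + (ν + 1) * (2 * S.nSlot + 8)) := by rw [hE, hD]; ring
        have e : u + 1 = (ν + 1) * 3 + (ν + 1) * (2 * S.nSlot + 8) := by rw [hu]; ring
        rw [this]; exact pw _ _ (by omega)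
      refine le_trans ?_ ((Nat.mul_le_mul_right _ b9).trans a4)
      rw [a1, ← hE]
      show _ + y ^ h * _ + _ + _ + nc h y * ((y * h) ^ h * _) ≤ _
      have c1 := Nat.mul_le_mul_left (y * np) a3
      have c2 := Nat.mul_le_mul_left (y ^ h * (6 * g * np)) a3
      have c3 := Nat.mul_le_mul_left (nc h y * ((y * h) ^ h * (6 * g * np))) a3
      have c4 := Nat.mul_le_mul_left (y * (np * (6 * g)) * np * (6 * g * np) * E * E) a2
      linarith
    · rw [← hm0, hm1]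
      exact Nat.mul_le_mul_left _ hm0'
  have hnode : Fintype.card (Node P) ≤ (q ^ (u + 1)) ^ 3 := by
    refine card_node_le.trans ?_
    rw [← hnp]
    show np * ((q ^ (ν + 1)) ^ (S.nSlot + 3) *
      (q ^ (2 * (u + 1)) * ((q ^ 2) ^ Fintype.card (Lv S) * g))) ≤ _
    calc _ = (np * g) * q ^ ((ν + 1) * (S.nSlot + 3) + ν + 2 * (u + 1)) := by
          rw [hcL, hν]; ring
      _ ≤ q * q ^ ((ν + 1) * (S.nSlot + 3) + ν + 2 * (u + 1)) :=
          Nat.mul_le_mul_right _ b6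
      _ ≤ _ := by rw [← pow_succ', ← pow_mul]; exact pw _ _ (by omega)
  have hnG : 3 ≤ P.nG := by show 3 ≤ _ + 3; omega
  have fin : ∀ n : ℕ, 1 ≤ Fintype.card (Node P) * (1 / 2 : ℝ) ^ P.nG + n * (2 * eps S k P.nEl
      (q ^ (2 * (u + 1))) (6 * g * q ^ (2 * u)) (q ^ (u + 1)) q (np + s * (c * (u + 1)))) →
      (q ^ (u + 1)) ^ c ≤ 12 * n := by
    intro n h1
    have h2 := eps_le S k (ν := ν) (g := g) (u := u) hq (by show c ≤ q; omega) (by
      show c * (u + 1) + 1 ≤ ν * c2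
      rw [hu, hc2]
      obtain ⟨ν', rfl⟩ : ∃ ν', ν = ν' + 1 := ⟨ν - 1, by omega⟩
      have : (ν' + 1) * (2 * c * (2 * S.nSlot + 11) + 1) =
        c * ((ν' + 1 + 1) * (2 * S.nSlot + 11)) + 1 + (ν' * c * (2 * S.nSlot + 11) + ν') := by ring
      omega) rfl b8 (by rw [← hnp]; omega)
    have h3 : (Fintype.card (Node P) : ℝ) * (1 / 2) ^ P.nG ≤ 1 / 8 := by
      have a1 : (Fintype.card (Node P) : ℝ) ≤ 2 ^ (s * (3 * (u + 1))) := by
        have : (q ^ (u + 1)) ^ 3 = 2 ^ (s * (3 * (u + 1))) := by rw [hq]; ring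
        exact_mod_cast this ▸ hnode
      refine (mul_le_mul_of_nonneg_right a1 (by positivity)).trans (le_of_eq ?_)
      show _ * (1 / 2 : ℝ) ^ (s * (3 * (u + 1)) + 3) = _
      rw [pow_add, ← mul_assoc, ← mul_pow]
      norm_num
    have h4 : (7 / 8 : ℝ) ≤ n * (10 * (1 / (q : ℝ)) ^ (c * (u + 1))) := by
      have := mul_le_mul_of_nonneg_left h2 (show (0 : ℝ) ≤ n * 2 by positivity)
      have e : P.nEl = q ^ (ν + 1) := rfl
      rw [e] at h1
      simp only [k, ← hnp] at this h1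
      linarith
    have h5 : (0 : ℝ) < (q : ℝ) ^ (c * (u + 1)) := by positivity
    rw [one_div, inv_pow, ← div_eq_mul_inv, ← mul_div_assoc, le_div_iff₀ h5] at h4
    have h6 : (((q ^ (u + 1)) ^ c : ℕ) : ℝ) ≤ (12 * n : ℕ) := by
      push_cast
      rw [← pow_mul, mul_comm (u + 1)]
      linarith
    exact_mod_cast h6
  refine ⟨P, q ^ (u + 1), by omega, by omega, by omega, hnode, ?_, ?_, fun Pf hPf =>
    fin _ (lower_bound p0 (hfit _ _) hnG hnum hd (by positivity) (by positivity) hPf),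
    fun od ho Pf hPf N0 h0 h1 => fin _ (lower_bound2 p0 ho (hfit _ _) hnG hnum hnum2 hd
      (by positivity) (by positivity) hPf h0 h1)⟩
  · have a2 : q * q ^ (ν + 1) ≤ q ^ (u + 1) := by
      have := Nat.mul_le_mul_left (ν + 1) (show 1 ≤ S.nSlot + 3 by omega)
      rw [← pow_succ']; exact pw _ _ (by omega)
    omega
  · intro h0
    obtain ⟨a, ha, e⟩ := mem_Sig.1 h0
    have y0 : Fin P.nEl := ⟨0, by positivity⟩
    have := two_le_cl (W := mkW t p0 (fun _ => y0, fun _ => ⟨0, by positivity⟩)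
      (fun _ => false, fun _ => false))
      ⟨fun p j => t.mem _ _ j, fun _ => ⟨⟨0, by omega⟩, rfl⟩, hd, hnG⟩ ha
    rw [e] at this
    simp at this

theorem separation2 (p : Polynomial ℕ) : ∃ (S : Finset (Finset (ℕ × Bool)))
    (R : List (Finset (ℕ × Bool))), ∅ ∉ S ∧ IsResRefutation R S ∧
      (∀ P, IsGCNFRefutation P S → p.eval (inputBits S R) < litCount P) ∧
      ∀ Γ, Writes Γ S → ∀ P, IsLKRefutation P Γ → p.eval (inputBits S R) < atomCount P := by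
  classical
  obtain ⟨c, hc⟩ : ∃ c, c = 26 * p.natDegree + 2 := ⟨_, rfl⟩
  obtain ⟨c2, hc2⟩ : ∃ c2, c2 = 2 * c * (2 * (3 * c + 1) + 11) + 1 := ⟨_, rfl⟩
  obtain ⟨L, hL⟩ : ∃ L, L = (c + (2 * (1 + 4 * c + c2) + c2) + 1) ^ (c + 1) := ⟨_, rfl⟩
  obtain ⟨u, hu⟩ : ∃ u, u + 1 = (2 * (L + 1) + 1) * (2 * (3 * c + 1) + 11) :=
    ⟨(2 * (L + 1) + 1) * (2 * (3 * c + 1) + 11) - 1, Nat.sub_add_cancel (by nlinarith)⟩
  let S : Shape := ⟨L, 1 + 4 * c + c2 + c + c2 + 1, 3 * c + 1, c * (u + 1) + 1⟩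
  obtain ⟨P, Y, h0, h1, h2, h3, h4, h5, h6, h7⟩ := exists_par2 S (c := c) (c2 := c2) (u := u) rfl hu hc2
    (fun x h => ⟨hL.ge, Nat.lt_succ_self _, le_rfl, Nat.lt_succ_self _⟩)
    ⟨0, fun _ => false, fun _ => ⟨0, Nat.succ_pos _⟩, fun _ => 0, ⟨0, Nat.succ_pos _⟩⟩ rfl
    (p.eval 1)
  obtain ⟨s1, s2, s3⟩ := sizes_le h1 h2 h3 h4
  obtain ⟨R, r1, r2⟩ := exists_short_refutation P
  let f : Var P → ℕ := fun v => (Fintype.equivFin (Var P) v).val
  have hf : Function.Injective f := fun a b e => (Fintype.equivFin _).injective (Fin.ext e)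
  have : Nonempty (Var P) := ⟨.dummy⟩
  have hgf := Function.leftInverse_invFun hf
  have hne : ∅ ∉ sm f (Sig P) := by
    intro h
    obtain ⟨C, hC, e⟩ := mem_image.1 h
    exact h5 (image_eq_empty.1 e ▸ hC)
  have a3 : inputBits (sm f (Sig P)) (R.map (cm f)) ≤ Y ^ 26 := by
    refine (inputBits_le (fun v => (Fintype.equivFin (Var P) v).isLt) _ _).trans ?_
    have b0 : ∀ i j, i ≤ j → Y ^ i ≤ Y ^ j := fun i j h => Nat.pow_le_pow_right (by omega) h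
    have b1 := b0 8 25 (by omega)
    have b2 := b0 9 25 (by omega)
    have b3 := b0 16 25 (by omega)
    have b4 := b0 17 25 (by omega)
    have b5 := b0 24 25 (by omega)
    have b6 : 16 * Y ^ 25 ≤ Y ^ 26 := by
      rw [pow_succ Y 25, mul_comm]; exact Nat.mul_le_mul_left _ h1
    have b7 := r2.trans s3
    calc _ ≤ (Y ^ 8 + Y ^ 9) * (1 + Y ^ 8 * 2 * (Y ^ 8 + 2)) := by gcongr
      _ = Y ^ 8 + Y ^ 9 + 4 * Y ^ 16 + 4 * Y ^ 17 + 2 * Y ^ 24 + 2 * Y ^ 25 := by ring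
      _ ≤ _ := by omega
  have a4 := (eval_le p a3 (Nat.one_le_pow _ _ (by omega))).trans (Nat.mul_le_mul_right _ h0)
  have a5 : Y ^ c = Y * (Y * (Y ^ 26) ^ p.natDegree) := by rw [hc]; ring
  have a6 : 0 < Y * (Y ^ 26) ^ p.natDegree := by positivity
  have a7 := Nat.mul_le_mul_right (Y * (Y ^ 26) ^ p.natDegree) h1
  refine ⟨sm f (Sig P), R.map (cm f), hne, r1.map hf, fun Pf hPf => ?_, fun Γ hΓ Pf hPf => ?_⟩
  · have a1 := hPf.map (Function.invFun f)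
    rw [sm_sm hgf] at a1
    have a2 := (h6 _ a1).trans (Nat.mul_le_mul_left _ (litCount_map _ _))
    omega
  obtain ⟨ord, c1, G, c2, c3, N, c4, c5⟩ := i_of_lk hΓ hPf
  have c6 : ∀ a : Ax P, a.valid → (ord (cm f a.cl)).Nodup ∧
      ∀ l, l ∈ ord (cm f a.cl) ↔ ∃ l' ∈ a.cl, (f l'.1, l'.2) = l := fun a ha => by
    obtain ⟨d1, d2⟩ := c1 _ (mem_image_of_mem (cm f) (mem_Sig.2 ⟨a, ha, rfl⟩))
    exact ⟨d1, fun l => by rw [← List.mem_toFinset, d2]; exact mem_image⟩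
  have a2 := (h7 (fun a => lm (Function.invFun f) (ord (cm f a.cl))) (fun a ha => ⟨?_, fun l => ?_⟩)
    _ (c2.map (Function.invFun f)) _ (List.mem_map_of_mem c4) fun L hL => ?_).trans
    (Nat.mul_le_mul_left _ ((isz_map _ _).trans c3))
  · omega
  · refine (c6 a ha).1.map_on fun x hx y hy e => ?_
    obtain ⟨x, -, rfl⟩ := ((c6 a ha).2 x).1 hx
    obtain ⟨y, -, rfl⟩ := ((c6 a ha).2 y).1 hy
    simp only [hgf _, Prod.mk.injEq] at e
    rw [e.1, e.2]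
  · simp only [lm, List.mem_map, (c6 a ha).2]
    exact ⟨fun ⟨_, ⟨x, d, rfl⟩, e⟩ => by simp only [hgf _] at e; exact e ▸ d,
      fun d => ⟨_, ⟨l, d, rfl⟩, by simp only [hgf _]⟩⟩
  · obtain ⟨L, d1, rfl⟩ := mem_image.1 hL
    obtain ⟨C, d2, rfl⟩ := c5 L d1
    obtain ⟨C, d3, rfl⟩ := mem_image.1 d2
    obtain ⟨a, ha, rfl⟩ := mem_Sig.1 d3
    exact ⟨a, ha, rfl⟩

theorem separation_lk2 (p : Polynomial ℕ) : ∃ (S : Finset (Finset (ℕ × Bool)))
    (R : List (Finset (ℕ × Bool))), IsResRefutation R S ∧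
      (∃ Γ, Writes Γ S ∧ (Γ.map Fm.atoms).sum = ∑ C ∈ S, C.card) ∧
      ∀ Γ, Writes Γ S ∨ Represents Γ S → (∃ P, IsLKRefutation P Γ) ∧
        ∀ P, IsLKRefutation P Γ → p.eval (inputBits S R) < atomCount P := by
  obtain ⟨S, R, h1, h2, h3, h4⟩ := separation2 (Polynomial.C 6 * p)
  simp only [Polynomial.eval_C_mul] at h3 h4
  refine ⟨S, R, h2, exists_writes h1, fun Γ hΓ => hΓ.elim
    (fun h => ⟨lk_refutable' h (res_sound h2), fun P hP => ?_⟩)
    fun h => ⟨lk_refutable h (res_sound h2), fun P hP => ?_⟩⟩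
  · have := h4 Γ h P hP
    omega
  · obtain ⟨G, h5, h6⟩ := gcnf_of_lk h hP
    have := h3 G h5
    omega

end Pool.Agent.Lib.MP_a300b0_lc
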