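import Pool.Agent.Lib.MP_a300b0_lc.Table

/-! Independence of events that depend on disjoint blocks of coordinates. -/

namespace Pool.Agent.Lib.MP_a300b0_lc

open Finset Classical

theorem le_pr_fst {A B : Type} [Fintype A] [Fintype B] [Nonempty A] [Nonempty B] (F : A → Prop) :
    pr F ≤ pr (fun ω : A × B => F ω.1) := by
  have h1 := pr_fst_le (B := B) (fun a => ¬ F a)
  have h2 := pr_not F
  have h3 := pr_not (fun ω : A × B => F ω.1)
  linarith

theorem pr3_le {A B C D : Type} [Fintype A] [Fintype B] [Fintype C] [Fintype D]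
    (E : (A × B × C) × D → Prop) {ε : ℝ} (hε : 0 ≤ ε)
    (h : ∀ a c, pr (fun ω : B × D => E ((a, ω.1, c), ω.2)) ≤ ε) : pr E ≤ ε := by
  let e : (A × C) × B × D ≃ (A × B × C) × D :=
    ⟨fun x => ((x.1.1, x.2.1, x.1.2), x.2.2), fun x => ((x.1.1, x.1.2.2), x.1.2.1, x.2),
      fun _ => rfl, fun _ => rfl⟩
  rw [← pr_equiv e]
  exact pr_prod_le _ hε fun x => h x.1 x.2

theorem pr3_le' {A B C D : Type} [Fintype A] [Fintype B] [Fintype C] [Fintype D]
    (E : (A × B × C) × D → Prop) {ε : ℝ} (hε : 0 ≤ ε)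
    (h : ∀ a b, pr (fun ω : C × D => E ((a, b, ω.1), ω.2)) ≤ ε) : pr E ≤ ε := by
  let e : (A × B) × C × D ≃ (A × B × C) × D :=
    ⟨fun x => ((x.1.1, x.1.2, x.2.1), x.2.2), fun x => ((x.1.1, x.1.2.1), x.1.2.2, x.2),
      fun _ => rfl, fun _ => rfl⟩
  rw [← pr_equiv e]
  exact pr_prod_le _ hε fun x => h x.1 x.2

variable {ι W α : Type} [Fintype ι] [DecidableEq ι] [Fintype W]

theorem pr_indep [Nonempty W] (D : Finset ι) (E F : (ι → W) → Prop)
    (hE : ∀ f g, (∀ i ∈ D, f i = g i) → E f → E g)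
    (hF : ∀ f g, (∀ i ∉ D, f i = g i) → F f → F g) : pr (fun f => E f ∧ F f) ≤ pr E * pr F := by
  let e := (Equiv.piEquivPiSubtypeProd (fun i => i ∈ D) (fun _ => W)).symm
  obtain ⟨a0⟩ : Nonempty ({i // i ∈ D} → W) := inferInstance
  obtain ⟨b0⟩ : Nonempty ({i // i ∉ D} → W) := inferInstance
  have e1 : ∀ a b b', E (e (a, b)) → E (e (a, b')) := fun a b b' => hE _ _ fun i hi => by
    simp [e, Equiv.piEquivPiSubtypeProd, hi]
  have e2 : ∀ a a' b, F (e (a, b)) → F (e (a', b)) := fun a a' b => hF _ _ fun i hi => by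
    simp [e, Equiv.piEquivPiSubtypeProd, hi]
  rw [← pr_equiv e, ← pr_equiv e E, ← pr_equiv ((Equiv.prodComm _ _).trans e) F]
  refine (pr_prod_le_mul _ (fun a => E (e (a, b0))) (pr_nonneg fun b => F (e (a0, b)))
    (fun a b h => e1 a b b0 h.1) fun a _ => pr_mono fun b h => e2 a a0 b h.2).trans ?_
  exact mul_le_mul ((le_pr_fst _).trans (pr_mono fun ω h => e1 _ _ ω.2 h))
    ((le_pr_fst _).trans (pr_mono fun ω h => e2 _ ω.2 _ h)) (pr_nonneg _) (pr_nonneg _)

theorem pr_blocks [Nonempty W] (T : Finset α) (D : α → Finset ι) (E : α → (ι → W) → Prop) {ε : ℝ}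
    (hε : 0 ≤ ε) (hd : ∀ t ∈ T, ∀ t' ∈ T, t ≠ t' → Disjoint (D t) (D t'))
    (hE : ∀ t ∈ T, ∀ f g, (∀ i ∈ D t, f i = g i) → E t f → E t g) (h : ∀ t ∈ T, pr (E t) ≤ ε) :
    pr (fun f => ∀ t ∈ T, E t f) ≤ ε ^ T.card := by
  induction T using Finset.induction_on with
  | empty => simpa using pr_le_one _
  | insert a T ha ih =>
    have m := fun t (ht : t ∈ T) => mem_insert_of_mem (b := a) ht
    have m0 := mem_insert_self a T
    rw [card_insert_of_notMem ha, pow_succ']
    refine le_trans (pr_mono fun f hf => ⟨hf a m0, fun t ht => hf t (m t ht)⟩)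
      ((pr_indep (D a) (E a) (fun f => ∀ t ∈ T, E t f) (hE a m0) fun f g c hf t ht =>
        hE t (m t ht) f g (fun i hi => c i fun d => disjoint_left.1
          (hd a m0 t (m t ht) fun e => ha (e ▸ ht)) d hi) (hf t ht)).trans
      (mul_le_mul (h a m0) (ih (fun t c t' d => hd t (m t c) t' (m t' d))
        (fun t c => hE t (m t c)) fun t c => h t (m t c)) (pr_nonneg _) hε))

theorem pr_coord (i : ι) (B : W → Prop) : pr (fun f : ι → W => B (f i)) ≤ pr B := by
  simpa using pr_pi {i} (fun _ => B) (pr_nonneg B) fun _ _ => le_rfl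

theorem pr_agree (f0 : ι → W) (T : Finset ι) :
    pr (fun f : ι → W => ∀ i ∈ T, f i = f0 i) = ∏ _i ∈ T, (1 / Fintype.card W : ℝ) := by
  rw [pr_pi_all (fun i w => i ∈ T → w = f0 i)]
  have : ∀ i, pr (fun w : W => i ∈ T → w = f0 i) =
      if i ∈ T then (1 / Fintype.card W : ℝ) else 1 := by
    intro i
    have h0 : (Fintype.card W : ℝ) ≠ 0 := by
      have : Nonempty W := ⟨f0 i⟩
      exact_mod_cast Fintype.card_ne_zero
    unfold pr
    split_ifs with h
    · congr 1
      exact_mod_cast card_eq_one.2 ⟨f0 i, by ext; simp [h]⟩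
    · simp [h, h0]
  simp only [this]
  rw [prod_ite_mem, univ_inter]

theorem pr_ne (x : W) : pr (fun w => w ≠ x) = 1 - 1 / Fintype.card W := by
  have : Nonempty W := ⟨x⟩
  rw [pr_not (fun w => w = x)]
  congr 1
  unfold pr
  congr 1
  exact_mod_cast card_eq_one.2 ⟨x, by ext; simp⟩

/-- A consistent set of at most `h` literals is false with probability at least `2 ^ (-h)`. -/
theorem pr_hit (A : Finset (ι × Bool)) {h : ℕ} (hA : A.card ≤ h)
    (hc : ∀ i, (i, true) ∈ A → (i, false) ∉ A) :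
    pr (fun β : ι → Bool => ∃ z ∈ A, β z.1 = z.2) ≤ 1 - 1 / (2 ^ h : ℕ) := by
  have h1 := pr_agree (fun i => decide ((i, false) ∈ A)) (A.image Prod.fst)
  have h2 := pr_not (fun f : ι → Bool => ∀ i ∈ A.image Prod.fst, f i = decide ((i, false) ∈ A))
  have h3 : (1 / 2 : ℝ) ^ h ≤ (1 / 2) ^ (A.image Prod.fst).card :=
    pow_le_pow_of_le_one (by norm_num) (by norm_num) (card_image_le.trans hA)
  refine (pr_mono ?_).trans (h2.le.trans ?_)
  · rintro β ⟨⟨i, b⟩, c1, c2⟩ c3
    have := c3 i (mem_image_of_mem _ c1)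
    cases b
    · simp_all
    · exact hc i c1 (by simp_all)
  · rw [h1]
    simp only [prod_const, Fintype.card_bool, Nat.cast_pow, Nat.cast_ofNat, one_div,
      inv_pow] at h3 ⊢
    linarith

theorem pow_half {n m0 m1 : ℕ} (hn : 1 ≤ n) (h : n * m0 ≤ m1) :
    (1 - 1 / (n : ℝ)) ^ m1 ≤ (1 / 2) ^ m0 := by
  have h1 : (1 : ℝ) ≤ n := by exact_mod_cast hn
  have h2 : 1 / (n : ℝ) ≤ 1 := by rw [div_le_one (by linarith)]; exact h1
  have h3 : 0 ≤ 1 / (n : ℝ) := by positivity
  refine (pow_le_pow_of_le_one (by linarith) (by linarith) h).trans ?_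
  rw [pow_mul]
  refine pow_le_pow_left₀ (pow_nonneg (by linarith) _) ((Real.one_sub_div_pow_le_exp_neg h1).trans ?_) _
  rw [Real.exp_neg, one_div]
  exact inv_anti₀ (by norm_num) Real.exp_one_gt_two.le

/-- Each index excludes one value of its bit, or one pair of values of its bit and its coin. -/
theorem pr_pairs {κ X : Type} [Fintype κ] [DecidableEq κ] [Fintype X] [Nonempty X] (T : Finset α)
    (f : α → ι × Bool) (g : α → Option κ) (x : α → X)
    (hf : ∀ t ∈ T, ∀ t' ∈ T, (f t).1 = (f t').1 → t = t')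
    (hg : ∀ t ∈ T, ∀ t' ∈ T, t ≠ t' → g t = g t' → g t = none) {m : ℕ}
    (hm : 2 * Fintype.card X * m ≤ T.card) :
    pr (fun ω : (ι → Bool) × (κ → X) => ∀ t ∈ T, ω.1 (f t).1 = (f t).2 →
      ∃ r, g t = some r ∧ ω.2 r ≠ x t) ≤ (1 / 2) ^ m := by
  have h0 : (1 : ℝ) ≤ Fintype.card X := by exact_mod_cast Fintype.card_pos
  have h1 : 0 ≤ 1 - 1 / (Fintype.card X : ℝ) := by
    rw [sub_nonneg, div_le_one (by linarith)]; exact h0
  refine le_trans (pr_mono (F := fun ω => ∃ I ∈ T.powerset, (∀ z ∈ T.image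
    (fun t => ((f t).1, if t ∈ I then (f t).2 else !(f t).2)), ω.1 z.1 = z.2) ∧
      ∀ t ∈ I, ∃ r, g t = some r ∧ ω.2 r ≠ x t) ?_) ((pr_exists_sum _ _).trans (le_trans
        (sum_le_sum (g := fun I => (1 / 2) ^ T.card * ∏ _t ∈ I, (1 - 1 / (Fintype.card X : ℝ)))
          fun I hI => ?_) ?_))
  · intro ω h
    refine ⟨T.filter fun t => ω.1 (f t).1 = (f t).2, mem_powerset.2 (filter_subset _ _),
      fun z hz => ?_, fun t ht => h t (mem_filter.1 ht).1 (mem_filter.1 ht).2⟩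
    obtain ⟨t, ht, rfl⟩ := mem_image.1 hz
    by_cases c : ω.1 (f t).1 = (f t).2
    · simp [ht, c]
    · have : t ∉ T.filter fun t => ω.1 (f t).1 = (f t).2 := fun d => c (mem_filter.1 d).2
      rw [if_neg this]
      exact Bool.eq_not_iff.2 c
  · have hs := mem_powerset.1 hI
    have a1 : pr (fun η : κ → X => ∀ t ∈ I, ∃ r, g t = some r ∧ η r ≠ x t) ≤
        (1 - 1 / (Fintype.card X : ℝ)) ^ I.card := by
      refine pr_blocks I (fun t => (g t).toFinset) (fun t η => ∃ r, g t = some r ∧ η r ≠ x t)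
        h1 ?_ ?_ ?_
      · intro t c t' c' d
        refine disjoint_left.2 fun r d1 d2 => ?_
        simp only [Option.mem_toFinset, Option.mem_def] at d1 d2
        simpa [d1] using hg t (hs c) t' (hs c') d (d1.trans d2.symm)
      · rintro t - η η' c ⟨r, d1, d2⟩
        exact ⟨r, d1, c r (by simp [d1]) ▸ d2⟩
      · intro t _
        rcases e : g t with _ | r
        · rw [pr_false (by simp)]; exact h1
        · exact (pr_mono (by simp)).trans ((pr_coord r fun w => w ≠ x t).trans (pr_ne _).le)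
    obtain ⟨U, hU⟩ : ∃ U, U = T.image
      (fun t => ((f t).1, if t ∈ I then (f t).2 else !(f t).2)) := ⟨_, rfl⟩
    have a2 : U.card = T.card := by
      rw [hU]
      exact card_image_of_injOn fun t c t' c' e => hf t c t' c' (Prod.mk.inj e).1
    have a3 := pr_values U
    rw [a2, Fintype.card_bool] at a3
    rw [prod_const, ← hU]
    exact (pr_prod_le_mul (fun ω : (ι → Bool) × (κ → X) => (∀ z ∈ U, ω.1 z.1 = z.2) ∧
      ∀ t ∈ I, ∃ r, g t = some r ∧ ω.2 r ≠ x t) (fun β => ∀ z ∈ U, β z.1 = z.2) (pow_nonneg h1 _)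
      (fun _ _ h => h.1) fun β _ => (pr_mono fun η h => h.2).trans a1).trans
      (mul_le_mul_of_nonneg_right a3 (pow_nonneg h1 _))
  · rw [← mul_sum, ← prod_one_add, prod_const, ← mul_pow]
    refine le_trans (le_of_eq ?_) (pow_half (n := 2 * Fintype.card X)
      (by have := Fintype.card_pos (α := X); omega) hm)
    congr 1
    push_cast
    field_simp
    ring

end Pool.Agent.Lib.MP_a300b0_lc
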