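import Mathlib

-- part Pool.Agent.Lib.MP_a300b0_lc.Prob
section

/-! Uniform probability on finite types. -/

namespace Pool.Agent.Lib.MP_a300b0_lc

open Finset Classical

/-- Uniform probability of an event on a finite type. -/
noncomputable def pr {Ω : Type} [Fintype Ω] (E : Ω → Prop) : ℝ :=
  ((univ.filter E).card : ℝ) / (Fintype.card Ω : ℝ)

section basic
variable {Ω : Type} [Fintype Ω]

theorem pr_nonneg (E : Ω → Prop) : 0 ≤ pr E := by unfold pr; positivity

theorem pr_mono {E F : Ω → Prop} (h : ∀ ω, E ω → F ω) : pr E ≤ pr F := by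
  unfold pr
  apply div_le_div_of_nonneg_right _ (by positivity)
  exact_mod_cast card_le_card (fun ω hω => by simp at hω ⊢; exact h ω hω)

theorem pr_le_one (E : Ω → Prop) : pr E ≤ 1 := by
  unfold pr
  apply div_le_one_of_le₀ _ (by positivity)
  exact_mod_cast card_le_univ _

theorem pr_false {E : Ω → Prop} (h : ∀ ω, ¬ E ω) : pr E = 0 := by
  unfold pr
  have : univ.filter E = ∅ := by ext ω; simp [h ω]
  simp [this]

theorem pr_or (E F : Ω → Prop) : pr (fun ω => E ω ∨ F ω) ≤ pr E + pr F := by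
  unfold pr
  rw [← add_div]
  apply div_le_div_of_nonneg_right _ (by positivity)
  have : @filter Ω (fun ω => E ω ∨ F ω) (fun _ => propDecidable _) univ ⊆
      univ.filter E ∪ univ.filter F := by
    intro ω hω; simp at hω ⊢; exact hω
  exact_mod_cast (card_le_card this).trans (card_union_le _ _)

theorem pr_exists_sum {ι : Type} (s : Finset ι) (E : ι → Ω → Prop) :
    pr (fun ω => ∃ i ∈ s, E i ω) ≤ ∑ i ∈ s, pr (E i) := by
  induction s using Finset.induction_on with
  | empty => simp [pr_false]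
  | insert a s ha ih =>
    rw [sum_insert ha]
    refine le_trans (pr_mono (F := fun ω => E a ω ∨ ∃ i ∈ s, E i ω) ?_) ?_
    · rintro ω ⟨i, hi, h⟩
      rcases mem_insert.1 hi with rfl | hi
      · exact Or.inl h
      · exact Or.inr ⟨i, hi, h⟩
    · exact (pr_or _ _).trans (by linarith)

theorem pr_exists_le {ι : Type} (s : Finset ι) (E : ι → Ω → Prop) {ε : ℝ}
    (h : ∀ i ∈ s, pr (E i) ≤ ε) : pr (fun ω => ∃ i ∈ s, E i ω) ≤ s.card * ε := by
  refine (pr_exists_sum s E).trans ?_
  simpa using sum_le_card_nsmul s _ _ h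

theorem pr_exists_univ {ι : Type} [Fintype ι] (E : ι → Ω → Prop) {ε : ℝ}
    (h : ∀ i, pr (E i) ≤ ε) : pr (fun ω => ∃ i, E i ω) ≤ Fintype.card ι * ε := by
  have := pr_exists_le univ E (ε := ε) (fun i _ => h i)
  simpa using this

theorem exists_not_of_pr_lt_one [Nonempty Ω] {E : Ω → Prop} (h : pr E < 1) : ∃ ω, ¬ E ω := by
  by_contra hc
  push Not at hc
  unfold pr at h
  have : univ.filter E = univ := by ext ω; simp [hc ω]
  rw [this, card_univ, div_self (by exact_mod_cast Fintype.card_ne_zero)] at h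
  exact lt_irrefl _ h

theorem pr_not [Nonempty Ω] (E : Ω → Prop) : pr (fun ω => ¬ E ω) = 1 - pr E := by
  unfold pr
  have h := card_filter_add_card_filter_not (s := (univ : Finset Ω)) E
  have h0 : (Fintype.card Ω : ℝ) ≠ 0 := by exact_mod_cast Fintype.card_ne_zero
  rw [card_univ] at h
  field_simp
  have h' : ((univ.filter E).card : ℝ) + ((univ.filter fun ω => ¬ E ω).card : ℝ)
      = Fintype.card Ω := by exact_mod_cast h
  have : (univ.filter fun ω => ¬ E ω) = @filter Ω (fun ω => ¬ E ω) (fun _ => propDecidable _) univ := by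
    congr
  linarith [this ▸ h']

theorem pr_le_of_card {E : Ω → Prop} {s : Finset Ω} (h : ∀ ω, E ω → ω ∈ s) :
    pr E ≤ (s.card : ℝ) / Fintype.card Ω := by
  unfold pr
  apply div_le_div_of_nonneg_right _ (by positivity)
  exact_mod_cast card_le_card (fun ω hω => by simp at hω; exact h ω hω)

theorem pr_equiv {Ω' : Type} [Fintype Ω'] (e : Ω ≃ Ω') (E : Ω' → Prop) :
    pr (fun ω => E (e ω)) = pr E := by
  unfold pr
  rw [Fintype.card_congr e]
  congr 2
  apply card_bij (fun ω _ => e ω)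
  · intro ω hω; simpa using hω
  · intro a _ b _ h; exact e.injective h
  · intro b hb; exact ⟨e.symm b, by simpa using hb, by simp⟩

end basic

section prod
variable {A B : Type} [Fintype A] [Fintype B]

theorem pr_prod (E : A × B → Prop) :
    pr E = (∑ a, pr (fun b => E (a, b))) / Fintype.card A := by
  unfold pr
  rw [← sum_div, div_div, Fintype.card_prod, Nat.cast_mul, mul_comm (Fintype.card B : ℝ)]
  congr 1
  rw [← Nat.cast_sum]
  congr 1
  rw [card_eq_sum_card_fiberwise (f := Prod.fst) (t := univ) (by intro x _; simp)]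
  apply sum_congr rfl
  intro a _
  apply card_bij (fun x _ => x.2)
  · rintro ⟨a', b⟩ h; simp at h ⊢; obtain ⟨h, rfl⟩ := h; exact h
  · rintro ⟨a1, b1⟩ h1 ⟨a2, b2⟩ h2 h; simp at h1 h2 h; simp [h1.2, h2.2, h]
  · intro b hb; exact ⟨(a, b), by simpa using hb, rfl⟩

theorem pr_prod_le_mul (E : A × B → Prop) (F : A → Prop) {ε : ℝ} (hε : 0 ≤ ε)
    (hF : ∀ a b, E (a, b) → F a) (h : ∀ a, F a → pr (fun b => E (a, b)) ≤ ε) :
    pr E ≤ pr F * ε := by
  rw [pr_prod]
  unfold pr
  rw [div_mul_eq_mul_div]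
  apply div_le_div_of_nonneg_right _ (by positivity)
  have : ∀ a, pr (fun b => E (a, b)) ≤ if F a then ε else 0 := by
    intro a
    split_ifs with ha
    · exact h a ha
    · exact (pr_false (fun b hb => ha (hF a b hb))).le
  refine (sum_le_sum (fun a _ => this a)).trans ?_
  rw [← sum_filter]
  simp

theorem pr_prod_le (E : A × B → Prop) {ε : ℝ} (hε : 0 ≤ ε)
    (h : ∀ a, pr (fun b => E (a, b)) ≤ ε) : pr E ≤ ε := by
  have := pr_prod_le_mul E (fun _ => True) hε (fun _ _ _ => trivial) (fun a _ => h a)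
  exact this.trans (by nlinarith [pr_le_one (fun _ : A => True), pr_nonneg (fun _ : A => True)])

theorem pr_prod_le' (E : A × B → Prop) {ε : ℝ} (hε : 0 ≤ ε)
    (h : ∀ b, pr (fun a => E (a, b)) ≤ ε) : pr E ≤ ε := by
  rw [← pr_equiv (Equiv.prodComm B A) E]
  exact pr_prod_le _ hε h

theorem pr_fst_le (F : A → Prop) : pr (fun ω : A × B => F ω.1) ≤ pr F := by
  have := pr_prod_le_mul (fun ω : A × B => F ω.1) F zero_le_one (fun _ _ h => h)
    (fun _ _ => pr_le_one _)
  simpa using this

end prod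

section pi
variable {ι W : Type} [Fintype ι] [DecidableEq ι] [Fintype W]

theorem pr_pi_all (B : ι → W → Prop) : pr (fun f : ι → W => ∀ i, B i (f i)) = ∏ i, pr (B i) := by
  unfold pr
  rw [prod_div_distrib, ← Nat.cast_prod, ← Nat.cast_prod, ← Fintype.card_piFinset]
  congr 2
  · congr 1; ext f; simp
  · simp [Fintype.card_pi]

/-- Independent coordinates; the events may depend on the coordinates outside `S`. -/
theorem pr_pi_dep (S : Finset ι) (B : ι → (ι → W) → W → Prop) {ε : ℝ} (hε : 0 ≤ ε)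
    (hdep : ∀ i f g, (∀ j ∉ S, f j = g j) → B i f = B i g)
    (h : ∀ i ∈ S, ∀ f, pr (B i f) ≤ ε) :
    pr (fun f : ι → W => ∀ i ∈ S, B i f (f i)) ≤ ε ^ S.card := by
  let e := Equiv.piEquivPiSubtypeProd (fun i => i ∈ S) (fun _ => W)
  rw [← pr_equiv e.symm]
  apply pr_prod_le' _ (by positivity)
  intro b
  by_cases hne : Nonempty ({i // i ∈ S} → W)
  · obtain ⟨a0⟩ := hne
    refine le_trans (pr_mono (F := fun a : {i // i ∈ S} → W =>
      ∀ i, B i.1 (e.symm (a0, b)) (a i)) ?_) ?_
    · intro a ha i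
      have h1 := ha i.1 i.2
      have h2 : B i.1 (e.symm (a, b)) = B i.1 (e.symm (a0, b)) := by
        apply hdep
        intro j hj
        simp [e, Equiv.piEquivPiSubtypeProd, hj]
      rw [← h2]
      simpa [e, Equiv.piEquivPiSubtypeProd, i.2] using h1
    · rw [pr_pi_all (fun (i : {i // i ∈ S}) w => B i.1 (e.symm (a0, b)) w)]
      calc ∏ i : {i // i ∈ S}, pr (B i.1 (e.symm (a0, b))) ≤ ∏ _i : {i // i ∈ S}, ε :=
            prod_le_prod (fun i _ => pr_nonneg _) (fun i _ => h i.1 i.2 _)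
        _ = ε ^ S.card := by simp
  · rw [pr_false (fun a _ => hne ⟨a⟩)]; positivity

theorem pr_pi (S : Finset ι) (B : ι → W → Prop) {ε : ℝ} (hε : 0 ≤ ε)
    (h : ∀ i ∈ S, pr (B i) ≤ ε) : pr (fun f : ι → W => ∀ i ∈ S, B i (f i)) ≤ ε ^ S.card :=
  pr_pi_dep S (fun i _ => B i) hε (fun _ _ _ _ => rfl) (fun i hi _ => h i hi)

theorem pr_eq_le (w : W) : pr (fun x : W => x = w) ≤ 1 / Fintype.card W := by
  have := pr_le_of_card (E := fun x : W => x = w) (s := {w}) (fun x h => by simp [h])
  simpa using this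

/-- A set of prescribed values `(index, value)`. -/
theorem pr_values (T : Finset (ι × W)) :
    pr (fun f : ι → W => ∀ t ∈ T, f t.1 = t.2) ≤ (1 / Fintype.card W) ^ T.card := by
  by_cases hinj : Set.InjOn Prod.fst (T : Set (ι × W))
  · have hc : (T.image Prod.fst).card = T.card := card_image_of_injOn hinj
    rw [← hc]
    refine le_trans (pr_mono (F := fun f : ι → W => ∀ i ∈ T.image Prod.fst, (i, f i) ∈ T) ?_)
      (pr_pi (T.image Prod.fst) (fun i w => (i, w) ∈ T) (by positivity) ?_)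
    · intro f hf i hi
      obtain ⟨t, ht, rfl⟩ := mem_image.1 hi
      rw [hf t ht]; exact ht
    · intro i hi
      obtain ⟨t, ht, rfl⟩ := mem_image.1 hi
      refine le_trans (pr_mono ?_) (pr_eq_le t.2)
      intro w hw
      have := hinj hw ht rfl
      exact (Prod.ext_iff.1 this).2
  · rw [pr_false]; · positivity
    intro f hf
    apply hinj
    intro a ha b hb hab
    exact Prod.ext hab (by rw [← hf a ha, ← hf b hb, hab])

end pi

end Pool.Agent.Lib.MP_a300b0_lc
end

-- part Pool.Agent.Lib.MP_a300b0_lc.Table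
section

/-! Existence of a pseudorandom membership table. -/

namespace Pool.Agent.Lib.MP_a300b0_lc

open Finset Classical

theorem pr_zero {ι X : Type} [Fintype ι] [DecidableEq ι] [Fintype X] (x0 : X) (T : Finset ι) :
    pr (fun f : ι → X => ∀ i ∈ T, f i = x0) = (1 / Fintype.card X) ^ T.card := by
  have h0 : (Fintype.card X : ℝ) ≠ 0 := by
    have : Nonempty X := ⟨x0⟩
    exact_mod_cast Fintype.card_ne_zero
  rw [pr_pi_all (fun i w => i ∈ T → w = x0)]
  have : ∀ i, pr (fun w : X => i ∈ T → w = x0) = if i ∈ T then (1 / Fintype.card X : ℝ) else 1 := by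
    intro i
    unfold pr
    split_ifs with h
    · congr 1
      exact_mod_cast card_eq_one.2 ⟨x0, by ext; simp [h]⟩
    · simp [h, h0]
  simp only [this]
  rw [prod_ite_mem, univ_inter, prod_const]

theorem choose_tail {n t : ℕ} {p : ℝ} (hp : 0 ≤ p) (h : 6 * (n * p) ≤ t) :
    (n.choose t : ℝ) * p ^ t ≤ (1 / 2) ^ t := by
  have h1 : (n.choose t : ℝ) ≤ (n : ℝ) ^ t / t.factorial := Nat.choose_le_pow_div t n
  have h2 : (t : ℝ) ^ t / t.factorial ≤ Real.exp t := Real.pow_div_factorial_le_exp _ (by positivity) t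
  have h3 : Real.exp t ≤ 3 ^ t := by
    rw [← Real.exp_one_pow]
    exact pow_le_pow_left₀ (Real.exp_pos 1).le Real.exp_one_lt_three.le t
  have h4 : (n * p) ^ t ≤ ((t : ℝ) / 6) ^ t := pow_le_pow_left₀ (by positivity) (by linarith) t
  calc (n.choose t : ℝ) * p ^ t ≤ (n : ℝ) ^ t / t.factorial * p ^ t :=
        mul_le_mul_of_nonneg_right h1 (by positivity)
    _ = (n * p) ^ t / t.factorial := by rw [mul_pow]; ring
    _ ≤ ((t : ℝ) / 6) ^ t / t.factorial := div_le_div_of_nonneg_right h4 (by positivity)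
    _ = (t : ℝ) ^ t / t.factorial * (1 / 6) ^ t := by rw [div_pow, div_pow]; ring
    _ ≤ 3 ^ t * (1 / 6) ^ t := mul_le_mul_of_nonneg_right (h2.trans h3) (by positivity)
    _ = (1 / 2) ^ t := by rw [← mul_pow]; norm_num

/-- The set of points with a property. -/
noncomputable def fs {V : Type} [Fintype V] (E : V → Prop) : Finset V := univ.filter E

@[simp] theorem mem_fs {V : Type} [Fintype V] {E : V → Prop} {v : V} : v ∈ fs E ↔ E v := by
  simp [fs]

variable {V X : Type} [Fintype V] [DecidableEq V] [Fintype X]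

theorem pr_upper (E : X → Prop) {p : ℝ} (hE : pr E ≤ p) {t : ℕ}
    (h : 6 * (Fintype.card V * p) ≤ t) :
    pr (fun φ : V → X => t ≤ (fs (fun v => E (φ v))).card) ≤ (1 / 2) ^ t := by
  have hp := (pr_nonneg E).trans hE
  refine le_trans (pr_mono (F := fun φ => ∃ A ∈ powersetCard t (univ : Finset V),
    ∀ v ∈ A, E (φ v)) ?_) ((pr_exists_le _ _ (ε := p ^ t) ?_).trans ?_)
  · intro φ hφ
    obtain ⟨A, h1, h2⟩ := exists_subset_card_eq hφ
    exact ⟨A, mem_powersetCard.2 ⟨subset_univ _, h2⟩, fun v hv => by simpa using h1 hv⟩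
  · intro A hA
    rw [← (mem_powersetCard.1 hA).2]
    exact pr_pi A (fun _ => E) hp (fun _ _ => hE)
  · rw [card_powersetCard, card_univ]
    exact choose_tail hp h

theorem pr_lower [Nonempty X] (E : X → Prop) {p : ℝ} (hE : p ≤ pr E) (A : Finset V) {g : ℕ}
    (h : g ≤ A.card * p) : pr (fun φ : V → X => ∀ v ∈ A, ¬ E (φ v)) ≤ (1 / 2) ^ g := by
  refine (pr_pi A (fun _ w => ¬ E w) (Real.exp_pos (-p)).le (fun _ _ => ?_)).trans ?_
  · rw [pr_not]
    have := Real.one_sub_le_exp_neg p
    linarith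
  · rw [← Real.exp_nat_mul]
    refine (Real.exp_le_exp.2 (show _ ≤ g * (-1 : ℝ) by linarith)).trans ?_
    rw [Real.exp_nat_mul, Real.exp_neg, one_div]
    exact pow_le_pow_left₀ (by positivity)
      (inv_anti₀ (by norm_num) Real.exp_one_gt_two.le) g

theorem exists_table (A : Type) [Fintype A] [DecidableEq A] (n Q K g hφ K2 : ℕ) (hQ : 0 < Q)
    (h2 : 6 * (K * g) ≤ K2 * Q) (hg2 : g ≤ K2) (h3 : K * Q ^ Fintype.card A ≤ Q ^ hφ)
    (hu : n ^ Fintype.card A * K + (n ^ Fintype.card A * (Fintype.card A * n) +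
      (Fintype.card A * n) ^ hφ) < 2 ^ g) :
    ∃ mem : Fin (K * (Q ^ Fintype.card A * g)) → A → Fin n → Prop,
    ∃ emb : (A → Fin n) → Fin K → Fin (K * (Q ^ Fintype.card A * g)),
      (∀ y, Function.Injective (emb y)) ∧ (∀ y i j, mem (emb y i) j (y j)) ∧
      (∀ y j z, z ≠ y j → (fs (fun i => mem (emb y i) j z)).card ≤ K2) ∧
      ∀ T : Finset (A × Fin n), hφ ≤ T.card →
        (fs (fun x => ∀ t ∈ T, mem x t.1 t.2)).card ≤ 6 * g := by
  set N := Fintype.card A with hN
  set B := Q ^ N * g with hB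
  let x0 : Fin Q := ⟨0, hQ⟩
  have : Nonempty (Fin Q) := ⟨x0⟩
  have hQ' : (0 : ℝ) < Q := by exact_mod_cast hQ
  let gr : (A → Fin n) → Finset (A × Fin n) := fun y => univ.image (fun j => (j, y j))
  have hgr : ∀ y, (gr y).card = N := fun y => by
    rw [card_image_of_injective _ (fun a b e => congrArg Prod.fst e), card_univ]
  let E : Finset (A × Fin n) → (A × Fin n → Fin Q) → Prop := fun T w => ∀ t ∈ T, w t = x0
  have hE : ∀ T, pr (E T) = (1 / (Q : ℝ)) ^ T.card := fun T => (pr_zero x0 T).trans (by simp)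
  let bl : Fin K → Finset (Fin (K * B)) := fun i => univ.image (fun b => finProdFinEquiv (i, b))
  have e1 : pr (fun φ : Fin (K * B) → A × Fin n → Fin Q =>
      ∃ y, ∃ i, ∀ v ∈ bl i, ¬ E (gr y) (φ v)) ≤ (n ^ N * K : ℕ) * (1 / 2) ^ g := by
    refine (pr_exists_univ _ (ε := K * (1 / 2) ^ g) (fun y => (pr_exists_univ _
      (ε := (1 / 2) ^ g) (fun i => pr_lower (E (gr y)) (hE _).ge (bl i) ?_)).trans (by simp))).trans
      (by simp [hN, mul_assoc])
    rw [card_image_of_injective _ (fun a b e => by simpa using e), hgr]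
    simp only [card_univ, Fintype.card_fin, hB, Nat.cast_mul, Nat.cast_pow, one_div, inv_pow]
    field_simp
    exact le_rfl
  have e2 : pr (fun φ : Fin (K * B) → A × Fin n → Fin Q => ∃ y, ∃ t : A × Fin n, t ∉ gr y ∧
      K2 ≤ (fs (fun v => E (insert t (gr y)) (φ v))).card) ≤
      (n ^ N * (N * n) : ℕ) * (1 / 2) ^ g := by
    refine (pr_exists_univ _ (ε := (N * n : ℕ) * (1 / 2) ^ g) (fun y => (pr_exists_univ _
      (ε := (1 / 2) ^ g) (fun t => ?_)).trans (by simp [hN]))).trans (by simp [hN, mul_assoc])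
    by_cases ht : t ∈ gr y
    · rw [pr_false (fun φ h => h.1 ht)]; positivity
    refine le_trans (pr_mono (fun φ h => h.2)) ((pr_upper (V := Fin (K * B))
      (E (insert t (gr y))) (hE _).le (t := K2) ?_).trans
      (pow_le_pow_of_le_one (by norm_num) (by norm_num) hg2))
    rw [card_insert_of_notMem ht, hgr]
    have : (6 * (K * g) : ℝ) ≤ K2 * Q := by exact_mod_cast h2
    simp only [Fintype.card_fin, hB, Nat.cast_mul, Nat.cast_pow, one_div, inv_pow]
    field_simp
    rw [pow_succ]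
    nlinarith [pow_pos hQ' N]
  have e3 : pr (fun φ : Fin (K * B) → A × Fin n → Fin Q => ∃ T ∈ powersetCard hφ univ,
      6 * g ≤ (fs (fun v => E T (φ v))).card) ≤ ((N * n) ^ hφ : ℕ) * (1 / 2) ^ g := by
    refine (pr_exists_le _ _ (ε := (1 / 2) ^ g) (fun T hT => (pr_upper (V := Fin (K * B))
      (E T) (hE _).le (t := 6 * g) ?_).trans
      (pow_le_pow_of_le_one (by norm_num) (by norm_num) (by omega)))).trans ?_
    · rw [(mem_powersetCard.1 hT).2]
      have : (K * Q ^ N : ℝ) ≤ Q ^ hφ := by exact_mod_cast h3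
      simp only [Fintype.card_fin, hB, Nat.cast_mul, Nat.cast_pow, one_div, inv_pow]
      field_simp
      have h5 : (0 : ℝ) ≤ g := by positivity
      push_cast
      nlinarith
    · refine mul_le_mul_of_nonneg_right ?_ (by positivity)
      rw [card_powersetCard]
      exact_mod_cast (Nat.choose_le_pow _ _).trans (by simp [hN])
  obtain ⟨φ, hφ'⟩ := exists_not_of_pr_lt_one (lt_of_le_of_lt ((pr_or _ _).trans (add_le_add e1
    ((pr_or _ _).trans (add_le_add e2 e3)))) (by
      rw [← add_mul, ← add_mul, ← Nat.cast_add, ← Nat.cast_add, one_div, inv_pow,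
        ← div_eq_mul_inv, div_lt_one (by positivity)]
      exact_mod_cast hu))
  simp only [not_or, not_exists, not_forall, not_not, not_and, not_le] at hφ'
  obtain ⟨f1, f2, f3⟩ := hφ'
  have : ∀ y i, ∃ b, E (gr y) (φ (finProdFinEquiv (i, b))) := by
    intro y i
    obtain ⟨v, hv, h⟩ := f1 y i
    obtain ⟨b, _, rfl⟩ := mem_image.1 hv
    exact ⟨b, h⟩
  choose bb hbb using this
  have hinj : ∀ y, Function.Injective (fun i => finProdFinEquiv (i, bb y i)) :=
    fun y i i' e => congrArg Prod.fst (finProdFinEquiv.injective e)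
  refine ⟨fun x j z => φ x (j, z) = x0, fun y i => finProdFinEquiv (i, bb y i), hinj,
    fun y i j => hbb y i _ (mem_image_of_mem _ (mem_univ j)), fun y j z hz => ?_, fun T hT => ?_⟩
  · refine le_trans ?_ (f2 y (j, z) (by simpa [gr] using hz.symm)).le
    refine card_le_card_of_injOn _ (fun i hi => ?_) (hinj y).injOn
    simp only [mem_coe, mem_fs] at hi ⊢
    intro t ht
    rcases mem_insert.1 ht with rfl | ht
    · exact hi
    · exact hbb y i t ht
  · obtain ⟨T', h4, h5⟩ := exists_subset_card_eq hT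
    refine le_trans (card_le_card (fun x hx => ?_))
      (f3 T' (mem_powersetCard.2 ⟨subset_univ _, h5⟩)).le
    simp only [mem_fs] at hx ⊢
    exact fun t ht => hx t (h4 ht)

end Pool.Agent.Lib.MP_a300b0_lc
end
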