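import Pool.Agent.Lib.MP_a300b0_lc.Defs
import Mathlib

-- part Pool.Agent.Lib.MP_a300b0_lc.ResKit
section

/-! Toolkit for building short resolution refutations; renaming; completeness of GCNF. -/

namespace Pool.Agent.Lib.MP_a300b0_lc

open Finset

/-- The complementary literal. -/
def neg {V : Type} (l : V × Bool) : V × Bool := (l.1, !l.2)

@[simp] theorem neg_neg' {V : Type} (l : V × Bool) : neg (neg l) = l := by simp [neg]
@[simp] theorem neg_mk {V : Type} (v : V) (b : Bool) : neg (v, b) = (v, !b) := rfl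
theorem neg_ne {V : Type} (l : V × Bool) : neg l ≠ l := by
  rcases l with ⟨v, b⟩; simp

variable {V : Type} [DecidableEq V]

def ResValid (S : Finset (Finset (V × Bool))) (R : List (Finset (V × Bool))) : Prop :=
  ∀ (i : ℕ) (h : i < R.length), ResStep S (R.take i) R[i]

theorem ResValid.snoc {S : Finset (Finset (V × Bool))} {R : List (Finset (V × Bool))}
    {E : Finset (V × Bool)} (h : ResValid S R) (hE : ResStep S R E) : ResValid S (R ++ [E]) := by
  intro i hi
  rw [List.length_append, List.length_singleton] at hi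
  by_cases hlt : i < R.length
  · rw [List.getElem_append_left hlt, List.take_append_of_le_length hlt.le]
    exact h i hlt
  · have : i = R.length := by omega
    subst this
    simpa using hE

theorem ResValid.take {S : Finset (Finset (V × Bool))} {R : List (Finset (V × Bool))}
    (h : ResValid S R) (n : ℕ) : ResValid S (R.take n) := by
  intro i hi
  have hi' : i < n ∧ i < R.length := by simpa using hi
  rw [List.take_take, min_eq_left hi'.1.le, List.getElem_take]
  exact h i hi'.2

def Can (S : Finset (Finset (V × Bool))) (n : ℕ) (K : Set (Finset (V × Bool))) : Prop :=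
  ∃ R, ResValid S R ∧ R.length ≤ n ∧ ∀ A ∈ K, ∃ A' ∈ R, A' ⊆ A

def Gen (S : Finset (Finset (V × Bool))) (k : ℕ) (K : Set (Finset (V × Bool)))
    (A : Finset (V × Bool)) : Prop :=
  ∀ n K', K ⊆ K' → Can S n K' → Can S (n + k) (insert A K')

variable {S : Finset (Finset (V × Bool))} {K : Set (Finset (V × Bool))}

theorem Gen.mono {k k' : ℕ} {A : Finset (V × Bool)} (h : Gen S k K A) (hk : k ≤ k') :
    Gen S k' K A := by
  intro n K' hK hc
  obtain ⟨R, h1, h2, h3⟩ := h n K' hK hc
  exact ⟨R, h1, by omega, h3⟩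

theorem gen_sub {A B : Finset (V × Bool)} (hB : B ∈ K) (hBA : B ⊆ A) : Gen S 0 K A := by
  rintro n K' hK ⟨R, h1, h2, h3⟩
  refine ⟨R, h1, h2, ?_⟩
  rintro X (rfl | hX)
  · obtain ⟨A', h4, h5⟩ := h3 B (hK hB)
    exact ⟨A', h4, h5.trans hBA⟩
  · exact h3 X hX

theorem gen_ax {A E : Finset (V × Bool)} (hE : E ∈ S) (hEA : E ⊆ A) : Gen S 1 K A := by
  rintro n K' _ ⟨R, h1, h2, h3⟩
  refine ⟨R ++ [E], h1.snoc (Or.inl hE), by simpa using h2, ?_⟩
  rintro X (rfl | hX)
  · exact ⟨E, by simp, hEA⟩
  · obtain ⟨A', h4, h5⟩ := h3 X hX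
    exact ⟨A', by simp [h4], h5⟩

theorem gen_res_pos {A A1 A2 : Finset (V × Bool)} {p : V} (h1 : A1 ∈ K) (h2 : A2 ∈ K)
    (s1 : A1 ⊆ insert (p, true) A) (s2 : A2 ⊆ insert (p, false) A) : Gen S 1 K A := by
  rintro n K' hK ⟨R, hv, hl, h3⟩
  obtain ⟨B1, hB1, sB1⟩ := h3 A1 (hK h1)
  obtain ⟨B2, hB2, sB2⟩ := h3 A2 (hK h2)
  have easy : ∀ B ∈ R, B ⊆ A → Can S (n + 1) (insert A K') := by
    intro B hB hBA
    refine ⟨R, hv, by omega, ?_⟩
    rintro X (rfl | hX)
    · exact ⟨B, hB, hBA⟩
    · exact h3 X hX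
  by_cases c1 : (p, true) ∈ B1
  · by_cases c2 : (p, false) ∈ B2
    · refine ⟨R ++ [B1.erase (p, true) ∪ B2.erase (p, false)], hv.snoc (Or.inr
        ⟨_, _, p, notMem_erase _ _, notMem_erase _ _, by rwa [insert_erase c1],
          by rwa [insert_erase c2], rfl⟩), by simpa using hl, ?_⟩
      rintro X (rfl | hX)
      · refine ⟨B1.erase (p, true) ∪ B2.erase (p, false), by simp, union_subset ?_ ?_⟩
        · exact subset_insert_iff.1 (sB1.trans s1)
        · exact subset_insert_iff.1 (sB2.trans s2)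
      · obtain ⟨A', h4, h5⟩ := h3 X hX
        exact ⟨A', by simp [h4], h5⟩
    · exact easy B2 hB2 ((subset_insert_iff_of_notMem c2).1 (sB2.trans s2))
  · exact easy B1 hB1 ((subset_insert_iff_of_notMem c1).1 (sB1.trans s1))

theorem gen_res {A A1 A2 : Finset (V × Bool)} {l : V × Bool} (h1 : A1 ∈ K) (h2 : A2 ∈ K)
    (s1 : A1 ⊆ insert l A) (s2 : A2 ⊆ insert (neg l) A) : Gen S 1 K A := by
  rcases l with ⟨p, _ | _⟩
  · exact gen_res_pos h2 h1 s2 s1
  · exact gen_res_pos h1 h2 s1 s2

theorem Gen.seq {k1 k2 : ℕ} {A B : Finset (V × Bool)} (h1 : Gen S k1 K A)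
    (h2 : Gen S k2 (insert A K) B) : Gen S (k1 + k2) K B := by
  intro n K' hK hc
  obtain ⟨R, a1, a2, a3⟩ := h2 _ _ (Set.insert_subset_insert hK) (h1 n K' hK hc)
  refine ⟨R, a1, by omega, ?_⟩
  rintro X (rfl | hX)
  · exact a3 _ (Or.inl rfl)
  · exact a3 _ (Or.inr (Or.inr hX))

theorem Gen.weak {k : ℕ} {K2 : Set (Finset (V × Bool))} {A : Finset (V × Bool)}
    (h : Gen S k K A) (hK : K ⊆ K2) : Gen S k K2 A :=
  fun n K' h' hc => h n K' (hK.trans h') hc

theorem can_all {ι : Type} (T : Finset ι) (tgt : ι → Finset (V × Bool)) {k : ℕ}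
    (h : ∀ i ∈ T, Gen S k K (tgt i)) :
    ∀ n K', K ⊆ K' → Can S n K' → Can S (n + T.card * k) (K' ∪ tgt '' T) := by
  classical
  induction T using Finset.induction_on with
  | empty => intro n K' _ hc; simpa using hc
  | insert a T ha ih =>
    intro n K' hK hc
    have h1 := ih (fun i hi => h i (mem_insert_of_mem hi)) n K' hK hc
    have h2 := h a (mem_insert_self _ _) _ _ (hK.trans Set.subset_union_left) h1
    rw [card_insert_of_notMem ha]
    obtain ⟨R, a1, a2, a3⟩ := h2
    refine ⟨R, a1, by nlinarith, ?_⟩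
    rintro X (hX | ⟨i, hi, rfl⟩)
    · exact a3 X (Or.inr (Or.inl hX))
    · rcases mem_insert.1 (mem_coe.1 hi) with rfl | hi
      · exact a3 _ (Or.inl rfl)
      · exact a3 _ (Or.inr (Or.inr ⟨i, hi, rfl⟩))

theorem gen_all {ι : Type} (T : Finset ι) (tgt : ι → Finset (V × Bool)) {k k2 : ℕ}
    {B : Finset (V × Bool)} (h : ∀ i ∈ T, Gen S k K (tgt i))
    (h2 : Gen S k2 (K ∪ tgt '' T) B) : Gen S (T.card * k + k2) K B := by
  intro n K' hK hc
  obtain ⟨R, a1, a2, a3⟩ := h2 _ _ (Set.union_subset_union_left _ hK) (can_all T tgt h n K' hK hc)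
  refine ⟨R, a1, by omega, ?_⟩
  rintro X (rfl | hX)
  · exact a3 _ (Or.inl rfl)
  · exact a3 _ (Or.inr (Or.inl hX))

theorem gen_multi {A : Finset (V × Bool)} (T : Finset (V × Bool)) :
    ∀ (K : Set (Finset (V × Bool))) (A0 : Finset (V × Bool)), A0 ∈ K → A0 ⊆ A ∪ T →
      (∀ l ∈ T, ∃ B ∈ K, B ⊆ insert (neg l) A) → Gen S T.card K A := by
  induction T using Finset.induction_on with
  | empty => intro K A0 h0 hs _; exact gen_sub h0 (by simpa using hs)
  | insert l T hl ih =>
    intro K A0 h0 hs hT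
    rw [card_insert_of_notMem hl, add_comm]
    obtain ⟨B, hB, hBs⟩ := hT l (mem_insert_self _ _)
    refine Gen.seq (A := A ∪ T) (gen_res (l := l) h0 hB ?_ ?_) ?_
    · intro x hx
      have := hs hx
      simp only [mem_union, mem_insert] at this ⊢
      tauto
    · exact hBs.trans (insert_subset_insert _ subset_union_left)
    · apply ih _ (A ∪ T) (Or.inl rfl) subset_rfl
      intro l' hl'
      obtain ⟨B', h1, h2⟩ := hT l' (mem_insert_of_mem hl')
      exact ⟨B', Or.inr h1, h2⟩

theorem exists_refutation_of_gen {k : ℕ} (h : Gen S k ∅ ∅) :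
    ∃ R, IsResRefutation R S ∧ R.length ≤ k := by
  obtain ⟨R, h1, h2, h3⟩ := h 0 ∅ subset_rfl ⟨[], by intro i hi; simp at hi, by simp, by simp⟩
  obtain ⟨A, hA, hA0⟩ := h3 ∅ (Or.inl rfl)
  rw [subset_empty] at hA0
  subst hA0
  obtain ⟨i, hi, hRi⟩ := List.getElem_of_mem hA
  refine ⟨R.take (i + 1), ⟨h1.take _, ?_⟩, by simp; omega⟩
  rw [List.take_add_one, List.getElem?_eq_getElem hi, hRi]
  simp

end Pool.Agent.Lib.MP_a300b0_lc
end

-- part Pool.Agent.Lib.MP_a300b0_lc.Formula
section

/-! The hard formula. -/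

namespace Pool.Agent.Lib.MP_a300b0_lc

open Finset

/-- The constants of the construction. -/
structure Shape where
  L : ℕ
  nLab : ℕ
  nSlot : ℕ
  nCopy : ℕ

abbrev Lv (S : Shape) := Fin (S.L + 1)

/-- Real positions. -/
@[ext] structure RP (S : Shape) where
  d : Lv S
  bits : Lv S → Bool
  lab : Lv S → Fin S.nLab
  lv : Fin S.nSlot → Lv S
  cp : Fin S.nCopy

/-- Positions: real ones and followers. -/
inductive Pos (S : Shape) where
  | real (p : RP S)
  | fol (o : RP S) (d : Lv S)

/-- Keys (blocks of items). -/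
inductive Key (S : Shape) where
  | lev (j : Lv S) (bs : Lv S → Bool) (a : Fin S.nLab)
  | sp (o : RP S) (w : Bool)

/-- The growing parameters. -/
structure Par (S : Shape) where
  nEl : ℕ
  nV : ℕ
  nG : ℕ
  mem : Fin nV → Lv S → Fin nEl → Prop

variable {S : Shape}

@[ext] structure Node (P : Par S) where
  pos : Pos S
  sl : Fin S.nSlot → Fin P.nEl
  own : Fin P.nEl
  s0 : Fin P.nEl
  s1 : Fin P.nEl
  x : Fin P.nV

/-- Item literals. -/
abbrev IL (P : Par S) := (Key S × Fin P.nEl) × Bool

/-- Literals given along an edge: item literals or guards of the child. -/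
abbrev DL (P : Par S) := IL P ⊕ Fin P.nG

inductive Var (P : Par S) where
  | item (κ : Key S) (y : Fin P.nEl)
  | guard (v : Node P) (i : Fin P.nG)
  | edge (v : Option (Node P)) (b : Bool) (w : Node P)
  | link (v : Option (Node P)) (b : Bool) (w : Node P) (d : DL P)
  | dummy

inductive Ax (P : Par S) where
  | leaf (v : Node P)
  | choice (v : Option (Node P)) (b : Bool)
  | link (v : Option (Node P)) (b : Bool) (w : Node P) (d : DL P)
  | give (v : Option (Node P)) (b : Bool) (w : Node P) (d : DL P)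

instance : Finite (RP S) := Finite.of_injective
  (fun p : RP S => (p.d, p.bits, p.lab, p.lv, p.cp)) (by
    rintro ⟨_, _, _, _, _⟩ ⟨_, _, _, _, _⟩ h; simp_all)
noncomputable instance : Fintype (RP S) := Fintype.ofFinite _
noncomputable instance : DecidableEq (RP S) := Classical.decEq _

def Pos.code : Pos S → RP S ⊕ RP S × Lv S
  | .real p => .inl p
  | .fol o d => .inr (o, d)
instance : Finite (Pos S) := Finite.of_injective Pos.code (by
  rintro (_ | _) (_ | _) h <;> simp_all [Pos.code])
noncomputable instance : Fintype (Pos S) := Fintype.ofFinite _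
noncomputable instance : DecidableEq (Pos S) := Classical.decEq _

def Key.code : Key S → (Lv S × (Lv S → Bool) × Fin S.nLab) ⊕ RP S × Bool
  | .lev j bs a => .inl (j, bs, a)
  | .sp o w => .inr (o, w)
instance : Finite (Key S) := Finite.of_injective Key.code (by
  rintro (_ | _) (_ | _) h <;> simp_all [Key.code])
noncomputable instance : Fintype (Key S) := Fintype.ofFinite _
noncomputable instance : DecidableEq (Key S) := Classical.decEq _

variable {P : Par S}

def Node.code (v : Node P) :
    Pos S × (Fin S.nSlot → Fin P.nEl) × Fin P.nEl × Fin P.nEl × Fin P.nEl × Fin P.nV :=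
  (v.pos, v.sl, v.own, v.s0, v.s1, v.x)
theorem Node.code_inj : Function.Injective (Node.code (P := P)) := by
  rintro ⟨_, _, _, _, _, _⟩ ⟨_, _, _, _, _, _⟩ h; simp_all [Node.code]
instance : Finite (Node P) := Finite.of_injective _ Node.code_inj
noncomputable instance : Fintype (Node P) := Fintype.ofFinite _
noncomputable instance : DecidableEq (Node P) := Classical.decEq _

def Var.code : Var P → (Key S × Fin P.nEl) ⊕ (Node P × Fin P.nG) ⊕
    (Option (Node P) × Bool × Node P) ⊕ (Option (Node P) × Bool × Node P × DL P) ⊕ Unit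
  | .item κ y => .inl (κ, y)
  | .guard v i => .inr (.inl (v, i))
  | .edge v b w => .inr (.inr (.inl (v, b, w)))
  | .link v b w d => .inr (.inr (.inr (.inl (v, b, w, d))))
  | .dummy => .inr (.inr (.inr (.inr ())))
theorem Var.code_inj : Function.Injective (Var.code (P := P)) := by
  rintro (_ | _ | _ | _ | _) (_ | _ | _ | _ | _) h <;> simp_all [Var.code]
instance : Finite (Var P) := Finite.of_injective _ Var.code_inj
noncomputable instance : Fintype (Var P) := Fintype.ofFinite _
noncomputable instance : DecidableEq (Var P) := Classical.decEq _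

def Ax.code : Ax P → Node P ⊕ (Option (Node P) × Bool) ⊕
    (Option (Node P) × Bool × Node P × DL P) ⊕ (Option (Node P) × Bool × Node P × DL P)
  | .leaf v => .inl v
  | .choice v b => .inr (.inl (v, b))
  | .link v b w d => .inr (.inr (.inl (v, b, w, d)))
  | .give v b w d => .inr (.inr (.inr (v, b, w, d)))
theorem Ax.code_inj : Function.Injective (Ax.code (P := P)) := by
  rintro (_ | _ | _ | _) (_ | _ | _ | _) h <;> simp_all [Ax.code]
instance : Finite (Ax P) := Finite.of_injective _ Ax.code_inj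
noncomputable instance : Fintype (Ax P) := Fintype.ofFinite _

abbrev Lit (P : Par S) := Var P × Bool

def trunc (j : Lv S) (bs : Lv S → Bool) : Lv S → Bool := fun i => if i < j then bs i else false

/-- The key of level `j` of a real position. -/
def RP.key (p : RP S) (j : Lv S) : Key S := .lev j (trunc j p.bits) (p.lab j)

def Pos.depth : Pos S → Lv S
  | .real p => p.d
  | .fol _ d => d

def Pos.base : Pos S → RP S
  | .real p => p
  | .fol o _ => o

def inS (v : Node P) (p : RP S) (j : Lv S) (y : Fin P.nEl) : Prop :=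
  (∃ s, p.lv s = j ∧ v.sl s = y) ∨ ((∀ s, p.lv s ≠ j) ∧ P.mem v.x j y)

def memI (v : Node P) (l : IL P) : Prop :=
  match v.pos with
  | .real p => (∃ j, j < p.d ∧ l.1.1 = p.key j ∧ l.2 = p.bits j ∧ inS v p j l.1.2) ∨
      l = ((.sp p false, v.s0), true)
  | .fol o _ => l = ((.sp o false, v.s0), true) ∨ l = ((.sp o true, v.s1), true)

open Classical in
/-- The item literals of a node. -/
noncomputable def Iv (v : Node P) : Finset (IL P) := univ.filter (memI v)

@[simp] theorem mem_Iv {v : Node P} {l : IL P} : l ∈ Iv v ↔ memI v l := by simp [Iv]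

def il (l : IL P) : Lit P := (.item l.1.1 l.1.2, l.2)

theorem il_inj : Function.Injective (il (P := P)) := by
  rintro ⟨⟨_, _⟩, _⟩ ⟨⟨_, _⟩, _⟩ h; simp_all [il]

@[simp] theorem il_eq_il {l l' : IL P} : il l = il l' ↔ l = l' := il_inj.eq_iff
@[simp] theorem neg_il (l : IL P) : neg (il l) = il (neg l) := rfl

def dl (w : Node P) : DL P → Lit P
  | .inl l => il l
  | .inr i => (.guard w i, false)

def dep : Option (Node P) → ℕ
  | none => 0
  | some v => v.pos.depth.val + 1

def zlit : Option (Node P) → Bool → Lit P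
  | none, b => (.dummy, b)
  | some v, b => match v.pos with
    | .real p => il ((p.key p.d, v.own), b)
    | .fol _ _ => (.dummy, b)

def memIo : Option (Node P) → IL P → Prop
  | none, _ => False
  | some v, l => memI v l

def givable (v : Option (Node P)) (b : Bool) (w : Node P) : DL P → Prop
  | .inl l => memI w l ∧ ¬ memIo v l ∧ il l ≠ zlit v b
  | .inr _ => True

def isG (v : Option (Node P)) (l : Lit P) : Prop := ∃ u i, v = some u ∧ l = (.guard u i, false)

def Ax.valid : Ax P → Prop
  | .leaf v => dep (some v) = S.L + 1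
  | .choice v _ => dep v ≤ S.L
  | .link v b w d => dep (some w) = dep v + 1 ∧ givable v b w d
  | .give v b w d => dep (some w) = dep v + 1 ∧ givable v b w d

def Ax.owner : Ax P → Option (Node P)
  | .leaf v => some v
  | .choice v _ => v
  | .link v _ _ _ => v
  | .give v _ _ _ => v

/-- The literals of an axiom other than the guards of its owner. -/
def Ax.body : Ax P → Lit P → Prop
  | .leaf v, l => ∃ l', memI v l' ∧ l = il l'
  | .choice v b, l => ∃ w, dep (some w) = dep v + 1 ∧ l = (.edge v b w, true)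
  | .link v b w d, l => l = (.edge v b w, false) ∨ l = (.link v b w d, true)
  | .give v b w d, l => l = (.link v b w d, false) ∨ l = neg (dl w d)

open Classical in
noncomputable def Ax.cl (a : Ax P) : Finset (Lit P) :=
  univ.filter (fun l => isG a.owner l ∨ a.body l)

theorem mem_cl {a : Ax P} {l : Lit P} : l ∈ a.cl ↔ isG a.owner l ∨ a.body l := by simp [Ax.cl]

open Classical in
/-- The formula. -/
noncomputable def Sig (P : Par S) : Finset (Finset (Lit P)) :=
  (univ.filter Ax.valid).image Ax.cl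

theorem mem_Sig {C : Finset (Lit P)} : C ∈ Sig P ↔ ∃ a : Ax P, a.valid ∧ a.cl = C := by
  simp [Sig]

theorem dep_le (v : Option (Node P)) : dep v ≤ S.L + 1 := by
  rcases v with _ | v
  · simp [dep]
  · have := v.pos.depth.isLt
    simp [dep]; omega

/-! ### The short resolution refutation -/

open Classical in
noncomputable def Dv (v : Option (Node P)) : Finset (Lit P) :=
  univ.filter (fun l => isG v l ∨ ∃ l', memIo v l' ∧ l = il l')

theorem mem_Dv {v : Option (Node P)} {l : Lit P} :
    l ∈ Dv v ↔ isG v l ∨ ∃ l', memIo v l' ∧ l = il l' := by simp [Dv]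

theorem zlit_neg (v : Option (Node P)) : neg (zlit v false) = zlit v true := by
  rcases v with _ | v
  · rfl
  · rcases v with ⟨_ | _, _, _, _, _, _⟩ <;> rfl

theorem gen_edge (v : Option (Node P)) (b : Bool) (w : Node P) (hw : dep (some w) = dep v + 1)
    {K : Set (Finset (Lit P))} (hK : Dv (some w) ∈ K) :
    Gen (Sig P) (4 * Fintype.card (DL P)) K
      (insert (Var.edge v b w, false) (insert (zlit v b) (Dv v))) := by
  classical
  set A := insert (Var.edge v b w, false) (insert (zlit v b) (Dv v)) with hA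
  set T : Finset (DL P) := univ.filter (givable v b w) with hT
  have hG : ∀ l, isG v l → l ∈ A := fun l hl =>
    mem_insert_of_mem (mem_insert_of_mem (mem_Dv.2 (Or.inl hl)))
  have h1 : ∀ d ∈ T, Gen (Sig P) 3 K (insert (neg (dl w d)) A) := by
    intro d hd
    have hd' : givable v b w d := by simpa [hT] using hd
    refine Gen.seq (k1 := 1) (k2 := 2) (A := (Ax.link v b w d).cl)
      (gen_ax (mem_Sig.2 ⟨.link v b w d, ⟨hw, hd'⟩, rfl⟩) subset_rfl) ?_
    refine Gen.seq (k1 := 1) (k2 := 1) (A := (Ax.give v b w d).cl)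
      (gen_ax (mem_Sig.2 ⟨.give v b w d, ⟨hw, hd'⟩, rfl⟩) subset_rfl) ?_
    refine gen_res (l := (Var.link v b w d, true)) (Or.inr (Or.inl rfl)) (Or.inl rfl) ?_ ?_
    · intro l hl
      rcases mem_cl.1 hl with h | h | h
      · exact mem_insert_of_mem (mem_insert_of_mem (hG l h))
      · rw [h]; exact mem_insert_of_mem (mem_insert_of_mem (mem_insert_self _ _))
      · rw [h]; exact mem_insert_self _ _
    · intro l hl
      rcases mem_cl.1 hl with h | h | h
      · exact mem_insert_of_mem (mem_insert_of_mem (hG l h))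
      · rw [h]; exact mem_insert_self _ _
      · rw [h]; exact mem_insert_of_mem (mem_insert_self _ _)
  have hTc : T.card ≤ Fintype.card (DL P) := card_le_univ _
  refine (gen_all T _ h1 (gen_multi (T.image (dl w)) _ (Dv (some w)) (Or.inl hK) ?_ ?_)).mono ?_
  · intro l hl
    rcases mem_Dv.1 hl with ⟨u, i, hu, rfl⟩ | ⟨l', hl', rfl⟩
    · obtain rfl : w = u := by simpa using hu
      exact mem_union_right _ (mem_image.2 ⟨.inr i, by simp [hT, givable], rfl⟩)
    · by_cases hg : givable v b w (.inl l')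
      · exact mem_union_right _ (mem_image.2 ⟨.inl l', by simpa [hT] using hg, rfl⟩)
      · apply mem_union_left
        by_cases h2 : memIo v l'
        · exact mem_insert_of_mem (mem_insert_of_mem (mem_Dv.2 (Or.inr ⟨l', h2, rfl⟩)))
        · have : il l' = zlit v b := by
            by_contra h3
            exact hg ⟨hl', h2, h3⟩
          rw [this]; exact mem_insert_of_mem (mem_insert_self _ _)
  · intro l hl
    obtain ⟨d, hd, rfl⟩ := mem_image.1 hl
    exact ⟨_, Or.inr ⟨d, hd, rfl⟩, subset_rfl⟩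
  · have := card_image_le (s := T) (f := dl w)
    omega

theorem gen_side (v : Option (Node P)) (hv : dep v ≤ S.L) (b : Bool)
    {K : Set (Finset (Lit P))} (hK : ∀ w, dep (some w) = dep v + 1 → Dv (some w) ∈ K) :
    Gen (Sig P) (Fintype.card (Node P) * (4 * Fintype.card (DL P) + 1) + 1) K
      (insert (zlit v b) (Dv v)) := by
  classical
  set T : Finset (Node P) := univ.filter (fun w => dep (some w) = dep v + 1) with hT
  have hTc : T.card ≤ Fintype.card (Node P) := card_le_univ _
  refine (gen_all T _ (fun w hw => gen_edge v b w (by simpa [hT] using hw)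
    (hK w (by simpa [hT] using hw))) (Gen.seq (A := (Ax.choice v b).cl)
      (gen_ax (mem_Sig.2 ⟨.choice v b, hv, rfl⟩) subset_rfl)
      (gen_multi (T.image (fun w => (Var.edge v b w, true))) _ _ (Or.inl rfl) ?_ ?_))).mono ?_
  · intro l hl
    rcases mem_cl.1 hl with h | ⟨w, hw, rfl⟩
    · exact mem_union_left _ (mem_insert_of_mem (mem_Dv.2 (Or.inl h)))
    · exact mem_union_right _ (mem_image.2 ⟨w, by simpa [hT] using hw, rfl⟩)
  · intro l hl
    obtain ⟨w, hw, rfl⟩ := mem_image.1 hl
    exact ⟨_, Or.inr (Or.inr ⟨w, hw, rfl⟩), subset_rfl⟩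
  · have := card_image_le (s := T) (f := fun w => (Var.edge v b w, true))
    nlinarith

/-- Cost of deriving the clause of one node from the clauses of the next layer. -/
noncomputable def nodeCost (P : Par S) : ℕ :=
  2 * (Fintype.card (Node P) * (4 * Fintype.card (DL P) + 1) + 1) + 1

theorem gen_node (v : Option (Node P)) {K : Set (Finset (Lit P))}
    (hK : ∀ w, dep (some w) = dep v + 1 → Dv (some w) ∈ K) :
    Gen (Sig P) (nodeCost P) K (Dv v) := by
  by_cases hv : dep v ≤ S.L
  · have h := Gen.seq (gen_side v hv false hK) (Gen.seq (gen_side v hv true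
      (K := insert (insert (zlit v false) (Dv v)) K) (fun w hw => Or.inr (hK w hw)))
      (gen_res (A := Dv v) (l := zlit v false) (Or.inr (Or.inl rfl)) (Or.inl rfl) subset_rfl
        (by rw [zlit_neg])))
    exact h.mono (by unfold nodeCost; omega)
  · have h1 := dep_le v
    rcases v with _ | v
    · simp [dep] at hv
    · refine (gen_ax (mem_Sig.2 ⟨.leaf v, by show dep _ = _; omega, rfl⟩) ?_).mono
        (by unfold nodeCost; omega)
      intro l hl
      exact mem_Dv.2 (mem_cl.1 hl)

theorem gen_layers (t : ℕ) : ∀ {K : Set (Finset (Lit P))} {k : ℕ} {B : Finset (Lit P)},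
    Gen (Sig P) k (K ∪ {A | ∃ w : Node P, S.L + 2 ≤ dep (some w) + t ∧ A = Dv (some w)}) B →
    Gen (Sig P) (t * (Fintype.card (Node P) * nodeCost P) + k) K B := by
  classical
  induction t with
  | zero =>
    intro K k B h
    refine (h.weak ?_).mono (by omega)
    rintro A (hA | ⟨w, hw, _⟩)
    · exact hA
    · have := dep_le (some w); omega
  | succ t ih =>
    intro K k B h
    set T : Finset (Node P) := univ.filter (fun w => S.L + 2 = dep (some w) + (t + 1)) with hT
    have hTc : T.card ≤ Fintype.card (Node P) := card_le_univ _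
    have h2 := gen_all (S := Sig P) (K := K ∪ {A | ∃ w : Node P, S.L + 2 ≤ dep (some w) + t ∧
        A = Dv (some w)}) T (fun w => Dv (some w)) (k := nodeCost P) (k2 := k) (B := B) (by
      intro w hw
      have hw' : S.L + 2 = dep (some w) + (t + 1) := by simpa [hT] using hw
      apply gen_node
      intro w' hw2
      exact Or.inr ⟨w', by omega, rfl⟩) (h.weak (by
      rintro A (hA | ⟨w, hw, rfl⟩)
      · exact Or.inl (Or.inl hA)
      · by_cases hc : S.L + 2 = dep (some w) + (t + 1)
        · exact Or.inr ⟨w, by simpa [hT] using hc, rfl⟩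
        · exact Or.inl (Or.inr ⟨w, by omega, rfl⟩)))
    refine (ih h2).mono ?_
    have := Nat.mul_le_mul_right (nodeCost P) hTc
    nlinarith

theorem exists_short_refutation (P : Par S) : ∃ R, IsResRefutation R (Sig P) ∧
    R.length ≤ (S.L + 2) * (Fintype.card (Node P) + 1) * nodeCost P := by
  have h : Gen (Sig P) ((S.L + 1) * (Fintype.card (Node P) * nodeCost P) + nodeCost P) ∅ ∅ := by
    apply gen_layers
    have h0 : Dv (none : Option (Node P)) = ∅ := by
      ext l; simp [mem_Dv, isG, memIo]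
    rw [← h0]
    apply gen_node
    intro w hw
    exact Or.inr ⟨w, by simp [dep] at hw ⊢; omega, rfl⟩
  obtain ⟨R, h1, h2⟩ := exists_refutation_of_gen h
  refine ⟨R, h1, h2.trans ?_⟩
  have e : (S.L + 2) * (Fintype.card (Node P) + 1) * nodeCost P =
      (S.L + 1) * (Fintype.card (Node P) * nodeCost P) + nodeCost P +
        (Fintype.card (Node P) * nodeCost P + (S.L + 1) * nodeCost P) := by ring
  omega

end Pool.Agent.Lib.MP_a300b0_lc
end

-- part Pool.Agent.Lib.MP_a300b0_lc.Comb
section

/-! Combinatorial lemmas: skew set pairs, hitting sets, closure sequences. -/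

namespace Pool.Agent.Lib.MP_a300b0_lc

open Finset

theorem skew_pairs {α ι : Type} [DecidableEq α] [LinearOrder ι] (B : ι → Finset α) (b : ℕ) :
    ∀ (a : ℕ) (J : Finset ι) (A : ι → Finset α), (∀ j ∈ J, (A j).card ≤ a) →
      (∀ j ∈ J, (B j).card ≤ b) → (∀ j ∈ J, Disjoint (A j) (B j)) →
      (∀ j ∈ J, ∀ i ∈ J, j < i → ¬ Disjoint (A j) (B i)) → J.card ≤ (b + 1) ^ a := by
  intro a
  induction a with
  | zero =>
    intro J A hA _ _ h
    rw [pow_zero, card_le_one]
    intro x hx y hy
    by_contra hne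
    rcases lt_or_gt_of_ne hne with hlt | hlt
    · apply h x hx y hy hlt
      rw [card_eq_zero.1 (Nat.le_zero.1 (hA x hx))]; simp
    · apply h y hy x hx hlt
      rw [card_eq_zero.1 (Nat.le_zero.1 (hA y hy))]; simp
  | succ a ih =>
    intro J A hA hB hd h
    rcases J.eq_empty_or_nonempty with rfl | hne
    · simp
    set m := J.max' hne with hm
    have hmJ : m ∈ J := J.max'_mem hne
    have hsub : J.erase m ⊆ (B m).biUnion (fun p => J.filter (fun j => p ∈ A j)) := by
      intro j hj
      have hjJ := mem_of_mem_erase hj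
      have hlt : j < m := lt_of_le_of_ne (J.le_max' j hjJ) (ne_of_mem_erase hj)
      obtain ⟨p, hp1, hp2⟩ := not_disjoint_iff.1 (h j hjJ m hmJ hlt)
      exact mem_biUnion.2 ⟨p, hp2, mem_filter.2 ⟨hjJ, hp1⟩⟩
    have hfib : ∀ p ∈ B m, (J.filter (fun j => p ∈ A j)).card ≤ (b + 1) ^ a := by
      intro p _
      apply ih _ (fun j => (A j).erase p)
      · intro j hj
        have := mem_filter.1 hj
        rw [card_erase_of_mem this.2]
        have := hA j this.1
        omega
      · intro j hj; exact hB j (mem_filter.1 hj).1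
      · intro j hj
        exact (hd j (mem_filter.1 hj).1).mono_left (erase_subset _ _)
      · intro j hj i hi hlt
        obtain ⟨x, hx1, hx2⟩ := not_disjoint_iff.1 (h j (mem_filter.1 hj).1 i (mem_filter.1 hi).1 hlt)
        refine not_disjoint_iff.2 ⟨x, mem_erase.2 ⟨?_, hx1⟩, hx2⟩
        rintro rfl
        exact disjoint_left.1 (hd i (mem_filter.1 hi).1) (mem_filter.1 hi).2 hx2
    have h1 : (J.erase m).card ≤ b * (b + 1) ^ a := by
      refine (card_le_card hsub).trans (card_biUnion_le.trans ?_)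
      refine (sum_le_card_nsmul _ _ _ hfib).trans ?_
      simpa using hB m hmJ
    rw [card_erase_of_mem hmJ] at h1
    have h2 : 1 ≤ (b + 1) ^ a := Nat.one_le_pow _ _ (by omega)
    rw [pow_succ]
    have : 1 ≤ J.card := card_pos.2 hne
    nlinarith [Nat.sub_add_cancel this]

/-- Skew set pairs with lists of exceptions. -/
theorem skew_pairs_exc {α ι : Type} [DecidableEq α] [LinearOrder ι] (J : Finset ι)
    (A B : ι → Finset α) (Ex : ι → Finset ι) (a b e : ℕ) (hA : ∀ j ∈ J, (A j).card ≤ a)
    (hB : ∀ j ∈ J, (B j).card ≤ b) (hE : ∀ j ∈ J, (Ex j).card ≤ e)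
    (hd : ∀ j ∈ J, Disjoint (A j) (B j))
    (h : ∀ j ∈ J, ∀ i ∈ J, j < i → j ∈ Ex i ∨ ¬ Disjoint (A j) (B i)) :
    J.card ≤ (b + e + 1) ^ (a + 1) := by
  classical
  apply skew_pairs (α := α ⊕ ι) (fun i => (B i).disjSum ((Ex i).erase i)) (b + e) (a + 1) J
    (fun j => (A j).disjSum {j})
  · intro j hj; simpa using hA j hj
  · intro j hj
    rw [card_disjSum]
    have := hB j hj
    have := hE j hj
    have := card_erase_le (s := Ex j) (a := j)
    omega
  · intro j hj
    rw [disjoint_left]
    rintro (x | x) h1 h2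
    · simp at h1 h2; exact disjoint_left.1 (hd j hj) h1 h2
    · simp at h1 h2; exact h2.1 h1
  · intro j hj i hi hlt
    rcases h j hj i hi hlt with h1 | h1
    · exact not_disjoint_iff.2 ⟨Sum.inr j, by simp, by simp [h1, hlt.ne]⟩
    · obtain ⟨x, hx1, hx2⟩ := not_disjoint_iff.1 h1
      exact not_disjoint_iff.2 ⟨Sum.inl x, by simpa using hx1, by simpa using hx2⟩

/-- A kernel for hitting sets of a family of small sets. -/
theorem hitting_kernel {α : Type} [DecidableEq α] (h : ℕ) : ∀ (d : ℕ) (O : Finset (Finset α)),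
    (∀ C ∈ O, C.card ≤ h) → ∃ U : Finset α, U.card + 1 ≤ (h + 1) ^ d ∧
      ∀ Λ : Finset α, (∀ C ∈ O, ∃ l ∈ C, l ∈ Λ) →
        (∀ C ∈ O, ∃ l ∈ C, l ∈ Λ ∩ U) ∨ d ≤ (Λ ∩ U).card := by
  intro d
  induction d with
  | zero => intro O _; exact ⟨∅, by simp, fun _ _ => Or.inr (by simp)⟩
  | succ d ih =>
    intro O hO
    rcases O.eq_empty_or_nonempty with rfl | ⟨C0, hC0⟩
    · exact ⟨∅, by simpa using Nat.one_le_pow _ _ (by omega), fun _ _ => Or.inl (by simp)⟩
    choose U hU1 hU2 using fun l : α =>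
      ih (O.filter (fun C => l ∉ C)) (fun C hC => hO C (mem_filter.1 hC).1)
    refine ⟨C0.biUnion (fun l => insert l (U l)), ?_, ?_⟩
    · have h1 : (C0.biUnion (fun l => insert l (U l))).card ≤ h * (h + 1) ^ d := by
        refine card_biUnion_le.trans ?_
        refine (sum_le_card_nsmul _ _ ((h + 1) ^ d) ?_).trans ?_
        · intro l _; exact (card_insert_le _ _).trans (hU1 l)
        · simpa using hO C0 hC0
      have h2 : 1 ≤ (h + 1) ^ d := Nat.one_le_pow _ _ (by omega)
      rw [pow_succ]; nlinarith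
    · intro Λ hΛ
      obtain ⟨l, hl, hlΛ⟩ := hΛ C0 hC0
      have hsub : insert l (U l) ⊆ C0.biUnion (fun l => insert l (U l)) :=
        subset_biUnion_of_mem (fun l => insert l (U l)) hl
      rcases hU2 l (Λ.erase l) (by
        intro C hC
        obtain ⟨x, hx, hxΛ⟩ := hΛ C (mem_filter.1 hC).1
        refine ⟨x, hx, mem_erase.2 ⟨?_, hxΛ⟩⟩
        rintro rfl
        exact (mem_filter.1 hC).2 hx) with h1 | h1
      · left
        intro C hC
        by_cases hlC : l ∈ C
        · exact ⟨l, hlC, mem_inter.2 ⟨hlΛ, hsub (mem_insert_self _ _)⟩⟩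
        · obtain ⟨x, hx, hx2⟩ := h1 C (mem_filter.2 ⟨hC, hlC⟩)
          exact ⟨x, hx, mem_inter.2 ⟨mem_of_mem_erase (mem_inter.1 hx2).1,
            hsub (mem_insert_of_mem (mem_inter.1 hx2).2)⟩⟩
      · right
        have hs : insert l (Λ.erase l ∩ U l) ⊆ Λ ∩ C0.biUnion (fun l => insert l (U l)) := by
          intro x hx
          rcases mem_insert.1 hx with rfl | hx
          · exact mem_inter.2 ⟨hlΛ, hsub (mem_insert_self _ _)⟩
          · exact mem_inter.2 ⟨mem_of_mem_erase (mem_inter.1 hx).1,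
              hsub (mem_insert_of_mem (mem_inter.1 hx).2)⟩
        have := card_le_card hs
        rw [card_insert_of_notMem (by simp)] at this
        omega

/-- Sets reachable in `s` steps by following the suggestions of `F`. -/
def reach {α : Type} [DecidableEq α] (F : Finset α → Finset α) : ℕ → Finset (Finset α)
  | 0 => {∅}
  | s + 1 => (reach F s).biUnion (fun Q => (F Q \ Q).image (fun v => insert v Q))

theorem reach_card {α : Type} [DecidableEq α] (F : Finset α → Finset α) :
    ∀ s, ∀ Q ∈ reach F s, Q.card = s := by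
  intro s
  induction s with
  | zero => intro Q hQ; simp [reach] at hQ; simp [hQ]
  | succ s ih =>
    intro Q hQ
    simp only [reach, mem_biUnion, mem_image] at hQ
    obtain ⟨Q0, h0, v, hv, rfl⟩ := hQ
    rw [card_insert_of_notMem (mem_sdiff.1 hv).2, ih Q0 h0]

theorem card_reach_le {α : Type} [DecidableEq α] (F : Finset α → Finset α) (c Λ : ℕ)
    (hF : ∀ Q : Finset α, Q.card < c → (F Q).card ≤ Λ) :
    ∀ s, s ≤ c → (reach F s).card ≤ Λ ^ s := by
  intro s
  induction s with
  | zero => intro _; simp [reach]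
  | succ s ih =>
    intro hs
    refine card_biUnion_le.trans ?_
    refine (sum_le_card_nsmul _ _ Λ ?_).trans ?_
    · intro Q hQ
      refine card_image_le.trans ((card_le_card sdiff_subset).trans (hF Q ?_))
      rw [reach_card F s Q hQ]; omega
    · rw [pow_succ]; simpa using Nat.mul_le_mul_right _ (ih (by omega))

theorem reach_closure {α : Type} [DecidableEq α] (F : Finset α → Finset α) (Pl : α → Prop) :
    ∀ c : ℕ, (∃ s < c, ∃ Q ∈ reach F s, (∀ v ∈ Q, Pl v) ∧ ∀ v ∈ F Q, Pl v → v ∈ Q) ∨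
      ∃ Q ∈ reach F c, ∀ v ∈ Q, Pl v := by
  intro c
  induction c with
  | zero => exact Or.inr ⟨∅, by simp [reach], by simp⟩
  | succ c ih =>
    rcases ih with ⟨s, hs, h⟩ | ⟨Q, hQ, hP⟩
    · exact Or.inl ⟨s, by omega, h⟩
    · by_cases hcl : ∀ v ∈ F Q, Pl v → v ∈ Q
      · exact Or.inl ⟨c, by omega, Q, hQ, hP, hcl⟩
      · push Not at hcl
        obtain ⟨v, hv, hPv, hvQ⟩ := hcl
        refine Or.inr ⟨insert v Q, ?_, ?_⟩
        · simp only [reach, mem_biUnion, mem_image]
          exact ⟨Q, hQ, v, mem_sdiff.2 ⟨hv, hvQ⟩, rfl⟩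
        · intro w hw
          rcases mem_insert.1 hw with rfl | hw
          · exact hPv
          · exact hP w hw

theorem exists_cover_fun {α β : Type} [Fintype β] [Nonempty α] (T : Finset α)
    (h : T.card ≤ Fintype.card β) : ∃ f : β → α, ∀ t ∈ T, ∃ s, f s = t := by
  classical
  obtain ⟨g⟩ : Nonempty (T ↪ β) := Function.Embedding.nonempty_of_card_le (by simpa using h)
  refine ⟨fun s => if hs : ∃ t : T, g t = s then (hs.choose : α) else Classical.arbitrary α, ?_⟩
  intro t ht
  refine ⟨g ⟨t, ht⟩, ?_⟩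
  have hs : ∃ t' : T, g t' = g ⟨t, ht⟩ := ⟨_, rfl⟩
  simp only [hs, dite_true]
  have := g.injective hs.choose_spec
  rw [this]

theorem exists_notMem_of_card_lt {α : Type} [Fintype α] (T : Finset α)
    (h : T.card < Fintype.card α) : ∃ a, a ∉ T := by
  by_contra hc
  push Not at hc
  have : T = univ := eq_univ_of_forall hc
  rw [this, card_univ] at h
  exact lt_irrefl _ h

/-- A chosen subset with `x` elements (when there is one). -/
noncomputable def firstN {α : Type} (x : ℕ) (S : Finset α) : Finset α :=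
  if h : x ≤ S.card then (exists_subset_card_eq h).choose else ∅

theorem firstN_subset {α : Type} (x : ℕ) (S : Finset α) : firstN x S ⊆ S := by
  unfold firstN
  split_ifs with h
  · exact (exists_subset_card_eq h).choose_spec.1
  · exact empty_subset _

theorem card_firstN {α : Type} {x : ℕ} {S : Finset α} (h : x ≤ S.card) :
    (firstN x S).card = x := by
  unfold firstN
  rw [dif_pos h]
  exact (exists_subset_card_eq h).choose_spec.2

theorem card_firstN_le {α : Type} (x : ℕ) (S : Finset α) : (firstN x S).card ≤ x := by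
  by_cases h : x ≤ S.card
  · exact (card_firstN h).le
  · unfold firstN; rw [dif_neg h]; simp

/-- Pigeonhole: a large set covered by few sets and a small remainder meets one set heavily. -/
theorem exists_heavy {α β : Type} [DecidableEq α] (S X : Finset α) (Q : Finset β)
    (I : β → Finset α) (h : ℕ) (hcov : ∀ l ∈ S, l ∈ X ∨ ∃ q ∈ Q, l ∈ I q)
    (hc : X.card + Q.card * h < S.card) : ∃ q ∈ Q, h ≤ (I q ∩ S).card := by
  by_contra hn
  push Not at hn
  have hsub : S ⊆ X ∪ Q.biUnion (fun q => I q ∩ S) := by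
    intro l hl
    rcases hcov l hl with h1 | ⟨q, hq, h1⟩
    · exact mem_union_left _ h1
    · exact mem_union_right _ (mem_biUnion.2 ⟨q, hq, mem_inter.2 ⟨h1, hl⟩⟩)
  have h1 := (card_le_card hsub).trans (card_union_le _ _)
  have h2 : (Q.biUnion (fun q => I q ∩ S)).card ≤ Q.card * h := by
    refine card_biUnion_le.trans ?_
    simpa using sum_le_card_nsmul Q _ h (fun q hq => (hn q hq).le)
  omega

end Pool.Agent.Lib.MP_a300b0_lc
end

-- part Pool.Agent.Lib.MP_a300b0_lc.World
section

/-! Hidden data of the adversary, its states and its three-valued assignments. -/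

namespace Pool.Agent.Lib.MP_a300b0_lc

open Finset

variable {S : Shape} {P : Par S}

/-- The hidden data. -/
structure World (P : Par S) where
  ζ : Key S → Fin P.nEl
  nx : Pos S → Fin P.nV
  β : Key S × Fin P.nEl → Bool
  γ : Node P → Option (Fin P.nG) → Bool
  p0 : RP S

def World.node (W : World P) (p : Pos S) : Node P where
  pos := p
  sl := fun s => W.ζ (p.base.key (p.base.lv s))
  own := W.ζ (p.base.key p.base.d)
  s0 := W.ζ (.sp p.base false)
  s1 := W.ζ (.sp p.base true)
  x := W.nx p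

/-- The node at a real position. -/
abbrev World.rn (W : World P) (o : RP S) : Node P := W.node (.real o)

def World.pool (W : World P) (v : Node P) : Prop := v = W.node v.pos

def World.poolO (W : World P) : Option (Node P) → Prop
  | none => True
  | some v => W.pool v

def World.sel (W : World P) (l : IL P) : Prop := l.1.2 = W.ζ l.1.1

/-- The selected literal of a key. -/
def World.sl (W : World P) (κ : Key S) (b : Bool) : IL P := ((κ, W.ζ κ), b)

abbrev World.xi (W : World P) (o : RP S) : IL P := W.sl (.sp o false) true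
abbrev World.xi' (W : World P) (o : RP S) : IL P := W.sl (.sp o true) true
abbrev World.zl (W : World P) (o : RP S) (j : Lv S) : IL P := W.sl (o.key j) (o.bits j)

/-- Static requirements on the hidden data. -/
structure World.Fine (W : World P) : Prop where
  compat : ∀ p j, P.mem (W.nx p) j (W.ζ (p.base.key j))
  g0 : ∀ v, ∃ i, W.γ v (some i) = false
  d0 : W.p0.d = 0
  nG : 3 ≤ P.nG

def World.FI (W : World P) (l : IL P) : Prop :=
  W.β l.1 ≠ l.2 ∨ W.sel l ∨ ∃ p, memI (W.node p) l

def World.FE (W : World P) : Option (Node P) → Bool → Prop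
  | none, _ => True
  | some v, b => W.pool v ∨ W.γ v none ≠ b

/-- Literals that the adversary may ever declare false. -/
def World.F (W : World P) : Lit P → Prop
  | (.item κ y, b) => W.FI ((κ, y), b)
  | (.guard v i, b) => (W.pool v ∧ b = false) ∨ (¬ W.pool v ∧ W.γ v (some i) ≠ b)
  | (.edge v _ _, b) => W.FE v b
  | (.link v _ _ _, b) => W.FE v b
  | (.dummy, _) => True

@[simp] theorem World.F_il (W : World P) (l : IL P) : W.F (il l) ↔ W.FI l := Iff.rfl

variable (W : World P)

@[simp] theorem World.node_pos (p : Pos S) : (W.node p).pos = p := rfl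
@[simp] theorem World.pool_node (p : Pos S) : W.pool (W.node p) := rfl
theorem World.node_inj : Function.Injective W.node := fun p q h => by
  simpa using congrArg Node.pos h
@[simp] theorem World.node_eq {p q : Pos S} : W.node p = W.node q ↔ p = q := W.node_inj.eq_iff
@[simp] theorem World.sel_sl (κ : Key S) (b : Bool) : W.sel (W.sl κ b) := rfl
@[simp] theorem World.sel_neg (l : IL P) : W.sel (neg l) ↔ W.sel l := Iff.rfl
@[simp] theorem World.neg_sl (κ : Key S) (b : Bool) : neg (W.sl κ b) = W.sl κ (!b) := rfl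
@[simp] theorem World.sl_key (κ : Key S) (b : Bool) : (W.sl κ b).1.1 = κ := rfl
@[simp] theorem World.sl_pol (κ : Key S) (b : Bool) : (W.sl κ b).2 = b := rfl
@[simp] theorem World.sl_eq {κ κ' : Key S} {b b' : Bool} :
    W.sl κ b = W.sl κ' b' ↔ κ = κ' ∧ b = b' := by
  constructor
  · intro h; exact ⟨congrArg (fun l : IL P => l.1.1) h, congrArg (fun l : IL P => l.2) h⟩
  · rintro ⟨rfl, rfl⟩; rfl
theorem World.eq_sl {l : IL P} (h : W.sel l) : l = W.sl l.1.1 l.2 := by
  rcases l with ⟨⟨κ, y⟩, b⟩
  simp only [World.sel] at h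
  simp [World.sl, h]

theorem key_inj {p q : RP S} {i j : Lv S} (h : p.key i = q.key j) :
    i = j ∧ (∀ t < i, p.bits t = q.bits t) ∧ p.lab i = q.lab i := by
  simp only [RP.key, Key.lev.injEq] at h
  obtain ⟨rfl, h2, h3⟩ := h
  refine ⟨rfl, fun t ht => ?_, h3⟩
  simpa [trunc, ht] using congrFun h2 t

theorem key_eq {p q : RP S} {i : Lv S} (h1 : ∀ t < i, p.bits t = q.bits t)
    (h2 : p.lab i = q.lab i) : p.key i = q.key i := by
  simp only [RP.key, Key.lev.injEq, true_and, h2, and_true]
  funext t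
  by_cases ht : t < i <;> simp [trunc, ht, h1]

@[simp] theorem key_ne_sp (p o : RP S) (i : Lv S) (w : Bool) : p.key i ≠ .sp o w := by
  simp [RP.key]
@[simp] theorem sp_ne_key (p o : RP S) (i : Lv S) (w : Bool) : Key.sp o w ≠ p.key i := by
  simp [RP.key]

variable {W}

theorem memI_rn {o : RP S} {l : IL P} : memI (W.rn o) l ↔
    (∃ j, j < o.d ∧ l.1.1 = o.key j ∧ l.2 = o.bits j ∧ inS (W.rn o) o j l.1.2) ∨ l = W.xi o :=
  Iff.rfl

theorem memI_fol {o : RP S} {d : Lv S} {l : IL P} : memI (W.node (.fol o d)) l ↔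
    l = W.xi o ∨ l = W.xi' o := Iff.rfl

theorem memI_zl (hW : W.Fine) {o : RP S} {j : Lv S} (hj : j < o.d) : memI (W.rn o) (W.zl o j) := by
  refine Or.inl ⟨j, hj, rfl, rfl, ?_⟩
  by_cases h : ∃ s, o.lv s = j
  · obtain ⟨s, hs⟩ := h
    exact Or.inl ⟨s, hs, by subst hs; rfl⟩
  · push Not at h
    exact Or.inr ⟨h, hW.compat (.real o) j⟩

theorem memI_xi (o : RP S) : memI (W.rn o) (W.xi o) := Or.inr rfl

/-- A non selected literal of a real pool node lies on a dense level. -/
theorem memI_rn_nonsel {o : RP S} {l : IL P} (h : memI (W.rn o) l) (hs : ¬ W.sel l) :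
    ∃ j, j < o.d ∧ l.1.1 = o.key j ∧ l.2 = o.bits j ∧ (∀ s, o.lv s ≠ j) ∧
      P.mem (W.nx (.real o)) j l.1.2 := by
  rcases memI_rn.1 h with ⟨j, h1, h2, h3, ⟨s, h4, h5⟩ | h4⟩ | rfl
  · exfalso; apply hs
    unfold World.sel
    rw [← h5, h2, ← h4]; rfl
  · exact ⟨j, h1, h2, h3, h4⟩
  · exact absurd (W.sel_sl _ _) hs

theorem memI_rn_sel {o : RP S} {l : IL P} (h : memI (W.rn o) l) (hs : W.sel l) :
    (∃ j, j < o.d ∧ l = W.zl o j) ∨ l = W.xi o := by
  rcases memI_rn.1 h with ⟨j, h1, h2, h3, _⟩ | rfl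
  · exact Or.inl ⟨j, h1, by rw [W.eq_sl hs, h2, h3]⟩
  · exact Or.inr rfl

theorem pool_cases {v : Node P} (h : W.pool v) :
    (∃ o, v = W.rn o) ∨ ∃ o d, v = W.node (.fol o d) := by
  unfold World.pool at h
  rcases hp : v.pos with o | ⟨o, d⟩
  · exact Or.inl ⟨o, by rw [h, hp]⟩
  · exact Or.inr ⟨o, d, by rw [h, hp]⟩

/-- A selected literal on a level key in a pool node comes from a real position. -/
theorem pool_key {v : Node P} (hv : W.pool v) {p : RP S} {j : Lv S} {b : Bool}
    (h : memI v (W.sl (p.key j) b)) : v.pos.base.lab j = p.lab j := by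
  rcases pool_cases hv with ⟨o, rfl⟩ | ⟨o, d, rfl⟩
  · rcases memI_rn_sel h (W.sel_sl _ _) with ⟨i, _, h2⟩ | h2
    · obtain ⟨rfl, _, h3⟩ := key_inj (W.sl_eq.1 h2).1
      exact h3.symm
    · simp at h2
  · rcases memI_fol.1 h with h2 | h2 <;> simp at h2

theorem pool_sp {v : Node P} (hv : W.pool v) {o : RP S} {w b : Bool}
    (h : memI v (W.sl (.sp o w) b)) : v.pos.base = o := by
  rcases pool_cases hv with ⟨o', rfl⟩ | ⟨o', d, rfl⟩
  · rcases memI_rn_sel h (W.sel_sl _ _) with ⟨i, _, h2⟩ | h2
    · simp at h2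
    · simp at h2; exact h2.1.1.symm
  · rcases memI_fol.1 h with h2 | h2 <;> simp at h2 <;> exact h2.1.1.symm

/-- A conflict between two real pool nodes lies on the first level where the bits differ. -/
theorem conflict_level {o : RP S} {v : Node P} (hv : W.pool v) {l : IL P} (h : memI (W.rn o) l)
    (hs : ¬ W.sel l) (h' : memI v (neg l)) : ∃ j, (∀ s, o.lv s ≠ j) ∧
      o.bits j ≠ v.pos.base.bits j ∧ ∀ t < j, o.bits t = v.pos.base.bits t := by
  obtain ⟨j, _, h2, h3, h4, _⟩ := memI_rn_nonsel h hs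
  rcases pool_cases hv with ⟨o', rfl⟩ | ⟨o', d, rfl⟩
  · obtain ⟨j', _, g2, g3, _⟩ := memI_rn_nonsel h' (by simpa using hs)
    have hk : o.key j = o'.key j' := h2.symm.trans g2
    obtain ⟨rfl, k2, _⟩ := key_inj hk
    refine ⟨j, h4, ?_, k2⟩
    show o.bits j ≠ o'.bits j
    rw [← h3, ← g3]; simp [neg]
  · exfalso; apply hs
    rcases memI_fol.1 h' with h2 | h2 <;> rw [← W.sel_neg, h2] <;> simp

def nxt (d : Lv S) : Lv S := if h : d.val + 1 < S.L + 1 then ⟨d.val + 1, h⟩ else d

theorem nxt_val {d : Lv S} (h : d.val < S.L) : (nxt d).val = d.val + 1 := by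
  simp [nxt, h]

/-- States of the adversary. -/
structure St (P : Par S) where
  R : Finset (RP S)
  Act : Finset (RP S)
  ch : RP S → Bool → RP S
  K : Finset (IL P)
  Ph : RP S → Lv S → Finset (Node P)

variable (W) (s : St P)

noncomputable def cc : Option (Node P) → Bool → Node P
  | none, _ => W.rn W.p0
  | some v, b => match v.pos with
    | .real o => if o ∈ s.R then W.rn (s.ch o b) else W.node (.fol o (nxt o.d))
    | .fol o d => W.node (.fol o (nxt d))

def Own (R : Finset (RP S)) (κ : Key S) : Prop := ∃ o ∈ R, o.key o.d = κ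
def Side (R : Finset (RP S)) (κ : Key S) (b : Bool) : Prop :=
  ∃ o ∈ R, ∃ j, j < o.d ∧ o.key j = κ ∧ o.bits j = b
def Closed (R : Finset (RP S)) (κ : Key S) (b : Bool) : Prop :=
  ¬ Own R κ ∧ Side R κ b ∧ ¬ Side R κ (!b)
def Unused (R : Finset (RP S)) (κ : Key S) : Prop := ¬ Own R κ ∧ ∀ b, ¬ Side R κ b

def Forced (l : IL P) : Prop :=
  ¬ W.sel l ∧ ∃ o ∈ s.Act, o.d.val < S.L ∧ ∃ b, memI (W.rn (s.ch o b)) l

def dflt (l : IL P) : Prop := l ∈ s.K ∨ (neg l ∉ s.K ∧ W.β l.1 = l.2)

def TS (l : IL P) : Prop :=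
  match l.1.1 with
  | .sp o w => (l.2 = true ↔ (o ∈ s.R ↔ w = true))
  | .lev _ _ _ => Closed s.R l.1.1 l.2 ∨ (Unused s.R l.1.1 ∧ dflt W s l)

def TI (l : IL P) : Prop :=
  (W.sel l ∧ TS W s l) ∨ (¬ W.sel l ∧ (Forced W s (neg l) ∨ (¬ Forced W s l ∧ dflt W s l)))

def TE : Option (Node P) → Bool → Node P → Bool → Prop
  | none, b, w, pol => (pol = true ↔ w = cc W s none b)
  | some v, b, w, pol => (W.pool v ∧ (pol = true ↔ w = cc W s (some v) b)) ∨
      (¬ W.pool v ∧ W.γ v none = pol)

/-- The literals that are true in a state. -/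
def T : Lit P → Prop
  | (.item κ y, b) => TI W s ((κ, y), b)
  | (.guard v i, b) => (W.pool v ∧ b = true) ∨ (¬ W.pool v ∧ W.γ v (some i) = b)
  | (.edge v b w, pol) => TE W s v b w pol
  | (.link v b w _, pol) => TE W s v b w pol
  | (.dummy, b) => b = true

@[simp] theorem T_il (l : IL P) : T W s (il l) ↔ TI W s l := Iff.rfl

def IsCh (o : RP S) (b : Bool) (w : RP S) : Prop :=
  w.d.val = o.d.val + 1 ∧ (∀ j < o.d, w.bits j = o.bits j) ∧ w.bits o.d = b ∧
    ∀ j ≤ o.d, w.lab j = o.lab j

structure WF (c : ℕ) : Prop where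
  r0 : W.p0 ∈ s.R
  act : s.Act ⊆ s.R
  ch : ∀ o ∈ s.Act, o.d.val < S.L → ∀ b, s.ch o b ∈ s.R ∧ IsCh o b (s.ch o b)
  noconf : ∀ l, Forced W s l → ¬ Forced W s (neg l)
  kcons : ∀ l ∈ s.K, neg l ∉ s.K
  ktrue : ∀ l ∈ s.K, TI W s l
  kF : ∀ l ∈ s.K, W.FI (neg l)
  phc : ∀ o ∈ s.R, ∀ i, (s.Ph o i).card ≤ c
  phk : ∀ o ∈ s.R, ∀ i ≤ o.d, ∀ p ∈ s.Ph o i, ∀ b, ¬ memI p (W.sl (o.key i) b)

variable {W s}

theorem TI_sp {o : RP S} {w b : Bool} :
    TI W s (W.sl (.sp o w) b) ↔ (b = true ↔ (o ∈ s.R ↔ w = true)) := by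
  simp [TI, TS]

theorem TI_key {p : RP S} {j : Lv S} {b : Bool} : TI W s (W.sl (p.key j) b) ↔
    Closed s.R (p.key j) b ∨ (Unused s.R (p.key j) ∧ dflt W s (W.sl (p.key j) b)) := by
  simp only [TI, World.sel_sl, true_and, not_true, false_and, or_false]
  rfl

theorem dflt_cons {c : ℕ} (h : WF W s c) {l : IL P} (h1 : dflt W s l) (h2 : dflt W s (neg l)) :
    False := by
  rcases h1 with h1 | h1 <;> rcases h2 with h2 | h2
  · exact h.kcons l h1 h2
  · exact h2.1 (by simpa using h1)
  · exact h1.1 h2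
  · have a := h1.2
    have b := h2.2
    simp only [neg] at b
    rw [a] at b
    cases hl : l.2 <;> simp [hl] at b

theorem TI_cons {c : ℕ} (h : WF W s c) {l : IL P} (h1 : TI W s l) (h2 : TI W s (neg l)) :
    False := by
  rcases h1 with ⟨a1, h1⟩ | ⟨a1, h1⟩ <;> rcases h2 with ⟨a2, h2⟩ | ⟨a2, h2⟩
  · rcases l with ⟨⟨κ, y⟩, b⟩
    cases κ with
    | sp o w => simp only [TS, neg] at h1 h2; cases b <;> simp_all
    | lev j bs a =>
      simp only [TS, neg] at h1 h2
      rcases h1 with h1 | h1 <;> rcases h2 with h2 | h2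
      · exact h1.2.2 h2.2.1
      · exact h2.1.2 _ h1.2.1
      · exact h1.1.2 _ h2.2.1
      · exact dflt_cons h h1.2 h2.2
  · exact a2 a1
  · exact a1 a2
  · rw [neg_neg'] at h2
    rcases h1 with h1 | h1 <;> rcases h2 with h2 | h2
    · exact h.noconf l h2 h1
    · exact h2.1 h1
    · exact h1.1 h2
    · exact dflt_cons h h1.2 h2.2

theorem TE_cons {v : Option (Node P)} {b : Bool} {w : Node P} {pol : Bool}
    (h1 : TE W s v b w pol) (h2 : TE W s v b w (!pol)) : False := by
  rcases v with _ | v <;> simp only [TE] at h1 h2 <;> cases pol <;> grind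

theorem T_cons {c : ℕ} (h : WF W s c) {l : Lit P} (h1 : T W s l) (h2 : T W s (neg l)) : False := by
  rcases l with ⟨κ | _ | _ | _ | _, b⟩
  · exact TI_cons h h1 h2
  · simp only [T, neg] at h1 h2; cases b <;> simp_all <;> tauto
  · exact TE_cons h1 h2
  · exact TE_cons h1 h2
  · simp only [T, neg] at h1 h2; cases b <;> simp_all

theorem FI_of_not_TI {c : ℕ} (h : WF W s c) {l : IL P} (h1 : ¬ TI W s l) : W.FI l := by
  by_cases hs : W.sel l
  · exact Or.inr (Or.inl hs)
  by_cases hf : Forced W s l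
  · obtain ⟨_, o, _, _, b, hb⟩ := hf
    exact Or.inr (Or.inr ⟨_, hb⟩)
  by_cases hk : neg l ∈ s.K
  · simpa using h.kF _ hk
  · left
    intro hb
    exact h1 (Or.inr ⟨hs, Or.inr ⟨hf, Or.inr ⟨hk, hb⟩⟩⟩)

theorem FE_of_not_TE {v : Option (Node P)} {b : Bool} {w : Node P} {pol : Bool}
    (h1 : ¬ TE W s v b w pol) : W.FE v pol := by
  rcases v with _ | v
  · trivial
  · simp only [TE, World.FE] at h1 ⊢; tauto

theorem F_of_not_T {c : ℕ} (h : WF W s c) {l : Lit P} (h1 : ¬ T W s l) : W.F l := by
  rcases l with ⟨κ | _ | _ | _ | _, b⟩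
  · exact FI_of_not_TI h h1
  · simp only [T, World.F] at h1 ⊢; cases b <;> simp_all <;> tauto
  · exact FE_of_not_TE h1
  · exact FE_of_not_TE h1
  · trivial

theorem F_neg_of_T {c : ℕ} (h : WF W s c) {l : Lit P} (h1 : T W s l) : W.F (neg l) :=
  F_of_not_T h (fun h2 => T_cons h h1 h2)

theorem IsCh.key {o w : RP S} {b : Bool} (h : IsCh o b w) {j : Lv S} (hj : j ≤ o.d) :
    w.key j = o.key j :=
  key_eq (fun t ht => h.2.1 t (lt_of_lt_of_le ht hj)) (h.2.2.2 j hj)

theorem IsCh.lt_iff {o w : RP S} {b : Bool} (h : IsCh o b w) {j : Lv S} : j < w.d ↔ j ≤ o.d := by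
  have := h.1
  simp only [Fin.lt_def, Fin.le_def]; omega

end Pool.Agent.Lib.MP_a300b0_lc
end

-- part Pool.Agent.Lib.MP_a300b0_lc.Transfer
section

/-! Renaming of variables, soundness of resolution, completeness of GCNF, bit sizes. -/

namespace Pool.Agent.Lib.MP_a300b0_lc

open Finset

variable {V V' : Type} [DecidableEq V] [DecidableEq V']

def cm (f : V → V') (C : Finset (V × Bool)) : Finset (V' × Bool) :=
  C.image (fun l => (f l.1, l.2))

def sm (f : V → V') (M : Finset (Finset (V × Bool))) : Finset (Finset (V' × Bool)) :=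
  M.image (cm f)

theorem cm_insert (f : V → V') (l : V × Bool) (C : Finset (V × Bool)) :
    cm f (insert l C) = insert (f l.1, l.2) (cm f C) := image_insert _ _ _

theorem IsResRefutation.map {f : V → V'} (hf : Function.Injective f)
    {R : List (Finset (V × Bool))} {S : Finset (Finset (V × Bool))} (h : IsResRefutation R S) :
    IsResRefutation (R.map (cm f)) (sm f S) := by
  refine ⟨fun i hi => ?_, by rw [List.getLast?_map, h.2]; rfl⟩
  rw [List.getElem_map, ← List.map_take]
  have hn : ∀ (C : Finset (V × Bool)) p b, (p, b) ∉ C → (f p, b) ∉ cm f C := by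
    intro C p b h1 h2
    obtain ⟨⟨q, c⟩, h3, h4⟩ := mem_image.1 h2
    simp only [Prod.mk.injEq] at h4
    obtain ⟨h5, rfl⟩ := h4
    exact h1 (hf h5 ▸ h3)
  rcases h.1 i (by simpa using hi) with h1 | ⟨C, D, p, h1, h2, h3, h4, h5⟩
  · exact Or.inl (mem_image_of_mem _ h1)
  · refine Or.inr ⟨cm f C, cm f D, f p, hn _ _ _ h1, hn _ _ _ h2, ?_, ?_, ?_⟩
    · exact cm_insert f (p, true) C ▸ List.mem_map_of_mem h3
    · exact cm_insert f (p, false) D ▸ List.mem_map_of_mem h4
    · rw [h5]; exact image_union _ _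

theorem IsGCNFRefutation.map (f : V → V') {P : List (Finset (Finset (V × Bool)))}
    {S : Finset (Finset (V × Bool))} (h : IsGCNFRefutation P S) :
    IsGCNFRefutation (P.map (sm f)) (sm f S) := by
  refine ⟨fun i hi => ?_, by rw [List.getLast?_map, h.2]; rfl⟩
  rw [List.getElem_map, ← List.map_take]
  rcases h.1 i (by simpa using hi) with ⟨p, h1⟩ | ⟨Γ, h1, Δ, h2⟩ | ⟨Γ, Pi, Cs, l, h1, h2, h3⟩
  · exact Or.inl ⟨f p, by rw [h1]; simp [sm, cm]⟩
  · exact Or.inr (Or.inl ⟨sm f Γ, List.mem_map_of_mem h1, sm f Δ, by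
      rw [h2]; exact image_union _ _⟩)
  · refine Or.inr (Or.inr ⟨sm f Γ, sm f Pi, sm f Cs, (f l.1, l.2), ?_, ?_, ?_⟩)
    · have := List.mem_map_of_mem (f := sm f) h1
      rwa [sm, image_union] at this
    · have := List.mem_map_of_mem (f := sm f) h2
      rwa [sm, image_insert] at this
    · rw [h3]
      simp only [sm, image_union, image_image]
      congr 1
      exact image_congr (fun C _ => cm_insert f l C)

theorem litCount_map (f : V → V') (P : List (Finset (Finset (V × Bool)))) :
    litCount (P.map (sm f)) ≤ litCount P := by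
  induction P with
  | nil => exact le_rfl
  | cons M P ih =>
    simp only [litCount, List.map_cons, List.sum_cons] at ih ⊢
    refine add_le_add ?_ ih
    exact (sum_image_le_of_nonneg (fun _ _ => Nat.zero_le _)).trans
      (sum_le_sum (fun C _ => card_image_le))

theorem sm_sm {f : V → V'} {g : V' → V} (h : ∀ v, g (f v) = v) (S : Finset (Finset (V × Bool))) :
    sm g (sm f S) = S := by
  simp only [sm, image_image]
  refine (image_congr (fun C _ => ?_)).trans image_id
  simp [cm, image_image, Function.comp_def, h]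

def Sat (S : Finset (Finset (V × Bool))) : Prop := ∃ α : V → Bool, ∀ C ∈ S, ∃ l ∈ C, α l.1 = l.2

theorem res_sound {R : List (Finset (V × Bool))} {S : Finset (Finset (V × Bool))}
    (h : IsResRefutation R S) : ¬ Sat S := by
  rintro ⟨α, hα⟩
  have key : ∀ i (hi : i < R.length), ∃ l ∈ R[i], α l.1 = l.2 := by
    intro i
    induction i using Nat.strong_induction_on with
    | _ i ih =>
      intro hi
      have prev : ∀ C ∈ R.take i, ∃ l ∈ C, α l.1 = l.2 := by
        intro C hC
        obtain ⟨j, hj, rfl⟩ := List.mem_iff_getElem.1 hC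
        have hj' : j < i ∧ j < R.length := by simpa using hj
        rw [List.getElem_take]
        exact ih j hj'.1 hj'.2
      rcases h.1 i hi with h1 | ⟨C, D, p, _, _, h3, h4, h5⟩
      · exact hα _ h1
      · obtain ⟨l, h6, h7⟩ := prev _ h3
        obtain ⟨l', h8, h9⟩ := prev _ h4
        rw [h5]
        rcases mem_insert.1 h6 with rfl | h6
        · rcases mem_insert.1 h8 with rfl | h8
          · simp_all
          · exact ⟨l', mem_union_right _ h8, h9⟩
        · exact ⟨l, mem_union_left _ h6, h7⟩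
  have h2 := h.2
  rw [List.getLast?_eq_getElem?] at h2
  obtain ⟨h3, h4⟩ := List.getElem?_eq_some_iff.1 h2
  obtain ⟨l, hl, _⟩ := key _ h3
  rw [h4] at hl
  exact notMem_empty _ hl

def GValid (P : List (Finset (Finset (V × Bool)))) : Prop :=
  ∀ (i : ℕ) (h : i < P.length), GCNFStep (P.take i) P[i]

theorem GCNFStep.mono {A B : List (Finset (Finset (V × Bool)))} {M : Finset (Finset (V × Bool))}
    (h : GCNFStep A M) (hAB : ∀ x ∈ A, x ∈ B) : GCNFStep B M := by
  rcases h with h | ⟨Γ, h1, h2⟩ | ⟨Γ, Pi, Cs, l, h1, h2, h3⟩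
  · exact Or.inl h
  · exact Or.inr (Or.inl ⟨Γ, hAB _ h1, h2⟩)
  · exact Or.inr (Or.inr ⟨Γ, Pi, Cs, l, hAB _ h1, hAB _ h2, h3⟩)

theorem GValid.append {A B : List (Finset (Finset (V × Bool)))} (hA : GValid A)
    (hB : ∀ (i : ℕ) (h : i < B.length), GCNFStep (A ++ B.take i) B[i]) : GValid (A ++ B) := by
  intro i hi
  by_cases hlt : i < A.length
  · rw [List.getElem_append_left hlt, List.take_append_of_le_length hlt.le]
    exact hA i hlt
  · rw [List.getElem_append_right (by omega), List.take_append, List.take_of_length_le (by omega)]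
    exact hB _ _

theorem der_snoc {A : List (Finset (Finset (V × Bool)))} (hA : GValid A)
    {M : Finset (Finset (V × Bool))} (h : GCNFStep A M) : IsGCNFRefutation (A ++ [M]) M := by
  refine ⟨hA.append (fun i hi => ?_), by simp⟩
  obtain rfl : i = 0 := by simpa using hi
  simpa using h

theorem gcnf_complete : ∀ (n : ℕ) (S : Finset (Finset (V × Bool))), ∑ C ∈ S, C.card ≤ n →
    ∅ ∉ S → ¬ Sat S → ∃ P, IsGCNFRefutation P S := by
  intro n
  induction n using Nat.strong_induction_on with
  | _ n ih =>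
  intro S hn h0 hS
  by_cases h2 : ∃ C ∈ S, 2 ≤ C.card
  · obtain ⟨C, hC, h2⟩ := h2
    obtain ⟨l, hl⟩ := card_pos.1 (show 0 < C.card by omega)
    have hs := add_sum_erase S card hC
    have hc := card_erase_of_mem hl
    have key : ∀ D : Finset (V × Bool), D ⊆ C → 0 < D.card → D.card < C.card →
        ∃ P, GValid P ∧ insert D (S.erase C) ∈ P := by
      intro D h3 h4 h5
      have h6 : ∑ x ∈ insert D (S.erase C), x.card ≤ D.card + ∑ x ∈ S.erase C, x.card := by
        by_cases h7 : D ∈ S.erase C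
        · rw [insert_eq_of_mem h7]; omega
        · rw [sum_insert h7]
      obtain ⟨P, hP⟩ := ih _ (show D.card + ∑ x ∈ S.erase C, x.card < n by omega) _ h6 (by
        intro h7
        rcases mem_insert.1 h7 with rfl | h7
        · simp at h4
        · exact h0 (mem_of_mem_erase h7)) (by
        rintro ⟨α, hα⟩
        refine hS ⟨α, fun E hE => ?_⟩
        by_cases e : E = C
        · obtain ⟨t, h7, h8⟩ := hα D (mem_insert_self _ _)
          exact ⟨t, e ▸ h3 h7, h8⟩
        · exact hα E (mem_insert_of_mem (mem_erase.2 ⟨e, hE⟩)))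
      exact ⟨P, hP.1, List.mem_of_getLast? hP.2⟩
    obtain ⟨P1, a1, a2⟩ := key (C.erase l) (erase_subset _ _) (by omega) (by omega)
    obtain ⟨P2, b1, b2⟩ := key {l} (singleton_subset_iff.2 hl) (by simp) (by simp; omega)
    refine ⟨_, der_snoc (a1.append (B := P2) (fun i hi => (b1 i hi).mono (fun x hx => ?_)))
      (Or.inr (Or.inr ⟨S.erase C, S.erase C, {C.erase l}, l, ?_, by simp [b2], ?_⟩))⟩
    · simp [hx]
    · rw [union_singleton]; simp [a2]
    · simp [insert_erase hl, insert_erase hC]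
  · push Not at h2
    obtain ⟨p, h3, h4⟩ : ∃ p, {(p, true)} ∈ S ∧ {(p, false)} ∈ S := by
      by_contra hc
      push Not at hc
      refine hS ⟨fun p => decide ({(p, true)} ∈ S), fun C hC => ?_⟩
      have h5 : C.card = 1 := by
        have := h2 C hC
        have : C.card ≠ 0 := fun e => h0 (card_eq_zero.1 e ▸ hC)
        omega
      obtain ⟨⟨p, b⟩, rfl⟩ := card_eq_one.1 h5
      refine ⟨_, mem_singleton_self _, ?_⟩
      cases b
      · simpa using fun h => hc p h hC
      · simpa using hC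
    have hv : GValid ([] : List (Finset (Finset (V × Bool)))) := fun i hi => by simp at hi
    refine ⟨_, der_snoc (der_snoc hv (Or.inl ⟨p, rfl⟩)).1 (Or.inr (Or.inl
      ⟨{{(p, true)}, {(p, false)}}, by simp, S, (union_eq_right.2 ?_).symm⟩))⟩
    simp [insert_subset_iff, h3, h4]

theorem clauseBits_le [Fintype V] {f : V → ℕ} (hf : ∀ v, f v < Fintype.card V)
    (C : Finset (V × Bool)) :
    clauseBits (cm f C) ≤ 1 + Fintype.card V * 2 * (Fintype.card V + 2) := by
  unfold clauseBits
  refine Nat.add_le_add_left ((sum_le_card_nsmul _ _ (Fintype.card V + 2) ?_).trans ?_) _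
  · intro l hl
    obtain ⟨t, _, rfl⟩ := mem_image.1 hl
    have : Nat.size (f t.1) ≤ f t.1 := Nat.size_le.2 Nat.lt_two_pow_self
    have := hf t.1
    simp only; omega
  · rw [smul_eq_mul]
    refine Nat.mul_le_mul_right _ (card_image_le.trans ((card_le_univ _).trans ?_))
    simp

theorem inputBits_le [Fintype V] {f : V → ℕ} (hf : ∀ v, f v < Fintype.card V)
    (S : Finset (Finset (V × Bool))) (R : List (Finset (V × Bool))) :
    inputBits (sm f S) (R.map (cm f)) ≤
      (S.card + R.length) * (1 + Fintype.card V * 2 * (Fintype.card V + 2)) := by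
  unfold inputBits
  rw [add_mul]
  refine add_le_add ((sum_le_card_nsmul _ _ _ ?_).trans (Nat.mul_le_mul_right _ card_image_le)) ?_
  · intro C hC
    obtain ⟨D, _, rfl⟩ := mem_image.1 hC
    exact clauseBits_le hf D
  · refine (List.sum_le_card_nsmul _ (1 + Fintype.card V * 2 * (Fintype.card V + 2)) ?_).trans
      (by simp)
    intro x hx
    simp only [List.map_map, List.mem_map] at hx
    obtain ⟨D, _, rfl⟩ := hx
    exact clauseBits_le hf D

end Pool.Agent.Lib.MP_a300b0_lc
end
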