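import Pool.Agent.Lib.MP_a300b0_lc.Det
import Pool.Agent.Lib.MP_a300b0_lc.Table
import Pool.Agent.Lib.MP_a300b0_lc.Transfer

-- part Pool.Agent.Lib.MP_a300b0_lc.Good
section

/-! Random hidden data make all the lines of a short proof good. -/

namespace Pool.Agent.Lib.MP_a300b0_lc

open Finset

variable {S : Shape} {P : Par S} {k : Cst} {K : ℕ}

/-- Many table rows are compatible with every choice of selected elements. -/
structure Tab (P : Par S) (K : ℕ) where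
  emb : (Lv S → Fin P.nEl) → Fin K → Fin P.nV
  inj : ∀ y, Function.Injective (emb y)
  mem : ∀ y i j, P.mem (emb y i) j (y j)

abbrev Om1 (P : Par S) (K : ℕ) := (Key S → Fin P.nEl) × (Pos S → Fin K)
abbrev Om2 (P : Par S) := (Key S × Fin P.nEl → Bool) × (Node P × Option (Fin P.nG) → Bool)

def mkW (t : Tab P K) (p0 : RP S) (a : Om1 P K) (b : Om2 P) : World P :=
  ⟨a.1, fun p => t.emb (fun j => a.1 (p.base.key j)) (a.2 p), b.1, fun v i => b.2 (v, i), p0⟩

variable (t : Tab P K) (p0 : RP S)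

theorem pr_unique_le {X : Type} [Fintype X] {E : X → Prop} (h : ∀ a b, E a → E b → a = b) :
    pr E ≤ 1 / Fintype.card X := by
  by_cases he : ∃ a, E a
  · obtain ⟨a, ha⟩ := he
    exact (pr_mono (fun b hb => h b a hb ha)).trans (pr_eq_le a)
  · rw [pr_false (fun a ha => he ⟨a, ha⟩)]; positivity

theorem pr_pool (ζ : Key S → Fin P.nEl) (b : Om2 P) (Q : Finset (Node P)) :
    pr (fun ρ : Pos S → Fin K => ∀ v ∈ Q, (mkW t p0 (ζ, ρ) b).pool v) ≤ (1 / (K : ℝ)) ^ Q.card := by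
  by_cases hinj : Set.InjOn Node.pos (Q : Set (Node P))
  · rw [← card_image_of_injOn hinj]
    refine le_trans (pr_mono ?_) (pr_pi (Q.image Node.pos)
      (fun p w => ∃ v ∈ Q, v.pos = p ∧ v.x = t.emb (fun j => ζ (p.base.key j)) w)
      (by positivity) ?_)
    · intro ρ h p hp
      obtain ⟨v, hv, rfl⟩ := mem_image.1 hp
      exact ⟨v, hv, rfl, congrArg Node.x (h v hv)⟩
    · intro p _
      refine (pr_unique_le ?_).trans (by simp)
      rintro w w' ⟨v, h1, h2, h3⟩ ⟨v', h4, h5, h6⟩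
      obtain rfl : v = v' := hinj h1 h4 (h2.trans h5.symm)
      exact t.inj _ (h3.symm.trans h6)
  · rw [pr_false]; · positivity
    intro ρ h
    apply hinj
    intro v hv v' hv' e
    rw [h v hv, h v' hv', e]

theorem pr_pool_sel (b : Om2 P) (Q : Finset (Node P)) (T : Finset (Key S × Fin P.nEl)) :
    pr (fun a : Om1 P K => (∀ v ∈ Q, (mkW t p0 a b).pool v) ∧ ∀ x ∈ T, a.1 x.1 = x.2) ≤
      (1 / (P.nEl : ℝ)) ^ T.card * (1 / (K : ℝ)) ^ Q.card := by
  refine (pr_prod_le_mul _ (fun ζ => ∀ x ∈ T, ζ x.1 = x.2) (by positivity) (fun _ _ h => h.2)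
    (fun ζ _ => (pr_mono (fun ρ h => h.1)).trans (pr_pool t p0 ζ b Q))).trans ?_
  refine mul_le_mul_of_nonneg_right ?_ (by positivity)
  simpa using pr_values T

theorem pr_closure (b : Om2 P) (F : Finset (Node P) → Finset (Node P))
    (Li : Finset (Node P) → Finset (Key S × Fin P.nEl)) {Λ ΛI : ℕ}
    (hF : ∀ Q : Finset (Node P), Q.card ≤ k.c → (F Q).card ≤ Λ)
    (hL : ∀ Q : Finset (Node P), Q.card ≤ k.c → (Li Q).card ≤ ΛI) (hK : Λ ≤ K) :
    pr (fun a : Om1 P K => ¬ ∃ Q, Closure (mkW t p0 a b) k F Li Q) ≤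
      ((Λ : ℝ) / K) ^ k.c + k.c * ((ΛI : ℝ) / P.nEl) ^ k.c2 := by
  have hr := card_reach_le F k.c Λ (fun Q h => hF Q h.le)
  refine le_trans (pr_mono (F := fun a =>
    (∃ Q ∈ reach F k.c, (∀ v ∈ Q, (mkW t p0 a b).pool v) ∧
      ∀ x ∈ (∅ : Finset (Key S × Fin P.nEl)), a.1 x.1 = x.2) ∨
    ∃ s ∈ range k.c, ∃ Q ∈ reach F s, ∃ T ∈ powersetCard k.c2 (Li Q),
      (∀ v ∈ Q, (mkW t p0 a b).pool v) ∧ ∀ x ∈ T, a.1 x.1 = x.2) ?_)
    ((pr_or _ _).trans (add_le_add ?_ ?_))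
  · intro a ha
    rcases reach_closure F (mkW t p0 a b).pool k.c with ⟨s, hs, Q, h1, h2, h3⟩ | ⟨Q, h1, h2⟩
    · right
      have h4 : k.c2 ≤ ((Li Q).filter (fun x => (mkW t p0 a b).ζ x.1 = x.2)).card := by
        by_contra h4
        exact ha ⟨Q, h2, by rw [reach_card F s Q h1]; omega, h3, by omega⟩
      obtain ⟨T, h5, h6⟩ := exists_subset_card_eq h4
      exact ⟨s, mem_range.2 hs, Q, h1, T, mem_powersetCard.2 ⟨h5.trans (filter_subset _ _), h6⟩,
        h2, fun x hx => (mem_filter.1 (h5 hx)).2⟩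
    · exact Or.inl ⟨Q, h1, h2, by simp⟩
  · refine (pr_exists_le _ _ (ε := (1 / (K : ℝ)) ^ k.c) ?_).trans ?_
    · intro Q hQ
      simpa [reach_card F _ Q hQ] using pr_pool_sel t p0 b Q ∅
    · rw [div_eq_mul_one_div (Λ : ℝ), mul_pow]
      refine mul_le_mul_of_nonneg_right ?_ (by positivity)
      exact_mod_cast hr k.c le_rfl
  · refine (pr_exists_le _ _ (ε := ((ΛI : ℝ) / P.nEl) ^ k.c2) ?_).trans (by simp)
    intro s hs
    have hs' := mem_range.1 hs
    refine (pr_exists_le _ _ (ε := ((ΛI : ℝ) / P.nEl) ^ k.c2 * (1 / (K : ℝ)) ^ s) ?_).trans ?_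
    · intro Q hQ
      have hc := reach_card F _ Q hQ
      refine (pr_exists_le _ _ (ε := (1 / (P.nEl : ℝ)) ^ k.c2 * (1 / (K : ℝ)) ^ s) ?_).trans ?_
      · intro T hT
        simpa [hc, (mem_powersetCard.1 hT).2] using pr_pool_sel t p0 b Q T
      · rw [← mul_assoc, div_eq_mul_one_div (ΛI : ℝ), mul_pow]
        refine mul_le_mul_of_nonneg_right (mul_le_mul_of_nonneg_right ?_ (by positivity))
          (by positivity)
        rw [card_powersetCard]
        exact_mod_cast (Nat.choose_le_pow _ _).trans (Nat.pow_le_pow_left (hL Q (by omega)) _)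
    · have h1 : ((reach F s).card : ℝ) ≤ (K : ℝ) ^ s := by
        exact_mod_cast (hr s hs'.le).trans (Nat.pow_le_pow_left hK _)
      have h2 : (K : ℝ) ^ s * (1 / (K : ℝ)) ^ s ≤ 1 := by
        rw [← mul_pow]
        exact pow_le_one₀ (by positivity) (by rw [mul_one_div]; exact div_self_le_one _)
      have h3 : (0 : ℝ) ≤ ((ΛI : ℝ) / P.nEl) ^ k.c2 := by positivity
      have h4 : (0 : ℝ) ≤ (1 / (K : ℝ)) ^ s := by positivity
      calc _ ≤ (K : ℝ) ^ s * (((ΛI : ℝ) / P.nEl) ^ k.c2 * (1 / (K : ℝ)) ^ s) :=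
            mul_le_mul_of_nonneg_right h1 (by positivity)
        _ = ((ΛI : ℝ) / P.nEl) ^ k.c2 * ((K : ℝ) ^ s * (1 / (K : ℝ)) ^ s) := by ring
        _ ≤ _ := mul_le_of_le_one_right h3 h2

theorem pr_bits {ι : Type} [Fintype ι] [DecidableEq ι] (T : Finset (ι × Bool)) {m : ℕ}
    (h : m ≤ T.card) : pr (fun f : ι → Bool => ∀ x ∈ T, f x.1 = x.2) ≤ (1 / 2) ^ m := by
  refine (pr_values T).trans ?_
  simpa using pow_le_pow_of_le_one (by norm_num : (0 : ℝ) ≤ 2⁻¹) (by norm_num) h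

theorem pr_light (M : Finset (Finset (Lit P))) {m : ℕ}
    (hm : m + Fintype.card (Pos S) * k.h + Fintype.card (Key S) * 2 ≤ k.x) (a : Om1 P K) :
    pr (fun b : Om2 P => ∃ Q, (∀ v ∈ Q, (mkW t p0 a b).pool v) ∧ Light (mkW t p0 a b) k M Q) ≤
      2 ^ Fintype.card (Pos S) * (1 / 2) ^ m := by
  classical
  let W0 := mkW t p0 a (fun _ => false, fun _ => false)
  refine le_trans (pr_mono (F := fun b => ∃ Q ∈ (univ.image W0.node).powerset,
    Light (mkW t p0 a b) k M Q) ?_) ((pr_exists_le _ _ (ε := (1 / 2) ^ m) ?_).trans ?_)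
  · rintro b ⟨Q, h1, h2⟩
    exact ⟨Q, mem_powerset.2 (fun v hv => mem_image.2 ⟨v.pos, mem_univ _, (h1 v hv).symm⟩), h2⟩
  · intro Q _
    apply pr_prod_le' _ (by positivity)
    intro γ
    set Z := firstN k.x (Yv M \ IQ Q) with hZ
    by_cases h : k.x ≤ (Yv M \ IQ Q).card ∧ ∀ v, W0.pool v → v ∉ Heavy k.h Z
    swap
    · rw [pr_false]; · positivity
      exact fun β hβ => h ⟨hβ.1, hβ.2.1⟩
    set T0 := Z.filter (fun l => ¬ W0.sel l ∧ ¬ ∃ p, memI (W0.node p) l) with hT0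
    have hc : m ≤ (T0.image neg).card := by
      rw [card_image_of_injective _ (fun x y e => by simpa using congrArg neg e)]
      by_contra hc
      have h1 : (Z.filter W0.sel).card ≤ Fintype.card (Key S) * 2 := by
        rw [← Fintype.card_bool, ← Fintype.card_prod, ← card_univ]
        refine card_le_card_of_injOn (fun l => (l.1.1, l.2)) (fun _ _ => mem_univ _) ?_
        intro x hx y hy e
        rw [W0.eq_sl (mem_filter.1 hx).2, W0.eq_sl (mem_filter.1 hy).2]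
        simpa using e
      obtain ⟨p, _, hp⟩ := exists_heavy Z (T0 ∪ Z.filter W0.sel) univ (fun p => Iv (W0.node p))
        k.h (by
          intro l hl
          by_cases h2 : W0.sel l
          · exact Or.inl (mem_union_right _ (mem_filter.2 ⟨hl, h2⟩))
          by_cases h3 : ∃ p, memI (W0.node p) l
          · obtain ⟨p, hp⟩ := h3
            exact Or.inr ⟨p, mem_univ _, mem_Iv.2 hp⟩
          · exact Or.inl (mem_union_left _ (mem_filter.2 ⟨hl, h2, h3⟩))) (by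
          have h2 := card_union_le T0 (Z.filter W0.sel)
          have h3 : Z.card = k.x := card_firstN h.1
          rw [card_univ]
          omega)
      exact h.2 _ (W0.pool_node p) (mem_Heavy.2 hp)
    refine le_trans (pr_mono ?_) (pr_bits _ hc)
    intro β hβ x hx
    obtain ⟨l, hl, rfl⟩ := mem_image.1 hx
    obtain ⟨h1, h2, h3⟩ := mem_filter.1 hl
    rcases hβ.2.2 l h1 with h4 | h4 | h4
    · have h5 : β l.1 ≠ l.2 := h4
      show β l.1 = !l.2
      cases hb : l.2 <;> simpa [hb] using h5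
    · exact absurd h4 h2
    · exact absurd h4 h3
  · refine mul_le_mul_of_nonneg_right ?_ (by positivity)
    rw [card_powerset]
    exact_mod_cast Nat.pow_le_pow_right (by omega) (card_image_le.trans (by simp))

theorem pr_touch (M : Finset (Finset (Lit P))) {m : ℕ} (hm : m + Fintype.card (Pos S) ≤ k.x)
    (a : Om1 P K) :
    pr (fun b : Om2 P => (∀ C ∈ M, J1 (mkW t p0 a b) C) ∧ k.x < (TouchSet M).card) ≤
      (1 / 2) ^ m := by
  classical
  let W0 := mkW t p0 a (fun _ => false, fun _ => false)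
  apply pr_prod_le _ (by positivity)
  intro β
  by_cases h : k.x < (TouchSet M).card
  swap
  · rw [pr_false]; · positivity
    exact fun γ hγ => h hγ.2
  have : ∀ v : Node P, ∃ x : Option (Fin P.nG) × Bool, v ∈ TouchSet M → ∀ W : World P,
      ¬ W.pool v → (∀ C ∈ M, J1 W C) → W.γ v x.1 = x.2 := by
    intro v
    by_cases hv : v ∈ TouchSet M
    · obtain ⟨C, hC, ht⟩ := mem_TouchSet.1 hv
      obtain ⟨x, hx⟩ := touch_bit ht
      exact ⟨x, fun _ W h1 h2 => hx W h1 (h2 C hC)⟩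
    · exact ⟨(none, true), fun h => absurd h hv⟩
  choose tb htb using this
  set T0 := (TouchSet M).filter (fun v => ¬ W0.pool v) with hT0
  have hc : m ≤ (T0.image (fun v => ((v, (tb v).1), (tb v).2))).card := by
    rw [card_image_of_injective _ (fun x y e => by simpa using congrArg (fun z => z.1.1) e)]
    have h1 : ((TouchSet M).filter W0.pool).card ≤ Fintype.card (Pos S) := by
      rw [← card_univ]
      refine card_le_card_of_injOn Node.pos (fun _ _ => mem_univ _) ?_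
      intro x hx y hy e
      rw [(mem_filter.1 hx).2, (mem_filter.1 hy).2, e]
    have h2 : _ + T0.card = _ := card_filter_add_card_filter_not (s := TouchSet M) W0.pool
    omega
  refine le_trans (pr_mono ?_) (pr_bits _ hc)
  intro γ hγ x hx
  obtain ⟨v, hv, rfl⟩ := mem_image.1 hx
  exact htb v (mem_filter.1 hv).1 (mkW t p0 a (β, γ)) (mem_filter.1 hv).2 hγ.1

theorem pr_g0 (a : Om1 P K) :
    pr (fun b : Om2 P => ¬ ∀ v, ∃ i, (mkW t p0 a b).γ v (some i) = false) ≤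
      Fintype.card (Node P) * (1 / 2) ^ P.nG := by
  classical
  apply pr_prod_le _ (by positivity)
  intro β
  refine le_trans (pr_mono (F := fun γ => ∃ v : Node P, ∀ x ∈ univ.image
    (fun i : Fin P.nG => ((v, some i), true)), γ x.1 = x.2) ?_) (pr_exists_univ _ ?_)
  · intro γ h
    push Not at h
    obtain ⟨v, hv⟩ := h
    refine ⟨v, fun x hx => ?_⟩
    obtain ⟨i, _, rfl⟩ := mem_image.1 hx
    simpa [mkW] using hv i
  · intro v
    apply pr_bits
    rw [card_image_of_injective _ (fun x y e => by simpa using e)]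
    simp

open Classical in
theorem pr_burn (M : Finset (Finset (Lit P))) {K2 : ℕ}
    (hK2 : ∀ y j z, z ≠ y j → (univ.filter (fun i => P.mem (t.emb y i) j z)).card ≤ K2)
    (b : Om2 P) :
    pr (fun a : Om1 P K => ∃ Q, (∀ v ∈ Q, (mkW t p0 a b).pool v) ∧
      ∃ R' : Finset (RP S), R'.card = k.r + 1 ∧ Burnt (mkW t p0 a b) k M Q R') ≤
      2 ^ Fintype.card (Pos S) * (2 ^ Fintype.card (RP S) * (k.x * ((K2 : ℝ) / K)) ^ (k.r + 1)) := by
  apply pr_prod_le _ (by positivity)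
  intro ζ
  refine le_trans (pr_mono (F := fun ρ => ∃ B : Finset (Pos S), ∃ R' : Finset (RP S),
    R'.card = k.r + 1 ∧ (∀ p ∈ R', Pos.real p ∉ B) ∧
      Burnt (mkW t p0 (ζ, ρ) b) k M (B.image (mkW t p0 (ζ, ρ) b).node) R') ?_)
    ((pr_exists_univ _ (ε := 2 ^ Fintype.card (RP S) * (k.x * ((K2 : ℝ) / K)) ^ (k.r + 1))
      ?_).trans (by simp))
  · rintro ρ ⟨Q, h1, R', h2, h3⟩
    have e : (Q.image Node.pos).image (mkW t p0 (ζ, ρ) b).node = Q := by
      rw [image_image]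
      exact (image_congr (fun v hv => (h1 v hv).symm)).trans image_id
    refine ⟨Q.image Node.pos, R', h2, fun p hp hB => (h3.2 p hp).1 ?_, by rwa [e]⟩
    rw [← e]; exact mem_image_of_mem _ hB
  intro B
  refine (pr_exists_univ _ (ε := (k.x * ((K2 : ℝ) / K)) ^ (k.r + 1)) ?_).trans (by simp)
  intro R'
  by_cases h : R'.card = k.r + 1 ∧ ∀ p ∈ R', Pos.real p ∉ B
  swap
  · rw [pr_false]; · positivity
    exact fun ρ hρ => h ⟨hρ.1, hρ.2.1⟩
  have hc : (R'.image Pos.real).card = k.r + 1 := by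
    rw [card_image_of_injective _ (fun x y e => by simpa using e), h.1]
  rw [← hc]
  let X : (Pos S → Fin K) → Finset (IL P) := fun ρ =>
    Yv M \ IQ (B.image (mkW t p0 (ζ, ρ) b).node)
  refine le_trans (pr_mono ?_) (pr_pi_dep (R'.image Pos.real) (fun p ρ w => (X ρ).card ≤ k.x ∧
    ∃ l ∈ X ρ, ∃ j, l.1.1 = p.base.key j ∧ l.1.2 ≠ ζ (p.base.key j) ∧
      P.mem (t.emb (fun j => ζ (p.base.key j)) w) j l.1.2) (by positivity) ?_ ?_)
  · rintro ρ ⟨_, _, h1, h2⟩ p hp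
    obtain ⟨o, ho, rfl⟩ := mem_image.1 hp
    obtain ⟨_, l, h3, h4, h5⟩ := h2 o ho
    obtain ⟨j, _, h6, _, _, h7⟩ := memI_rn_nonsel h3 h4
    refine ⟨h1, neg l, h5, j, h6, fun e => h4 ?_, h7⟩
    show l.1.2 = ζ l.1.1
    rw [h6]; exact e
  · intro p ρ ρ' hρ
    have : X ρ = X ρ' := by
      simp only [X]
      congr 2
      refine image_congr (fun q hq => ?_)
      have : ρ q = ρ' q := by
        apply hρ
        intro h1
        obtain ⟨o, ho, rfl⟩ := mem_image.1 h1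
        exact h.2 o ho hq
      simp [World.node, mkW, this]
    rw [this]
  · intro p _ ρ
    by_cases hx : (X ρ).card ≤ k.x
    swap
    · rw [pr_false]; · positivity
      exact fun w hw => hx hw.1
    refine le_trans (pr_mono (fun w hw => hw.2)) ((pr_exists_le _ _ (ε := (K2 : ℝ) / K) ?_).trans ?_)
    · intro l _
      by_cases hj : ∃ j, l.1.1 = p.base.key j ∧ l.1.2 ≠ ζ (p.base.key j)
      swap
      · rw [pr_false]; · positivity
        exact fun w ⟨j, h1, h2, _⟩ => hj ⟨j, h1, h2⟩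
      obtain ⟨j, h1, h2⟩ := hj
      refine (pr_le_of_card (s := univ.filter
        (fun i => P.mem (t.emb (fun j => ζ (p.base.key j)) i) j l.1.2)) ?_).trans ?_
      · rintro w ⟨j', h3, _, h4⟩
        obtain rfl := (key_inj (h1.symm.trans h3)).1
        exact mem_filter.2 ⟨mem_univ _, h4⟩
      · rw [Fintype.card_fin]
        refine div_le_div_of_nonneg_right ?_ (by positivity)
        exact_mod_cast hK2 _ j _ h2
    · refine mul_le_mul_of_nonneg_right ?_ (by positivity)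
      exact_mod_cast hx

open Classical in
/-- Numerical requirements. -/
structure Num (k : Cst) (t : Tab P K) (K2 Nh Λ ΛI m : ℕ) : Prop where
  hN : ∀ Z : Finset (IL P), k.h ≤ Z.card → (Cont Z).card ≤ Nh
  h1 : 1 ≤ k.h
  hΛ1 : k.x + k.x ^ k.h * Nh + Nh ≤ Λ
  hΛ2 : 2 ^ k.c * (k.x' ^ k.h * Nh) ≤ Λ
  hΛK : Λ ≤ K
  hI1 : k.x + (k.h + 1) ^ k.c2 ≤ ΛI
  hI2 : 2 ^ k.c * k.x' ≤ ΛI
  hm : m + Fintype.card (Pos S) * k.h + Fintype.card (Key S) * 2 ≤ k.x
  hK2 : ∀ y j z, z ≠ y j → (univ.filter (fun i => P.mem (t.emb y i) j z)).card ≤ K2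

/-- The failure probability for one line or one clause. -/
noncomputable def eps (S : Shape) (k : Cst) (n K K2 Λ ΛI m : ℕ) : ℝ :=
  (((Λ : ℝ) / K) ^ k.c + k.c * ((ΛI : ℝ) / n) ^ k.c2) + (2 ^ Fintype.card (Pos S) * (1 / 2) ^ m +
    ((1 / 2) ^ m + 2 ^ Fintype.card (Pos S) *
      (2 ^ Fintype.card (RP S) * (k.x * ((K2 : ℝ) / K)) ^ (k.r + 1))))

variable {t} {K2 Nh Λ ΛI m : ℕ}

theorem pr_line (hn : Num k t K2 Nh Λ ΛI m) (M : Finset (Finset (Lit P))) :
    pr (fun ω : Om1 P K × Om2 P => (mkW t p0 ω.1 ω.2).Fine ∧ ¬ LineGood (mkW t p0 ω.1 ω.2) k M) ≤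
      eps S k P.nEl K K2 Λ ΛI m := by
  have e1 := pr_prod_le' (fun ω : Om1 P K × Om2 P =>
    ¬ ∃ Q, Closure (mkW t p0 ω.1 ω.2) k (FM k M) (LM k M) Q) (by positivity)
    (fun b => pr_closure t p0 b (FM k M) (LM k M) (fun Q _ => (card_FM hn.hN).trans hn.hΛ1)
      (fun Q _ => card_LM.trans hn.hI1) hn.hΛK)
  have e2 := pr_prod_le (fun ω : Om1 P K × Om2 P => ∃ Q, (∀ v ∈ Q, (mkW t p0 ω.1 ω.2).pool v) ∧
    Light (mkW t p0 ω.1 ω.2) k M Q) (by positivity) (fun a => pr_light t p0 M hn.hm a)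
  have e3 := pr_prod_le (fun ω : Om1 P K × Om2 P => (∀ C ∈ M, J1 (mkW t p0 ω.1 ω.2) C) ∧
    k.x < (TouchSet M).card) (by positivity) (fun a => pr_touch t p0 M (m := m) (by
      have := hn.hm
      have := Nat.mul_le_mul_left (Fintype.card (Pos S)) hn.h1
      omega) a)
  have e4 := pr_prod_le' (fun ω : Om1 P K × Om2 P => ∃ Q, (∀ v ∈ Q, (mkW t p0 ω.1 ω.2).pool v) ∧
      ∃ R' : Finset (RP S), R'.card = k.r + 1 ∧ Burnt (mkW t p0 ω.1 ω.2) k M Q R')
    (by positivity) (fun b => pr_burn t p0 M hn.hK2 b)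
  refine le_trans (pr_mono ?_) ((pr_or _ _).trans (add_le_add e1 ((pr_or _ _).trans
    (add_le_add e2 ((pr_or _ _).trans (add_le_add e3 e4))))))
  rintro ω ⟨hW, h⟩
  by_contra hc
  simp only [not_or, not_not] at hc
  obtain ⟨⟨Q, hQ⟩, h2, h3, h4⟩ := hc
  apply h
  intro hJ
  exact ⟨Q, concl_of hW hn.h1 hJ hQ (fun h5 => h2 ⟨Q, hQ.pool, h5⟩)
    (not_lt.1 (fun h5 => h3 ⟨hJ, h5⟩)) (fun R' h5 h6 => h4 ⟨Q, hQ.pool, R', h5, h6⟩)⟩

theorem pr_clause (hn : Num k t K2 Nh Λ ΛI m) (Z : Finset (IL P)) :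
    pr (fun ω : Om1 P K × Om2 P => ¬ ClauseGood (mkW t p0 ω.1 ω.2) k Z) ≤
      eps S k P.nEl K K2 Λ ΛI m := by
  have e1 := pr_prod_le' (fun ω : Om1 P K × Om2 P =>
    ¬ ∃ Q, Closure (mkW t p0 ω.1 ω.2) k (FC k Z) (LC k Z) Q) (by positivity)
    (fun b => pr_closure t p0 b (FC k Z) (LC k Z) (fun Q h => (card_FC hn.hN h).trans hn.hΛ2)
      (fun Q h => (card_LC h).trans hn.hI2) hn.hΛK)
  refine le_trans (pr_mono ?_) (e1.trans (le_add_of_nonneg_right (by positivity)))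
  rintro ω h ⟨Q, hQ⟩
  exact h (clauseGood_of hn.h1 hQ)

theorem good_of_zero {W : World P} (hW : W.Fine) {M : Finset (Finset (Lit P))}
    (h : ∑ C ∈ M, C.card = 0) : Good W k M := by
  have h0 : ∀ C ∈ M, C.card = 0 := sum_eq_zero_iff.1 h
  refine ⟨fun hJ => ?_, fun C hC v hG => ?_⟩
  · have : M = ∅ := by
      refine eq_empty_of_forall_notMem (fun C hC => ?_)
      have := h0 C hC
      rcases hJ C hC with ⟨l, rfl, _⟩ | h1
      · simp at this
      · omega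
    subst this
    have hY : ∀ l : IL P, ¬ Ycl ∅ l := by simp [Ycl]
    have hY' : Yv (∅ : Finset (Finset (Lit P))) = ∅ := by ext l; simp [hY]
    refine ⟨∅, ∅, by simp, by simp, by simp, by simp, by simp [hY'], by simp [hY],
      fun Λ _ _ _ => ⟨∅, by simp⟩, fun R' hR => ?_⟩
    have : R' = ∅ := eq_empty_of_forall_notMem (fun p hp => by simpa [hY] using hR p hp)
    simp [this]
  · have := hG.card
    have := hW.nG
    have := h0 C hC
    omega

theorem pr_good (hG : 3 ≤ P.nG) (hn : Num k t K2 Nh Λ ΛI m) (M : Finset (Finset (Lit P))) :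
    pr (fun ω : Om1 P K × Om2 P => (mkW t p0 ω.1 ω.2).Fine ∧ ¬ Good (mkW t p0 ω.1 ω.2) k M) ≤
      (∑ C ∈ M, C.card : ℕ) * (2 * eps S k P.nEl K K2 Λ ΛI m) := by
  classical
  have he : 0 ≤ eps S k P.nEl K K2 Λ ΛI m := by unfold eps; positivity
  by_cases h0 : ∑ C ∈ M, C.card = 0
  · rw [pr_false (fun ω h => h.2 (good_of_zero h.1 h0))]; positivity
  have e2 : pr (fun ω : Om1 P K × Om2 P => ∃ C ∈ M, ∃ v ∈ univ.filter (fun v => AllG v C),
      ¬ ClauseGood (mkW t p0 ω.1 ω.2) k (Zc v C)) ≤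
      (∑ C ∈ M, C.card : ℕ) * eps S k P.nEl K K2 Λ ΛI m := by
    refine (pr_exists_sum _ _).trans ?_
    rw [Nat.cast_sum, sum_mul]
    refine sum_le_sum (fun C _ => (pr_exists_le _ _ (fun v _ => pr_clause p0 hn _)).trans ?_)
    refine mul_le_mul_of_nonneg_right ?_ he
    have : (univ.filter (fun v => AllG v C)).card ≤ C.card :=
      card_le_card_of_injOn (fun v => (Var.guard v ⟨0, by omega⟩, false))
        (fun v hv => (mem_filter.1 hv).2 _) (fun v _ v' _ e => by simpa using e)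
    exact_mod_cast this
  refine le_trans (pr_mono ?_) ((pr_or _ _).trans ((add_le_add (pr_line p0 hn M) e2).trans ?_))
  · rintro ω ⟨hW, h⟩
    by_contra hc
    simp only [not_or, not_and, not_not, not_exists] at hc
    exact h ⟨hc.1 hW, fun C hC v hv => hc.2 C hC v (mem_filter.2 ⟨mem_univ _, hv⟩)⟩
  · have : (1 : ℝ) ≤ (∑ C ∈ M, C.card : ℕ) := by exact_mod_cast Nat.one_le_iff_ne_zero.2 h0
    nlinarith

theorem pr_lines (hG : 3 ≤ P.nG) (hn : Num k t K2 Nh Λ ΛI m) (Pf : List (Finset (Finset (Lit P)))) :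
    pr (fun ω : Om1 P K × Om2 P => (mkW t p0 ω.1 ω.2).Fine ∧
      ¬ ∀ M ∈ Pf, Good (mkW t p0 ω.1 ω.2) k M) ≤
      litCount Pf * (2 * eps S k P.nEl K K2 Λ ΛI m) := by
  induction Pf with
  | nil => rw [pr_false (by simp)]; simp [litCount]
  | cons M Pf ih =>
    refine le_trans (pr_mono ?_) ((pr_or _ _).trans ((add_le_add (pr_good p0 hG hn M) ih).trans ?_))
    · rintro ω ⟨hW, h⟩
      by_contra hc
      simp only [not_or, not_and, not_not] at hc
      exact h (List.forall_mem_cons.2 ⟨hc.1 hW, hc.2 hW⟩)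
    · simp only [litCount, List.map_cons, List.sum_cons, Nat.cast_add]
      linarith

/-- The lower bound in terms of the parameters. -/
theorem lower_bound (hf : Fit S k) (hG : 3 ≤ P.nG) (hn : Num k t K2 Nh Λ ΛI m) (hd : p0.d = 0)
    (hEl : 0 < P.nEl) (hK : 0 < K) {Pf : List (Finset (Finset (Lit P)))}
    (hPf : IsGCNFRefutation Pf (Sig P)) :
    1 ≤ Fintype.card (Node P) * (1 / 2 : ℝ) ^ P.nG +
      litCount Pf * (2 * eps S k P.nEl K K2 Λ ΛI m) := by
  by_contra hc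
  haveI : Nonempty (Fin P.nEl) := ⟨⟨0, hEl⟩⟩
  haveI : Nonempty (Fin K) := ⟨⟨0, hK⟩⟩
  have e1 := pr_prod_le (fun ω : Om1 P K × Om2 P =>
    ¬ ∀ v, ∃ i, (mkW t p0 ω.1 ω.2).γ v (some i) = false) (by positivity) (fun a => pr_g0 t p0 a)
  obtain ⟨ω, hω⟩ := exists_not_of_pr_lt_one (lt_of_le_of_lt ((pr_or _ _).trans
    (add_le_add e1 (pr_lines p0 hG hn Pf))) (not_le.1 hc))
  simp only [not_or, not_and, not_not] at hω
  have hW : (mkW t p0 ω.1 ω.2).Fine := ⟨fun p j => t.mem _ _ j, hω.1, hd, hG⟩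
  exact no_refutation hW hf hPf (hω.2 hW)

end Pool.Agent.Lib.MP_a300b0_lc
end

-- part Pool.Agent.Lib.MP_a300b0_lc.Count
section

/-! Counting nodes, variables and axioms. -/

namespace Pool.Agent.Lib.MP_a300b0_lc

open Finset

variable {S : Shape} {P : Par S}

theorem card_node_le : Fintype.card (Node P) ≤
    Fintype.card (Pos S) * (P.nEl ^ (S.nSlot + 3) * P.nV) := by
  refine (Fintype.card_le_of_injective _ Node.code_inj).trans (le_of_eq ?_)
  simp only [Fintype.card_prod, Fintype.card_pi, Fintype.card_fin, prod_const, card_univ]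
  ring

theorem card_cont {hφ K3 : ℕ} (hT : ∀ T : Finset (Lv S × Fin P.nEl), hφ ≤ T.card →
    (fs (fun x => ∀ t ∈ T, P.mem x t.1 t.2)).card ≤ K3) (Z : Finset (IL P))
    (hZ : hφ + S.nSlot + 3 ≤ Z.card) :
    (Cont Z).card ≤ K3 * (Fintype.card (Pos S) * P.nEl ^ (S.nSlot + 3)) := by
  classical
  refine (card_le_mul_card_image_of_maps_to (f := fun v : Node P => (v.pos, v.sl, v.own, v.s0, v.s1))
    (t := univ) (fun _ _ => mem_univ _) K3 ?_).trans (le_of_eq ?_)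
  swap
  · simp only [card_univ, Fintype.card_prod, Fintype.card_pi, Fintype.card_fin, prod_const]
    ring
  rintro ⟨pos, sl, own, s0, s1⟩ _
  rcases (filter (fun v : Node P => (v.pos, v.sl, v.own, v.s0, v.s1) = (pos, sl, own, s0, s1))
    (Cont Z)).eq_empty_or_nonempty with h | ⟨v0, h0⟩
  · rw [h]; simp
  obtain ⟨h1, h2⟩ := mem_filter.1 h0
  simp only [Prod.mk.injEq] at h2
  rcases pos with p | ⟨o, d⟩
  swap
  · have : Z ⊆ {((.sp o false, s0), true), ((.sp o true, s1), true)} := by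
      intro l hl
      have := mem_Iv.1 (mem_Cont.1 h1 hl)
      simp only [memI, h2.1, h2.2.2.2.1, h2.2.2.2.2] at this
      simpa using this
    have := (card_le_card this).trans (card_le_two)
    omega
  set T : Finset (Lv S × Fin P.nEl) := univ.filter (fun t =>
    ((p.key t.1, t.2), p.bits t.1) ∈ Z ∧ ∀ s, p.lv s ≠ t.1) with hTd
  have hc : hφ ≤ T.card := by
    have hsub : Z ⊆ T.image (fun t => ((p.key t.1, t.2), p.bits t.1)) ∪
        univ.image (fun s => ((p.key (p.lv s), sl s), p.bits (p.lv s))) ∪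
        {((.sp p false, s0), true)} := by
      rintro ⟨⟨κ, y⟩, b⟩ hl
      have := mem_Iv.1 (mem_Cont.1 h1 hl)
      simp only [memI, h2.1, h2.2.2.2.1, inS, h2.2.1] at this
      rcases this with ⟨j, _, rfl, rfl, ⟨s, rfl, rfl⟩ | h3⟩ | h3
      · exact mem_union_left _ (mem_union_right _ (mem_image.2 ⟨s, mem_univ _, rfl⟩))
      · exact mem_union_left _ (mem_union_left _ (mem_image.2 ⟨(j, y), mem_filter.2
          ⟨mem_univ _, hl, h3.1⟩, rfl⟩))
      · exact mem_union_right _ (mem_singleton.2 h3)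
    have h3 := (card_le_card hsub).trans ((card_union_le _ _).trans (add_le_add
      ((card_union_le _ _).trans (add_le_add card_image_le card_image_le)) le_rfl))
    simp only [card_univ, Fintype.card_fin, card_singleton] at h3
    omega
  refine le_trans (card_le_card_of_injOn Node.x (fun v hv => ?_) ?_) (hT T hc)
  · obtain ⟨h3, h4⟩ := mem_filter.1 hv
    simp only [Prod.mk.injEq] at h4
    refine mem_coe.2 (mem_fs.2 (fun t ht => ?_))
    obtain ⟨_, h5, h6⟩ := mem_filter.1 ht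
    have := mem_Iv.1 (mem_Cont.1 h3 h5)
    simp only [memI, h4.1, inS] at this
    rcases this with ⟨j, _, h7, _, ⟨s, h8, _⟩ | h8⟩ | h7
    · exact absurd (h8.trans (key_inj h7).1.symm) (h6 s)
    · rw [(key_inj h7).1]; exact h8.2
    · simp at h7
  · intro v hv v' hv' e
    have h3 := (mem_filter.1 hv).2.trans (mem_filter.1 hv').2.symm
    simp only [Prod.mk.injEq] at h3
    exact Node.ext h3.1 h3.2.1 h3.2.2.1 h3.2.2.2.1 h3.2.2.2.2 e

theorem card_DL : Fintype.card (DL P) = Fintype.card (Key S) * P.nEl * 2 + P.nG := by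
  simp

theorem sizes_le {Y : ℕ} (hY : 16 ≤ Y) (hL : S.L + 2 ≤ Y) (h1 : Fintype.card (Node P) ≤ Y ^ 3)
    (h2 : Fintype.card (DL P) ≤ Y) : Fintype.card (Var P) ≤ Y ^ 8 ∧ (Sig P).card ≤ Y ^ 8 ∧
      (S.L + 2) * (Fintype.card (Node P) + 1) * nodeCost P ≤ Y ^ 9 := by
  classical
  have h3 := card_DL (P := P)
  have a0 : 1 ≤ Y := by omega
  have a1 : ∀ i j, i ≤ j → Y ^ i ≤ Y ^ j := fun i j h => Nat.pow_le_pow_right a0 h
  have b0 := a1 0 7 (by omega)
  have b1 := a1 1 7 (by omega)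
  have b3 := a1 3 7 (by omega)
  have b4 := a1 4 7 (by omega)
  have b6 := a1 6 7 (by omega)
  have b8 : 16 * Y ^ 7 ≤ Y ^ 8 := by rw [pow_succ Y 7, mul_comm]; exact Nat.mul_le_mul_left _ hY
  simp only [pow_zero, pow_one] at b0 b1
  refine ⟨(Fintype.card_le_of_injective _ Var.code_inj).trans ?_, ?_, ?_⟩
  · simp only [Fintype.card_sum, Fintype.card_prod, Fintype.card_fin, Fintype.card_option,
      Fintype.card_bool, Fintype.card_unit] at h2 ⊢
    calc _ ≤ Y + (Y ^ 3 * Y + ((Y ^ 3 + 1) * (2 * Y ^ 3) +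
          ((Y ^ 3 + 1) * (2 * (Y ^ 3 * Y)) + 1))) := by gcongr <;> omega
      _ = Y + 3 * Y ^ 4 + 2 * Y ^ 6 + 2 * Y ^ 3 + 2 * Y ^ 7 + 1 := by ring
      _ ≤ _ := by omega
  · refine card_image_le.trans ((card_le_univ _).trans
      ((Fintype.card_le_of_injective _ Ax.code_inj).trans ?_))
    simp only [Fintype.card_sum, Fintype.card_prod, Fintype.card_fin, Fintype.card_option,
      Fintype.card_bool] at h2 ⊢
    calc _ ≤ Y ^ 3 + ((Y ^ 3 + 1) * 2 + ((Y ^ 3 + 1) * (2 * (Y ^ 3 * Y)) +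
          (Y ^ 3 + 1) * (2 * (Y ^ 3 * Y)))) := by gcongr
      _ = 3 * Y ^ 3 + 2 + 4 * Y ^ 7 + 4 * Y ^ 4 := by ring
      _ ≤ _ := by omega
  · unfold nodeCost
    have c1 := a1 1 4 (by omega)
    have c4 := a1 4 5 (by omega)
    have c5 := a1 5 7 (by omega)
    have c6 : 16 * Y ^ 8 ≤ Y ^ 9 := by rw [pow_succ Y 8, mul_comm]; exact Nat.mul_le_mul_left _ hY
    simp only [pow_one] at c1
    calc _ ≤ Y * (Y ^ 3 + 1) * (2 * (Y ^ 3 * (4 * Y + 1) + 1) + 1) := by gcongr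
      _ = 8 * Y ^ 8 + 2 * Y ^ 7 + 8 * Y ^ 5 + 5 * Y ^ 4 + 3 * Y := by ring
      _ ≤ _ := by omega

theorem eval_le (p : Polynomial ℕ) {y Y : ℕ} (h : y ≤ Y) (h1 : 1 ≤ Y) :
    p.eval y ≤ p.eval 1 * Y ^ p.natDegree := by
  rw [Polynomial.eval_eq_sum_range, Polynomial.eval_eq_sum_range, sum_mul]
  refine sum_le_sum (fun i hi => ?_)
  rw [one_pow, mul_one]
  exact Nat.mul_le_mul_left _ ((Nat.pow_le_pow_left h i).trans
    (Nat.pow_le_pow_right h1 (Nat.lt_succ_iff.1 (mem_range.1 hi))))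

/-- Polynomially bounded functions. -/
def Sm (f : ℕ → ℕ) : Prop := ∃ C d, ∀ s, f s ≤ C * (s + 1) ^ d

theorem Sm.const (a : ℕ) : Sm (fun _ => a) := ⟨a, 0, fun _ => by simp⟩
theorem Sm.id : Sm (fun s => s) := ⟨1, 1, fun _ => by simp⟩

theorem Sm.add {f g : ℕ → ℕ} (hf : Sm f) (hg : Sm g) : Sm (fun s => f s + g s) := by
  obtain ⟨C, d, h⟩ := hf
  obtain ⟨C', d', h'⟩ := hg
  refine ⟨C + C', d + d', fun s => ?_⟩
  rw [add_mul]
  exact add_le_add ((h s).trans (Nat.mul_le_mul_left _ (Nat.pow_le_pow_right (by omega) (by omega))))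
    ((h' s).trans (Nat.mul_le_mul_left _ (Nat.pow_le_pow_right (by omega) (by omega))))

theorem Sm.mul {f g : ℕ → ℕ} (hf : Sm f) (hg : Sm g) : Sm (fun s => f s * g s) := by
  obtain ⟨C, d, h⟩ := hf
  obtain ⟨C', d', h'⟩ := hg
  exact ⟨C * C', d + d', fun s => (Nat.mul_le_mul (h s) (h' s)).trans (le_of_eq (by ring))⟩

theorem Sm.pow {f : ℕ → ℕ} (hf : Sm f) (n : ℕ) : Sm (fun s => f s ^ n) := by
  obtain ⟨C, d, h⟩ := hf
  exact ⟨C ^ n, d * n, fun s => (Nat.pow_le_pow_left (h s) n).trans (le_of_eq (by ring))⟩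

theorem Sm.exists_le {f : ℕ → ℕ} (hf : Sm f) : ∃ s, f s ≤ 2 ^ s := by
  obtain ⟨C, d, h⟩ := hf
  have h1 := (tendsto_pow_const_div_const_pow_of_one_lt d (r := 2) (by norm_num)).const_mul
    ((C : ℝ) * 2)
  rw [mul_zero] at h1
  obtain ⟨s, h2, h3⟩ := ((h1.eventually (gt_mem_nhds one_pos)).and
    (Filter.eventually_ge_atTop 1)).exists
  obtain ⟨s, rfl⟩ : ∃ t, s = t + 1 := ⟨s - 1, by omega⟩
  refine ⟨s, (h s).trans ?_⟩
  rw [← mul_div_assoc, div_lt_one (by positivity), pow_succ] at h2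
  have : ((C * (s + 1) ^ d : ℕ) : ℝ) ≤ (2 ^ s : ℕ) := by
    push_cast at h2 ⊢
    linarith
  exact_mod_cast this

end Pool.Agent.Lib.MP_a300b0_lc
end

-- part Pool.Agent.Lib.MP_a300b0_lc.Final
section

/-! Choice of the parameters and the separation theorem. -/

namespace Pool.Agent.Lib.MP_a300b0_lc

open Finset

theorem eps_le (S : Shape) (k : Cst) {s u ν g q : ℕ} (hq : q = 2 ^ s) (hc : k.c ≤ q)
    (hc2 : k.c * (u + 1) + 1 ≤ ν * k.c2) (hr : k.r = k.c * (u + 1)) (hx : 6 * (k.x * g) ≤ q)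
    (hP : 2 ^ Fintype.card (Pos S) * 2 ^ Fintype.card (RP S) ≤ q) :
    eps S k (q ^ (ν + 1)) (q ^ (2 * (u + 1))) (6 * g * q ^ (2 * u)) (q ^ (u + 1)) q
      (Fintype.card (Pos S) + s * (k.c * (u + 1))) ≤ 5 * (1 / (q : ℝ)) ^ (k.c * (u + 1)) := by
  have h1 : (1 : ℝ) ≤ q := by rw [hq]; exact_mod_cast Nat.one_le_two_pow
  have h0 : (0 : ℝ) < q := by linarith
  have hs : (q : ℝ) * (1 / (q : ℝ)) ^ (k.c * (u + 1) + 1) = (1 / (q : ℝ)) ^ (k.c * (u + 1)) := by
    rw [pow_succ]; field_simp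
  have t1 : (((q ^ (u + 1) : ℕ) : ℝ) / (q ^ (2 * (u + 1)) : ℕ)) ^ k.c =
      (1 / (q : ℝ)) ^ (k.c * (u + 1)) := by
    rw [mul_comm k.c, pow_mul (1 / (q : ℝ))]
    congr 1
    push_cast
    rw [one_div, inv_pow]
    field_simp
    ring
  have t2 : (k.c : ℝ) * ((q : ℝ) / (q ^ (ν + 1) : ℕ)) ^ k.c2 ≤ (1 / (q : ℝ)) ^ (k.c * (u + 1)) := by
    have e : (q : ℝ) / (q ^ (ν + 1) : ℕ) = (1 / (q : ℝ)) ^ ν := by
      push_cast
      rw [one_div, inv_pow]
      field_simp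
      ring
    rw [e, ← pow_mul, ← hs]
    exact mul_le_mul (by exact_mod_cast hc) (pow_le_pow_of_le_one (by positivity)
      (by rw [div_le_one h0]; exact h1) hc2) (by positivity) h0.le
  have t3 : (2 : ℝ) ^ Fintype.card (Pos S) *
      (1 / 2) ^ (Fintype.card (Pos S) + s * (k.c * (u + 1))) = (1 / (q : ℝ)) ^ (k.c * (u + 1)) := by
    rw [pow_add, ← mul_assoc, ← mul_pow, pow_mul, hq]
    simp
  have t4 : (1 / 2 : ℝ) ^ (Fintype.card (Pos S) + s * (k.c * (u + 1))) ≤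
      (1 / (q : ℝ)) ^ (k.c * (u + 1)) := by
    rw [← t3]
    exact le_mul_of_one_le_left (by positivity) (one_le_pow₀ (by norm_num))
  have t5 : (2 : ℝ) ^ Fintype.card (Pos S) * (2 ^ Fintype.card (RP S) *
      (k.x * (((6 * g * q ^ (2 * u) : ℕ) : ℝ) / (q ^ (2 * (u + 1)) : ℕ))) ^ (k.r + 1)) ≤
      (1 / (q : ℝ)) ^ (k.c * (u + 1)) := by
    rw [← hs, ← mul_assoc, hr]
    refine mul_le_mul (by exact_mod_cast hP) (pow_le_pow_left₀ (by positivity) ?_ _)
      (by positivity) h0.le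
    have : (6 * (k.x * g) : ℝ) ≤ q := by exact_mod_cast hx
    push_cast
    rw [mul_add, pow_add, mul_one]
    field_simp
    linarith
  unfold eps
  linarith

theorem exists_par (S : Shape) {c c2 u ν : ℕ} (hν : ν = 2 * (S.L + 1))
    (hu : u + 1 = (ν + 1) * (S.nSlot + 4)) (hc2 : c2 = 2 * c * (S.nSlot + 4) + 1)
    (hfit : ∀ x h, Fit S ⟨c, c2, x, h, c * (u + 1)⟩) (p0 : RP S) (hd : p0.d = 0) (C0 : ℕ) :
    ∃ (P : Par S) (Y : ℕ), C0 ≤ Y ∧ 16 ≤ Y ∧ S.L + 2 ≤ Y ∧ Fintype.card (Node P) ≤ Y ^ 3 ∧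
      Fintype.card (DL P) ≤ Y ∧ ∅ ∉ Sig P ∧
      ∀ Pf, IsGCNFRefutation Pf (Sig P) → Y ^ c ≤ 12 * litCount Pf := by
  classical
  obtain ⟨N, hN⟩ : ∃ N, N = S.L + 1 := ⟨_, rfl⟩
  obtain ⟨np, hnp⟩ : ∃ np, np = Fintype.card (Pos S) := ⟨_, rfl⟩
  obtain ⟨nk, hnk⟩ : ∃ nk, nk = Fintype.card (Key S) := ⟨_, rfl⟩
  obtain ⟨hφ, hhφ⟩ : ∃ hφ, hφ = u + 1 + N := ⟨_, rfl⟩
  obtain ⟨h, hh⟩ : ∃ h, h = hφ + S.nSlot + 3 := ⟨_, rfl⟩
  obtain ⟨G, hG⟩ : ∃ G, G = (ν + 1) * N + 2 * (u + 1) + (ν + 2) + (ν + 2) * hφ := ⟨_, rfl⟩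
  obtain ⟨s, g, x, q, hq, hg, hx, b1, b2, b3, b4, b5, b6, b7, b8⟩ : ∃ s g x q, q = 2 ^ s ∧
      g = s * G + 2 ∧ x = np + s * (c * (u + 1)) + np * h + nk * 2 ∧
      N + 1 + C0 + 16 + c + 2 ^ np * 2 ^ Fintype.card (RP S) ≤ q ∧
      x + x ^ h * (6 * g * np) + 6 * g * np ≤ q ∧
      2 ^ c * ((x + c * h + 1) ^ h * (6 * g * np)) ≤ q ∧ x + (h + 1) ^ c2 ≤ q ∧
      2 ^ c * (x + c * h + 1) ≤ q ∧ np * g ≤ q ∧ nk * 2 + (s * (3 * (u + 1)) + 3) ≤ q ∧
      6 * (x * g) ≤ q := by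
    have sg : Sm (fun s => s * G + 2) := (Sm.id.mul (.const _)).add (.const _)
    have sx : Sm (fun s => np + s * (c * (u + 1)) + np * h + nk * 2) :=
      (((Sm.const _).add (Sm.id.mul (.const _))).add (.const _)).add (.const _)
    have sx' := (sx.add (.const (c * h))).add (.const 1)
    have sn := ((Sm.const 6).mul sg).mul (.const np)
    obtain ⟨s, hs⟩ := ((((((((Sm.const (N + 1 + C0 + 16 + c +
      2 ^ np * 2 ^ Fintype.card (RP S))).add
      ((sx.add ((sx.pow h).mul sn)).add sn)).add ((Sm.const (2 ^ c)).mul ((sx'.pow h).mul sn))).add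
      (sx.add (.const ((h + 1) ^ c2)))).add ((Sm.const (2 ^ c)).mul sx')).add
      ((Sm.const np).mul sg)).add ((Sm.const (nk * 2)).add
        ((Sm.id.mul (.const (3 * (u + 1)))).add (.const 3)))).add
      ((Sm.const 6).mul (sx.mul sg))).exists_le
    have l : ∀ {a b d : ℕ}, a + b ≤ d → a ≤ d := fun h => le_of_add_le_left h
    have r : ∀ {a b d : ℕ}, a + b ≤ d → b ≤ d := fun h => le_of_add_le_right h
    exact ⟨s, _, _, _, rfl, rfl, rfl, l (l (l (l (l (l (l hs)))))), r (l (l (l (l (l (l hs)))))),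
      r (l (l (l (l (l hs))))), r (l (l (l (l hs)))), r (l (l (l hs))), r (l (l hs)), r (l hs), r hs⟩
  rw [← hN] at hν
  have q1 : 1 ≤ q := by omega
  have pw : ∀ i j, i ≤ j → q ^ i ≤ q ^ j := fun i j h => Nat.pow_le_pow_right q1 h
  have hcL : Fintype.card (Lv S) = N := by rw [hN]; exact Fintype.card_fin _
  obtain ⟨mem, emb, t1, t2, t3, t4⟩ := exists_table (Lv S) (q ^ (ν + 1)) (q ^ 2)
    (q ^ (2 * (u + 1))) g hφ (6 * g * q ^ (2 * u)) (by positivity) (le_of_eq (by ring))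
    (by have := pw 0 (2 * u) (by omega); nlinarith) (le_of_eq (by rw [hcL, hhφ]; ring)) (by
      rw [hcL]
      have a1 : (q ^ (ν + 1)) ^ N * q ^ (2 * (u + 1)) ≤ q ^ G := by
        rw [← pow_mul, ← pow_add]; exact pw _ _ (by omega)
      have a0 : N * q ^ (ν + 1) ≤ q ^ (ν + 2) := by
        rw [pow_succ q (ν + 1), mul_comm]; exact Nat.mul_le_mul_left _ (by omega)
      have a2 : (q ^ (ν + 1)) ^ N * (N * q ^ (ν + 1)) ≤ q ^ G := by
        refine (Nat.mul_le_mul_left _ a0).trans ?_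
        rw [← pow_mul, ← pow_add]; exact pw _ _ (by omega)
      have a3 : (N * q ^ (ν + 1)) ^ hφ ≤ q ^ G := by
        refine (Nat.pow_le_pow_left a0 _).trans ?_
        rw [← pow_mul]; exact pw _ _ (by omega)
      have a4 : 2 ^ g = 4 * q ^ G := by rw [hg, hq]; ring
      have a5 := pw 0 G (by omega)
      rw [pow_zero] at a5
      omega)
  let P : Par S := ⟨q ^ (ν + 1), _, s * (3 * (u + 1)) + 3, mem⟩
  let t : Tab P (q ^ (2 * (u + 1))) := ⟨emb, t1, t2⟩
  let k : Cst := ⟨c, c2, x, h, c * (u + 1)⟩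
  have hqY : q ≤ q ^ (u + 1) := by simpa using pw 1 (u + 1) (by omega)
  have hu' : u + 1 = (ν + 1) * (S.nSlot + 3) + (ν + 1) := by rw [hu]; ring
  have key : ∀ a, a ≤ q → a * (q ^ (ν + 1)) ^ (S.nSlot + 3) ≤ q ^ (u + 1) := by
    intro a ha
    refine (Nat.mul_le_mul_right _ ha).trans ?_
    rw [← pow_mul, ← pow_succ']; exact pw _ _ (by omega)
  have hnum : Num k t (6 * g * q ^ (2 * u)) (6 * g * (np * (q ^ (ν + 1)) ^ (S.nSlot + 3)))
      (q ^ (u + 1)) q (np + s * (c * (u + 1))) := by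
    refine ⟨fun Z hZ => hnp ▸ card_cont (P := P) t4 Z (hh ▸ hZ), by show 1 ≤ h; omega, ?_, ?_,
      pw _ _ (by omega), b4, b5, by rw [← hnp, ← hnk]; exact hx.ge, t3⟩
    · refine le_trans ?_ (key _ b2)
      show x + x ^ h * _ + _ ≤ _
      have : 1 ≤ (q ^ (ν + 1)) ^ (S.nSlot + 3) := Nat.one_le_pow _ _ (by positivity)
      have := Nat.mul_le_mul_left (x) this
      linarith
    · refine le_trans (le_of_eq ?_) (key _ b3)
      show 2 ^ c * ((x + c * h + 1) ^ h * _) = _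
      ring
  have hnode : Fintype.card (Node P) ≤ (q ^ (u + 1)) ^ 3 := by
    refine card_node_le.trans ?_
    rw [← hnp]
    show np * ((q ^ (ν + 1)) ^ (S.nSlot + 3) *
      (q ^ (2 * (u + 1)) * ((q ^ 2) ^ Fintype.card (Lv S) * g))) ≤ _
    calc _ = (np * g) * q ^ ((ν + 1) * (S.nSlot + 3) + ν + 2 * (u + 1)) := by
          rw [hcL, hν]; ring
      _ ≤ q * q ^ ((ν + 1) * (S.nSlot + 3) + ν + 2 * (u + 1)) :=
          Nat.mul_le_mul_right _ b6
      _ ≤ _ := by rw [← pow_succ', ← pow_mul]; exact pw _ _ (by omega)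
  have hnG : 3 ≤ P.nG := by show 3 ≤ _ + 3; omega
  refine ⟨P, q ^ (u + 1), by omega, by omega, by omega, hnode, ?_, ?_, fun Pf hPf => ?_⟩
  · rw [card_DL, ← hnk]
    show nk * q ^ (ν + 1) * 2 + (s * (3 * (u + 1)) + 3) ≤ _
    have a1 := pw 0 (ν + 1) (by omega)
    have a2 : q * q ^ (ν + 1) ≤ q ^ (u + 1) := by
      have := Nat.mul_le_mul_left (ν + 1) (show 1 ≤ S.nSlot + 3 by omega)
      rw [← pow_succ']; exact pw _ _ (by omega)
    have a3 := Nat.mul_le_mul_right (q ^ (ν + 1)) b7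
    have a4 := Nat.mul_le_mul_left (s * (3 * (u + 1)) + 3) a1
    linarith
  · intro h0
    obtain ⟨a, ha, e⟩ := mem_Sig.1 h0
    have y0 : Fin P.nEl := ⟨0, by positivity⟩
    have := two_le_cl (W := mkW t p0 (fun _ => y0, fun _ => ⟨0, by positivity⟩)
      (fun _ => false, fun _ => false))
      ⟨fun p j => t.mem _ _ j, fun _ => ⟨⟨0, by omega⟩, rfl⟩, hd, hnG⟩ ha
    rw [e] at this
    simp at this
  · have h1 := lower_bound p0 (hfit _ _) hnG hnum hd (by positivity) (by positivity) hPf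
    have h2 := eps_le S k (ν := ν) (g := g) (u := u) hq (by show c ≤ q; omega) (by
      show c * (u + 1) + 1 ≤ ν * c2
      rw [hu, hc2]
      obtain ⟨ν', rfl⟩ : ∃ ν', ν = ν' + 1 := ⟨ν - 1, by omega⟩
      have : (ν' + 1) * (2 * c * (S.nSlot + 4) + 1) =
        c * ((ν' + 1 + 1) * (S.nSlot + 4)) + 1 + (ν' * c * (S.nSlot + 4) + ν') := by ring
      omega) rfl b8 (by rw [← hnp]; omega)
    have h3 : (Fintype.card (Node P) : ℝ) * (1 / 2) ^ P.nG ≤ 1 / 8 := by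
      have a1 : (Fintype.card (Node P) : ℝ) ≤ 2 ^ (s * (3 * (u + 1))) := by
        have : (q ^ (u + 1)) ^ 3 = 2 ^ (s * (3 * (u + 1))) := by rw [hq]; ring
        exact_mod_cast this ▸ hnode
      refine (mul_le_mul_of_nonneg_right a1 (by positivity)).trans (le_of_eq ?_)
      show _ * (1 / 2 : ℝ) ^ (s * (3 * (u + 1)) + 3) = _
      rw [pow_add, ← mul_assoc, ← mul_pow]
      norm_num
    have h4 : (7 / 8 : ℝ) ≤ litCount Pf * (10 * (1 / (q : ℝ)) ^ (c * (u + 1))) := by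
      have := mul_le_mul_of_nonneg_left h2 (show (0 : ℝ) ≤ litCount Pf * 2 by positivity)
      have e : P.nEl = q ^ (ν + 1) := rfl
      rw [e] at h1
      simp only [k, ← hnp] at this h1
      linarith
    have h5 : (0 : ℝ) < (q : ℝ) ^ (c * (u + 1)) := by positivity
    rw [one_div, inv_pow, ← div_eq_mul_inv, ← mul_div_assoc, le_div_iff₀ h5] at h4
    have h6 : (((q ^ (u + 1)) ^ c : ℕ) : ℝ) ≤ (12 * litCount Pf : ℕ) := by
      push_cast
      rw [← pow_mul, mul_comm (u + 1)]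
      linarith
    exact_mod_cast h6

theorem separation (p : Polynomial ℕ) : ∃ (S : Finset (Finset (ℕ × Bool)))
    (R : List (Finset (ℕ × Bool))), ∅ ∉ S ∧ IsResRefutation R S ∧ (∃ P, IsGCNFRefutation P S) ∧
      ∀ P, IsGCNFRefutation P S → p.eval (inputBits S R) < litCount P := by
  classical
  obtain ⟨c, hc⟩ : ∃ c, c = 26 * p.natDegree + 2 := ⟨_, rfl⟩
  obtain ⟨c2, hc2⟩ : ∃ c2, c2 = 2 * c * (3 * c + 1 + 4) + 1 := ⟨_, rfl⟩
  obtain ⟨L, hL⟩ : ∃ L, L = (c + (2 * (1 + 4 * c + c2) + c2) + 1) ^ (c + 1) := ⟨_, rfl⟩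
  obtain ⟨u, hu⟩ : ∃ u, u + 1 = (2 * (L + 1) + 1) * (3 * c + 1 + 4) :=
    ⟨(2 * (L + 1) + 1) * (3 * c + 1 + 4) - 1, Nat.sub_add_cancel (by nlinarith)⟩
  let S : Shape := ⟨L, 1 + 4 * c + c2 + c + c2 + 1, 3 * c + 1, c * (u + 1) + 1⟩
  obtain ⟨P, Y, h0, h1, h2, h3, h4, h5, h6⟩ := exists_par S (c := c) (c2 := c2) (u := u) rfl hu hc2
    (fun x h => ⟨hL.ge, Nat.lt_succ_self _, le_rfl, Nat.lt_succ_self _⟩)
    ⟨0, fun _ => false, fun _ => ⟨0, Nat.succ_pos _⟩, fun _ => 0, ⟨0, Nat.succ_pos _⟩⟩ rfl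
    (p.eval 1)
  obtain ⟨s1, s2, s3⟩ := sizes_le h1 h2 h3 h4
  obtain ⟨R, r1, r2⟩ := exists_short_refutation P
  let f : Var P → ℕ := fun v => (Fintype.equivFin (Var P) v).val
  have hf : Function.Injective f := fun a b e => (Fintype.equivFin _).injective (Fin.ext e)
  have : Nonempty (Var P) := ⟨.dummy⟩
  have hgf := Function.leftInverse_invFun hf
  have hne : ∅ ∉ sm f (Sig P) := by
    intro h
    obtain ⟨C, hC, e⟩ := mem_image.1 h
    exact h5 (image_eq_empty.1 e ▸ hC)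
  refine ⟨sm f (Sig P), R.map (cm f), hne, r1.map hf,
    gcnf_complete _ _ le_rfl hne (res_sound (r1.map hf)), fun Pf hPf => ?_⟩
  have a1 := hPf.map (Function.invFun f)
  rw [sm_sm hgf] at a1
  have a2 := (h6 _ a1).trans (Nat.mul_le_mul_left _ (litCount_map _ _))
  have a3 : inputBits (sm f (Sig P)) (R.map (cm f)) ≤ Y ^ 26 := by
    refine (inputBits_le (fun v => (Fintype.equivFin (Var P) v).isLt) _ _).trans ?_
    have b0 : ∀ i j, i ≤ j → Y ^ i ≤ Y ^ j := fun i j h => Nat.pow_le_pow_right (by omega) h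
    have b1 := b0 8 25 (by omega)
    have b2 := b0 9 25 (by omega)
    have b3 := b0 16 25 (by omega)
    have b4 := b0 17 25 (by omega)
    have b5 := b0 24 25 (by omega)
    have b6 : 16 * Y ^ 25 ≤ Y ^ 26 := by
      rw [pow_succ Y 25, mul_comm]; exact Nat.mul_le_mul_left _ h1
    have b7 := r2.trans s3
    calc _ ≤ (Y ^ 8 + Y ^ 9) * (1 + Y ^ 8 * 2 * (Y ^ 8 + 2)) := by gcongr
      _ = Y ^ 8 + Y ^ 9 + 4 * Y ^ 16 + 4 * Y ^ 17 + 2 * Y ^ 24 + 2 * Y ^ 25 := by ring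
      _ ≤ _ := by omega
  have a4 := (eval_le p a3 (Nat.one_le_pow _ _ (by omega))).trans (Nat.mul_le_mul_right _ h0)
  have a5 : Y ^ c = Y * (Y * (Y ^ 26) ^ p.natDegree) := by rw [hc]; ring
  have a6 : 0 < Y * (Y ^ 26) ^ p.natDegree := by positivity
  have a7 := Nat.mul_le_mul_right (Y * (Y ^ 26) ^ p.natDegree) h1
  omega

end Pool.Agent.Lib.MP_a300b0_lc
end
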