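import Pool.Agent.Lib.MP_a300b0_lc.BComb
import Pool.Agent.Lib.MP_a300b0_lc.BPr
import Pool.Agent.Lib.MP_a300b0_lc.Final

/-! Random hidden data and coins make all the lines of a short proof good. -/

namespace Pool.Agent.Lib.MP_a300b0_lc

open Finset

variable {S : Shape} {P : Par S} {k : Cst} {K B y : ℕ} {od : Ax P → List (Lit P)}
  (N : Finset (List (Lit P)))

abbrev Eta (P : Par S) (B : ℕ) := Fin P.nV → Fin (B + 2) × Bool

theorem pr_Q {Ω : Type} [Fintype Ω] (nd : Pos S → Node P) (E : Finset (Node P) → Ω → Prop) {ε : ℝ}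
    (hε : 0 ≤ ε) (h : ∀ Q, (∀ v ∈ Q, v = nd v.pos) → pr (E Q) ≤ ε) :
    pr (fun ω => ∃ Q, (∀ v ∈ Q, v = nd v.pos) ∧ E Q ω) ≤ 2 ^ Fintype.card (Pos S) * ε := by
  classical
  refine le_trans (pr_mono (F := fun ω => ∃ Q ∈ (univ.image nd).powerset,
    (∀ v ∈ Q, v = nd v.pos) ∧ E Q ω) ?_) ((pr_exists_le _ _ (ε := ε) fun Q _ => ?_).trans ?_)
  · rintro ω ⟨Q, h1, h2⟩
    exact ⟨Q, mem_powerset.2 fun v hv => mem_image.2 ⟨v.pos, mem_univ _, (h1 v hv).symm⟩, h1, h2⟩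
  · by_cases c : ∀ v ∈ Q, v = nd v.pos
    · exact (pr_mono fun _ h => h.2).trans (h Q c)
    · rw [pr_false fun _ h => c h.1]; exact hε
  · refine mul_le_mul_of_nonneg_right ?_ hε
    rw [card_powerset]
    exact_mod_cast Nat.pow_le_pow_right (by omega) (card_image_le.trans (by simp))

theorem pr_or_le {Ω : Type} [Fintype Ω] {E F : Ω → Prop} {a b : ℝ} (h1 : pr E ≤ a)
    (h2 : pr F ≤ b) : pr (fun ω => E ω ∨ F ω) ≤ a + b := (pr_or E F).trans (add_le_add h1 h2)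

open Classical in
theorem card_free (W : World P) {Z : Finset (IL P)} {h m : ℕ} (hH : ∀ v, W.pool v → v ∉ Heavy h Z)
    (hm : m + Fintype.card (Pos S) * h + Fintype.card (Key S) * 2 ≤ Z.card) :
    m ≤ (Z.filter fun l => ¬ W.sel l ∧ ¬ ∃ p, memI (W.node p) l).card := by
  by_contra hc
  set T0 := Z.filter fun l => ¬ W.sel l ∧ ¬ ∃ p, memI (W.node p) l
  have h1 : (Z.filter W.sel).card ≤ Fintype.card (Key S) * 2 := by
    rw [← Fintype.card_bool, ← Fintype.card_prod, ← card_univ]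
    refine card_le_card_of_injOn (fun l => (l.1.1, l.2)) (fun _ _ => mem_univ _) ?_
    intro x hx y hy e
    rw [W.eq_sl (mem_filter.1 hx).2, W.eq_sl (mem_filter.1 hy).2]
    simpa using e
  obtain ⟨p, _, hp⟩ := exists_heavy Z (T0 ∪ Z.filter W.sel) univ (fun p => Iv (W.node p)) h (by
    intro l hl
    by_cases h2 : W.sel l
    · exact Or.inl (mem_union_right _ (mem_filter.2 ⟨hl, h2⟩))
    by_cases h3 : ∃ p, memI (W.node p) l
    · obtain ⟨p, hp⟩ := h3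
      exact Or.inr ⟨p, mem_univ _, mem_Iv.2 hp⟩
    · exact Or.inl (mem_union_left _ (mem_filter.2 ⟨hl, h2, h3⟩))) (by
    have h2 := card_union_le T0 (Z.filter W.sel)
    rw [card_univ]
    omega)
  exact hH _ (W.pool_node p) (mem_Heavy.2 hp)

variable (t : Tab P K) (p0 : RP S)

theorem pr_claims (ho : Ord od) {m m1 : ℕ} (h1 : 2 * ((B + 2) * 2) * m ≤ m1)
    (h2 : m1 + Fintype.card (Pos S) * k.h + Fintype.card (Key S) * 2 ≤ y) (a : Om1 P K)
    (c : Node P × Option (Fin P.nG) → Bool) (Q : Finset (Node P))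
    (hQ : ∀ v ∈ Q, (mkW t p0 a (fun _ => false, c)).pool v) :
    pr (fun ω : (Key S × Fin P.nEl → Bool) × Eta P B => (mkW t p0 a (ω.1, c)).Fine ∧
      Ok (mkW t p0 a (ω.1, c)) (co ω.2) od N ∧ y < (CT N Q).card ∧
        ∀ v, (mkW t p0 a (ω.1, c)).pool v → v ∉ Heavy k.h (CZ y N Q)) ≤ (1 / 2) ^ m := by
  classical
  let W0 := mkW t p0 a (fun _ => false, c)
  by_cases h : y < (CT N Q).card ∧ ∀ v, W0.pool v → v ∉ Heavy k.h (CZ y N Q)
  swap
  · rw [pr_false fun ω hω => h hω.2.2]; positivity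
  have inj : ∀ u ∈ CT N Q, ∀ u' ∈ CT N Q, u.1.1 = u'.1.1 → u = u' := fun u c u' c' e =>
    not_not.1 fun d => (CT_spec.2.1 u c u' c' d).1 e
  have hZ : (CZ y N Q).card = y := by
    rw [CZ, card_image_of_injOn fun u c u' c' e =>
      inj u (cap_subset _ _ c) u' (cap_subset _ _ c') (congrArg Prod.fst e), card_cap h.1]
  have hc := card_free W0 h.2 (hZ.symm ▸ h2)
  set T := (CZ y N Q).filter fun l => ¬ W0.sel l ∧ ¬ ∃ p, memI (W0.node p) l
  have : ∀ l, ∃ src, l ∈ T → (l, src) ∈ CT N Q := fun l => by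
    by_cases hl : l ∈ T
    · obtain ⟨u, c, rfl⟩ := mem_image.1 (mem_filter.1 hl).1
      exact ⟨u.2, fun _ => cap_subset _ _ c⟩
    · exact ⟨none, fun d => absurd d hl⟩
  choose src hs using this
  choose! x hx using fun l (hl : l ∈ T) => claim_spec (B := B) ho (CT_mem (hs l hl)).1
  refine le_trans (pr_mono fun ω hω l hl e => ?_) (pr_pairs T id (fun l => rcl Q (l, src l)) x
    (fun l c l' c' e => congrArg Prod.fst (inj _ (hs l c) _ (hs l' c') e))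
    (fun l c l' c' d => (CT_spec.2.1 _ (hs l c) _ (hs l' c') fun e => d (congrArg Prod.fst e)).2)
    (by simpa using h1.trans hc))
  obtain ⟨d1, d2⟩ := hx l hl _ _ hω.1 hω.2.1 fun d =>
    d.elim (fun d => d e) fun d => d.elim (mem_filter.1 hl).2.1 (mem_filter.1 hl).2.2
  rcases e' : src l with _ | v
  · exact absurd (e' ▸ trivial) d1
  · rw [e'] at d1 d2
    exact ⟨v.x, if_neg fun d => d1 (hQ v d), d2⟩

theorem pr_touch2 (ho : Ord od) {m : ℕ} (h1 : 2 * ((B + 2) * 2) * m + Fintype.card (Pos S) ≤ y)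
    (a : Om1 P K) (b : Key S × Fin P.nEl → Bool) :
    pr (fun ω : (Node P × Option (Fin P.nG) → Bool) × Eta P B => (mkW t p0 a (b, ω.1)).Fine ∧
      Ok (mkW t p0 a (b, ω.1)) (co ω.2) od N ∧ y < ((TS2 N).image Node.x).card) ≤ (1 / 2) ^ m := by
  classical
  let W0 := mkW t p0 a (b, fun _ => false)
  by_cases h : y < ((TS2 N).image Node.x).card
  swap
  · rw [pr_false fun ω hω => h hω.2.2]; positivity
  have : Nonempty (Node P) := ⟨W0.rn p0⟩
  choose! σ s1 s2 using fun r (hr : r ∈ (TS2 N).image Node.x) => mem_image.1 hr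
  have : ∀ r ∈ (TS2 N).image Node.x, ∃ (u : Option (Fin P.nG) × Bool) (x : Fin (B + 2) × Bool),
      ∀ (W : World P) η, W.Fine → ¬ W.pool (σ r) → Ok W η od N → W.γ (σ r) u.1 = u.2 →
        η (some (σ r)) ≠ x := fun r hr => by
    obtain ⟨C, c1, c2, c3⟩ := (mem_filter.1 (s1 r hr)).2
    exact touch_spec ho c1 c2 c3
  choose! u x hx using this
  set T := ((TS2 N).image Node.x).filter fun r => ¬ W0.pool (σ r)
  have h2 : (((TS2 N).image Node.x).filter fun r => W0.pool (σ r)).card ≤ Fintype.card (Pos S) := by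
    rw [← card_univ]
    refine card_le_card_of_injOn (fun r => (σ r).pos) (fun _ _ => mem_univ _) fun r c r' c' e => ?_
    obtain ⟨c1, c2⟩ := mem_filter.1 c
    obtain ⟨c3, c4⟩ := mem_filter.1 c'
    rw [← s2 r c1, ← s2 r' c3, c2, c4, show (σ r).pos = (σ r').pos from e]
  have h3 : _ + T.card = _ := card_filter_add_card_filter_not (s := (TS2 N).image Node.x)
    fun r => W0.pool (σ r)
  refine le_trans (pr_mono fun ω hω r hr e => ?_) (pr_pairs T (fun r => ((σ r, (u r).1), (u r).2))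
    some x (fun r c r' c' e => ?_) (fun r _ r' _ d e => absurd (Option.some.inj e) d)
    (by simp only [Fintype.card_prod, Fintype.card_fin, Fintype.card_bool]; omega))
  · obtain ⟨c1, c2⟩ := mem_filter.1 hr
    have := hx r c1 _ _ hω.1 c2 hω.2.1 e
    exact ⟨r, rfl, by simpa only [co, s2 r c1] using this⟩
  · rw [← s2 r (mem_filter.1 c).1, ← s2 r' (mem_filter.1 c').1, (Prod.mk.inj e).1]

theorem pr_big (ho : Ord od) {KR m : ℕ}
    (hR : ∀ Z : Finset (IL P), k.h ≤ Z.card → ((Cont Z).image Node.x).card ≤ KR)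
    (h1 : 2 * KR ≤ B + 2) (h2 : m ≤ y) (Q : Finset (Node P)) :
    pr (fun η : Eta P B => y < (BD k od N Q).card ∧
      ∀ L ∈ cap y (BD k od N Q), ∃ r ∈ Rows od L, (η r).1 = 0) ≤ (1 / 2) ^ m := by
  by_cases h : y < (BD k od N Q).card
  swap
  · rw [pr_false fun ω hω => h hω.1]; positivity
  refine le_trans (pr_mono fun η hη => hη.2) ((pr_blocks (cap y (BD k od N Q)) (Rows od)
    (fun L (η : Eta P B) => ∃ r ∈ Rows od L, (η r).1 = 0) (ε := 1 / 2) (by norm_num)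
    (fun L c L' c' => BD_spec.2.1 L (cap_subset _ _ c) L' (cap_subset _ _ c'))
    (fun L _ f g e ⟨r, d1, d2⟩ => ⟨r, d1, e r d1 ▸ d2⟩) fun L hL => ?_).trans ?_)
  · refine (pr_exists_le _ _ (ε := 1 / (B + 2 : ℕ)) fun r _ => (pr_coord r
      fun w : Fin (B + 2) × Bool => w.1 = 0).trans ((pr_fst_le fun w => w = 0).trans
        (by simpa using pr_eq_le (0 : Fin (B + 2))))).trans ?_
    have a1 : (2 * (Rows od L).card : ℝ) ≤ (B + 2 : ℕ) := by
      exact_mod_cast (Nat.mul_le_mul_left 2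
        (card_Rows ho hR (BD_spec.1 (cap_subset _ _ hL)))).trans h1
    rw [mul_one_div, div_le_iff₀ (by positivity)]
    linarith
  · rw [card_cap h]
    exact pow_le_pow_of_le_one (by norm_num) (by norm_num) h2

theorem memI_cons {v : Node P} {i : Key S × Fin P.nEl} (h1 : memI v (i, true))
    (h2 : memI v (i, false)) : False := by
  rcases v with ⟨p | ⟨o, d⟩, _, _, _, _, _⟩
  · rcases h2 with ⟨j, -, c1, c2, -⟩ | c
    · rcases h1 with ⟨j', -, c3, c4, -⟩ | c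
      · obtain rfl := (key_inj (c1.symm.trans c3)).1
        simpa using c4.trans c2.symm
      · cases c; simp at c1
    · simp at c
  · simp [memI] at h2

theorem pr_petals {m m1 : ℕ} (h1 : 2 ^ k.h * m ≤ m1) (a : Om1 P K)
    (c : Node P × Option (Fin P.nG) → Bool) (Q : Finset (Node P)) :
    pr (fun β : Key S × Fin P.nEl → Bool => ∃ Y ∈ Cores k y N Q,
      m1 ≤ (PG (mkW t p0 a (β, c)) k y N Q Y).card ∧
      ∀ Z ∈ PG (mkW t p0 a (β, c)) k y N Q Y, ∃ z ∈ Z \ Y, β z.1 = z.2) ≤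
      nc k.h y * (1 / 2) ^ m := by
  refine (pr_exists_le _ _ (ε := (1 / 2) ^ m) fun Y _ => ?_).trans
    (mul_le_mul_of_nonneg_right (by exact_mod_cast card_Cores) (by positivity))
  obtain ⟨T, hT⟩ : ∃ T, T = PG (mkW t p0 a (fun _ => false, c)) k y N Q Y := ⟨_, rfl⟩
  have e : ∀ β, PG (mkW t p0 a (β, c)) k y N Q Y = T := fun β => hT ▸ rfl
  simp only [e]
  by_cases h : m1 ≤ T.card
  swap
  · rw [pr_false fun ω hω => h hω.1]; positivity
  have hs : ∀ Z ∈ T, Z ∈ PD k N Q Y := fun Z c => cap_subset _ _ (mem_of_mem_filter _ (hT ▸ c))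
  have h0 : (0 : ℝ) ≤ 1 - 1 / (2 ^ k.h : ℕ) := by
    rw [sub_nonneg, div_le_one (by positivity)]; exact_mod_cast Nat.one_le_two_pow
  refine le_trans (pr_mono fun β hβ => hβ.2) ((pr_blocks T (fun Z => (Z \ Y).image Prod.fst)
    (fun Z (β : Key S × Fin P.nEl → Bool) => ∃ z ∈ Z \ Y, β z.1 = z.2) h0
    (fun Z c Z' c' => PD_spec.2.1 Z (hs Z c) Z' (hs Z' c'))
    (fun Z _ f g e ⟨z, d1, d2⟩ => ⟨z, d1, e _ (mem_image_of_mem _ d1) ▸ d2⟩) fun Z hZ => ?_).trans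
    (pow_half Nat.one_le_two_pow (h1.trans h)))
  obtain ⟨-, c1, ⟨v, c2⟩, -⟩ := mem_SO.1 (PD_spec.1 (hs Z hZ))
  exact pr_hit _ ((card_le_card sdiff_subset).trans c1) fun i d1 d2 =>
    memI_cons (mem_Iv.1 (c2 (mem_sdiff.1 d1).1)) (mem_Iv.1 (c2 (mem_sdiff.1 d2).1))

open Classical in
theorem pr_burn2 (X0 : Finset (Node P) → Finset (IL P)) (hX : ∀ Q, (X0 Q).card ≤ k.x) {K2 : ℕ}
    (hK2 : ∀ y j z, z ≠ y j → (univ.filter (fun i => P.mem (t.emb y i) j z)).card ≤ K2)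
    (b : Om2 P) :
    pr (fun a : Om1 P K => ∃ Q, (∀ v ∈ Q, (mkW t p0 a b).pool v) ∧
      ∃ R' : Finset (RP S), R'.card = k.r + 1 ∧ Burnt2 (mkW t p0 a b) (X0 Q) Q R') ≤
      2 ^ Fintype.card (Pos S) * (2 ^ Fintype.card (RP S) * (k.x * ((K2 : ℝ) / K)) ^ (k.r + 1)) := by
  apply pr_prod_le _ (by positivity)
  intro ζ
  let X : Finset (Pos S) → (Pos S → Fin K) → Finset (IL P) := fun B ρ =>
    X0 (B.image (mkW t p0 (ζ, ρ) b).node)
  refine le_trans (pr_mono (F := fun ρ => ∃ B : Finset (Pos S), ∃ R' : Finset (RP S),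
    R'.card = k.r + 1 ∧ (∀ p ∈ R', Pos.real p ∉ B) ∧
      Burnt2 (mkW t p0 (ζ, ρ) b) (X B ρ) (B.image (mkW t p0 (ζ, ρ) b).node) R') ?_)
    ((pr_exists_univ _ (ε := 2 ^ Fintype.card (RP S) * (k.x * ((K2 : ℝ) / K)) ^ (k.r + 1))
      ?_).trans (by simp))
  · rintro ρ ⟨Q, h1, R', h2, h3⟩
    have e : (Q.image Node.pos).image (mkW t p0 (ζ, ρ) b).node = Q := by
      rw [image_image]
      exact (image_congr (fun v hv => (h1 v hv).symm)).trans image_id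
    refine ⟨Q.image Node.pos, R', h2, fun p hp hB => (h3 p hp).1 ?_, by simp only [X]; rwa [e]⟩
    rw [← e]; exact mem_image_of_mem _ hB
  intro B
  refine (pr_exists_univ _ (ε := (k.x * ((K2 : ℝ) / K)) ^ (k.r + 1)) ?_).trans (by simp)
  intro R'
  by_cases h : R'.card = k.r + 1 ∧ ∀ p ∈ R', Pos.real p ∉ B
  swap
  · rw [pr_false]; · positivity
    exact fun ρ hρ => h ⟨hρ.1, hρ.2.1⟩
  have hc : (R'.image Pos.real).card = k.r + 1 := by
    rw [card_image_of_injective _ (fun x y e => by simpa using e), h.1]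
  rw [← hc]
  refine le_trans (pr_mono ?_) (pr_pi_dep (R'.image Pos.real) (fun p ρ w =>
    ∃ l ∈ X B ρ, ∃ j, l.1.1 = p.base.key j ∧ l.1.2 ≠ ζ (p.base.key j) ∧
      P.mem (t.emb (fun j => ζ (p.base.key j)) w) j l.1.2) (by positivity) ?_ ?_)
  · rintro ρ ⟨_, _, h2⟩ p hp
    obtain ⟨o, ho, rfl⟩ := mem_image.1 hp
    obtain ⟨_, l, h3, h4, h5⟩ := h2 o ho
    obtain ⟨j, _, h6, _, _, h7⟩ := memI_rn_nonsel h3 h4
    refine ⟨neg l, h5, j, h6, fun e => h4 ?_, h7⟩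
    show l.1.2 = ζ l.1.1
    rw [h6]; exact e
  · intro p ρ ρ' hρ
    have : X B ρ = X B ρ' := by
      simp only [X]
      congr 1
      refine image_congr (fun q hq => ?_)
      have : ρ q = ρ' q := by
        apply hρ
        intro h1
        obtain ⟨o, ho, rfl⟩ := mem_image.1 h1
        exact h.2 o ho hq
      simp [World.node, mkW, this]
    rw [this]
  · intro p _ ρ
    refine (pr_exists_le _ _ (ε := (K2 : ℝ) / K) ?_).trans ?_
    · intro l _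
      by_cases hj : ∃ j, l.1.1 = p.base.key j ∧ l.1.2 ≠ ζ (p.base.key j)
      swap
      · rw [pr_false]; · positivity
        exact fun w ⟨j, h1, h2, _⟩ => hj ⟨j, h1, h2⟩
      obtain ⟨j, h1, h2⟩ := hj
      refine (pr_le_of_card (s := univ.filter
        (fun i => P.mem (t.emb (fun j => ζ (p.base.key j)) i) j l.1.2)) ?_).trans ?_
      · rintro w ⟨j', h3, _, h4⟩
        obtain rfl := (key_inj (h1.symm.trans h3)).1
        exact mem_filter.2 ⟨mem_univ _, h4⟩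
      · rw [Fintype.card_fin]
        refine div_le_div_of_nonneg_right ?_ (by positivity)
        exact_mod_cast hK2 _ j _ h2
    · refine mul_le_mul_of_nonneg_right ?_ (by positivity)
      exact_mod_cast hX _

/-- More numerical requirements. -/
structure Num2 (P : Par S) (k : Cst) (Nh Λ ΛI m y s m1 KR B : ℕ) : Prop where
  hR : ∀ Z : Finset (IL P), k.h ≤ Z.card → ((Cont Z).image Node.x).card ≤ KR
  hΛ : y * NR P + y ^ k.h * Nh + y * NR P + y * KR * NR P * (Fintype.card (DL P) + 1) ^ 2 * Nh +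
    nc k.h y * ((y * k.h) ^ k.h * Nh) ≤ Λ
  hI : 2 * y + nc k.h y * k.h ≤ ΛI
  hs : 3 + nc k.h y ≤ 2 ^ s
  h1 : 2 * ((B + 2) * 2) * (m + s) ≤ m1
  h2 : 2 ^ k.h * (m + s) ≤ m1
  h3 : m1 + Fintype.card (Pos S) * k.h + Fintype.card (Key S) * 2 + Fintype.card (Pos S) < y
  h4 : 2 * KR ≤ B + 2
  h5 : 2 * y ≤ k.x

variable {t} {K2 Nh Λ ΛI m s m1 KR : ℕ}

theorem pr_line2 (ho : Ord od) (hn : Num k t K2 Nh Λ ΛI m) (hn2 : Num2 P k Nh Λ ΛI m y s m1 KR B) :
    pr (fun ω : (Om1 P K × Om2 P) × Eta P B => (mkW t p0 ω.1.1 ω.1.2).Fine ∧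
      Ok (mkW t p0 ω.1.1 ω.1.2) (co ω.2) od N ∧
        ¬ LineGood (mkW t p0 ω.1.1 ω.1.2) k (MN (mkW t p0 ω.1.1 ω.1.2) N)) ≤
      eps S k P.nEl K K2 Λ ΛI m := by
  have h3 := hn2.h3
  have h4 := (Nat.le_mul_of_pos_left _ (Nat.two_pow_pos k.h)).trans hn2.h2
  have e1 := (pr_fst_le (B := Eta P B) _).trans (pr_prod_le' (fun ω : Om1 P K × Om2 P =>
    ¬ ∃ Q, Closure (mkW t p0 ω.1 ω.2) k (FM2 k y od N) (LM2 k y N) Q) (by positivity)
    (fun b => pr_closure t p0 b (FM2 k y od N) (LM2 k y N)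
      (fun Q _ => (card_FM2 ho hn.hN hn2.hR).trans hn2.hΛ) (fun Q _ => card_LM2.trans hn2.hI)
      hn.hΛK))
  have e2 := pr3_le (fun ω : (Om1 P K × Om2 P) × Eta P B => ∃ Q,
    (∀ v ∈ Q, (mkW t p0 ω.1.1 ω.1.2).pool v) ∧ (mkW t p0 ω.1.1 ω.1.2).Fine ∧
      Ok (mkW t p0 ω.1.1 ω.1.2) (co ω.2) od N ∧ y < (CT N Q).card ∧
        ∀ v, (mkW t p0 ω.1.1 ω.1.2).pool v → v ∉ Heavy k.h (CZ y N Q)) (by positivity)
    (fun a c => pr_Q (mkW t p0 a (fun _ => false, c)).node _ (by positivity)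
      (pr_claims N t p0 ho hn2.h1 (by omega) a c))
  have e3 := pr3_le' (fun ω : (Om1 P K × Om2 P) × Eta P B => (mkW t p0 ω.1.1 ω.1.2).Fine ∧
      Ok (mkW t p0 ω.1.1 ω.1.2) (co ω.2) od N ∧ y < ((TS2 N).image Node.x).card) (by positivity)
    (pr_touch2 N t p0 ho (m := m + s) (by have := hn2.h1; omega))
  have e4 := pr_prod_le (fun ω : (Om1 P K × Om2 P) × Eta P B => ∃ Q,
    (∀ v ∈ Q, (mkW t p0 ω.1.1 ω.1.2).pool v) ∧ y < (BD k od N Q).card ∧
      ∀ L ∈ cap y (BD k od N Q), ∃ r ∈ Rows od L, (ω.2 r).1 = 0) (by positivity)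
    (fun a => pr_Q (mkW t p0 a.1 a.2).node _ (by positivity)
      fun Q _ => pr_big N ho hn2.hR hn2.h4 (m := m + s) (by omega) Q)
  have e5 := pr3_le (fun ω : (Om1 P K × Om2 P) × Eta P B => ∃ Q,
    (∀ v ∈ Q, (mkW t p0 ω.1.1 ω.1.2).pool v) ∧ ∃ Y ∈ Cores k y N Q,
      m1 ≤ (PG (mkW t p0 ω.1.1 ω.1.2) k y N Q Y).card ∧
      ∀ Z ∈ PG (mkW t p0 ω.1.1 ω.1.2) k y N Q Y, ∃ z ∈ Z \ Y, ω.1.2.1 z.1 = z.2) (by positivity)
    (fun a c => pr_Q (mkW t p0 a (fun _ => false, c)).node _ (by positivity)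
      fun Q _ => pr_prod_le' _ (by positivity) fun _ => pr_petals N t p0 hn2.h2 a c Q)
  have e6 := (pr_fst_le (B := Eta P B) _).trans (pr_prod_le' (fun ω : Om1 P K × Om2 P => ∃ Q,
    (∀ v ∈ Q, (mkW t p0 ω.1 ω.2).pool v) ∧ ∃ R' : Finset (RP S), R'.card = k.r + 1 ∧
      Burnt2 (mkW t p0 ω.1 ω.2) (both (CZ y N Q)) Q R') (by positivity)
    (pr_burn2 t p0 (fun Q => both (CZ y N Q)) (fun Q => (card_both _).trans
      ((Nat.mul_le_mul_left _ card_CZ).trans hn2.h5)) hn.hK2))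
  have e := pr_or_le e1 (pr_or_le (pr_or_le e2 (pr_or_le e3 (pr_or_le e4 e5))) e6)
  refine (le_trans (pr_mono ?_) e).trans ?_
  · rintro ω ⟨hW, hO, h⟩
    by_contra hc
    simp only [not_or, not_not] at hc
    obtain ⟨⟨Q, hQ⟩, ⟨c2, c3, c4, c5⟩, c6⟩ := hc
    exact h fun _ => ⟨Q, concl_of2 hW ho hn.h1 hO hQ hn2.h5 (m := m1) (by omega)
      (fun d => c2 ⟨Q, hQ.pool, hW, hO, d⟩) (not_lt.1 fun d => c3 ⟨hW, hO, d⟩)
      (fun d => c4 ⟨Q, hQ.pool, d⟩) (fun Y d1 d2 => c5 ⟨Q, hQ.pool, Y, d1, d2⟩)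
      fun R' d1 d2 => c6 ⟨Q, hQ.pool, R', d1, d2⟩⟩
  · have a1 : (3 + nc k.h y : ℝ) ≤ 2 ^ s := by exact_mod_cast hn2.hs
    have a2 : (1 : ℝ) ≤ 2 ^ Fintype.card (Pos S) := one_le_pow₀ (by norm_num)
    have a3 : (1 / 2 : ℝ) ^ m = 2 ^ s * (1 / 2) ^ (m + s) := by
      rw [pow_add, mul_left_comm, ← mul_pow]; simp
    have a4 : (0 : ℝ) ≤ (1 / 2) ^ (m + s) := by positivity
    have a5 := mul_le_mul_of_nonneg_right a2 a4
    have a6 := mul_le_mul_of_nonneg_left (mul_le_mul_of_nonneg_right a1 a4) (zero_le_one.trans a2)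
    have a7 : (0 : ℝ) ≤ (1 / 2) ^ m := by positivity
    rw [← a3] at a6
    unfold eps
    linarith

theorem pr_good2 (ho : Ord od) (hG : 3 ≤ P.nG) (hn : Num k t K2 Nh Λ ΛI m)
    (hn2 : Num2 P k Nh Λ ΛI m y s m1 KR B) :
    pr (fun ω : (Om1 P K × Om2 P) × Eta P B => (mkW t p0 ω.1.1 ω.1.2).Fine ∧
      Ok (mkW t p0 ω.1.1 ω.1.2) (co ω.2) od N ∧
        ¬ Good (mkW t p0 ω.1.1 ω.1.2) k (MN (mkW t p0 ω.1.1 ω.1.2) N)) ≤
      lsz N * (2 * eps S k P.nEl K K2 Λ ΛI m) := by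
  classical
  have he : 0 ≤ eps S k P.nEl K K2 Λ ΛI m := by unfold eps; positivity
  have hs : ∑ C ∈ MA N, C.card ≤ lsz N := (sum_image_le_of_nonneg fun _ _ => Nat.zero_le _).trans
    (sum_le_sum fun L _ => L.toFinset_card_le)
  by_cases h0 : lsz N = 0
  · rw [pr_false fun ω h => h.2.2 (good_of_zero h.1 (by
      have := sum_le_sum_of_subset (f := card) (MN_sub (W := mkW t p0 ω.1.1 ω.1.2) (N := N))
      omega))]
    positivity
  have e2 : pr (fun ω : Om1 P K × Om2 P => ∃ C ∈ MA N, ∃ v ∈ univ.filter (fun v => AllG v C),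
      ¬ ClauseGood (mkW t p0 ω.1 ω.2) k (Zc v C)) ≤ lsz N * eps S k P.nEl K K2 Λ ΛI m := by
    refine (pr_exists_sum _ _).trans (le_trans ?_ (mul_le_mul_of_nonneg_right (Nat.cast_le.2 hs) he))
    rw [Nat.cast_sum, sum_mul]
    refine sum_le_sum (fun C _ => (pr_exists_le _ _ (fun v _ => pr_clause p0 hn _)).trans ?_)
    refine mul_le_mul_of_nonneg_right ?_ he
    have : (univ.filter (fun v => AllG v C)).card ≤ C.card :=
      card_le_card_of_injOn (fun v => (Var.guard v ⟨0, by omega⟩, false))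
        (fun v hv => (mem_filter.1 hv).2 _) (fun v _ v' _ e => by simpa using e)
    exact_mod_cast this
  refine le_trans (pr_mono ?_) ((pr_or _ _).trans ((add_le_add (pr_line2 N p0 ho hn hn2)
    ((pr_fst_le (B := Eta P B) _).trans e2)).trans ?_))
  · rintro ω ⟨hW, hO, h⟩
    by_contra hc
    simp only [not_or, not_and, not_not, not_exists] at hc
    exact h ⟨hc.1 hW hO, fun C hC v hv => hc.2 C (MN_sub hC) v (mem_filter.2 ⟨mem_univ _, hv⟩)⟩
  · have : (1 : ℝ) ≤ lsz N := by exact_mod_cast Nat.one_le_iff_ne_zero.2 h0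
    nlinarith

theorem pr_lines2 (ho : Ord od) (hG : 3 ≤ P.nG) (hn : Num k t K2 Nh Λ ΛI m)
    (hn2 : Num2 P k Nh Λ ΛI m y s m1 KR B) (Pf : List (Finset (List (Lit P)))) :
    pr (fun ω : (Om1 P K × Om2 P) × Eta P B => (mkW t p0 ω.1.1 ω.1.2).Fine ∧
      ¬ ∀ N ∈ Pf, Ok (mkW t p0 ω.1.1 ω.1.2) (co ω.2) od N →
        Good (mkW t p0 ω.1.1 ω.1.2) k (MN (mkW t p0 ω.1.1 ω.1.2) N)) ≤
      isz Pf * (2 * eps S k P.nEl K K2 Λ ΛI m) := by
  induction Pf with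
  | nil => rw [pr_false (by simp)]; simp [isz]
  | cons N Pf ih =>
    refine le_trans (pr_mono ?_) ((pr_or _ _).trans
      ((add_le_add (pr_good2 N p0 ho hG hn hn2) ih).trans ?_))
    · rintro ω ⟨hW, h⟩
      by_contra hc
      simp only [not_or, not_and, not_not] at hc
      exact h (List.forall_mem_cons.2 ⟨hc.1 hW, hc.2 hW⟩)
    · simp only [isz, List.map_cons, List.sum_cons, Nat.cast_add]
      linarith

theorem lower_bound2 (ho : Ord od) (hf : Fit S k) (hG : 3 ≤ P.nG) (hn : Num k t K2 Nh Λ ΛI m)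
    (hn2 : Num2 P k Nh Λ ΛI m y s m1 KR B) (hd : p0.d = 0) (hEl : 0 < P.nEl) (hK : 0 < K)
    {Pf : List (Finset (List (Lit P)))} (hPf : IValid Pf) {N0 : Finset (List (Lit P))}
    (h0 : N0 ∈ Pf) (h1 : ∀ L ∈ N0, ∃ a : Ax P, a.valid ∧ L = od a) :
    1 ≤ Fintype.card (Node P) * (1 / 2 : ℝ) ^ P.nG +
      isz Pf * (2 * eps S k P.nEl K K2 Λ ΛI m) := by
  by_contra hc
  have : Nonempty (Fin P.nEl) := ⟨⟨0, hEl⟩⟩
  have : Nonempty (Fin K) := ⟨⟨0, hK⟩⟩
  have e1 := (pr_fst_le (B := Eta P B) _).trans (pr_prod_le (fun ω : Om1 P K × Om2 P =>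
    ¬ ∀ v, ∃ i, (mkW t p0 ω.1 ω.2).γ v (some i) = false) (by positivity) (fun a => pr_g0 t p0 a))
  obtain ⟨ω, hω⟩ := exists_not_of_pr_lt_one (lt_of_le_of_lt ((pr_or _ _).trans
    (add_le_add e1 (pr_lines2 p0 ho hG hn hn2 Pf))) (not_le.1 hc))
  simp only [not_or, not_and, not_not] at hω
  have hW : (mkW t p0 ω.1.1 ω.1.2).Fine := ⟨fun p j => t.mem _ _ j, hω.1, hd, hG⟩
  exact no_refutation2 hW hf ho hPf h0 h1 (hω.2 hW)

end Pool.Agent.Lib.MP_a300b0_lc
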