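import Pool.Agent.Lib.MP_a300b0_lc.BDet

/-! What a list costs: values of the hidden bits and coins that exclude it. -/

namespace Pool.Agent.Lib.MP_a300b0_lc

open Finset

variable {S : Shape} {P : Par S} {B : ℕ} {od : Ax P → List (Lit P)} {N : Finset (List (Lit P))}

theorem no_both {α : Type} {x y : α} : ∀ {l : List α}, l.Nodup → List.Sublist [x, y] l →
    List.Sublist [y, x] l → False := by
  intro l
  induction l with
  | nil => simp
  | cons a l ih =>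
    intro h h1 h2
    rw [List.nodup_cons] at h
    rcases List.sublist_cons_iff.1 h1 with h1 | ⟨r, e1, h1⟩ <;>
      rcases List.sublist_cons_iff.1 h2 with h2 | ⟨r', e2, h2⟩
    · exact ih h.2 h1 h2
    · exact h.1 (h1.subset (by simp [← (List.cons.inj e2).1]))
    · exact h.1 (h2.subset (by simp [← (List.cons.inj e1).1]))
    · cases e1; cases e2; exact h.1 (h1.subset (by simp))

theorem seg_sub (ho : Ord od) {L : List (Lit P)} {a : Ax P} (ha : a.valid) {pre post : List (Lit P)}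
    (e : od a = pre ++ L ++ post) : L.toFinset ⊆ a.cl := fun l hl =>
  ((ho a ha).2 l).1 (by rw [e]; simp [List.mem_toFinset.1 hl])

theorem spec_unique (ho : Ord od) {L : List (Lit P)} {a0 : Ax P}
    (hu : ∀ a : Ax P, a.valid → L.toFinset ⊆ a.cl → a = a0) {y : Lit P} (h1 : y ∈ a0.cl)
    (h2 : y ∉ L.toFinset) : ∃ b : Bool, ∀ (W : World P)
      (η : Option (Node P) → Fin (B + 2) × Bool), Acc W η od L → ¬ W.F y → η a0.owner ≠ (0, b) := by
  classical
  rcases L with _ | ⟨x, L⟩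
  · exact ⟨true, fun W η h => by simpa using h.nf⟩
  refine ⟨decide (List.Sublist [x, y] (od a0)), ?_⟩
  rintro W η ⟨a, ha, pre, post, e, -, h3, h4⟩ hy he
  obtain rfl := hu a ha (seg_sub ho ha e)
  have hc : Cand W η a y := ⟨hy, Or.inl (by rw [he])⟩
  have h5 := ((ho a ha).2 y).2 h1
  rw [e, List.mem_append, List.mem_append] at h5
  rcases h5 with (h5 | h5) | h5
  · refine h3 ?_ y h5 hc
    rw [he]
    refine decide_eq_false fun h6 => no_both (ho a ha).1 h6 ?_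
    rw [e, List.append_assoc]
    exact (List.singleton_sublist.2 h5).append (List.singleton_sublist.2 (by simp))
  · exact h2 (List.mem_toFinset.2 h5)
  · refine h4 ?_ y h5 hc
    rw [he]
    refine decide_eq_true ?_
    rw [e]
    exact (List.singleton_sublist.2 (by simp)).append (List.singleton_sublist.2 h5)

/-- All the clauses of a line. -/
noncomputable def MA (N : Finset (List (Lit P))) : Finset (Finset (Lit P)) :=
  N.image List.toFinset

theorem mem_MA {C : Finset (Lit P)} : C ∈ MA N ↔ ∃ L ∈ N, L.toFinset = C := by simp [MA]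

theorem MN_sub {W : World P} : MN W N ⊆ MA N := fun C hC => by
  obtain ⟨L, h1, _, h2⟩ := mem_MN.1 hC
  exact mem_MA.2 ⟨L, h1, h2⟩

section
variable {W : World P} {η : Option (Node P) → Fin (B + 2) × Bool}

theorem Ok.cases (h : Ok W η od N) {L : List (Lit P)} (hL : L ∈ N) :
    (L.toFinset ∈ MN W N ∧ ∀ t ∈ L.toFinset, W.F t) ∨ Acc W η od L := by
  by_cases hall : ∀ t ∈ L, W.F t
  · exact Or.inl ⟨mem_MN.2 ⟨L, hL, Or.inr hall, rfl⟩, fun t ht => hall t (List.mem_toFinset.1 ht)⟩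
  · push Not at hall
    exact Or.inr ((h.seg L hL).2.2 hall)

theorem Ok.unit (ho : Ord od) (h : Ok W η od N) {l : Lit P} (hl : {l} ∈ MA N) : {l} ∈ MN W N := by
  obtain ⟨L, h1, h2⟩ := mem_MA.1 hl
  refine mem_MN.2 ⟨L, h1, Or.inl ?_, h2⟩
  rw [← List.toFinset_card_of_nodup ((h.seg L h1).nodup ho), h2, card_singleton]

theorem allF_of_MN {C : Finset (Lit P)} (hC : C ∈ MN W N) (h2 : 2 ≤ C.card) : ∀ t ∈ C, W.F t := by
  obtain ⟨L, -, h1 | h1, rfl⟩ := mem_MN.1 hC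
  · have := L.toFinset_card_le; omega
  · exact fun t ht => h1 t (List.mem_toFinset.1 ht)

theorem Ok.ax (hW : W.Fine) (h : Ok W η od N) {C : Finset (Lit P)} (hC : C ∈ MN W N)
    (h2 : 2 ≤ C.card) : ∃ a : Ax P, a.valid ∧ C ⊆ a.cl ∧ (∀ l ∈ a.cl, W.F l) ∧ W.poolO a.owner := by
  obtain ⟨a, ha, hs, hF⟩ := (h.j1 C hC).big h2
  have : ∀ l ∈ a.cl, W.F l := fun l hl => (em (l ∈ C)).elim (allF_of_MN hC h2 l) (hF l hl)
  exact ⟨a, ha, hs, this, pool_of_allF hW this⟩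

end

theorem eq_choice {a : Ax P} {v : Option (Node P)} {b : Bool} {w : Node P}
    (h : (Var.edge v b w, true) ∈ a.cl) : a = .choice v b := by
  rcases mem_cl.1 h with ⟨u', i', _, h2⟩ | h
  · simp at h2
  · rcases a with _ | _ | _ | ⟨v', b', w', d'⟩ <;> simp [Ax.body, il] at h
    · simp [h]
    · rcases neg_dl w' d' with ⟨l, _, h2⟩ | ⟨l, _, h2⟩ <;> simp [h2, il] at h

theorem eq_link {a : Ax P} {v : Option (Node P)} {b : Bool} {w : Node P} {d : DL P}
    (h : (Var.link v b w d, true) ∈ a.cl) : a = .link v b w d := by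
  rcases mem_cl.1 h with ⟨u', i', _, h2⟩ | h
  · simp at h2
  · rcases a with _ | _ | _ | ⟨v', b', w', d'⟩ <;> simp [Ax.body, il] at h
    · simp [h]
    · rcases neg_dl w' d' with ⟨l, _, h2⟩ | ⟨l, _, h2⟩ <;> simp [h2, il] at h

theorem touch_spec (ho : Ord od) {v : Node P} {C : Finset (Lit P)} (hC : C ∈ MA N)
    (ht : Touch v C) (hG : ¬ ∀ l ∈ C, isG (some v) l) :
    ∃ (t : Option (Fin P.nG) × Bool) (x : Fin (B + 2) × Bool), ∀ (W : World P) η, W.Fine →
      ¬ W.pool v → Ok W η od N → W.γ v t.1 = t.2 → η (some v) ≠ x := by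
  classical
  rcases id ht with ⟨l, rfl, -⟩ | ⟨h2, hown, hPF, -⟩
  · obtain ⟨t, h1⟩ := touch_bit ht
    refine ⟨(t.1, !t.2), (0, true), fun W η _ hn h e => ?_⟩
    rw [h1 W hn (h.j1 _ (h.unit ho hC))] at e
    simp at e
  obtain ⟨L, hL, rfl⟩ := mem_MA.1 hC
  have hacc : ∀ (W : World P) (η : Option (Node P) → Fin (B + 2) × Bool), W.Fine → ¬ W.pool v →
      Ok W η od N → Acc W η od L := fun W η hW hn h => (h.cases hL).resolve_left fun c => by
    obtain ⟨a, -, hs, -, hp⟩ := h.ax hW c.1 h2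
    rw [owner_of_owned hs hown] at hp
    exact hn hp
  by_cases hU : ∃ a0 : Ax P, a0.valid ∧ L.toFinset ⊆ a0.cl ∧
      ∀ a : Ax P, a.valid → L.toFinset ⊆ a.cl → a = a0
  · obtain ⟨a, ha, hs, hu⟩ := hU
    have hv := owner_of_owned hs hown
    obtain ⟨y, h3, h4, h5⟩ : ∃ y ∈ a.cl, y ∉ L.toFinset ∧ (isG (some v) y ∨ isE (some v) y) := by
      by_contra hc
      push Not at hc
      refine hPF ⟨a, ha, hv, hs, ?_⟩
      have key : ∀ y ∈ a.cl, y ∉ L.toFinset → (∃ u l', a = .leaf u ∧ y = il l') ∨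
          ∃ u b w d, a = .give u b w d ∧ y = neg (dl w d) := fun y c1 c2 =>
        ((owned_or c1).resolve_left (hv ▸ (hc y c1 c2).1)).resolve_left (hv ▸ (hc y c1 c2).2)
      by_cases e : a.cl ⊆ L.toFinset
      · exact Or.inl (Subset.antisymm hs e)
      obtain ⟨y, c1, c2⟩ := not_subset.1 e
      rcases key y c1 c2 with ⟨u, l', rfl, -⟩ | ⟨u, b, w, d, rfl, rfl⟩
      · refine Or.inr (Or.inr ⟨u, rfl, fun i => ?_⟩)
        by_contra c3
        exact (hc _ (guard_mem rfl i) c3).1 ⟨u, i, hv.symm, rfl⟩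
      · refine Or.inr (Or.inl ⟨u, b, w, d, rfl, Subset.antisymm (fun l hl =>
          mem_erase.2 ⟨fun e => c2 (e ▸ hl), hs hl⟩) fun l hl => ?_⟩)
        by_contra c3
        rcases key l (mem_erase.1 hl).2 c3 with ⟨_, _, e, -⟩ | ⟨_, _, _, _, e, e'⟩
        · cases e
        · cases e; exact (mem_erase.1 hl).1 e'
    obtain ⟨b, hb⟩ := spec_unique (B := B) ho hu h3 h4
    obtain ⟨t, h6⟩ : ∃ t : Option (Fin P.nG) × Bool, ∀ W : World P, ¬ W.pool v →
        W.γ v t.1 = t.2 → ¬ W.F y := by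
      rcases h5 with ⟨u, i, e, rfl⟩ | ⟨b, w, e⟩
      · obtain rfl : v = u := by simpa using e
        exact ⟨(some i, false), fun W hn e c => c.elim (fun c => hn c.1) fun c => c.2 e⟩
      · refine ⟨(none, y.2), fun W hn e1 c => ?_⟩
        rcases y with ⟨x, pol⟩
        rcases e with e | ⟨d, e⟩ <;> simp only at e <;> subst e <;>
          exact c.elim hn fun c => c e1
    exact ⟨t, (0, b), fun W η hW hn h e => hv ▸ hb W η (hacc W η hW hn h) (h6 W hn e)⟩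
  refine ⟨(none, decide (∃ u b w, (Var.edge u b w, false) ∈ L.toFinset)), (1, false),
    fun W η hW hn h e he => ?_⟩
  obtain ⟨a, ha, pre, post, e1, ⟨t, h3, h4, h5⟩, -⟩ := hacc W η hW hn h
  have hs := seg_sub ho ha e1
  have hv := owner_of_owned hs hown
  have h3' := List.mem_toFinset.2 h3
  have hu : ¬ ∀ a' : Ax P, a'.valid → L.toFinset ⊆ a'.cl → a' = a := fun c => hU ⟨a, ha, hs, c⟩
  obtain ⟨x, x1, x2⟩ : ∃ x ∈ L.toFinset, a.body x := by
    push Not at hG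
    obtain ⟨x, c1, c2⟩ := hG
    exact ⟨x, c1, (mem_cl.1 (hs c1)).resolve_left (hv ▸ c2)⟩
  have pref : ∀ y ∈ a.cl, Pref a y → ¬ W.F y → Pref a t := fun y c1 c2 c3 =>
    (h5.resolve_left (by rw [hv, he]; simp)).resolve_right fun c => c3 (c y c1 c2)
  rcases a with u | ⟨u, b⟩ | ⟨u, b, w, d⟩ | ⟨u, b, w, d⟩ <;> simp only [Ax.owner] at hv
  · obtain rfl : u = v := by simpa using hv
    exact hu fun a' c1 c2 => eq_leaf c1 (owner_of_owned c2 hown) ha
  · obtain ⟨w, -, rfl⟩ := x2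
    exact hu fun a' _ c2 => eq_choice (c2 x1)
  · subst hv
    have hk : (Var.link (some v) b w d, true) ∉ L.toFinset := fun c =>
      hu fun a' _ c2 => eq_link (c2 c)
    obtain rfl := x2.resolve_right fun c => hk (c ▸ x1)
    have hγ : W.γ v none = true := e.trans (decide_eq_true ⟨_, _, _, x1⟩)
    obtain ⟨b', w', c⟩ := pref (.link (some v) b w d, true) (mem_cl.2 (Or.inr (Or.inr rfl)))
      ⟨b, w, Or.inr ⟨d, rfl⟩⟩ fun c => c.elim hn fun c => c hγ
    rcases mem_cl.1 (hs h3') with ⟨_, _, _, rfl⟩ | rfl | rfl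
    · simp at c
    · exact h4 (Or.inr (by simp [hγ]))
    · exact hk h3'
  · subst hv
    have hk : (Var.link (some v) b w d, false) ∉ L.toFinset := fun c =>
      hu fun a' _ c2 => eq_give (c2 c)
    have hγ : W.γ v none = false := e.trans (decide_eq_false (by
      rintro ⟨u, b', w', c⟩
      rcases mem_cl.1 (hs c) with ⟨_, _, _, c⟩ | c | c
      · simp at c
      · simp at c
      · rcases neg_dl w d with ⟨l, _, h4⟩ | ⟨l, _, h4⟩ <;> simp [h4, il] at c))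
    obtain ⟨b', w', c⟩ := pref (.link (some v) b w d, false) (mem_cl.2 (Or.inr (Or.inl rfl)))
      ⟨b, w, Or.inr ⟨d, rfl⟩⟩ fun c => c.elim hn fun c => c hγ
    rcases mem_cl.1 (hs h3') with ⟨_, _, _, rfl⟩ | rfl | rfl
    · simp at c
    · exact hk h3'
    · rcases neg_dl w d with ⟨l, _, h4⟩ | ⟨l, _, h4⟩ <;> simp [h4, il] at c

/-- Claims together with their sources. -/
def Cl (M : Finset (Finset (Lit P))) (l : IL P) (src : Option (Node P)) : Prop :=
  ({il (neg l)} ∈ M ∧ src = none) ∨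
  (∃ C ∈ M, 2 ≤ C.card ∧ ∃ v i, src = some v ∧ dep (some v) = S.L + 1 ∧
    (Var.guard v i, false) ∈ C ∧ memI v l ∧ il l ∉ C) ∨
  (∃ C ∈ M, 2 ≤ C.card ∧ ∃ b w, (Var.link src b w (.inl (neg l)), false) ∈ C ∧ il l ∉ C)

theorem claim_spec (ho : Ord od) {l : IL P} {src : Option (Node P)} (h : Cl (MA N) l src) :
    ∃ x : Fin (B + 2) × Bool, ∀ (W : World P) η, W.Fine → Ok W η od N → ¬ W.FI l →
      ¬ W.poolO src ∧ η src ≠ x := by
  have key : ∀ C ∈ MA N, 2 ≤ C.card → ∀ a0 : Ax P, a0.owner = src →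
      (∀ a : Ax P, a.valid → C ⊆ a.cl → a = a0) → il l ∈ a0.cl → il l ∉ C →
      (∀ W : World P, W.poolO src → ∀ t ∈ a0.cl, t ≠ il l → W.F t) →
      ∃ x : Fin (B + 2) × Bool, ∀ (W : World P) η, W.Fine → Ok W η od N → ¬ W.FI l →
        ¬ W.poolO src ∧ η src ≠ x := by
    intro C hC h2 a0 hv hu h3 h4 h5
    obtain ⟨L, hL, rfl⟩ := mem_MA.1 hC
    obtain ⟨b, hb⟩ := spec_unique (B := B) ho hu h3 h4
    refine ⟨(0, b), fun W η hW h hl => ?_⟩
    rcases h.cases hL with c | c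
    · obtain ⟨a, ha, hs, hF, -⟩ := h.ax hW c.1 h2
      exact absurd (hF (il l) (hu a ha hs ▸ h3)) hl
    · refine ⟨fun hp => ?_, hv ▸ hb W η c hl⟩
      obtain ⟨a, ha, pre, post, e, ⟨t, c1, c2, -⟩, -⟩ := c
      have hs := seg_sub ho ha e
      have c3 := List.mem_toFinset.2 c1
      exact c2 (h5 W hp t (hu a ha hs ▸ hs c3) fun e => h4 (e ▸ c3))
  rcases h with ⟨h, -⟩ | ⟨C, hC, h2, v, i, rfl, h3, h4, h5, h6⟩ | ⟨C, hC, h2, b, w, h3, h4⟩
  · exact ⟨(0, true), fun W η _ c hl => absurd (by simpa using (c.j1 _ (c.unit ho h)).unit) hl⟩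
  · refine key C hC h2 (.leaf v) rfl (fun a ha hs =>
      eq_leaf ha (owner_of_isG (hs h4) ⟨v, i, rfl, rfl⟩) h3) (il_mem_leaf.2 h5) h6 ?_
    intro W hp t ht _
    rcases mem_cl.1 ht with c | ⟨l', c, rfl⟩
    · exact F_of_pool hp (Or.inl c)
    · exact Or.inr (Or.inr ⟨v.pos, (show v = _ from hp) ▸ c⟩)
  · refine key C hC h2 (.give src b w (.inl (neg l))) rfl (fun a _ hs => eq_give (hs h3))
      (mem_cl.2 (Or.inr (Or.inr (by simp [dl])))) h4 ?_
    intro W hp t ht hne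
    rcases mem_cl.1 ht with c | rfl | rfl
    · exact F_of_pool hp (Or.inl c)
    · exact F_of_pool hp (Or.inr ⟨b, w, Or.inr ⟨_, rfl⟩⟩)
    · simp [dl] at hne

variable {W : World P} {η : Option (Node P) → Fin (B + 2) × Bool}

theorem cl_of_Ycl (hW : W.Fine) (h : Ok W η od N) {l : IL P} (hY : Ycl (MN W N) l) :
    ∃ src, Cl (MA N) l src ∧ W.poolO src := by
  rcases hY with h1 | ⟨C, hC, h2, v, i, h3, h4, h5⟩ | ⟨C, hC, h2, v, b, w, h3, h4⟩
  · exact ⟨none, Or.inl ⟨MN_sub h1, rfl⟩, trivial⟩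
  · obtain ⟨a, -, hs, -, hp⟩ := h.ax hW hC h2
    exact ⟨some v, Or.inr (Or.inl ⟨C, MN_sub hC, h2, v, i, rfl, h3, h4, h5⟩),
      owner_of_isG (hs h4) ⟨v, i, rfl, rfl⟩ ▸ hp⟩
  · obtain ⟨a, -, hs, -, hp⟩ := h.ax hW hC h2
    exact ⟨v, Or.inr (Or.inr ⟨C, MN_sub hC, h2, b, w, h3, h4⟩),
      owner_of_isE (v := v) (hs h3) ⟨b, w, Or.inr ⟨_, rfl⟩⟩ ▸ hp⟩

theorem acc_orph (ho : Ord od) (hW : W.Fine) {L : List (Lit P)} (h : Acc W η od L)
    (hO : Orph L.toFinset) : ∃ v, (Ax.leaf v).valid ∧ L <:+: od (.leaf v) ∧ (η (some v)).1 = 0 := by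
  obtain ⟨a, ha, pre, post, e, ⟨t, h1, h2, h3⟩, -⟩ := h
  have hs := seg_sub ho ha e
  obtain ⟨v, rfl⟩ := leaf_of_orph hs hO
  have h1' := List.mem_toFinset.2 h1
  obtain ⟨l, rfl⟩ := hO.2 t h1'
  refine ⟨v, ha, ⟨pre, post, e.symm⟩, ?_⟩
  rcases h3 with c | ⟨_, _, _, c⟩ | c
  · exact c
  · simp [il] at c
  · have hn : ¬ W.pool v := fun hp =>
      h2 (Or.inr (Or.inr ⟨v.pos, (show v = _ from hp) ▸ il_mem_leaf.1 (hs h1')⟩))
    obtain ⟨i, hi⟩ := hW.g0 v
    exact ((c _ (guard_mem rfl i) ⟨v, i, rfl, rfl⟩).elim (fun c => hn c.1) fun c => c.2 hi).elim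

end Pool.Agent.Lib.MP_a300b0_lc
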