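import Pool.Agent.Lib.MP_a300b0_lc.LK
import Pool.Agent.Lib.MP_a300b0_lc.BDefs

/-! Refutations that split lists of literals into two parts; they simulate cut-free LK. -/

namespace Pool.Agent.Lib.MP_a300b0_lc

open Finset

variable {V V' : Type} [DecidableEq V] [DecidableEq V']

/-- A line is a set of lists of literals; a list may be split into an initial and a final part. -/
def IStep (prev : List (Finset (List (V × Bool)))) (N : Finset (List (V × Bool))) : Prop :=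
  (∃ p, [(p, true)] ∈ N ∧ [(p, false)] ∈ N) ∨ (∃ Γ ∈ prev, Γ ⊆ N) ∨
  ∃ L1 L2 : List (V × Bool), L1 ≠ [] ∧ L2 ≠ [] ∧ L1 ++ L2 ∈ N ∧
    (∃ Γ ∈ prev, Γ ⊆ insert L1 N) ∧ ∃ Γ ∈ prev, Γ ⊆ insert L2 N

def IValid (P : List (Finset (List (V × Bool)))) : Prop :=
  ∀ (i : ℕ) (h : i < P.length), IStep (P.take i) P[i]

def lsz (N : Finset (List (V × Bool))) : ℕ := ∑ L ∈ N, L.length

def isz (P : List (Finset (List (V × Bool)))) : ℕ := (P.map lsz).sum

theorem IValid.snoc {A : List (Finset (List (V × Bool)))} (hA : IValid A)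
    {N : Finset (List (V × Bool))} (h : IStep A N) : IValid (A ++ [N]) := by
  intro i hi
  by_cases hlt : i < A.length
  · rw [List.getElem_append_left hlt, List.take_append_of_le_length hlt.le]
    exact hA i hlt
  · obtain rfl : i = A.length := by simp at hi; omega
    simpa using h

def lm (g : V → V') (L : List (V × Bool)) : List (V' × Bool) := L.map fun l => (g l.1, l.2)

theorem IValid.map (g : V → V') {P : List (Finset (List (V × Bool)))} (h : IValid P) :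
    IValid (P.map (image (lm g))) := by
  intro i hi
  rw [List.getElem_map, ← List.map_take]
  have key : ∀ (L : List (V × Bool)) N, (∃ Γ ∈ P.take i, Γ ⊆ insert L N) →
      ∃ Γ ∈ (P.take i).map (image (lm g)), Γ ⊆ insert (lm g L) (image (lm g) N) := by
    rintro L N ⟨Γ, h1, h2⟩
    exact ⟨_, List.mem_map_of_mem h1, image_insert (lm g) L N ▸ image_subset_image h2⟩
  rcases h i (by simpa using hi) with ⟨p, h1, h2⟩ | ⟨Γ, h1, h2⟩ | ⟨L1, L2, h1, h2, h3, h4, h5⟩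
  · exact Or.inl ⟨g p, mem_image_of_mem (lm g) h1, mem_image_of_mem (lm g) h2⟩
  · exact Or.inr (Or.inl ⟨_, List.mem_map_of_mem h1, image_subset_image h2⟩)
  · refine Or.inr (Or.inr ⟨lm g L1, lm g L2, by simpa [lm] using h1, by simpa [lm] using h2, ?_,
      key _ _ h4, key _ _ h5⟩)
    have := mem_image_of_mem (lm g) h3
    rwa [lm, List.map_append] at this

omit [DecidableEq V] in
theorem isz_map (g : V → V') (P : List (Finset (List (V × Bool)))) :
    isz (P.map (image (lm g))) ≤ isz P := by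
  induction P with
  | nil => exact le_rfl
  | cons N P ih =>
    simp only [isz, List.map_cons, List.sum_cons] at ih ⊢
    refine add_le_add ?_ ih
    exact (sum_image_le_of_nonneg (fun _ _ => Nat.zero_le _)).trans
      (sum_le_sum (fun L _ => by simp [lm]))

def lv : Fm V → List (V × Bool)
  | .atom p => [(p, true)]
  | .not (.atom p) => [(p, false)]
  | .or A B => lv A ++ lv B
  | _ => []

def dj : Fm V → Finset (List (V × Bool))
  | .and A B => dj A ∪ dj B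
  | F => {lv F}

theorem IsDisj.lv {A : Fm V} {L : List (V × Bool)} (h : IsDisj A L) :
    lv A = L ∧ dj A = {L} ∧ L ≠ [] := by
  induction h with
  | lit l => rcases l with ⟨p, _ | _⟩ <;> simp [litFm, MP_a300b0_lc.lv, dj]
  | or _ _ ih1 ih2 => simp [dj, MP_a300b0_lc.lv, ih1.1, ih2.1, ih1.2.2]

theorem IsConj.dj {A : Fm V} {T : Set (List (V × Bool))} (h : IsConj A T) :
    ∀ L, L ∈ dj A ↔ L ∈ T := by
  induction h with
  | disj h => simp [h.lv.2.1]
  | and _ _ ih1 ih2 => simp [MP_a300b0_lc.dj, ih1, ih2]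

omit [DecidableEq V] in
theorem length_lv (A : Fm V) : (lv A).length ≤ A.atoms := by
  induction A with
  | atom p => simp [lv, Fm.atoms]
  | not A _ => cases A <;> simp [lv, Fm.atoms]
  | or A B ih1 ih2 => simp only [lv, Fm.atoms, List.length_append]; omega
  | and A B => simp [lv]
  | imp A B => simp [lv]

theorem lsz_union (M N : Finset (List (V × Bool))) : lsz (M ∪ N) ≤ lsz M + lsz N :=
  le_of_add_le_left (sum_union_inter (s₁ := M) (s₂ := N) (f := List.length)).le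

theorem lsz_dj (A : Fm V) : lsz (dj A) ≤ A.atoms := by
  induction A with
  | and A B ih1 ih2 => exact (lsz_union _ _).trans (add_le_add ih1 ih2)
  | _ => simpa [lsz, dj] using length_lv _

def djL : List (Fm V) → Finset (List (V × Bool))
  | [] => ∅
  | A :: Γ => dj A ∪ djL Γ

theorem mem_djL {Γ : List (Fm V)} {L : List (V × Bool)} : L ∈ djL Γ ↔ ∃ A ∈ Γ, L ∈ dj A := by
  induction Γ with
  | nil => simp [djL]
  | cons A Γ ih => simp [djL, ih]

theorem lsz_djL (Γ : List (Fm V)) : lsz (djL Γ) ≤ (Γ.map Fm.atoms).sum := by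
  induction Γ with
  | nil => simp [djL, lsz]
  | cons A Γ ih => exact (lsz_union _ _).trans (add_le_add (lsz_dj A) ih)

def ti (Γ Δ : List (Fm V)) : Finset (List (V × Bool)) := djL Γ ∪ djL (Δ.map Fm.not)

theorem mem_ti {Γ Δ : List (Fm V)} {L : List (V × Bool)} :
    L ∈ ti Γ Δ ↔ (∃ A ∈ Γ, L ∈ dj A) ∨ ∃ A ∈ Δ, L ∈ dj A.not := by
  simp [ti, mem_djL]

theorem lsz_ti (Γ Δ : List (Fm V)) :
    lsz (ti Γ Δ) ≤ (Γ.map Fm.atoms).sum + (Δ.map Fm.atoms).sum := by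
  refine (lsz_union _ _).trans (add_le_add (lsz_djL _) ((lsz_djL _).trans (le_of_eq ?_)))
  rw [List.map_map]; rfl

def Shq (Γ Δ : List (Fm V)) : Prop := (∀ A ∈ Γ, ∃ T, IsConj A T) ∧ ∀ A ∈ Δ, ∃ p, A = .atom p

omit [DecidableEq V] in
theorem conj_inv {F : Fm V} {T : Set (List (V × Bool))} (h : IsConj F T) :
    (∃ p, F = .atom p) ∨ (∃ p, F = .not (.atom p)) ∨
    (∃ A B L M, F = .or A B ∧ IsDisj A L ∧ IsDisj B M) ∨
    ∃ A B, F = .and A B ∧ (∃ U, IsConj A U) ∧ ∃ U, IsConj B U := by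
  cases h with
  | disj h =>
    cases h with
    | lit l =>
      rcases l with ⟨p, _ | _⟩
      · exact Or.inr (Or.inl ⟨p, rfl⟩)
      · exact Or.inl ⟨p, rfl⟩
    | or h1 h2 => exact Or.inr (Or.inr (Or.inl ⟨_, _, _, _, rfl, h1, h2⟩))
  | and h1 h2 => exact Or.inr (Or.inr (Or.inr ⟨_, _, rfl, ⟨_, h1⟩, _, h2⟩))

theorem isim_step {prev : List (List (Fm V) × List (Fm V))} {G : List (Finset (List (V × Bool)))}
    (hp : ∀ s ∈ prev, Shq s.1 s.2 → ti s.1 s.2 ∈ G) {Γ Δ : List (Fm V)}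
    (h : LKStep prev Γ Δ) (hs : Shq Γ Δ) : IStep G (ti Γ Δ) := by
  have prem : ∀ Γ' Δ', Prem prev Γ' Δ' → Shq Γ' Δ' → ∀ M, ti Γ' Δ' ⊆ M → ∃ X ∈ G, X ⊆ M := by
    rintro Γ' Δ' ⟨s, h1, h2, h3⟩ h4 M h5
    refine ⟨_, hp s h1 ⟨fun A hA => h4.1 A (h2 hA), fun A hA => h4.2 A (h3 hA)⟩,
      fun C hC => h5 ?_⟩
    rcases mem_ti.1 hC with ⟨A, h6, h7⟩ | ⟨A, h6, h7⟩
    · exact mem_ti.2 (Or.inl ⟨A, h2 h6, h7⟩)
    · exact mem_ti.2 (Or.inr ⟨A, h3 h6, h7⟩)
  have side : ∀ A L, IsDisj A L → Prem prev (A :: Γ) Δ → ∃ X ∈ G, X ⊆ insert L (ti Γ Δ) := by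
    intro A L h1 h2
    refine prem _ _ h2 ⟨List.forall_mem_cons.2 ⟨⟨_, .disj h1⟩, hs.1⟩, hs.2⟩ _ (fun C => ?_)
    simp only [mem_ti, mem_insert, List.mem_cons, exists_eq_or_imp, h1.lv.2.1, mem_singleton]
    exact or_assoc.1
  rcases h with ⟨A, h1, h2⟩ | h | ⟨A, h1, h2⟩ | ⟨A, h1, _⟩ | ⟨A, B, h1, h2, h3⟩ | ⟨A, B, h1, _⟩ |
    ⟨A, B, h1, h2⟩ | ⟨A, B, h1, _⟩ | ⟨A, B, h1, _⟩ | ⟨A, B, h1, _⟩
  · obtain ⟨p, rfl⟩ := hs.2 A h2
    exact Or.inl ⟨p, mem_ti.2 (Or.inl ⟨_, h1, mem_singleton_self _⟩),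
      mem_ti.2 (Or.inr ⟨_, h2, mem_singleton_self _⟩)⟩
  · exact Or.inr (Or.inl (prem _ _ h hs _ subset_rfl))
  · obtain ⟨T, hT⟩ := hs.1 _ h1
    rcases conj_inv hT with ⟨p, e⟩ | ⟨p, e⟩ | ⟨_, _, _, _, e, _⟩ | ⟨_, _, e, _⟩ <;> cases e
    refine Or.inr (Or.inl (prem _ _ h2 ⟨hs.1, List.forall_mem_cons.2 ⟨⟨p, rfl⟩, hs.2⟩⟩ _
      (fun C hC => ?_)))
    simp only [mem_ti, List.mem_cons, exists_eq_or_imp] at hC ⊢
    rcases hC with hC | hC | hC
    · exact Or.inl hC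
    · exact Or.inl ⟨_, h1, hC⟩
    · exact Or.inr hC
  · obtain ⟨p, e⟩ := hs.2 _ h1; cases e
  · obtain ⟨T, hT⟩ := hs.1 _ h1
    rcases conj_inv hT with ⟨p, e⟩ | ⟨p, e⟩ | ⟨X, Y, L, M, e, h4, h5⟩ | ⟨_, _, e, _⟩ <;> cases e
    refine Or.inr (Or.inr ⟨L, M, h4.lv.2.2, h5.lv.2.2, mem_ti.2 (Or.inl ⟨_, h1, ?_⟩),
      side _ _ h4 h2, side _ _ h5 h3⟩)
    rw [(h4.or h5).lv.2.1]; exact mem_singleton_self _
  · obtain ⟨p, e⟩ := hs.2 _ h1; cases e
  · obtain ⟨T, hT⟩ := hs.1 _ h1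
    rcases conj_inv hT with ⟨p, e⟩ | ⟨p, e⟩ | ⟨_, _, _, _, e, _⟩ | ⟨_, _, e, h3, h4⟩ <;> cases e
    refine Or.inr (Or.inl (prem _ _ h2 ⟨List.forall_mem_cons.2 ⟨h3, List.forall_mem_cons.2
      ⟨h4, hs.1⟩⟩, hs.2⟩ _ (fun C hC => ?_)))
    simp only [mem_ti, List.mem_cons, exists_eq_or_imp] at hC ⊢
    rcases hC with (hC | hC | hC) | hC
    · exact Or.inl ⟨_, h1, mem_union_left _ hC⟩
    · exact Or.inl ⟨_, h1, mem_union_right _ hC⟩
    · exact Or.inl hC
    · exact Or.inr hC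
  · obtain ⟨p, e⟩ := hs.2 _ h1; cases e
  · obtain ⟨T, hT⟩ := hs.1 _ h1
    rcases conj_inv hT with ⟨p, e⟩ | ⟨p, e⟩ | ⟨_, _, _, _, e, _⟩ | ⟨_, _, e, _⟩ <;> cases e
  · obtain ⟨p, e⟩ := hs.2 _ h1; cases e

theorem isim_list (P : List (List (Fm V) × List (Fm V))) (h : LKValid P) :
    ∃ G, IValid G ∧ (∀ s ∈ P, Shq s.1 s.2 → ti s.1 s.2 ∈ G) ∧ isz G ≤ atomCount P := by
  induction P using List.reverseRecOn with
  | nil => exact ⟨[], fun i hi => by simp at hi, by simp, by simp [isz]⟩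
  | append_singleton P s ih =>
    obtain ⟨G, h1, h2, h3⟩ := ih (fun i hi => by
      have := h i (by simp; omega)
      rwa [List.getElem_append_left hi, List.take_append_of_le_length hi.le] at this)
    have h4 : atomCount (P ++ [s]) =
        atomCount P + ((s.1.map Fm.atoms).sum + (s.2.map Fm.atoms).sum) := by simp [atomCount]
    by_cases hs : Shq s.1 s.2
    · refine ⟨G ++ [ti s.1 s.2], h1.snoc (isim_step h2 (by simpa using h P.length (by simp)) hs),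
        fun t ht h5 => ?_, ?_⟩
      · rcases List.mem_append.1 ht with ht | ht
        · exact List.mem_append_left _ (h2 t ht h5)
        · rw [List.mem_singleton.1 ht]; simp
      · have := lsz_ti s.1 s.2
        simp only [isz, List.map_append, List.sum_append, List.map_cons, List.sum_cons,
          List.map_nil, List.sum_nil] at h3 ⊢
        omega
    · refine ⟨G, h1, fun t ht h5 => ?_, by omega⟩
      rcases List.mem_append.1 ht with ht | ht
      · exact h2 t ht h5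
      · exact absurd (List.mem_singleton.1 ht ▸ h5) hs

theorem i_of_lk {P : List (List (Fm V) × List (Fm V))} {Γ : List (Fm V)}
    {S : Finset (Finset (V × Bool))} (hr : Writes Γ S) (h : IsLKRefutation P Γ) :
    ∃ ord : Finset (V × Bool) → List (V × Bool),
      (∀ C ∈ S, (ord C).Nodup ∧ (ord C).toFinset = C) ∧ ∃ G, IValid G ∧ isz G ≤ atomCount P ∧
        ∃ N ∈ G, ∀ L ∈ N, ∃ C ∈ S, L = ord C := by
  obtain ⟨ord, a1, a2, -⟩ := hr
  obtain ⟨G, h1, h2, h3⟩ := isim_list P h.1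
  refine ⟨ord, a1, G, h1, h3, _, h2 _ (List.mem_of_getLast? h.2)
    ⟨fun A hA => (a2 A hA).imp (fun _ h => h.1), by simp⟩, fun L hL => ?_⟩
  simp only [mem_ti, List.not_mem_nil, false_and, exists_false, or_false] at hL
  obtain ⟨A, h4, h5⟩ := hL
  obtain ⟨T, h6, h7⟩ := a2 A h4
  exact h7 L ((h6.dj L).1 h5)

omit [DecidableEq V] in
theorem IsDisj.ev {α : V → Prop} [DecidablePred α] {A : Fm V} {L : List (V × Bool)}
    (h : IsDisj A L) (hA : A.ev α) : ∃ l ∈ L, decide (α l.1) = l.2 := by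
  induction h with
  | lit l => exact ⟨l, by simp, by rcases l with ⟨p, _ | _⟩ <;> simpa [litFm, Fm.ev] using hA⟩
  | or _ _ ih1 ih2 =>
    rcases hA with hA | hA
    · obtain ⟨t, h1, h2⟩ := ih1 hA
      exact ⟨t, List.mem_append_left _ h1, h2⟩
    · obtain ⟨t, h1, h2⟩ := ih2 hA
      exact ⟨t, List.mem_append_right _ h1, h2⟩

omit [DecidableEq V] in
theorem IsConj.ev {α : V → Prop} [DecidablePred α] {A : Fm V} {T : Set (List (V × Bool))}
    (h : IsConj A T) (hA : A.ev α) : ∀ L ∈ T, ∃ l ∈ L, decide (α l.1) = l.2 := by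
  induction h with
  | disj h => intro C hC; rw [Set.mem_singleton_iff.1 hC]; exact h.ev hA
  | and _ _ ih1 ih2 =>
    rintro C (hC | hC)
    · exact ih1 hA.1 C hC
    · exact ih2 hA.2 C hC

theorem lk_refutable' {Γ : List (Fm V)} {S : Finset (Finset (V × Bool))} (h : Writes Γ S)
    (hS : ¬ Sat S) : ∃ P, IsLKRefutation P Γ := by
  classical
  obtain ⟨ord, a1, -, a3⟩ := h
  obtain ⟨P, h1, h2⟩ := lk_complete _ Γ [] le_rfl (fun α hα => by
    refine absurd ⟨fun p => decide (α p), fun C hC => ?_⟩ hS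
    obtain ⟨A, h1, T, h2, h3⟩ := a3 C hC
    obtain ⟨l, h4, h5⟩ := h2.ev (hα A h1) _ h3
    exact ⟨l, (a1 C hC).2 ▸ List.mem_toFinset.2 h4, h5⟩)
  exact ⟨_, h1.snoc (Or.inr (Or.inl h2)), by simp⟩

theorem exists_writes [Nonempty V] {S : Finset (Finset (V × Bool))} (h0 : ∅ ∉ S) :
    ∃ Γ, Writes Γ S ∧ (Γ.map Fm.atoms).sum = ∑ C ∈ S, C.card := by
  have hl : ∀ l : V × Bool, (litFm l).atoms = 1 := by rintro ⟨p, _ | _⟩ <;> rfl
  have h1 : ∀ L : List (V × Bool), L ≠ [] → ∃ A, IsDisj A L ∧ A.atoms = L.length := by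
    intro L
    induction L with
    | nil => simp
    | cons l L ih =>
      intro _
      by_cases h : L = []
      · subst h; exact ⟨_, .lit l, by simp [hl]⟩
      · obtain ⟨A, h3, h4⟩ := ih h
        exact ⟨_, (IsDisj.lit l).or h3, by simp [Fm.atoms, hl, h4, add_comm]⟩
  have : Nonempty (Fm V) := ⟨.atom (Classical.arbitrary V)⟩
  choose! F hF using h1
  have h2 : ∀ C ∈ S, C.toList ≠ [] := fun C hC e => h0 (toList_eq_nil.1 e ▸ hC)
  refine ⟨S.toList.map fun C => F C.toList, ⟨toList, fun C _ => ⟨nodup_toList C, toList_toFinset C⟩,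
    fun A hA => ?_, fun C hC => ⟨_, List.mem_map_of_mem (mem_toList.2 hC),
      _, .disj (hF _ (h2 C hC)).1, rfl⟩⟩, ?_⟩
  · obtain ⟨C, hC, rfl⟩ := List.mem_map.1 hA
    exact ⟨_, .disj (hF _ (h2 C (mem_toList.1 hC))).1, fun L hL => ⟨C, mem_toList.1 hC, hL⟩⟩
  · rw [List.map_map, sum_map_toList]
    exact sum_congr rfl (fun C hC => ((hF _ (h2 C hC)).2).trans (length_toList C))

end Pool.Agent.Lib.MP_a300b0_lc
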