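import Pool.Agent.Lib.MP_a300b0_lc.Transfer

-- part Pool.Agent.Lib.MP_a300b0_lc.Inv
section

/-! The invariant of the adversary and the goodness conditions on the hidden data. -/

namespace Pool.Agent.Lib.MP_a300b0_lc

open Finset

variable {S : Shape} {P : Par S}

/-! ### Notions that depend only on the cedent -/

def isE (v : Option (Node P)) (l : Lit P) : Prop :=
  ∃ b w, l.1 = .edge v b w ∨ ∃ d, l.1 = .link v b w d

def AllG (v : Node P) (C : Finset (Lit P)) : Prop := ∀ i, (Var.guard v i, false) ∈ C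

def PF (a : Ax P) (C : Finset (Lit P)) : Prop :=
  C = a.cl ∨ (∃ v b w d, a = .give v b w d ∧ C = a.cl.erase (neg (dl w d))) ∨
    ∃ v, a = .leaf v ∧ AllG v C

def Orph (C : Finset (Lit P)) : Prop := 2 ≤ C.card ∧ ∀ l ∈ C, ∃ l', l = il l'

def Owned (v : Option (Node P)) (C : Finset (Lit P)) : Prop := ∃ l ∈ C, isG v l ∨ isE v l

def Touch (v : Node P) (C : Finset (Lit P)) : Prop :=
  (∃ l, C = {l} ∧ isE (some v) l) ∨ (2 ≤ C.card ∧ Owned (some v) C ∧
    ¬ (∃ a : Ax P, a.valid ∧ a.owner = some v ∧ C ⊆ a.cl ∧ PF a C) ∧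
    ¬ ∀ l, l ∈ C ↔ isG (some v) l)

def Ycl (M : Finset (Finset (Lit P))) (l : IL P) : Prop :=
  {il (neg l)} ∈ M ∨
  (∃ C ∈ M, 2 ≤ C.card ∧ ∃ v i, dep (some v) = S.L + 1 ∧ (Var.guard v i, false) ∈ C ∧
    memI v l ∧ il l ∉ C) ∨
  (∃ C ∈ M, 2 ≤ C.card ∧ ∃ v b w, (Var.link v b w (.inl (neg l)), false) ∈ C ∧ il l ∉ C)

open Classical in
/-- The item literals claimed to be false by a cedent. -/
noncomputable def Yv (M : Finset (Finset (Lit P))) : Finset (IL P) := univ.filter (Ycl M)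

@[simp] theorem mem_Yv {M : Finset (Finset (Lit P))} {l : IL P} : l ∈ Yv M ↔ Ycl M l := by
  simp [Yv]

noncomputable def IQ (Q : Finset (Node P)) : Finset (IL P) := Q.biUnion Iv

@[simp] theorem mem_IQ {Q : Finset (Node P)} {l : IL P} : l ∈ IQ Q ↔ ∃ q ∈ Q, memI q l := by
  simp [IQ]

open Classical in
/-- The deleted item literals of a version of a leaf clause. -/
noncomputable def Zc (v : Node P) (C : Finset (Lit P)) : Finset (IL P) :=
  (Iv v).filter (fun l => il l ∉ C)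

@[simp] theorem mem_Zc {v : Node P} {C : Finset (Lit P)} {l : IL P} :
    l ∈ Zc v C ↔ memI v l ∧ il l ∉ C := by simp [Zc]

/-! ### Goodness -/

/-- Numerical constants. -/
structure Cst where
  c : ℕ
  c2 : ℕ
  x : ℕ
  h : ℕ
  r : ℕ

def Cst.x' (k : Cst) : ℕ := k.x + k.c * k.h + 1
def Cst.rho (k : Cst) : ℕ := 1 + 4 * k.c + k.c2
def Cst.b0 (k : Cst) : ℕ := 2 * k.rho + k.c2

variable (W : World P) (k : Cst)

def J1 (C : Finset (Lit P)) : Prop :=
  (∃ l, C = {l} ∧ W.F (neg l)) ∨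
    (2 ≤ C.card ∧ ∃ a : Ax P, a.valid ∧ C ⊆ a.cl ∧ ∀ l ∈ a.cl, l ∉ C → W.F l)

structure Concl (M : Finset (Finset (Lit P))) (Q : Finset (Node P)) (J : Finset (Key S)) :
    Prop where
  qpool : ∀ v ∈ Q, W.pool v
  qcard : Q.card ≤ k.c
  jcard : J.card ≤ k.c2
  touch : ∀ v, W.pool v → ∀ C ∈ M, Touch v C → v ∈ Q
  small : (Yv M \ IQ Q).card ≤ k.x
  selX : ∀ l, Ycl M l → W.sel l → l.1.1 ∈ J ∨ l ∈ IQ Q
  orph : ∀ Λ : Finset (IL P), (∀ l ∈ Λ, W.sel l) → (∀ l ∈ Λ, neg l ∉ Λ) →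
    (∀ C ∈ M, Orph C → ∃ l ∈ Λ, il l ∈ C) → ∃ Λ' ⊆ Λ, (∀ l ∈ Λ', l.1.1 ∈ J ∨ l ∈ IQ Q) ∧
      ∀ C ∈ M, Orph C → ∃ l ∈ Λ', il l ∈ C
  burn : ∀ R' : Finset (RP S), (∀ p ∈ R', W.rn p ∉ Q ∧ ∃ l, memI (W.rn p) l ∧ ¬ W.sel l ∧
    Ycl M (neg l) ∧ neg l ∉ IQ Q) → R'.card ≤ k.r

def LineGood (M : Finset (Finset (Lit P))) : Prop :=
  (∀ C ∈ M, J1 W C) → ∃ Q J, Concl W k M Q J

def Dfn (Z : Finset (IL P)) (A : Finset (Node P)) : Prop :=
  ∃ Z' ⊆ Z, Z'.card = k.x' ∧ ∀ v, W.pool v → k.h ≤ (Iv v ∩ Z').card → v ∈ A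

def ClauseGood (Z : Finset (IL P)) : Prop :=
  ∃ (Q : Finset (Node P)) (J : Finset (Key S)), Q.card ≤ k.c ∧ J.card ≤ k.c2 ∧
    ∀ z ∈ Z, W.sel z → z.1.1 ∈ J ∨ ∃ A ⊆ Q, (∀ v ∈ A, memI v z) ∧ Dfn W k Z A

def Good (M : Finset (Finset (Lit P))) : Prop :=
  LineGood W k M ∧ ∀ C ∈ M, ∀ v, AllG v C → ClauseGood W k (Zc v C)

/-! ### The invariant -/

variable (s : St P)

def Pend (v : Option (Node P)) : Prop := ∃ o ∈ s.R, o ∉ s.Act ∧ v = some (W.rn o)

def LeafWit (v : Node P) (l : IL P) : Prop :=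
  match v.pos with
  | .real o => (o ∈ s.R ∧ ∃ j, j < o.d ∧ l = W.zl o j ∧ Closed s.R (o.key j) (o.bits j)) ∨
      (o ∉ s.R ∧ l = W.xi o)
  | .fol o _ => (o ∈ s.R ∧ l = W.xi' o) ∨ (o ∉ s.R ∧ l = W.xi o)

def Wit : Ax P → Finset (Lit P) → Prop
  | .leaf v, C => ∃ l, LeafWit W s v l ∧ il l ∈ C
  | .choice v b, C => (Var.edge v b (cc W s v b), true) ∈ C
  | .link v b w d, C => (w = cc W s v b ∧ (Var.link v b w d, true) ∈ C) ∨
      (w ≠ cc W s v b ∧ (Var.edge v b w, false) ∈ C)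
  | .give v b w d, C => (w = cc W s v b ∧ neg (dl w d) ∈ C) ∨
      (w ≠ cc W s v b ∧ (Var.link v b w d, false) ∈ C)

def OK (a : Ax P) (C : Finset (Lit P)) : Prop :=
  Orph C ∨ ¬ W.poolO a.owner ∨ (Pend W s a.owner ∧ PF a C) ∨
    (W.poolO a.owner ∧ ¬ Pend W s a.owner ∧ Wit W s a C)

def Ext (o u : RP S) : Prop :=
  u.d.val = S.L ∧ (∀ j < o.d, u.bits j = o.bits j) ∧ ∀ j ≤ o.d, u.lab j = o.lab j

def Ram (o u : RP S) (C : Finset (Lit P)) : Prop :=
  (∃ j, j < o.d ∧ Closed s.R (o.key j) (o.bits j) ∧ il (W.zl o j) ∈ C) ∨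
  ∃ (A : Lv S → Finset (Node P)) (Ex : Lv S → Finset (Lv S)),
    (∀ j, (A j).card ≤ k.c) ∧ (∀ j, (Ex j).card ≤ k.b0) ∧ (∀ j, ∀ p ∈ A j, memI p (W.zl u j)) ∧
    (∀ i ≤ o.d, ∀ j < i, j ∈ Ex i ∨ ¬ Disjoint (A j) (s.Ph o i)) ∧
    ∀ j, A j = ∅ ∨ Dfn W k (Zc (W.rn u) C) (A j)

def UnitOK (l : Lit P) : Prop :=
  T W s l ∧ (∀ l', l = il l' → l' ∈ s.K) ∧ ∀ v, isE v l → ¬ Pend W s v

def BigOK (C : Finset (Lit P)) : Prop :=
  2 ≤ C.card ∧ ∃ a : Ax P, a.valid ∧ C ⊆ a.cl ∧ (∀ l ∈ a.cl, l ∉ C → W.F l) ∧ OK W s a C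

structure Inv (M : Finset (Finset (Lit P))) : Prop where
  wf : WF W s k.c
  cls : ∀ C ∈ M, (∃ l, C = {l} ∧ UnitOK W s l) ∨ BigOK W s C
  orph : ∀ C ∈ M, Orph C → ∃ l ∈ s.K, W.sel l ∧ il l ∈ C
  ram : ∀ o ∈ s.R, ∀ u, Ext o u → ∀ C ∈ M, AllG (W.rn u) C → Ram W k s o u C

variable {W k s}

theorem Inv.j1 {M : Finset (Finset (Lit P))} (h : Inv W k s M) : ∀ C ∈ M, J1 W C := by
  intro C hC
  rcases h.cls C hC with ⟨l, h1, h2⟩ | ⟨h1, a, h2, h3, h4, _⟩
  · exact Or.inl ⟨l, h1, F_neg_of_T h.wf h2.1⟩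
  · exact Or.inr ⟨h1, a, h2, h3, h4⟩

theorem Inv.mono {M M' : Finset (Finset (Lit P))} (h : Inv W k s M) (hs : M' ⊆ M) :
    Inv W k s M' :=
  ⟨h.wf, fun C hC => h.cls C (hs hC), fun C hC => h.orph C (hs hC),
    fun o ho u hu C hC => h.ram o ho u hu C (hs hC)⟩

/-! ### Structure of the axioms -/

theorem neg_dl (w : Node P) (d : DL P) :
    (∃ l, d = .inl l ∧ neg (dl w d) = il (neg l)) ∨
      ∃ i, d = .inr i ∧ neg (dl w d) = (.guard w i, true) := by
  rcases d with l | i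
  · exact Or.inl ⟨l, rfl, rfl⟩
  · exact Or.inr ⟨i, rfl, rfl⟩

theorem owner_of_isG {a : Ax P} {v : Option (Node P)} {l : Lit P} (h : l ∈ a.cl) (hG : isG v l) :
    a.owner = v := by
  obtain ⟨u, i, rfl, rfl⟩ := hG
  rcases mem_cl.1 h with ⟨u', i', h1, h2⟩ | h
  · simp at h2; rw [h1, h2.1]
  · rcases a with _ | _ | _ | ⟨v, b, w, d⟩ <;> simp [Ax.body, il] at h
    rcases neg_dl w d with ⟨l, _, h2⟩ | ⟨l, _, h2⟩ <;> simp [h2, il] at h

theorem owner_of_isE {a : Ax P} {v : Option (Node P)} {l : Lit P} (h : l ∈ a.cl) (hE : isE v l) :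
    a.owner = v := by
  rcases l with ⟨x, pol⟩
  obtain ⟨b, w, h1⟩ := hE
  rcases mem_cl.1 h with ⟨u', i', _, h2⟩ | h
  · simp at h2; simp [h2.1] at h1
  · rcases a with _ | _ | _ | ⟨v', b', w', d⟩ <;> simp only [Ax.body, Ax.owner] at h ⊢
    · obtain ⟨l', _, h2⟩ := h; simp [il] at h2; simp [h2.1] at h1
    · obtain ⟨l', _, h2⟩ := h; simp at h2; simp [h2.1] at h1; exact h1.1
    · rcases h with h | h <;> simp at h <;> simp [h.1] at h1 <;> exact h1.1
    · rcases h with h | h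
      · simp at h; simp [h.1] at h1; exact h1.1
      · rcases neg_dl w' d with ⟨l, _, h2⟩ | ⟨l, _, h2⟩ <;> simp [h2, il] at h <;>
          simp [h.1] at h1

theorem owner_of_owned {a : Ax P} {v : Option (Node P)} {C : Finset (Lit P)} (hs : C ⊆ a.cl)
    (h : Owned v C) : a.owner = v := by
  obtain ⟨l, hl, h | h⟩ := h
  · exact owner_of_isG (hs hl) h
  · exact owner_of_isE (hs hl) h

theorem eq_give {a : Ax P} {v : Option (Node P)} {b : Bool} {w : Node P} {d : DL P}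
    (h : (Var.link v b w d, false) ∈ a.cl) : a = .give v b w d := by
  rcases mem_cl.1 h with ⟨u', i', _, h2⟩ | h
  · simp at h2
  · rcases a with _ | _ | _ | ⟨v', b', w', d'⟩ <;> simp [Ax.body, il] at h
    rcases h with h | h
    · simp [h]
    · rcases neg_dl w' d' with ⟨l, _, h2⟩ | ⟨l, _, h2⟩ <;> simp [h2, il] at h

theorem eq_leaf {a : Ax P} {v : Node P} (ha : a.valid) (h : a.owner = some v)
    (hd : dep (some v) = S.L + 1) : a = .leaf v := by
  rcases a with u | ⟨u, b⟩ | ⟨u, b, w, d⟩ | ⟨u, b, w, d⟩ <;> simp only [Ax.owner, Ax.valid] at h ha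
  · simp at h; rw [h]
  · subst h; omega
  · subst h; have := dep_le (some w); omega
  · subst h; have := dep_le (some w); omega

theorem guard_mem {a : Ax P} {v : Node P} (h : a.owner = some v) (i : Fin P.nG) :
    (Var.guard v i, false) ∈ a.cl := mem_cl.2 (Or.inl ⟨v, i, h, rfl⟩)

theorem il_mem_leaf {v : Node P} {l : IL P} : il l ∈ (Ax.leaf v).cl ↔ memI v l := by
  simp [mem_cl, isG, Ax.body, il_inj.eq_iff]
  simp [il]

theorem owned_or {a : Ax P} {l : Lit P} (h : l ∈ a.cl) : isG a.owner l ∨ isE a.owner l ∨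
    (∃ v l', a = .leaf v ∧ l = il l') ∨ ∃ v b w d, a = .give v b w d ∧ l = neg (dl w d) := by
  rcases mem_cl.1 h with h | h
  · exact Or.inl h
  right
  rcases a with u | ⟨u, b⟩ | ⟨u, b, w, d⟩ | ⟨u, b, w, d⟩ <;> simp only [Ax.owner, Ax.body] at h ⊢
  · obtain ⟨l', _, rfl⟩ := h; exact Or.inr (Or.inl ⟨u, l', rfl, rfl⟩)
  · obtain ⟨w, _, rfl⟩ := h; exact Or.inl ⟨b, w, Or.inl rfl⟩
  · rcases h with rfl | rfl
    · exact Or.inl ⟨b, w, Or.inl rfl⟩
    · exact Or.inl ⟨b, w, Or.inr ⟨d, rfl⟩⟩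
  · rcases h with rfl | rfl
    · exact Or.inl ⟨b, w, Or.inr ⟨d, rfl⟩⟩
    · exact Or.inr (Or.inr ⟨u, b, w, d, rfl, rfl⟩)

theorem owned_of_not_orph {a : Ax P} {C : Finset (Lit P)} (hs : C ⊆ a.cl) (h2 : 2 ≤ C.card)
    (ho : ¬ Orph C) : Owned a.owner C := by
  by_contra hn
  have key : ∀ l ∈ C, (∃ v l', a = .leaf v ∧ l = il l') ∨
      ∃ v b w d, a = .give v b w d ∧ l = neg (dl w d) := by
    intro l hl
    rcases owned_or (hs hl) with h | h | h
    · exact absurd ⟨l, hl, Or.inl h⟩ hn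
    · exact absurd ⟨l, hl, Or.inr h⟩ hn
    · exact h
  obtain ⟨l1, h1, l2, h2', hne⟩ := one_lt_card.1 h2
  rcases key l1 h1 with ⟨v, l', rfl, _⟩ | ⟨v, b, w, d, rfl, e1⟩
  · apply ho
    refine ⟨h2, fun l hl => ?_⟩
    rcases key l hl with ⟨_, l', _, h⟩ | ⟨_, _, _, _, h, _⟩
    · exact ⟨l', h⟩
    · cases h
  · rcases key l2 h2' with ⟨_, _, h, _⟩ | ⟨_, _, _, _, h, e2⟩
    · cases h
    · cases h; exact hne (e1.trans e2.symm)

theorem leaf_of_orph {a : Ax P} {C : Finset (Lit P)} (hs : C ⊆ a.cl) (ho : Orph C) :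
    ∃ v, a = .leaf v := by
  obtain ⟨l1, h1, l2, h2', hne⟩ := one_lt_card.1 ho.1
  have key : ∀ l ∈ C, (∃ v l', a = .leaf v ∧ l = il l') ∨
      ∃ v b w d, a = .give v b w d ∧ l = neg (dl w d) := by
    intro l hl
    obtain ⟨l', rfl⟩ := ho.2 l hl
    rcases owned_or (hs hl) with ⟨_, _, _, h⟩ | ⟨_, _, h⟩ | h
    · simp [il] at h
    · simp [il] at h
    · exact h
  rcases key l1 h1 with ⟨v, l', rfl, _⟩ | ⟨v, b, w, d, rfl, e1⟩
  · exact ⟨v, rfl⟩
  · rcases key l2 h2' with ⟨_, _, h, _⟩ | ⟨_, _, _, _, h, e2⟩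
    · cases h
    · cases h; exact absurd (e1.trans e2.symm) hne

theorem not_orph_of_guard {C : Finset (Lit P)} {v : Node P} {i : Fin P.nG} {b : Bool}
    (h : (Var.guard v i, b) ∈ C) : ¬ Orph C := by
  intro ho
  obtain ⟨l', h2⟩ := ho.2 _ h
  simp [il] at h2

theorem PF.allG {a : Ax P} {C : Finset (Lit P)} {v : Node P} (h : PF a C) (ho : a.owner = some v) :
    AllG v C := by
  intro i
  rcases h with rfl | ⟨u, b, w, d, rfl, rfl⟩ | ⟨u, rfl, h⟩
  · exact guard_mem ho i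
  · refine mem_erase.2 ⟨?_, guard_mem ho i⟩
    rcases neg_dl w d with ⟨l, _, h2⟩ | ⟨l, _, h2⟩ <;> simp [h2, il]
  · obtain rfl : u = v := by simpa [Ax.owner] using ho
    exact h i

theorem AllG.card {v : Node P} {C : Finset (Lit P)} (h : AllG v C) : P.nG ≤ C.card := by
  have : univ.image (fun i : Fin P.nG => (Var.guard v i, false)) ⊆ C := by
    intro l hl
    obtain ⟨i, _, rfl⟩ := mem_image.1 hl
    exact h i
  have h2 := card_le_card this
  rwa [card_image_of_injective _ (fun i j hij => by simpa using hij), card_univ,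
    Fintype.card_fin] at h2

/-! ### Witnesses are true -/

theorem cc_pool (v : Option (Node P)) (b : Bool) : W.pool (cc W s v b) := by
  rcases v with _ | ⟨o | ⟨o, d⟩, _, _, _, _, _⟩ <;> simp only [cc]
  · rfl
  · split_ifs <;> rfl
  · rfl

theorem cc_rn (o : RP S) (b : Bool) : cc W s (some (W.rn o)) b =
    if o ∈ s.R then W.rn (s.ch o b) else W.node (.fol o (nxt o.d)) := rfl

theorem cc_fol (o : RP S) (d : Lv S) (b : Bool) :
    cc W s (some (W.node (.fol o d))) b = W.node (.fol o (nxt d)) := rfl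

theorem act_of_not_pend {o : RP S} (h : ¬ Pend W s (some (W.rn o))) (ho : o ∈ s.R) : o ∈ s.Act := by
  by_contra hn
  exact h ⟨o, ho, hn, rfl⟩

theorem dep_rn (o : RP S) : dep (some (W.rn o)) = o.d.val + 1 := rfl
theorem dep_fol (o : RP S) (d : Lv S) : dep (some (W.node (.fol o d))) = d.val + 1 := rfl

theorem poolO_cases {v : Option (Node P)} (h : W.poolO v) :
    v = none ∨ (∃ o, v = some (W.rn o)) ∨ ∃ o d, v = some (W.node (.fol o d)) := by
  rcases v with _ | v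
  · exact Or.inl rfl
  · rcases pool_cases h with ⟨o, rfl⟩ | ⟨o, d, rfl⟩
    · exact Or.inr (Or.inl ⟨o, rfl⟩)
    · exact Or.inr (Or.inr ⟨o, d, rfl⟩)

theorem cc_dep (hW : W.Fine) {c : ℕ} (h : WF W s c) {v : Option (Node P)} (hv : W.poolO v)
    (hp : ¬ Pend W s v) (hd : dep v ≤ S.L) (b : Bool) : dep (some (cc W s v b)) = dep v + 1 := by
  rcases poolO_cases hv with rfl | ⟨o, rfl⟩ | ⟨o, d, rfl⟩
  · show W.p0.d.val + 1 = 0 + 1
    rw [hW.d0]; rfl
  · rw [dep_rn] at hd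
    rw [cc_rn]
    split_ifs with ho
    · rw [dep_rn, dep_rn, (h.ch o (act_of_not_pend hp ho) (by omega) b).2.1]
    · rw [dep_fol, dep_rn, nxt_val (by omega)]
  · rw [dep_fol] at hd
    rw [cc_fol, dep_fol, dep_fol, nxt_val (by omega)]

theorem TE_iff {v : Option (Node P)} (hv : W.poolO v) {b : Bool} {w : Node P} {pol : Bool} :
    TE W s v b w pol ↔ (pol = true ↔ w = cc W s v b) := by
  rcases v with _ | v
  · rfl
  · have : W.pool v := hv
    simp [TE, this]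

theorem leafWit_true {v : Node P} {l : IL P} (h : LeafWit W s v l) : TI W s l ∧ W.sel l := by
  rcases v with ⟨o | ⟨o, d⟩, _, _, _, _, _⟩ <;> simp only [LeafWit] at h
  · rcases h with ⟨_, j, _, rfl, h⟩ | ⟨h, rfl⟩
    · exact ⟨TI_key.2 (Or.inl h), rfl⟩
    · exact ⟨TI_sp.2 (by simp [h]), rfl⟩
  · rcases h with ⟨h, rfl⟩ | ⟨h, rfl⟩ <;> exact ⟨TI_sp.2 (by simp [h]), rfl⟩

theorem zlit_rn (o : RP S) (b : Bool) : zlit (some (W.rn o)) b = il (W.sl (o.key o.d) b) := rfl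

/-- The literals given to a real child. -/
theorem given_child (hW : W.Fine) {o w : RP S} {b : Bool} (hc : IsCh o b w) {l : IL P}
    (hg : givable (some (W.rn o)) b (W.rn w) (.inl l)) : ¬ W.sel l ∨ l = W.xi w := by
  by_cases hs : W.sel l
  · rcases memI_rn_sel hg.1 hs with ⟨j, hj, rfl⟩ | h
    · exfalso
      have hj' := hc.lt_iff.1 hj
      rcases lt_or_eq_of_le hj' with hlt | rfl
      · apply hg.2.1
        show memI (W.rn o) _
        unfold World.zl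
        rw [hc.key hj', hc.2.1 j hlt]
        exact memI_zl hW hlt
      · apply hg.2.2
        rw [zlit_rn]
        unfold World.zl
        rw [hc.key le_rfl, hc.2.2.1]
    · exact Or.inr h
  · exact Or.inl hs

theorem given_true (hW : W.Fine) {c : ℕ} (h : WF W s c) {v : Option (Node P)} (hv : W.poolO v)
    (hp : ¬ Pend W s v) {b : Bool} {d : DL P} (ha : (Ax.give v b (cc W s v b) d).valid) :
    T W s (neg (dl (cc W s v b) d)) := by
  rcases d with l | i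
  swap
  · exact Or.inl ⟨cc_pool v b, rfl⟩
  show TI W s (neg l)
  obtain ⟨hd, hg⟩ := ha
  rcases poolO_cases hv with rfl | ⟨o, rfl⟩ | ⟨o, d, rfl⟩
  · rcases memI_rn.1 hg.1 with ⟨j, hj, _⟩ | rfl
    · rw [hW.d0] at hj; simp at hj
    · exact TI_sp.2 (by simp [h.r0])
  · have hdl := dep_le (some (cc W s (some (W.rn o)) b))
    rw [dep_rn] at hd
    rw [cc_rn] at hg
    split_ifs at hg with ho
    · have hA := act_of_not_pend hp ho
      have hc := h.ch o hA (by omega) b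
      rcases given_child hW hc.2 hg with hs | rfl
      · exact Or.inr ⟨hs, Or.inl ⟨by simpa using hs, o, hA, by omega, b, by simpa using hg.1⟩⟩
      · exact TI_sp.2 (by simp [hc.1])
    · rcases memI_fol.1 hg.1 with rfl | rfl
      · exact absurd (memI_xi o) hg.2.1
      · exact TI_sp.2 (by simp [ho])
  · rw [cc_fol] at hg
    exact absurd (memI_fol.2 (memI_fol.1 hg.1)) hg.2.1

theorem wit_true (hW : W.Fine) {c : ℕ} (h : WF W s c) {a : Ax P} {C : Finset (Lit P)}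
    (ha : a.valid) (hv : W.poolO a.owner) (hp : ¬ Pend W s a.owner) (hw : Wit W s a C) :
    ∃ l ∈ C, T W s l := by
  rcases a with u | ⟨u, b⟩ | ⟨u, b, w, d⟩ | ⟨u, b, w, d⟩
  · obtain ⟨l, h1, h2⟩ := hw
    exact ⟨_, h2, (leafWit_true h1).1⟩
  · exact ⟨_, hw, (TE_iff (v := u) hv).2 (by simp)⟩
  · rcases hw with ⟨h1, h2⟩ | ⟨h1, h2⟩
    · exact ⟨_, h2, (TE_iff (v := u) hv).2 (by simp [h1])⟩
    · exact ⟨_, h2, (TE_iff (v := u) hv).2 (by simp [h1])⟩
  · rcases hw with ⟨h1, h2⟩ | ⟨h1, h2⟩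
    · subst h1
      exact ⟨_, h2, given_true hW h hv hp ha⟩
    · exact ⟨_, h2, (TE_iff (v := u) hv).2 (by simp [h1])⟩

theorem nonpool_guard (hW : W.Fine) {a : Ax P} {C : Finset (Lit P)}
    (hF : ∀ l ∈ a.cl, l ∉ C → W.F l) (hv : ¬ W.poolO a.owner) :
    ∃ v i, (Var.guard v i, false) ∈ C ∧ ∀ s, T W s (Var.guard v i, false) := by
  rcases ho : a.owner with _ | v
  · rw [ho] at hv; exact absurd trivial hv
  · rw [ho] at hv
    obtain ⟨i, hi⟩ := hW.g0 v
    refine ⟨v, i, ?_, fun s => Or.inr ⟨hv, hi⟩⟩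
    by_contra hn
    rcases hF _ (guard_mem ho i) hn with h | h
    · exact hv h.1
    · exact h.2 hi

end Pool.Agent.Lib.MP_a300b0_lc
end

-- part Pool.Agent.Lib.MP_a300b0_lc.Answer
section

/-! The adversary answers a query. -/

namespace Pool.Agent.Lib.MP_a300b0_lc

open Finset

variable {S : Shape} {P : Par S} {W : World P} {k : Cst} {s : St P}

open Classical in
/-- Keep all the item literals that are true now. -/
noncomputable def St.sat (W : World P) (s : St P) : St P :=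
  { s with K := univ.filter (TI W s) }

theorem mem_sat {l : IL P} : l ∈ (s.sat W).K ↔ TI W s l := by simp [St.sat]

theorem TI_of_dflt {K' : Finset (IL P)} {l : IL P}
    (hd : dflt W s l → dflt W { s with K := K' } l) (h : TI W s l) :
    TI W { s with K := K' } l := by
  rcases h with ⟨h1, h2⟩ | ⟨h1, h2 | h2⟩
  · refine Or.inl ⟨h1, ?_⟩
    rcases l with ⟨⟨_ | _, y⟩, b⟩
    · exact h2.imp id (fun h => ⟨h.1, hd h.2⟩)
    · exact h2
  · exact Or.inr ⟨h1, Or.inl h2⟩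
  · exact Or.inr ⟨h1, Or.inr ⟨h2.1, hd h2.2⟩⟩

theorem TI_sat {c : ℕ} (h : WF W s c) {l : IL P} : TI W (s.sat W) l ↔ TI W s l := by
  constructor
  · intro h1
    by_contra hn
    apply hn
    refine TI_of_dflt (s := s.sat W) (K' := s.K) ?_ h1
    rintro (h2 | h2)
    · exact absurd (mem_sat.1 h2) hn
    · exact Or.inr ⟨fun h3 => h2.1 (mem_sat.2 (h.ktrue _ h3)), h2.2⟩
  · intro h1
    exact TI_of_dflt (fun _ => Or.inl (mem_sat.2 h1)) h1

theorem T_sat {c : ℕ} (h : WF W s c) {l : Lit P} : T W (s.sat W) l ↔ T W s l := by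
  rcases l with ⟨κ | _ | _ | _ | _, b⟩
  · exact TI_sat h
  all_goals rfl

theorem WF.sat {c : ℕ} (h : WF W s c) : WF W (s.sat W) c where
  r0 := h.r0
  act := h.act
  ch := h.ch
  noconf := h.noconf
  kcons := fun _ h1 h2 => TI_cons h (mem_sat.1 h1) (mem_sat.1 h2)
  ktrue := fun _ h1 => (TI_sat h).2 (mem_sat.1 h1)
  kF := fun l h1 => F_neg_of_T h (l := il l) (mem_sat.1 h1)
  phc := h.phc
  phk := h.phk

theorem UnitOK.sat {c : ℕ} (h : WF W s c) {l : Lit P} (h1 : T W s l)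
    (h2 : ∀ v, isE v l → ¬ Pend W s v) : UnitOK W (s.sat W) l :=
  ⟨(T_sat h).2 h1, fun l' e => mem_sat.2 (by subst e; exact h1), h2⟩

theorem Inv.sat {M : Finset (Finset (Lit P))} (h : Inv W k s M) : Inv W k (s.sat W) M where
  wf := h.wf.sat
  cls := fun C hC => (h.cls C hC).imp
    (fun ⟨l, h1, h2⟩ => ⟨l, h1, UnitOK.sat h.wf h2.1 h2.2.2⟩) id
  orph := fun C hC ho => by
    obtain ⟨l, h1, h2⟩ := h.orph C hC ho
    exact ⟨l, mem_sat.2 (h.wf.ktrue l h1), h2⟩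
  ram := h.ram

/-- The queried literal does not belong to a pending node. -/
def Free (W : World P) (s : St P) (l : Lit P) : Prop :=
  ∀ v, isG v l ∨ isE v l → ¬ Pend W s v

theorem answer_true (hW : W.Fine) {M : Finset (Finset (Lit P))} (h : Inv W k s M) {l : Lit P}
    (hf : Free W s l) (hT : T W s l) : Inv W k (s.sat W) (insert {l} M) where
  wf := h.wf.sat
  cls := by
    intro C hC
    rcases mem_insert.1 hC with rfl | hC
    · exact Or.inl ⟨l, rfl, UnitOK.sat h.wf hT (fun v hv => hf v (Or.inr hv))⟩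
    · exact h.sat.cls C hC
  orph := by
    intro C hC ho
    rcases mem_insert.1 hC with rfl | hC
    · have := ho.1; simp at this
    · exact h.sat.orph C hC ho
  ram := by
    intro o ho u hu C hC hG
    rcases mem_insert.1 hC with rfl | hC
    · have := hG.card; have := hW.nG; simp at *; omega
    · exact h.ram o ho u hu C hC hG

theorem wit_keep (hW : W.Fine) {c : ℕ} (h : WF W s c) {a : Ax P} {D : Finset (Lit P)}
    (ha : a.valid) (hv : W.poolO a.owner) (hp : ¬ Pend W s a.owner) (hw : Wit W s a D) :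
    ∃ t ∈ D, T W s t ∧ ∀ C, t ∈ C → Wit W s a C := by
  have key : ∀ t ∈ D, (∀ C, t ∈ C → Wit W s a C) → ∃ t ∈ D, T W s t ∧ ∀ C, t ∈ C → Wit W s a C := by
    intro t ht hC
    obtain ⟨l, h1, h2⟩ := wit_true hW h ha hv hp (hC {t} (mem_singleton_self _))
    rw [mem_singleton.1 h1] at h2
    exact ⟨t, ht, h2, hC⟩
  rcases a with u | ⟨u, b⟩ | ⟨u, b, w, d⟩ | ⟨u, b, w, d⟩
  · obtain ⟨l, h1, h2⟩ := hw
    exact key _ h2 (fun C hC => ⟨l, h1, hC⟩)
  · exact key _ hw (fun C hC => hC)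
  · rcases hw with ⟨h1, h2⟩ | ⟨h1, h2⟩
    · exact key _ h2 (fun C hC => Or.inl ⟨h1, hC⟩)
    · exact key _ h2 (fun C hC => Or.inr ⟨h1, hC⟩)
  · rcases hw with ⟨h1, h2⟩ | ⟨h1, h2⟩
    · exact key _ h2 (fun C hC => Or.inl ⟨h1, hC⟩)
    · exact key _ h2 (fun C hC => Or.inr ⟨h1, hC⟩)

theorem Dfn.mono {Z Z' : Finset (IL P)} {A : Finset (Node P)} (h : Dfn W k Z A) (hz : Z ⊆ Z') :
    Dfn W k Z' A := by
  obtain ⟨Z0, h1, h2⟩ := h
  exact ⟨Z0, h1.trans hz, h2⟩

theorem Ram.erase {o u : RP S} {C : Finset (Lit P)} {l : Lit P} (hT : ¬ T W s l)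
    (h : Ram W k s o u (insert l C)) : Ram W k s o u C := by
  rcases h with ⟨j, h1, h2, h3⟩ | ⟨A, Ex, h1, h2, h3, h4, h5⟩
  · refine Or.inl ⟨j, h1, h2, ?_⟩
    rcases mem_insert.1 h3 with h4 | h4
    · exact absurd (h4 ▸ (TI_key.2 (Or.inl h2) : T W s (il (W.zl o j)))) hT
    · exact h4
  · refine Or.inr ⟨A, Ex, h1, h2, h3, h4, fun j => (h5 j).imp id (fun h => h.mono ?_)⟩
    intro z hz
    rw [mem_Zc] at hz ⊢
    exact ⟨hz.1, fun h => hz.2 (mem_insert_of_mem h)⟩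

theorem pend_pool {v : Option (Node P)} (h : Pend W s v) : W.poolO v := by
  obtain ⟨o, _, _, rfl⟩ := h
  exact W.pool_node _

/-- Deleting a false literal from one clause. -/
theorem erase_ok (hW : W.Fine) {M : Finset (Finset (Lit P))} (h : Inv W k s M) {l : Lit P}
    (hf : Free W s l) (hT : ¬ T W s l) {C : Finset (Lit P)} (hC : insert l C ∈ M) :
    ((∃ t, C = {t} ∧ UnitOK W (s.sat W) t) ∨ BigOK W s C) ∧
      (Orph C → ∃ t, TI W s t ∧ W.sel t ∧ il t ∈ C) := by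
  by_cases hlC : l ∈ C
  · rw [insert_eq_of_mem hlC] at hC
    refine ⟨h.sat.cls C hC, fun ho => ?_⟩
    obtain ⟨t, h1, h2⟩ := h.orph C hC ho
    exact ⟨t, h.wf.ktrue t h1, h2⟩
  rcases h.cls _ hC with ⟨t, h1, h2⟩ | ⟨h2, a, ha, hs, hF, hOK⟩
  · have : l ∈ ({t} : Finset (Lit P)) := h1 ▸ mem_insert_self l C
    rw [mem_singleton.1 this] at hT
    exact absurd h2.1 hT
  have hs' : C ⊆ a.cl := (subset_insert _ _).trans hs
  have hF' : ∀ t ∈ a.cl, t ∉ C → W.F t := by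
    intro t ht htC
    by_cases e : t = l
    · rw [e]; exact F_of_not_T h.wf hT
    · exact hF t ht (by simp [e, htC])
  have keep : ∀ t ∈ insert l C, T W s t → t ∈ C := by
    intro t ht htT
    rcases mem_insert.1 ht with rfl | ht
    · exact absurd htT hT
    · exact ht
  have fin : ∀ t ∈ C, T W s t → (∀ v, isE v t → ¬ Pend W s v) → (2 ≤ C.card → OK W s a C) →
      (∃ t, C = {t} ∧ UnitOK W (s.sat W) t) ∨ BigOK W s C := by
    intro t ht htT hE hO
    by_cases hc : 2 ≤ C.card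
    · exact Or.inr ⟨hc, a, ha, hs', hF', hO hc⟩
    · left
      refine ⟨t, ?_, UnitOK.sat h.wf htT hE⟩
      exact eq_singleton_iff_unique_mem.2 ⟨ht, fun x hx => card_le_one.1 (by omega) x hx t ht⟩
  rcases hOK with ho | hn | ⟨hp, hPF⟩ | ⟨hv, hp, hw⟩
  · obtain ⟨t, h1, h3, h4⟩ := h.orph _ hC ho
    have htT := h.wf.ktrue t h1
    have h5 := keep _ h4 htT
    refine ⟨fin _ h5 htT ?_ (fun hc => Or.inl ⟨hc, fun x hx => ho.2 x (mem_insert_of_mem hx)⟩),
      fun _ => ⟨t, htT, h3, h5⟩⟩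
    rintro v ⟨b, w, h6⟩
    simp [il] at h6
  · obtain ⟨v, i, h1, h3⟩ := nonpool_guard hW hF' hn
    refine ⟨fin _ h1 (h3 s) ?_ (fun _ => Or.inr (Or.inl hn)),
      fun ho => absurd ho (not_orph_of_guard h1)⟩
    rintro v ⟨b, w, h6⟩
    simp at h6
  · obtain ⟨o, ho1, ho2, ho3⟩ := id hp
    have hG : AllG (W.rn o) C := by
      intro i
      rcases mem_insert.1 (hPF.allG ho3 i) with e | e
      · exact absurd hp (hf _ (Or.inl ⟨_, i, ho3, e.symm⟩))
      · exact e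
    have hc := hG.card
    have h3 := hW.nG
    refine ⟨Or.inr ⟨by omega, a, ha, hs', hF', Or.inr (Or.inr (Or.inl ⟨hp, ?_⟩))⟩,
      fun ho => absurd ho (not_orph_of_guard (hG ⟨0, by omega⟩))⟩
    rcases owned_or (hs (mem_insert_self _ _)) with e | e | ⟨v, l', rfl, _⟩ | ⟨v, b, w, d, rfl, e⟩
    · exact absurd hp (hf _ (Or.inl e))
    · exact absurd hp (hf _ (Or.inr e))
    · obtain rfl : v = W.rn o := by simpa [Ax.owner] using ho3
      exact Or.inr (Or.inr ⟨_, rfl, hG⟩)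
    · rcases hPF with e2 | ⟨v', b', w', d', e1, e2⟩ | ⟨_, e1, _⟩
      · exact Or.inr (Or.inl ⟨v, b, w, d, rfl, by rw [← e2, ← e, erase_insert hlC]⟩)
      · cases e1
        have : l ∈ (Ax.give v b w d).cl.erase (neg (dl w d)) := e2 ▸ mem_insert_self l C
        exact absurd e (mem_erase.1 this).1
      · cases e1
  · obtain ⟨t, h1, h3, h4⟩ := wit_keep hW h.wf ha hv hp hw
    have h5 := keep _ h1 h3
    refine ⟨fin _ h5 h3 ?_ (fun _ => Or.inr (Or.inr (Or.inr ⟨hv, hp, h4 C h5⟩))), fun ho => ?_⟩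
    · intro v hE
      rw [← owner_of_isE (hs' h5) hE]; exact hp
    · obtain ⟨v, rfl⟩ := leaf_of_orph hs' ho
      obtain ⟨t', h6, h7⟩ := h4 C h5
      exact ⟨t', (leafWit_true h6).1, (leafWit_true h6).2, h7⟩

theorem answer_false (hW : W.Fine) {M : Finset (Finset (Lit P))} (h : Inv W k s M) {l : Lit P}
    (hf : Free W s l) (hT : ¬ T W s l) {Cs : Finset (Finset (Lit P))}
    (hCs : ∀ C ∈ Cs, insert l C ∈ M) : Inv W k (s.sat W) (M ∪ Cs) where
  wf := h.wf.sat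
  cls := by
    intro C hC
    rcases mem_union.1 hC with hC | hC
    · exact h.sat.cls C hC
    · exact (erase_ok hW h hf hT (hCs C hC)).1
  orph := by
    intro C hC ho
    rcases mem_union.1 hC with hC | hC
    · exact h.sat.orph C hC ho
    · obtain ⟨t, h1, h2⟩ := (erase_ok hW h hf hT (hCs C hC)).2 ho
      exact ⟨t, mem_sat.2 h1, h2⟩
  ram := by
    intro o ho u hu C hC hG
    rcases mem_union.1 hC with hC | hC
    · exact h.ram o ho u hu C hC hG
    · exact Ram.erase (s := s) hT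
        (h.ram o ho u hu _ (hCs C hC) (fun i => mem_insert_of_mem (hG i)))

end Pool.Agent.Lib.MP_a300b0_lc
end

-- part Pool.Agent.Lib.MP_a300b0_lc.Clean
section

/-! The adversary drops what the current cedent no longer remembers. -/

namespace Pool.Agent.Lib.MP_a300b0_lc

open Finset

variable {S : Shape} {P : Par S} {W : World P} {k : Cst} {s : St P}
variable {M : Finset (Finset (Lit P))} {Q : Finset (Node P)} {J : Finset (Key S)}

theorem untouched_PF {a : Ax P} {C : Finset (Lit P)} {v : Node P} (h2 : 2 ≤ C.card)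
    (ha : a.valid) (hs : C ⊆ a.cl) (hF : ∀ l ∈ a.cl, l ∉ C → W.F l) (hOK : OK W s a C)
    (ho : a.owner = some v) (hv : W.pool v) (hno : ¬ Orph C) (ht : ¬ Touch v C) :
    ∃ a' : Ax P, a'.valid ∧ a'.owner = some v ∧ C ⊆ a'.cl ∧ (∀ l ∈ a'.cl, l ∉ C → W.F l) ∧
      PF a' C := by
  have hown : Owned (some v) C := ho ▸ owned_of_not_orph hs h2 hno
  by_cases h1 : ∃ a : Ax P, a.valid ∧ a.owner = some v ∧ C ⊆ a.cl ∧ PF a C
  · obtain ⟨a', b1, b2, b3, b4⟩ := h1
    refine ⟨a', b1, b2, b3, ?_, b4⟩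
    rcases b4 with e | ⟨u, b, w, d, rfl, e⟩ | ⟨u, rfl, _⟩
    · intro l hl hn; exact absurd (e ▸ hl) hn
    · have : (Var.link u b w d, false) ∈ C := by
        rw [e]
        refine mem_erase.2 ⟨?_, mem_cl.2 (Or.inr (Or.inl rfl))⟩
        rcases neg_dl w d with ⟨l, _, h2⟩ | ⟨l, _, h2⟩ <;> simp [h2, il]
      rw [← eq_give (hs this)]; exact hF
    · rw [← eq_leaf ha (ho.trans b2.symm) b1]; exact hF
  have h3 : ∀ l, l ∈ C ↔ isG (some v) l := by
    by_contra h3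
    exact ht (Or.inr ⟨h2, hown, h1, h3⟩)
  exfalso
  rcases hOK with h | h | h | ⟨_, _, h⟩
  · exact hno h
  · exact h (ho ▸ hv)
  · exact h1 ⟨a, ha, ho, hs, h.2⟩
  · rcases a with u | ⟨u, b⟩ | ⟨u, b, w, d⟩ | ⟨u, b, w, d⟩
    · obtain ⟨l, _, h⟩ := h
      obtain ⟨_, _, _, h⟩ := (h3 _).1 h
      simp [il] at h
    · obtain ⟨_, _, _, h⟩ := (h3 _).1 h
      simp at h
    · rcases h with ⟨_, h⟩ | ⟨_, h⟩ <;> obtain ⟨_, _, _, h⟩ := (h3 _).1 h <;> simp at h
    · rcases h with ⟨_, h⟩ | ⟨_, h⟩ <;> obtain ⟨_, _, _, h⟩ := (h3 _).1 h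
      · rcases neg_dl w d with ⟨l, _, h2⟩ | ⟨l, _, h2⟩ <;> simp [h2, il] at h
      · simp at h

theorem man_of_PF {a : Ax P} {C : Finset (Lit P)} (hC : C ∈ M) (h2 : 2 ≤ C.card)
    (ha : a.valid) (hF : ∀ l ∈ a.cl, l ∉ C → W.F l) (hPF : PF a C)
    (hdep : dep a.owner ≤ S.L → ∀ b, dep (some (cc W s a.owner b)) = dep a.owner + 1)
    (hY : dep a.owner ≤ S.L → ∀ b l, givable a.owner b (cc W s a.owner b) (.inl l) →
      ¬ Ycl M (neg l))
    (hleaf : ∀ v, a = .leaf v → Wit W s a C) : Wit W s a C := by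
  rcases hPF with rfl | ⟨u, b, w, d, rfl, e⟩ | ⟨u, e, _⟩
  · rcases a with u | ⟨u, b⟩ | ⟨u, b, w, d⟩ | ⟨u, b, w, d⟩
    · exact hleaf u rfl
    · exact mem_cl.2 (Or.inr ⟨_, hdep ha b, rfl⟩)
    · by_cases e : w = cc W s u b
      · exact Or.inl ⟨e, mem_cl.2 (Or.inr (Or.inr rfl))⟩
      · exact Or.inr ⟨e, mem_cl.2 (Or.inr (Or.inl rfl))⟩
    · by_cases e : w = cc W s u b
      · exact Or.inl ⟨e, mem_cl.2 (Or.inr (Or.inr rfl))⟩
      · exact Or.inr ⟨e, mem_cl.2 (Or.inr (Or.inl rfl))⟩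
  · have hl : (Var.link u b w d, false) ∈ C := by
      rw [e]
      refine mem_erase.2 ⟨?_, mem_cl.2 (Or.inr (Or.inl rfl))⟩
      rcases neg_dl w d with ⟨l, _, h2⟩ | ⟨l, _, h2⟩ <;> simp [h2, il]
    have hn : neg (dl w d) ∉ C := by rw [e]; exact notMem_erase _ _
    by_cases e2 : w = cc W s u b
    · exfalso
      rcases d with l | i
      · have h3 := dep_le (some w)
        have h4 := ha.1
        refine hY (by show dep u ≤ _; omega) b l (by have := ha.2; rwa [e2] at this) ?_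
        exact Or.inr (Or.inr ⟨C, hC, h2, u, b, w, by simpa using hl, hn⟩)
      · have hp : W.pool w := e2 ▸ cc_pool u b
        rcases hF _ (mem_cl.2 (Or.inr (Or.inr rfl))) hn with h | h
        · simp [dl, neg] at h
        · exact h.1 hp
    · exact Or.inr ⟨e2, hl⟩
  · exact hleaf u e

theorem leaf_mem {C : Finset (Lit P)} {v : Node P} (hC : C ∈ M) (h2 : 2 ≤ C.card)
    (ha : (Ax.leaf v).valid) (hs : C ⊆ (Ax.leaf v).cl) (hno : ¬ Orph C) {l : IL P}
    (hl : memI v l) (hY : ¬ Ycl M l) : il l ∈ C := by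
  by_contra hn
  obtain ⟨t, ht, ⟨u, i, h1, rfl⟩ | ⟨b, w, h1⟩⟩ := owned_of_not_orph hs h2 hno
  · obtain rfl : v = u := by simpa [Ax.owner] using h1
    exact hY (Or.inr (Or.inl ⟨C, hC, h2, v, i, ha, ht, hl, hn⟩))
  · rcases mem_cl.1 (hs ht) with ⟨_, _, _, rfl⟩ | ⟨_, _, rfl⟩
    · simp at h1
    · simp [il] at h1

/-- Spoiled keys. -/
def Sp (W : World P) (Q : Finset (Node P)) (J : Finset (Key S)) (κ : Key S) : Prop :=
  κ ∈ J ∨ ∃ b, W.sl κ b ∈ IQ Q

theorem Concl.sp (h : Concl W k M Q J) {κ : Key S} {b : Bool} (hY : Ycl M (W.sl κ b)) :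
    Sp W Q J κ :=
  (h.selX _ hY rfl).imp id (fun h => ⟨b, h⟩)

structure Clean (W : World P) (k : Cst) (s : St P) (M : Finset (Finset (Lit P)))
    (Q : Finset (Node P)) (J : Finset (Key S)) : Prop where
  actQ : ∀ o ∈ s.Act, W.rn o ∈ Q
  rcard : s.R.card ≤ k.rho
  ksel : ∀ l ∈ s.K, W.sel l → Sp W Q J l.1.1
  knon : ∀ l ∈ s.K, ¬ W.sel l → Ycl M (neg l)

theorem Side.mono {R R' : Finset (RP S)} (h : R' ⊆ R) {κ : Key S} {b : Bool} (h1 : Side R' κ b) :
    Side R κ b := by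
  obtain ⟨o, ho, h2⟩ := h1
  exact ⟨o, h ho, h2⟩

theorem Own.mono {R R' : Finset (RP S)} (h : R' ⊆ R) {κ : Key S} (h1 : Own R' κ) : Own R κ := by
  obtain ⟨o, ho, h2⟩ := h1
  exact ⟨o, h ho, h2⟩

theorem Closed.shrink {R R' : Finset (RP S)} (h : R' ⊆ R) {κ : Key S} {b : Bool}
    (h1 : Closed R κ b) (h2 : Side R' κ b) : Closed R' κ b :=
  ⟨fun h3 => h1.1 (h3.mono h), h2, fun h3 => h1.2.2 (h3.mono h)⟩

theorem not_forced_of_TI {c : ℕ} (h : WF W s c) {l : IL P} (h1 : TI W s l) : ¬ Forced W s l := by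
  intro hf
  rcases h1 with ⟨h1, _⟩ | ⟨_, h1 | h1⟩
  · exact hf.1 h1
  · exact h.noconf l hf h1
  · exact h1.1 hf

theorem card_act_le {A : Finset (RP S)} (h : ∀ o ∈ A, W.rn o ∈ Q) : A.card ≤ Q.card := by
  apply card_le_card_of_injOn W.rn (fun o ho => h o ho)
  intro a _ b _ e
  simpa using e

def keyOwner (p : RP S) : Key S → RP S
  | .sp o _ => o
  | .lev _ _ _ => p

theorem sp_owner (hc : Concl W k M Q J) {o : RP S} {w : Bool} (h : Sp W Q J (.sp o w)) :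
    o ∈ J.image (keyOwner W.p0) ∪ Q.image (fun v => v.pos.base) := by
  rcases h with h | ⟨b, h⟩
  · exact mem_union_left _ (mem_image.2 ⟨_, h, rfl⟩)
  · obtain ⟨q, hq, h⟩ := mem_IQ.1 h
    exact mem_union_right _ (mem_image.2 ⟨q, hq, pool_sp (hc.qpool q hq) h⟩)

theorem card_sp_owner (hc : Concl W k M Q J) :
    (J.image (keyOwner W.p0) ∪ Q.image (fun v => v.pos.base)).card ≤ k.c2 + k.c :=
  (card_union_le _ _).trans (add_le_add (card_image_le.trans hc.jcard)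
    (card_image_le.trans hc.qcard))

theorem cleanup (hW : W.Fine) (h : Inv W k s M) (hc : Concl W k M Q J) :
    ∃ s1 : St P, Inv W k s1 M ∧ Clean W k s1 M Q J := by
  classical
  obtain ⟨Λ, hΛ1, hΛ2, hΛ3⟩ := hc.orph (s.K.filter W.sel) (fun l hl => (mem_filter.1 hl).2)
    (fun l hl hn => h.wf.kcons l (mem_filter.1 hl).1 (mem_filter.1 hn).1) (by
      intro C hC ho
      obtain ⟨l, h1, h2, h3⟩ := h.orph C hC ho
      exact ⟨l, mem_filter.2 ⟨h1, h2⟩, h3⟩)
  set A1 := s.Act.filter (fun o => W.rn o ∈ Q) with hA1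
  set R1 := s.R.filter (fun o => o = W.p0 ∨ o ∈ A1 ∨
    (∃ o' ∈ A1, ∃ b, s.ch o' b = o) ∨ ∃ w, Sp W Q J (.sp o w)) with hR1
  set K1 := univ.filter (fun l : IL P => {il l} ∈ M) ∪ Λ with hK1
  let s1 : St P := ⟨R1, A1, s.ch, K1, s.Ph⟩
  have hRR : R1 ⊆ s.R := filter_subset _ _
  have hAA : A1 ⊆ s.Act := filter_subset _ _
  have hAR : A1 ⊆ R1 := fun o ho => mem_filter.2 ⟨h.wf.act (hAA ho), Or.inr (Or.inl ho)⟩
  have hunit : ∀ l, {l} ∈ M → UnitOK W s l := by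
    intro l hl
    rcases h.cls _ hl with ⟨t, h1, h2⟩ | h1
    · rw [singleton_inj.1 h1]; exact h2
    · have := h1.1; simp at this
  have hKK : K1 ⊆ s.K := by
    intro l hl
    rcases mem_union.1 hl with hl | hl
    · exact (hunit _ (mem_filter.1 hl).2).2.1 l rfl
    · exact (mem_filter.1 (hΛ1 hl)).1
  have hcl : Clean W k s1 M Q J := by
    refine ⟨fun o ho => (mem_filter.1 ho).2, ?_, ?_, ?_⟩
    · have hsub : R1 ⊆ {W.p0} ∪ A1 ∪ A1.image (fun o => s.ch o false) ∪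
          A1.image (fun o => s.ch o true) ∪
          (J.image (keyOwner W.p0) ∪ Q.image (fun v => v.pos.base)) := by
        intro o ho
        rcases (mem_filter.1 ho).2 with rfl | h1 | ⟨o', h1, b, rfl⟩ | ⟨w, h1⟩
        · simp
        · simp [h1]
        · cases b
          · exact mem_union_left _ (mem_union_left _ (mem_union_right _ (mem_image_of_mem _ h1)))
          · exact mem_union_left _ (mem_union_right _ (mem_image_of_mem _ h1))
        · exact mem_union_right _ (sp_owner hc h1)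
      have h1 := card_le_card hsub
      have h2 : A1.card ≤ k.c := (card_act_le (fun o ho => (mem_filter.1 ho).2)).trans hc.qcard
      have h3 := card_sp_owner hc
      have h4 := card_union_le ({W.p0} ∪ A1 ∪ A1.image (fun o => s.ch o false) ∪
          A1.image (fun o => s.ch o true))
          (J.image (keyOwner W.p0) ∪ Q.image (fun v => v.pos.base))
      have h5 := card_union_le ({W.p0} ∪ A1 ∪ A1.image (fun o => s.ch o false))
          (A1.image (fun o => s.ch o true))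
      have h6 := card_union_le ({W.p0} ∪ A1) (A1.image (fun o => s.ch o false))
      have h7 := card_union_le {W.p0} A1
      have h8 := card_image_le (s := A1) (f := fun o => s.ch o false)
      have h9 := card_image_le (s := A1) (f := fun o => s.ch o true)
      rw [card_singleton] at h7
      show R1.card ≤ 1 + 4 * k.c + k.c2
      omega
    · intro l hl hs
      rcases mem_union.1 hl with hl | hl
      · apply hc.sp (b := !l.2)
        left
        rw [W.neg_sl, Bool.not_not, ← W.eq_sl hs]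
        exact (mem_filter.1 hl).2
      · exact (hΛ2 l hl).imp id (fun h => ⟨l.2, by rwa [← W.eq_sl hs]⟩)
    · intro l hl hs
      rcases mem_union.1 hl with hl | hl
      · left; simpa using (mem_filter.1 hl).2
      · exact absurd (mem_filter.1 (hΛ1 hl)).2 hs
  have hFF : ∀ l, Forced W s1 l → Forced W s l := by
    rintro l ⟨h1, o, ho, h2⟩
    exact ⟨h1, o, hAA ho, h2⟩
  have hspR : ∀ o w, Sp W Q J (.sp o w) → (o ∈ R1 ↔ o ∈ s.R) := fun o w hw =>
    ⟨fun h => hRR h, fun h => mem_filter.2 ⟨h, Or.inr (Or.inr (Or.inr ⟨w, hw⟩))⟩⟩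
  have hwf : WF W s1 k.c := by
    refine ⟨mem_filter.2 ⟨h.wf.r0, Or.inl rfl⟩, hAR, ?_, ?_, ?_, ?_, ?_, ?_, ?_⟩
    · intro o ho hd b
      have := h.wf.ch o (hAA ho) hd b
      exact ⟨mem_filter.2 ⟨this.1, Or.inr (Or.inr (Or.inl ⟨o, ho, b, rfl⟩))⟩, this.2⟩
    · exact fun l h1 h2 => h.wf.noconf l (hFF _ h1) (hFF _ h2)
    · exact fun l h1 h2 => h.wf.kcons l (hKK h1) (hKK h2)
    · intro l hl
      have hT := h.wf.ktrue l (hKK hl)
      by_cases hs : W.sel l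
      · have hsp := hcl.ksel l hl hs
        refine Or.inl ⟨hs, ?_⟩
        have hT' : TS W s l := by
          rcases hT with hT | hT
          · exact hT.2
          · exact absurd hs hT.1
        rcases l with ⟨⟨⟨j, bs, a⟩ | ⟨o, w⟩, y⟩, b⟩
        · rcases hT' with h1 | h1
          · by_cases h2 : Side R1 (.lev j bs a) b
            · exact Or.inl (h1.shrink hRR h2)
            · refine Or.inr ⟨⟨fun h3 => h1.1 (h3.mono hRR), fun b' h3 => ?_⟩, Or.inl hl⟩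
              by_cases e : b' = b
              · exact h2 (e ▸ h3)
              · have : b' = !b := by cases b <;> cases b' <;> simp_all
                exact h1.2.2 (this ▸ h3.mono hRR)
          · exact Or.inr ⟨⟨fun h3 => h1.1.1 (h3.mono hRR), fun b' h3 => h1.1.2 b' (h3.mono hRR)⟩,
              Or.inl hl⟩
        · show b = true ↔ (o ∈ R1 ↔ w = true)
          rw [hspR o w hsp]; exact hT'
      · exact Or.inr ⟨hs, Or.inr ⟨fun h1 => not_forced_of_TI h.wf hT (hFF _ h1), Or.inl hl⟩⟩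
    · exact fun l hl => h.wf.kF l (hKK hl)
    · exact fun o ho => h.wf.phc o (hRR ho)
    · exact fun o ho => h.wf.phk o (hRR ho)
  have same : ∀ v : Option (Node P), W.poolO v → (∀ o ∈ s.R, v = some (W.rn o) → o ∈ A1) →
      (∀ b, cc W s1 v b = cc W s v b) ∧ ¬ Pend W s1 v := by
    intro v hv hA
    refine ⟨fun b => ?_, ?_⟩
    · rcases poolO_cases hv with rfl | ⟨o, rfl⟩ | ⟨o, d, rfl⟩
      · rfl
      · rw [cc_rn, cc_rn]
        by_cases ho : o ∈ s.R
        · rw [if_pos ho, if_pos (hAR (hA o ho rfl))]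
        · rw [if_neg ho, if_neg (fun h => ho (hRR h))]
      · rfl
    · rintro ⟨o, ho, h1, h2⟩
      exact h1 (hA o (hRR ho) h2)
  have nosp : ∀ o ∈ s.R, o ∉ R1 → ∀ w b, ¬ Ycl M (W.sl (.sp o w) b) :=
    fun o ho hn w b hY => hn ((hspR o w (hc.sp hY)).2 ho)
  refine ⟨s1, ⟨hwf, ?_, ?_, ?_⟩, hcl⟩
  · intro C hC
    rcases h.cls C hC with ⟨l, rfl, h2⟩ | ⟨h2, a, ha, hs, hF, hOK⟩
    · left
      have hE : ∀ v, isE v l → W.poolO v → (∀ b, cc W s1 v b = cc W s v b) ∧ ¬ Pend W s1 v := by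
        intro v hE hv
        refine same v hv ?_
        rintro o ho rfl
        exact mem_filter.2 ⟨act_of_not_pend (h2.2.2 _ hE) ho,
          hc.touch _ hv _ hC (Or.inl ⟨l, rfl, hE⟩)⟩
      have hTE : ∀ v b w pol, isE v l → TE W s v b w pol → TE W s1 v b w pol := by
        intro v b w pol h1 h3
        by_cases hv : W.poolO v
        · rw [TE_iff hv] at h3 ⊢
          rwa [(hE v h1 hv).1]
        · rcases v with _ | v
          · exact absurd trivial hv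
          · exact Or.inr (h3.resolve_left (fun h => hv h.1))
      have hK : ∀ l', l = il l' → l' ∈ K1 := fun l' e =>
        mem_union_left _ (mem_filter.2 ⟨mem_univ _, e ▸ hC⟩)
      refine ⟨l, rfl, ?_, hK, fun v h1 hp => (hE v h1 (pend_pool hp)).2 hp⟩
      rcases l with ⟨⟨κ, y⟩ | _ | ⟨v, b, w⟩ | ⟨v, b, w, d⟩ | _, pol⟩
      · exact hwf.ktrue _ (hK ((κ, y), pol) rfl)
      · exact h2.1
      · exact hTE v b w pol ⟨b, w, Or.inl rfl⟩ h2.1
      · exact hTE v b w pol ⟨b, w, Or.inr ⟨d, rfl⟩⟩ h2.1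
      · exact h2.1
    right
    by_cases hno : Orph C
    · exact ⟨h2, a, ha, hs, hF, Or.inl hno⟩
    by_cases hv : W.poolO a.owner
    swap
    · exact ⟨h2, a, ha, hs, hF, Or.inr (Or.inl hv)⟩
    by_cases hA : ∀ o ∈ s.R, a.owner = some (W.rn o) → o ∈ A1
    · obtain ⟨e1, e2⟩ := same _ hv hA
      refine ⟨h2, a, ha, hs, hF, Or.inr (Or.inr (Or.inr ⟨hv, e2, ?_⟩))⟩
      have hw : Wit W s a C := by
        rcases hOK with h3 | h3 | ⟨⟨o, h3, h4, h5⟩, _⟩ | h3
        · exact absurd h3 hno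
        · exact absurd hv h3
        · exact absurd (hAA (hA o h3 h5)) h4
        · exact h3.2.2
      rcases a with u | ⟨u, b⟩ | ⟨u, b, w, d⟩ | ⟨u, b, w, d⟩
      · obtain ⟨l, h3, h4⟩ := hw
        rcases pool_cases hv with ⟨o, rfl⟩ | ⟨o, d, rfl⟩
        · refine ⟨l, ?_, h4⟩
          rcases h3 with ⟨h3, j, h5, h6, h7⟩ | h3
          · have := hAR (hA o h3 rfl)
            exact Or.inl ⟨this, j, h5, h6, h7.shrink hRR ⟨o, this, j, h5, rfl, rfl⟩⟩
          · exact Or.inr ⟨fun h => h3.1 (hRR h), h3.2⟩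
        · rcases h3 with h3 | h3
          · by_cases h5 : o ∈ R1
            · exact ⟨l, Or.inl ⟨h5, h3.2⟩, h4⟩
            · exact ⟨_, Or.inr ⟨h5, rfl⟩, leaf_mem hC h2 ha hs hno (memI_fol.2 (Or.inl rfl))
                (nosp o h3.1 h5 _ _)⟩
          · exact ⟨l, Or.inr ⟨fun h => h3.1 (hRR h), h3.2⟩, h4⟩
      all_goals
        have e3 := e1 b
        simp only [Ax.owner] at e3
        simp only [Wit, e3] at hw ⊢
        exact hw
    · push Not at hA
      obtain ⟨o, ho, e, hnA⟩ := hA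
      obtain ⟨a', b1, b2, b3, b4, b5⟩ : ∃ a' : Ax P, a'.valid ∧ a'.owner = some (W.rn o) ∧
          C ⊆ a'.cl ∧ (∀ l ∈ a'.cl, l ∉ C → W.F l) ∧ PF a' C := by
        by_cases hact : o ∈ s.Act
        · refine untouched_PF h2 ha hs hF hOK e rfl hno (fun ht => hnA ?_)
          exact mem_filter.2 ⟨hact, hc.touch _ rfl C hC ht⟩
        · rcases hOK with h3 | h3 | h3 | h3
          · exact absurd h3 hno
          · exact absurd hv h3
          · exact ⟨a, ha, e, hs, hF, h3.2⟩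
          · exact absurd ⟨o, ho, hact, e⟩ h3.2.1
      refine ⟨h2, a', b1, b3, b4, Or.inr (Or.inr ?_)⟩
      by_cases hR : o ∈ R1
      · exact Or.inl ⟨⟨o, hR, hnA, b2⟩, b5⟩
      have hp : ¬ Pend W s1 a'.owner := by
        rintro ⟨o', h3, _, h4⟩
        rw [b2] at h4
        obtain rfl : o = o' := by simpa using h4
        exact hR h3
      have hv' : W.poolO a'.owner := by rw [b2]; exact W.pool_node _
      refine Or.inr ⟨hv', hp, man_of_PF hC h2 b1 b4 b5 (cc_dep hW hwf hv' hp) ?_ ?_⟩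
      · intro _ b l hg
        rw [b2, cc_rn, if_neg hR] at hg
        rcases memI_fol.1 hg.1 with rfl | rfl
        · exact absurd (memI_xi o) hg.2.1
        · exact nosp o ho hR _ _
      · rintro v rfl
        obtain rfl : v = W.rn o := by simpa [Ax.owner] using b2
        exact ⟨_, Or.inr ⟨hR, rfl⟩, leaf_mem hC h2 b1 b3 hno (memI_xi o) (nosp o ho hR _ _)⟩
  · intro C hC ho
    obtain ⟨l, h1, h2⟩ := hΛ3 C hC ho
    exact ⟨l, mem_union_right _ h1, (mem_filter.1 (hΛ1 h1)).2, h2⟩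
  · intro o ho u hu C hC hG
    rcases h.ram o (hRR ho) u hu C hC hG with ⟨j, h1, h2, h3⟩ | h1
    · exact Or.inl ⟨j, h1, h2.shrink hRR ⟨o, ho, j, h1, rfl, rfl⟩, h3⟩
    · exact Or.inr h1

end Pool.Agent.Lib.MP_a300b0_lc
end
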