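import Mathlib

/-!
Definitions used in the statement: GCNF and resolution refutations in DAG (sequence) form.
A literal is a pair (variable, sign); `(p, true)` is `p` and `(p, false)` is its complement.
A clause is a finite set of literals and a cedent is a finite set of clauses.
-/

namespace Pool.Agent.Lib.MP_a300b0_lc

variable {V : Type} [DecidableEq V]

/-- `M` is an initial cedent, or follows from cedents of the list `prev` by the structural rule
or by the logical rule (auxiliary literal `l`, the set `Cs` lists the clauses `C_1, ..., C_k`). -/
def GCNFStep (prev : List (Finset (Finset (V × Bool)))) (M : Finset (Finset (V × Bool))) : Prop :=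
  (∃ p : V, M = {{(p, true)}, {(p, false)}}) ∨
  (∃ Γ ∈ prev, ∃ Δ : Finset (Finset (V × Bool)), M = Γ ∪ Δ) ∨
  (∃ (Γ Pi Cs : Finset (Finset (V × Bool))) (l : V × Bool),
    Γ ∪ Cs ∈ prev ∧ insert {l} Pi ∈ prev ∧ M = Γ ∪ Pi ∪ Cs.image (fun C => insert l C))

/-- A GCNF refutation of `S` in DAG form: a sequence of cedents, each one initial or obtained from
earlier ones by a rule, whose last cedent is `S`. -/
def IsGCNFRefutation (P : List (Finset (Finset (V × Bool)))) (S : Finset (Finset (V × Bool))) :
    Prop :=
  (∀ (i : ℕ) (h : i < P.length), GCNFStep (P.take i) P[i]) ∧ P.getLast? = some S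

/-- `E` is a clause of `S` or the resolvent of two clauses of the list `prev`. -/
def ResStep (S : Finset (Finset (V × Bool))) (prev : List (Finset (V × Bool)))
    (E : Finset (V × Bool)) : Prop :=
  E ∈ S ∨ ∃ (C D : Finset (V × Bool)) (p : V), (p, true) ∉ C ∧ (p, false) ∉ D ∧
    insert (p, true) C ∈ prev ∧ insert (p, false) D ∈ prev ∧ E = C ∪ D

/-- A resolution refutation of `S` in DAG form: a sequence of clauses, each one in `S` or a
resolvent of two earlier ones, whose last clause is empty. -/
def IsResRefutation (R : List (Finset (V × Bool))) (S : Finset (Finset (V × Bool))) : Prop :=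
  (∀ (i : ℕ) (h : i < R.length), ResStep S (R.take i) R[i]) ∧ R.getLast? = some ∅

/-- Number of literal occurrences in a sequence of cedents (the smallest reading of size). -/
def litCount (P : List (Finset (Finset (V × Bool)))) : ℕ :=
  (P.map fun M => ∑ C ∈ M, C.card).sum

/-- Number of symbols of a clause over the variables `0, 1, 2, ...` written in binary: the binary
digits, a sign and a separator for each literal, and one separator for the clause. -/
def clauseBits (C : Finset (ℕ × Bool)) : ℕ :=
  1 + ∑ l ∈ C, (Nat.size l.1 + 2)

/-- Number of symbols of the input of a simulation: the clause set and the resolution refutation,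
with variables written in binary. -/
def inputBits (S : Finset (Finset (ℕ × Bool))) (R : List (Finset (ℕ × Bool))) : ℕ :=
  ∑ C ∈ S, clauseBits C + (R.map clauseBits).sum

end Pool.Agent.Lib.MP_a300b0_lc
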