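import Pool.Agent.Lib.MP_a300b0_lc.Clean

-- part Pool.Agent.Lib.MP_a300b0_lc.Act
section

/-! The adversary activates a pending node. -/

namespace Pool.Agent.Lib.MP_a300b0_lc

open Finset

variable {S : Shape} {P : Par S} {W : World P} {k : Cst} {s : St P}
variable {M : Finset (Finset (Lit P))} {Q : Finset (Node P)} {J : Finset (Key S)}

/-- Requirements on the constants of the shape. -/
structure Fit (S : Shape) (k : Cst) : Prop where
  hL : (k.c + k.b0 + 1) ^ (k.c + 1) ≤ S.L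
  hLab : k.rho + k.c + k.c2 < S.nLab
  hSlot : 3 * k.c + 1 ≤ S.nSlot
  hCopy : k.r < S.nCopy

theorem act_leaf (hf : Fit S k) (h : Inv W k s M) {o : RP S} (ho : o ∈ s.R)
    (hd : o.d.val = S.L) : Inv W k { s with Act := insert o s.Act } M := by
  have hF : ∀ l, Forced W { s with Act := insert o s.Act } l ↔ Forced W s l := by
    intro l
    constructor
    · rintro ⟨h1, o', h2, h3, h4⟩
      rcases mem_insert.1 h2 with rfl | h2
      · omega
      · exact ⟨h1, o', h2, h3, h4⟩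
    · rintro ⟨h1, o', h2, h3⟩
      exact ⟨h1, o', mem_insert_of_mem h2, h3⟩
  have hTI : ∀ l, TI W s l → TI W { s with Act := insert o s.Act } l := by
    intro l hl
    unfold TI at hl ⊢
    rw [hF, hF]; exact hl
  have hP : ∀ v, Pend W { s with Act := insert o s.Act } v → Pend W s v := by
    rintro v ⟨o', h1, h2, h3⟩
    exact ⟨o', h1, fun h4 => h2 (mem_insert_of_mem h4), h3⟩
  refine ⟨⟨h.wf.r0, insert_subset ho h.wf.act, ?_, ?_, h.wf.kcons,
    fun l hl => hTI l (h.wf.ktrue l hl), h.wf.kF, h.wf.phc, h.wf.phk⟩, ?_, h.orph, h.ram⟩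
  · intro o' h2 h3
    rcases mem_insert.1 h2 with rfl | h2
    · omega
    · exact h.wf.ch o' h2 h3
  · intro l; rw [hF, hF]; exact h.wf.noconf l
  intro C hC
  rcases h.cls C hC with ⟨l, h1, h2⟩ | ⟨h2, a, ha, hs, hF', hOK⟩
  · refine Or.inl ⟨l, h1, ?_, h2.2.1, fun v hv hp => h2.2.2 v hv (hP v hp)⟩
    rcases l with ⟨κ | _ | _ | _ | _, b⟩
    · exact hTI _ h2.1
    all_goals exact h2.1
  refine Or.inr ⟨h2, a, ha, hs, hF', ?_⟩
  rcases hOK with h3 | h3 | ⟨⟨o', h3, h4, h5⟩, h6⟩ | h3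
  · exact Or.inl h3
  · exact Or.inr (Or.inl h3)
  · by_cases e : o' = o
    swap
    · exact Or.inr (Or.inr (Or.inl ⟨⟨o', h3, by simp [e, h4], h5⟩, h6⟩))
    subst e
    refine Or.inr (Or.inr (Or.inr ⟨by rw [h5]; exact W.pool_node _, ?_, ?_⟩))
    · rintro ⟨o2, _, h7, h8⟩
      rw [h5] at h8
      obtain rfl : o' = o2 := by simpa using h8
      exact h7 (mem_insert_self _ _)
    obtain rfl := eq_leaf ha h5 (by rw [dep_rn, hd])
    rcases h.ram o' h3 o' ⟨hd, fun _ _ => rfl, fun _ _ => rfl⟩ C hC (h6.allG h5) with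
      ⟨j, b1, b2, b3⟩ | ⟨A, Ex, b1, b2, b3, b4, _⟩
    · exact ⟨_, Or.inl ⟨h3, j, b1, rfl, b2⟩, b3⟩
    · exfalso
      have hle : ∀ i : Lv S, i ≤ o'.d := fun i => by
        have := i.isLt; rw [Fin.le_def]; omega
      have := skew_pairs_exc univ A (s.Ph o') Ex k.c k.c k.b0 (fun j _ => b1 j)
        (fun j _ => h.wf.phc o' h3 j) (fun j _ => b2 j)
        (fun j _ => disjoint_left.2 (fun p h7 h8 => h.wf.phk o' h3 j (hle j) p h8 _ (b3 j p h7)))
        (fun j _ i _ hlt => b4 i (hle i) j hlt)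
      have h9 := hf.hL
      simp at this
      omega
  · exact Or.inr (Or.inr (Or.inr ⟨h3.1, fun hp => h3.2.1 (hP _ hp), h3.2.2⟩))

open Classical in
/-- First levels where `f` differs from a member of a family. -/
noncomputable def fdl {α : Type} (f : Lv S → Bool) (V : Finset α) (g : α → Lv S → Bool) :
    Finset (Lv S) := univ.filter (fun j => ∃ v ∈ V, f j ≠ g v j ∧ ∀ t < j, f t = g v t)

theorem mem_fdl {α : Type} {f : Lv S → Bool} {V : Finset α} {g : α → Lv S → Bool} {j : Lv S} :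
    j ∈ fdl f V g ↔ ∃ v ∈ V, f j ≠ g v j ∧ ∀ t < j, f t = g v t := by simp [fdl]

theorem card_fdl {α : Type} (f : Lv S → Bool) (V : Finset α) (g : α → Lv S → Bool) :
    (fdl f V g).card ≤ V.card := by
  classical
  have hsub : fdl f V g ⊆ V.biUnion (fun v => fdl f {v} g) := by
    intro j hj
    obtain ⟨v, hv, h⟩ := mem_fdl.1 hj
    exact mem_biUnion.2 ⟨v, hv, mem_fdl.2 ⟨v, mem_singleton_self _, h⟩⟩
  refine (card_le_card hsub).trans (card_biUnion_le.trans ?_)
  refine (sum_le_card_nsmul _ _ 1 ?_).trans (by simp)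
  intro v _
  rw [card_le_one]
  intro i hi j hj
  obtain ⟨_, h1, h2, h3⟩ := mem_fdl.1 hi
  obtain ⟨_, h4, h5, h6⟩ := mem_fdl.1 hj
  rw [mem_singleton.1 h1] at h2 h3
  rw [mem_singleton.1 h4] at h5 h6
  by_contra hne
  rcases lt_or_gt_of_ne hne with h | h
  · exact h2 (h6 i h)
  · exact h5 (h3 j h)

def keyLab (d : Lv S) : Key S → Fin S.nLab
  | .lev _ _ a => a
  | .sp o _ => o.lab d

/-- What is required of a new child. -/
structure Child (W : World P) (s : St P) (M : Finset (Finset (Lit P))) (Q : Finset (Node P))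
    (J : Finset (Key S)) (o : RP S) (b : Bool) (w : RP S) : Prop where
  isch : IsCh o b w
  freshR : ∀ p ∈ s.R, p.lab w.d ≠ w.lab w.d
  freshQ : ∀ q ∈ Q, q.pos.base.lab w.d ≠ w.lab w.d
  freshJ : ∀ κ ∈ J, keyLab w.d κ ≠ w.lab w.d
  lvd : ∃ t, w.lv t = o.d
  noQ : ∀ l, memI (W.rn w) l → ¬ W.sel l → ¬ Ycl M (neg l)
  noF : ∀ l, memI (W.rn w) l → ¬ W.sel l → ¬ Forced W s (neg l)

theorem exists_child (hf : Fit S k) (hc : Concl W k M Q J) (hcl : Clean W k s M Q J) {o : RP S}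
    (hd : o.d.val < S.L) (b : Bool) : ∃ w, Child W s M Q J o b w := by
  classical
  have hLab := hf.hLab
  obtain ⟨a, ha⟩ := exists_notMem_of_card_lt (s.R.image (fun p => p.lab (nxt o.d)) ∪
      Q.image (fun q => q.pos.base.lab (nxt o.d)) ∪ J.image (keyLab (nxt o.d))) (by
    refine lt_of_le_of_lt ((card_union_le _ _).trans (add_le_add ((card_union_le _ _).trans
      (add_le_add (card_image_le.trans hcl.rcard) (card_image_le.trans hc.qcard)))
      (card_image_le.trans hc.jcard))) (by simpa using hLab))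
  simp only [mem_union, mem_image, not_or, not_exists, not_and] at ha
  set bits := Function.update o.bits o.d b with hbits
  set V : Finset (Node P) := Q ∪ (s.Act ×ˢ (univ : Finset Bool)).image
    (fun x => W.rn (s.ch x.1 x.2)) with hV
  have hVc : V.card ≤ 3 * k.c := by
    have h1 := (card_act_le hcl.actQ).trans hc.qcard
    have h2 := hc.qcard
    refine (card_union_le _ _).trans ?_
    have h3 := card_image_le (s := s.Act ×ˢ (univ : Finset Bool))
      (f := fun x => W.rn (s.ch x.1 x.2))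
    rw [card_product, card_univ, Fintype.card_bool] at h3
    omega
  obtain ⟨lv, hlv⟩ := exists_cover_fun (β := Fin S.nSlot)
    (insert o.d (fdl bits V (fun v => v.pos.base.bits))) (by
      have := hf.hSlot
      have h1 := card_fdl bits V (fun v => v.pos.base.bits)
      have h2 := card_insert_le o.d (fdl bits V (fun v => v.pos.base.bits))
      simp only [Fintype.card_fin]
      omega)
  let w : Fin S.nCopy → RP S := fun y => ⟨nxt o.d, bits, Function.update o.lab (nxt o.d) a, lv, y⟩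
  have hwl : ∀ y, (w y).lab (w y).d = a := fun y => by simp [w]
  have hnQ : ∀ y, W.rn (w y) ∉ Q := fun y hy => ha.1.2 _ hy (hwl y)
  obtain ⟨y, hy⟩ : ∃ y, ¬ ∃ l, memI (W.rn (w y)) l ∧ ¬ W.sel l ∧ Ycl M (neg l) ∧
      neg l ∉ IQ Q := by
    by_contra hn
    push Not at hn
    have h1 := hc.burn (univ.image w) (by
      intro p hp
      obtain ⟨y, _, rfl⟩ := mem_image.1 hp
      exact ⟨hnQ y, hn y⟩)
    rw [card_image_of_injective _ (fun y y' e => congrArg RP.cp e)] at h1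
    have := hf.hCopy
    simp at h1
    omega
  have hconf : ∀ l, memI (W.rn (w y)) l → ¬ W.sel l → ∀ v ∈ V, W.pool v → ¬ memI v (neg l) := by
    intro l h1 h2 v hv hp h3
    obtain ⟨j, b1, b2, b3⟩ := conflict_level hp h1 h2 h3
    obtain ⟨t, ht⟩ := hlv j (mem_insert_of_mem (mem_fdl.2 ⟨v, hv, b2, b3⟩))
    exact b1 t ht
  have hn := nxt_val hd
  refine ⟨w y, ⟨hn, fun j hj => ?_, by simp [w, hbits], fun j hj => ?_⟩, ?_, ?_, ?_,
    hlv _ (mem_insert_self _ _), ?_, ?_⟩
  · simp [w, hbits, hj.ne]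
  · have : j ≠ nxt o.d := by
      rintro rfl
      rw [Fin.le_def] at hj; omega
    simp [w, this]
  · intro p hp; rw [hwl]; exact ha.1.1 p hp
  · intro p hp; rw [hwl]; exact ha.1.2 p hp
  · intro p hp; rw [hwl]; exact ha.2 p hp
  · intro l h1 h2 h3
    by_cases h4 : neg l ∈ IQ Q
    · obtain ⟨q, hq, h5⟩ := mem_IQ.1 h4
      exact hconf l h1 h2 q (mem_union_left _ hq) (hc.qpool q hq) h5
    · exact hy ⟨l, h1, h2, h3, h4⟩
  · rintro l h1 h2 ⟨_, o', h3, _, b', h4⟩
    exact hconf l h1 h2 _ (mem_union_right _ (mem_image.2 ⟨(o', b'), by simp [h3], rfl⟩)) rfl h4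

section internal
variable {o : RP S} {w : Bool → RP S}

theorem Child.notR {b : Bool} {x : RP S} (h : Child W s M Q J o b x) : x ∉ s.R :=
  fun hx => h.freshR x hx rfl

theorem Child.notQ {b : Bool} {x : RP S} (h : Child W s M Q J o b x) : W.rn x ∉ Q :=
  fun hx => h.freshQ _ hx rfl

theorem Child.nosp (hc : Concl W k M Q J) {b : Bool} {x : RP S} (h : Child W s M Q J o b x)
    (t : Bool) : ¬ Sp W Q J (.sp x t) := by
  rintro (h1 | ⟨b', h1⟩)
  · exact h.freshJ _ h1 rfl
  · obtain ⟨q, hq, h2⟩ := mem_IQ.1 h1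
    apply h.freshQ q hq
    rw [pool_sp (hc.qpool q hq) h2]

theorem Child.nokey (hc : Concl W k M Q J) {b : Bool} {x : RP S} (h : Child W s M Q J o b x) :
    ¬ Sp W Q J (x.key x.d) := by
  rintro (h1 | ⟨b', h1⟩)
  · exact h.freshJ _ h1 rfl
  · obtain ⟨q, hq, h2⟩ := mem_IQ.1 h1
    exact h.freshQ q hq (pool_key (hc.qpool q hq) h2)

open Classical in
/-- The state after the activation of `o`. -/
noncomputable def St.grow (s : St P) (Q : Finset (Node P)) (o : RP S) (w : Bool → RP S) : St P where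
  R := s.R ∪ univ.image w
  Act := insert o s.Act
  ch := Function.update s.ch o w
  K := s.K
  Ph := fun p => if p ∈ s.R then s.Ph p else Function.update (s.Ph o) (nxt o.d) Q

theorem mem_grow {p : RP S} : p ∈ (s.grow Q o w).R ↔ p ∈ s.R ∨ ∃ b, w b = p := by
  simp only [St.grow, mem_union, mem_image, mem_univ, true_and]

theorem grow_side (ho : o ∈ s.R) (hw : ∀ b, Child W s M Q J o b (w b)) {κ : Key S} {b : Bool}
    (hn : ¬ Own s.R κ) (h : Side (s.grow Q o w).R κ b) : Side s.R κ b := by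
  obtain ⟨p, hp, j, h1, h2, h3⟩ := h
  rcases mem_grow.1 hp with hp | ⟨b', rfl⟩
  · exact ⟨p, hp, j, h1, h2, h3⟩
  · have hc := (hw b').isch
    have hj := hc.lt_iff.1 h1
    rw [hc.key hj] at h2
    rcases lt_or_eq_of_le hj with hlt | rfl
    · exact ⟨o, ho, j, hlt, h2, by rw [← hc.2.1 j hlt, h3]⟩
    · exact absurd ⟨o, ho, h2⟩ hn

theorem grow_closed (ho : o ∈ s.R) (hw : ∀ b, Child W s M Q J o b (w b)) {κ : Key S} {b : Bool}
    (h : Closed s.R κ b) : Closed (s.grow Q o w).R κ b := by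
  refine ⟨?_, h.2.1.mono subset_union_left, fun h1 => h.2.2 (grow_side ho hw h.1 h1)⟩
  rintro ⟨p, hp, h1⟩
  rcases mem_grow.1 hp with hp | ⟨b', rfl⟩
  · exact h.1 ⟨p, hp, h1⟩
  · obtain ⟨p, hp, j, _, h2, _⟩ := h.2.1
    obtain ⟨rfl, _, h3⟩ := key_inj (h2.trans h1.symm)
    exact (hw b').freshR p hp h3

theorem grow_forced (hna : o ∉ s.Act) {l : IL P} (h : Forced W (s.grow Q o w) l) :
    Forced W s l ∨ (¬ W.sel l ∧ ∃ b, memI (W.rn (w b)) l) := by
  obtain ⟨h1, o', h2, h3, b, h4⟩ := h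
  by_cases e : o' = o
  · subst e
    right
    exact ⟨h1, b, by simpa [St.grow] using h4⟩
  · left
    exact ⟨h1, o', (mem_insert.1 h2).resolve_left e, h3, b, by simpa [St.grow, e] using h4⟩

theorem grow_wf (h : WF W s k.c) (hc : Concl W k M Q J) (hcl : Clean W k s M Q J) (ho : o ∈ s.R)
    (hna : o ∉ s.Act) (hd : o.d.val < S.L) (hw : ∀ b, Child W s M Q J o b (w b)) :
    WF W (s.grow Q o w) k.c := by
  have hwd : ∀ b, (w b).d = nxt o.d := fun b => Fin.ext (by rw [(hw b).isch.1, nxt_val hd])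
  refine ⟨mem_grow.2 (Or.inl h.r0), ?_, ?_, ?_, h.kcons, ?_, h.kF, ?_, ?_⟩
  · intro p hp
    rcases mem_insert.1 hp with rfl | hp
    · exact mem_grow.2 (Or.inl ho)
    · exact mem_grow.2 (Or.inl (h.act hp))
  · intro p hp hpd b
    by_cases e : p = o
    · subst e
      have : (s.grow Q p w).ch p b = w b := by simp [St.grow]
      rw [this]
      exact ⟨mem_grow.2 (Or.inr ⟨b, rfl⟩), (hw b).isch⟩
    · have : (s.grow Q o w).ch p b = s.ch p b := by simp [St.grow, e]
      rw [this]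
      have h1 := h.ch p ((mem_insert.1 hp).resolve_left e) hpd b
      exact ⟨mem_grow.2 (Or.inl h1.1), h1.2⟩
  · intro l h1 h2
    rcases grow_forced hna h1 with h1 | ⟨h1, b, h3⟩ <;>
      rcases grow_forced hna h2 with h2 | ⟨h2, b', h4⟩
    · exact h.noconf l h1 h2
    · exact (hw b').noF _ h4 h2 (by simpa using h1)
    · exact (hw b).noF _ h3 h1 h2
    · obtain ⟨j, b1, b2, b3⟩ := conflict_level (W.pool_node _) h3 h1 h4
      have b2' : (w b).bits j ≠ (w b').bits j := b2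
      have b3' : ∀ t < j, (w b).bits t = (w b').bits t := b3
      have hne : b ≠ b' := by rintro rfl; exact b2' rfl
      rcases lt_trichotomy j o.d with hlt | rfl | hlt
      · exact b2' (by rw [(hw b).isch.2.1 j hlt, (hw b').isch.2.1 j hlt])
      · obtain ⟨t, ht⟩ := (hw b).lvd
        exact b1 t ht
      · have := b3' _ hlt
        rw [(hw b).isch.2.2.1, (hw b').isch.2.2.1] at this
        exact hne this
  · intro l hl
    have hT := h.ktrue l hl
    by_cases hs : W.sel l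
    · have hsp := hcl.ksel l hl hs
      refine Or.inl ⟨hs, ?_⟩
      have hT' : TS W s l := by
        rcases hT with hT | hT
        · exact hT.2
        · exact absurd hs hT.1
      rcases l with ⟨⟨⟨j, bs, a⟩ | ⟨p, t⟩, y⟩, b⟩
      · rcases hT' with h1 | h1
        · exact Or.inl (grow_closed ho hw h1)
        · refine Or.inr ⟨⟨?_, fun b' h3 => h1.1.2 b' (grow_side ho hw h1.1.1 h3)⟩, Or.inl hl⟩
          rintro ⟨p, hp, h2⟩
          rcases mem_grow.1 hp with hp | ⟨b', rfl⟩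
          · exact h1.1.1 ⟨p, hp, h2⟩
          · exact (hw b').nokey hc (h2 ▸ hsp)
      · show b = true ↔ (p ∈ (s.grow Q o w).R ↔ t = true)
        have : p ∈ (s.grow Q o w).R ↔ p ∈ s.R := by
          rw [mem_grow]
          refine ⟨fun h1 => h1.resolve_right ?_, Or.inl⟩
          rintro ⟨b', rfl⟩
          exact (hw b').nosp hc t hsp
        rw [this]; exact hT'
    · refine Or.inr ⟨hs, Or.inr ⟨fun h1 => ?_, Or.inl hl⟩⟩
      rcases grow_forced hna h1 with h1 | ⟨_, b, h1⟩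
      · exact not_forced_of_TI h hT h1
      · exact (hw b).noQ l h1 hs (hcl.knon l hl hs)
  · intro p hp i
    by_cases hp' : p ∈ s.R
    · simpa [St.grow, hp'] using h.phc p hp' i
    · by_cases e : i = nxt o.d
      · simpa [St.grow, hp', e] using hc.qcard
      · simpa [St.grow, hp', e] using h.phc o ho i
  · intro p hp i hi q hq b
    by_cases hp' : p ∈ s.R
    · exact h.phk p hp' i hi q (by simpa [St.grow, hp'] using hq) b
    · obtain ⟨b', rfl⟩ := (mem_grow.1 hp).resolve_left hp'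
      by_cases e : i = nxt o.d
      · have hq' : q ∈ Q := by simpa [St.grow, hp', e] using hq
        intro h1
        apply (hw b').freshQ q hq'
        rw [e, ← hwd b'] at h1
        exact pool_key (hc.qpool q hq') h1
      · have hi' : i ≤ o.d := (hw b').isch.lt_iff.1 (lt_of_le_of_ne hi (by rwa [hwd]))
        rw [(hw b').isch.key hi']
        exact h.phk o ho i hi' q (by simpa [St.grow, hp', e] using hq) b

theorem zl_ext {x u : RP S} (h : Ext x u) {j : Lv S} (hj : j < x.d) : W.zl u j = W.zl x j := by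
  unfold World.zl
  rw [key_eq (fun t ht => h.2.1 t (ht.trans hj)) (h.2.2 j hj.le), h.2.1 j hj]

theorem grow_ram (hW : W.Fine) (h : Inv W k s M) (hc : Concl W k M Q J) (hcl : Clean W k s M Q J)
    (hg : ∀ C ∈ M, ∀ v, AllG v C → ClauseGood W k (Zc v C)) (ho : o ∈ s.R)
    (hd : o.d.val < S.L) (hw : ∀ b, Child W s M Q J o b (w b)) :
    ∀ x ∈ (s.grow Q o w).R, ∀ u, Ext x u → ∀ C ∈ M, AllG (W.rn u) C →
      Ram W k (s.grow Q o w) x u C := by
  classical
  intro x hx u hu C hC hG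
  by_cases hxR : x ∈ s.R
  · rcases h.ram x hxR u hu C hC hG with ⟨j, h1, h2, h3⟩ | h1
    · exact Or.inl ⟨j, h1, grow_closed ho hw h2, h3⟩
    · right
      simpa only [St.grow, hxR, if_true] using h1
  obtain ⟨b, rfl⟩ := (mem_grow.1 hx).resolve_left hxR
  have hch := (hw b).isch
  have hwd : (w b).d = nxt o.d := Fin.ext (by rw [hch.1, nxt_val hd])
  have hlt : o.d < (w b).d := hch.lt_iff.2 le_rfl
  have hu' : Ext o u := ⟨hu.1, fun j hj => by rw [hu.2.1 j (hj.trans hlt), hch.2.1 j hj],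
    fun j hj => by rw [hu.2.2 j (hj.trans hlt.le), hch.2.2.2 j hj]⟩
  rcases h.ram o ho u hu' C hC hG with ⟨j, h1, h2, h3⟩ | ⟨A, Ex, b1, b2, b3, b4, b5⟩
  · refine Or.inl ⟨j, h1.trans hlt, ?_, ?_⟩
    · rw [hch.key h1.le, hch.2.1 j h1]; exact grow_closed ho hw h2
    · rw [← zl_ext hu (h1.trans hlt), zl_ext hu' h1]; exact h3
  by_cases halt : ∃ j, j < (w b).d ∧ Closed (s.grow Q o w).R ((w b).key j) ((w b).bits j) ∧
      il (W.zl (w b) j) ∈ C
  · exact Or.inl halt
  right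
  obtain ⟨QC, JC, c1, c2, c3⟩ := hg C hC _ hG
  let N : Lv S → Finset (Node P) → Prop := fun j B =>
    B ⊆ QC ∧ (∀ v ∈ B, memI v (W.zl u j)) ∧ Dfn W k (Zc (W.rn u) C) B
  let A' : Lv S → Finset (Node P) := fun j =>
    if hj : A j = ∅ ∧ ∃ B, N j B then hj.2.choose else A j
  have hA' : ∀ j, A' j = A j ∨ (A j = ∅ ∧ N j (A' j)) := by
    intro j
    by_cases hj : A j = ∅ ∧ ∃ B, N j B
    · right
      refine ⟨hj.1, ?_⟩
      simp only [A', dif_pos hj]
      exact hj.2.choose_spec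
    · left; simp only [A', dif_neg hj]
  have hA2 : ∀ j, (∃ B, N j B) → Dfn W k (Zc (W.rn u) C) (A' j) := by
    intro j hj
    by_cases e : A j = ∅
    · simp only [A', dif_pos (And.intro e hj)]
      exact hj.choose_spec.2.2
    · rcases hA' j with h1 | h1
      · rw [h1]; exact (b5 j).resolve_left e
      · exact absurd h1.1 e
  let E : Finset (Lv S) := s.R.image RP.d ∪ fdl (w b).bits s.R RP.bits ∪
    univ.filter (fun j => u.key j ∈ JC)
  have hE : E.card ≤ k.b0 := by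
    have h1 := card_image_le (s := s.R) (f := RP.d)
    have h2 := card_fdl (w b).bits s.R RP.bits
    have h3 : (univ.filter (fun j => u.key j ∈ JC)).card ≤ JC.card :=
      card_le_card_of_injOn (fun j => u.key j) (fun j hj => by simpa using hj)
        (fun i _ j _ e => (key_inj e).1)
    have h4 := hcl.rcard
    have h5 := card_union_le (s.R.image RP.d ∪ fdl (w b).bits s.R RP.bits)
      (univ.filter (fun j => u.key j ∈ JC))
    have h6 := card_union_le (s.R.image RP.d) (fdl (w b).bits s.R RP.bits)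
    show (_ ∪ _ : Finset (Lv S)).card ≤ 2 * k.rho + k.c2
    omega
  have hPh : (s.grow Q o w).Ph (w b) = Function.update (s.Ph o) (w b).d Q := by
    simp [St.grow, hxR, hwd]
  refine ⟨A', Function.update Ex (w b).d E, ?_, ?_, ?_, ?_, ?_⟩
  · intro j
    rcases hA' j with h1 | h1
    · rw [h1]; exact b1 j
    · exact (card_le_card h1.2.1).trans c1
  · intro j
    by_cases e : j = (w b).d
    · simpa [e] using hE
    · simpa [e] using b2 j
  · intro j
    rcases hA' j with h1 | h1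
    · rw [h1]; exact b3 j
    · exact h1.2.2.1
  · intro i hi j hj
    rw [hPh]
    by_cases e : i = (w b).d
    swap
    · have hi' : i ≤ o.d := hch.lt_iff.1 (lt_of_le_of_ne hi e)
      simp only [Function.update_of_ne e]
      refine (b4 i hi' j hj).imp id (fun h1 => ?_)
      rcases hA' j with h2 | h2
      · rwa [h2]
      · rw [h2.1] at h1; simp at h1
    subst e
    simp only [Function.update_self]
    by_cases hjE : j ∈ E
    · exact Or.inl hjE
    right
    simp only [E, mem_union, mem_image, mem_filter, mem_univ, true_and, not_or] at hjE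
    have hjo : j < o.d := lt_of_le_of_ne (hch.lt_iff.1 hj) (fun e => hjE.1.1 ⟨o, ho, e.symm⟩)
    have hcl' : Closed s.R (o.key j) (o.bits j) := by
      refine ⟨?_, ⟨o, ho, j, hjo, rfl, rfl⟩, ?_⟩
      · rintro ⟨p, hp, h1⟩
        exact hjE.1.1 ⟨p, hp, (key_inj h1).1⟩
      · rintro ⟨p, hp, j', _, h1, h2⟩
        obtain ⟨rfl, h3, _⟩ := key_inj h1
        refine hjE.1.2 (mem_fdl.2 ⟨p, hp, ?_, fun t ht => ?_⟩)
        · rw [hch.2.1 _ hjo, h2]; simp
        · rw [hch.2.1 _ (ht.trans hjo), h3 t ht]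
    have hnC : il (W.zl u j) ∉ C := by
      intro h1
      refine halt ⟨j, hj, ?_, by rwa [← zl_ext hu hj]⟩
      rw [hch.key hjo.le, hch.2.1 j hjo]; exact grow_closed ho hw hcl'
    have hju : j < u.d := by
      have := hu.1
      rw [Fin.lt_def] at hjo ⊢; omega
    obtain ⟨Z', z1, z2, z3⟩ := hA2 j ((c3 _ (mem_Zc.2 ⟨memI_zl hW hju, hnC⟩) rfl).resolve_left
      hjE.2)
    have hnG := hW.nG
    obtain ⟨q, hq, h1⟩ := exists_heavy Z' (Yv M \ IQ Q) Q Iv k.h (by
      intro l hl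
      have h1 := mem_Zc.1 (z1 hl)
      by_cases h2 : l ∈ IQ Q
      · obtain ⟨q, hq, h3⟩ := mem_IQ.1 h2
        exact Or.inr ⟨q, hq, mem_Iv.2 h3⟩
      · refine Or.inl (mem_sdiff.2 ⟨mem_Yv.2 (Or.inr (Or.inl ⟨C, hC, ?_, W.rn u, ⟨0, by omega⟩,
          by rw [dep_rn, hu.1], hG _, h1⟩)), h2⟩)
        have := hG.card; omega) (by
      have h1 := hc.small
      have h2 := Nat.mul_le_mul_right k.h hc.qcard
      rw [z2]; unfold Cst.x'; omega)
    exact not_disjoint_iff.2 ⟨q, z3 q (hc.qpool q hq) h1, hq⟩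
  · intro j
    rcases hA' j with h1 | h1
    · rw [h1]; exact b5 j
    · exact Or.inr h1.2.2.2

theorem grow_inv (hW : W.Fine) (h : Inv W k s M) (hc : Concl W k M Q J) (hcl : Clean W k s M Q J)
    (hg : ∀ C ∈ M, ∀ v, AllG v C → ClauseGood W k (Zc v C)) (ho : o ∈ s.R) (hna : o ∉ s.Act)
    (hd : o.d.val < S.L) (hw : ∀ b, Child W s M Q J o b (w b)) :
    Inv W k (s.grow Q o w) M := by
  have hwf := grow_wf h.wf hc hcl ho hna hd hw
  refine ⟨hwf, ?_, h.orph, grow_ram hW h hc hcl hg ho hd hw⟩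
  have same : ∀ v : Option (Node P), W.poolO v → ¬ Pend W s v → (∀ b, v ≠ some (W.rn (w b))) →
      (∀ b, cc W (s.grow Q o w) v b = cc W s v b) ∧ ¬ Pend W (s.grow Q o w) v := by
    intro v hv hp hn
    refine ⟨fun b => ?_, ?_⟩
    · rcases poolO_cases hv with rfl | ⟨p, rfl⟩ | ⟨p, d, rfl⟩
      · rfl
      · rw [cc_rn, cc_rn]
        by_cases hpR : p ∈ s.R
        · have : p ≠ o := by
            rintro rfl
            exact hna (act_of_not_pend hp hpR)
          rw [if_pos hpR, if_pos (mem_grow.2 (Or.inl hpR))]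
          simp [St.grow, this]
        · rw [if_neg hpR, if_neg]
          intro h1
          obtain ⟨b', rfl⟩ := (mem_grow.1 h1).resolve_left hpR
          exact hn b' rfl
      · rfl
    · rintro ⟨p, h1, h2, rfl⟩
      rcases mem_grow.1 h1 with h1 | ⟨b', rfl⟩
      · exact hp ⟨p, h1, fun h3 => h2 (mem_insert_of_mem h3), rfl⟩
      · exact hn b' rfl
  have nosp : ∀ b t b', ¬ Ycl M (W.sl (.sp (w b) t) b') :=
    fun b t b' hY => (hw b).nosp hc t (hc.sp hY)
  intro C hC
  rcases h.cls C hC with ⟨l, rfl, h2⟩ | ⟨h2, a, ha, hs, hF, hOK⟩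
  · left
    have hE : ∀ v, isE v l → W.poolO v →
        (∀ b, cc W (s.grow Q o w) v b = cc W s v b) ∧ ¬ Pend W (s.grow Q o w) v := by
      intro v hE hv
      refine same v hv (h2.2.2 v hE) ?_
      rintro b rfl
      exact (hw b).notQ (hc.touch _ hv _ hC (Or.inl ⟨l, rfl, hE⟩))
    have hTE : ∀ v b x pol, isE v l → TE W s v b x pol → TE W (s.grow Q o w) v b x pol := by
      intro v b x pol h1 h3
      by_cases hv : W.poolO v
      · rw [TE_iff hv] at h3 ⊢
        rwa [(hE v h1 hv).1]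
      · rcases v with _ | v
        · exact absurd trivial hv
        · exact Or.inr (h3.resolve_left (fun h => hv h.1))
    refine ⟨l, rfl, ?_, h2.2.1, fun v h1 hp => (hE v h1 (pend_pool hp)).2 hp⟩
    rcases l with ⟨⟨κ, y⟩ | _ | ⟨v, b, x⟩ | ⟨v, b, x, d⟩ | _, pol⟩
    · exact hwf.ktrue _ (h2.2.1 ((κ, y), pol) rfl)
    · exact h2.1
    · exact hTE v b x pol ⟨b, x, Or.inl rfl⟩ h2.1
    · exact hTE v b x pol ⟨b, x, Or.inr ⟨d, rfl⟩⟩ h2.1
    · exact h2.1
  right
  by_cases hno : Orph C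
  · exact ⟨h2, a, ha, hs, hF, Or.inl hno⟩
  by_cases hv : W.poolO a.owner
  swap
  · exact ⟨h2, a, ha, hs, hF, Or.inr (Or.inl hv)⟩
  by_cases hw1 : ∃ b, a.owner = some (W.rn (w b))
  · obtain ⟨b, e⟩ := hw1
    obtain ⟨a', b1, b2, b3, b4, b5⟩ := untouched_PF h2 ha hs hF hOK e rfl hno
      (fun ht => (hw b).notQ (hc.touch _ rfl C hC ht))
    refine ⟨h2, a', b1, b3, b4, Or.inr (Or.inr (Or.inl ⟨⟨w b, mem_grow.2 (Or.inr ⟨b, rfl⟩), ?_,
      b2⟩, b5⟩))⟩
    intro h1
    rcases mem_insert.1 h1 with h1 | h1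
    · exact (hw b).notR (h1 ▸ ho)
    · exact (hw b).notR (h.wf.act h1)
  push Not at hw1
  refine ⟨h2, a, ha, hs, hF, Or.inr (Or.inr ?_)⟩
  rcases hOK with h3 | h3 | ⟨⟨p, h3, h4, h5⟩, h6⟩ | ⟨_, h3, h4⟩
  · exact absurd h3 hno
  · exact absurd hv h3
  · by_cases e : p = o
    swap
    · exact Or.inl ⟨⟨p, mem_grow.2 (Or.inl h3), by simp [St.grow, e, h4], h5⟩, h6⟩
    subst e
    have hp : ¬ Pend W (s.grow Q p w) a.owner := by
      rintro ⟨p', _, h7, h8⟩
      rw [h5] at h8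
      obtain rfl : p = p' := by simpa using h8
      exact h7 (mem_insert_self _ _)
    refine Or.inr ⟨hv, hp, man_of_PF hC h2 ha hF h6 (cc_dep hW hwf hv hp) ?_ ?_⟩
    · intro _ b l hgv
      rw [h5, cc_rn, if_pos (mem_grow.2 (Or.inl h3))] at hgv
      have : (s.grow Q p w).ch p b = w b := by simp [St.grow]
      rw [this] at hgv
      rcases given_child hW (hw b).isch hgv with h7 | rfl
      · exact (hw b).noQ l hgv.1 h7
      · exact nosp b _ _
    · rintro v rfl
      obtain rfl : v = W.rn p := by simpa [Ax.owner] using h5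
      have : dep (some (W.rn p)) = S.L + 1 := ha
      rw [dep_rn] at this
      omega
  · obtain ⟨e1, e2⟩ := same _ hv h3 hw1
    refine Or.inr ⟨hv, e2, ?_⟩
    rcases a with u | ⟨u, b⟩ | ⟨u, b, x, d⟩ | ⟨u, b, x, d⟩
    · obtain ⟨l, h5, h6⟩ := h4
      rcases pool_cases hv with ⟨p, rfl⟩ | ⟨p, d, rfl⟩
      · refine ⟨l, ?_, h6⟩
        rcases h5 with ⟨h5, j, h7, h8, h9⟩ | h5
        · exact Or.inl ⟨mem_grow.2 (Or.inl h5), j, h7, h8, grow_closed ho hw h9⟩
        · refine Or.inr ⟨fun h7 => ?_, h5.2⟩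
          obtain ⟨b', rfl⟩ := (mem_grow.1 h7).resolve_left h5.1
          exact hw1 b' rfl
      · rcases h5 with h5 | h5
        · exact ⟨l, Or.inl ⟨mem_grow.2 (Or.inl h5.1), h5.2⟩, h6⟩
        · by_cases h7 : p ∈ (s.grow Q o w).R
          · obtain ⟨b', rfl⟩ := (mem_grow.1 h7).resolve_left h5.1
            exact ⟨_, Or.inl ⟨h7, rfl⟩, leaf_mem hC h2 ha hs hno (memI_fol.2 (Or.inr rfl))
              (nosp b' _ _)⟩
          · exact ⟨l, Or.inr ⟨h7, h5.2⟩, h6⟩
    all_goals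
      have e3 := e1 b
      simp only [Ax.owner] at e3
      simp only [Wit, e3] at h4 ⊢
      exact h4

end internal

theorem owner_unique {v v' : Option (Node P)} {l : Lit P} (h : isG v l ∨ isE v l)
    (h' : isG v' l ∨ isE v' l) : v = v' := by
  rcases h with ⟨u, i, rfl, rfl⟩ | ⟨b, w, h⟩ <;> rcases h' with ⟨u', i', rfl, h'⟩ | ⟨b', w', h'⟩
  · simp at h'; rw [h'.1]
  · simp at h'
  · subst h'; simp at h
  · rcases h with h | ⟨d, h⟩ <;> rw [h] at h' <;> simp at h' <;> exact h'.1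

/-- Before a query the adversary makes the queried literal free. -/
theorem exists_free (hW : W.Fine) (hf : Fit S k) (h : Inv W k s M) (hg : Good W k M) (l : Lit P) :
    ∃ s', Inv W k s' M ∧ Free W s' l := by
  obtain ⟨Q, J, hc⟩ := hg.1 h.j1
  obtain ⟨s1, h1, hcl⟩ := cleanup hW h hc
  by_cases hfr : Free W s1 l
  · exact ⟨s1, h1, hfr⟩
  unfold Free at hfr
  push Not at hfr
  obtain ⟨v, hv, o, ho, hna, rfl⟩ := hfr
  have fin : ∀ s2 : St P, o ∈ s2.Act → Free W s2 l := by
    rintro s2 h2 v' hv' ⟨o', _, h3, rfl⟩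
    obtain rfl : o = o' := by simpa using owner_unique hv hv'
    exact h3 h2
  by_cases hd : o.d.val < S.L
  · choose w hw using exists_child hf hc hcl hd
    exact ⟨_, grow_inv hW h1 hc hcl hg.2 ho hna hd hw, fin _ (mem_insert_self _ _)⟩
  · have := o.d.isLt
    exact ⟨_, act_leaf hf h1 ho (by omega), fin _ (mem_insert_self _ _)⟩

theorem two_le_cl (hW : W.Fine) {a : Ax P} (ha : a.valid) : 2 ≤ a.cl.card := by
  have hn := hW.nG
  rcases ho : a.owner with _ | v
  swap
  · have : AllG v a.cl := fun i => guard_mem ho i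
    have := this.card; omega
  rcases a with u | ⟨u, b⟩ | ⟨u, b, x, d⟩ | ⟨u, b, x, d⟩ <;> simp only [Ax.owner] at ho
  · cases ho
  · subst ho
    refine one_lt_card.2 ⟨(.edge none b (W.rn W.p0), true), mem_cl.2 (Or.inr ⟨_, ?_, rfl⟩),
      (.edge none b (W.node (.fol W.p0 W.p0.d)), true), mem_cl.2 (Or.inr ⟨_, ?_, rfl⟩), by simp⟩
    · rw [dep_rn, hW.d0]; rfl
    · rw [dep_fol, hW.d0]; rfl
  · exact one_lt_card.2 ⟨_, mem_cl.2 (Or.inr (Or.inl rfl)), _, mem_cl.2 (Or.inr (Or.inr rfl)),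
      by simp⟩
  · refine one_lt_card.2 ⟨_, mem_cl.2 (Or.inr (Or.inl rfl)), _, mem_cl.2 (Or.inr (Or.inr rfl)), ?_⟩
    rcases neg_dl x d with ⟨l, _, h2⟩ | ⟨l, _, h2⟩ <;> simp [h2, il]

theorem exists_init (hW : W.Fine) (k : Cst) : ∃ s, Inv W k s (Sig P) := by
  let s : St P := ⟨{W.p0}, ∅, fun o _ => o, ∅, fun _ _ => ∅⟩
  have hwf : WF W s k.c := by
    refine ⟨mem_singleton_self _, empty_subset _, ?_, ?_, ?_, ?_, ?_, ?_, ?_⟩ <;>
      simp [s, Forced]
  refine ⟨s, hwf, ?_, ?_, ?_⟩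
  · intro C hC
    obtain ⟨a, ha, rfl⟩ := mem_Sig.1 hC
    refine Or.inr ⟨two_le_cl hW ha, a, ha, subset_rfl, fun l h1 h2 => absurd h1 h2, ?_⟩
    by_cases hv : W.poolO a.owner
    swap
    · exact Or.inr (Or.inl hv)
    by_cases hp : Pend W s a.owner
    · exact Or.inr (Or.inr (Or.inl ⟨hp, Or.inl rfl⟩))
    refine Or.inr (Or.inr (Or.inr ⟨hv, hp, ?_⟩))
    rcases a with u | ⟨u, b⟩ | ⟨u, b, w, d⟩ | ⟨u, b, w, d⟩
    · rcases pool_cases hv with ⟨p, rfl⟩ | ⟨p, d, rfl⟩
      · exact ⟨_, Or.inr ⟨fun h => hp ⟨p, h, notMem_empty _, rfl⟩, rfl⟩,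
          il_mem_leaf.2 (memI_xi p)⟩
      · by_cases h : p ∈ s.R
        · exact ⟨_, Or.inl ⟨h, rfl⟩, il_mem_leaf.2 (memI_fol.2 (Or.inr rfl))⟩
        · exact ⟨_, Or.inr ⟨h, rfl⟩, il_mem_leaf.2 (memI_fol.2 (Or.inl rfl))⟩
    · exact mem_cl.2 (Or.inr ⟨_, cc_dep hW hwf hv hp ha b, rfl⟩)
    · by_cases e : w = cc W s u b
      · exact Or.inl ⟨e, mem_cl.2 (Or.inr (Or.inr rfl))⟩
      · exact Or.inr ⟨e, mem_cl.2 (Or.inr (Or.inl rfl))⟩
    · by_cases e : w = cc W s u b
      · exact Or.inl ⟨e, mem_cl.2 (Or.inr (Or.inr rfl))⟩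
      · exact Or.inr ⟨e, mem_cl.2 (Or.inr (Or.inl rfl))⟩
  · intro C hC ho
    obtain ⟨a, ha, rfl⟩ := mem_Sig.1 hC
    obtain ⟨v, rfl⟩ := leaf_of_orph subset_rfl ho
    have := hW.nG
    exact absurd ho (not_orph_of_guard (guard_mem rfl ⟨0, by omega⟩))
  · intro o ho u _ C _ _
    obtain rfl := mem_singleton.1 ho
    refine Or.inr ⟨fun _ => ∅, fun _ => ∅, by simp, by simp, by simp, ?_, by simp⟩
    intro i hi j hj
    rw [hW.d0] at hi
    exact absurd (lt_of_lt_of_le hj hi) (by simp)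

/-- If all the lines are good there is no refutation. -/
theorem no_refutation (hW : W.Fine) (hf : Fit S k) {Pf : List (Finset (Finset (Lit P)))}
    (hPf : IsGCNFRefutation Pf (Sig P)) (hg : ∀ M ∈ Pf, Good W k M) : False := by
  have key : ∀ i (hi : i < Pf.length) (s : St P), ¬ Inv W k s Pf[i] := by
    intro i
    induction i using Nat.strong_induction_on with
    | _ i ih =>
      intro hi s h
      have prev : ∀ Γ ∈ Pf.take i, ∀ s, ¬ Inv W k s Γ := by
        intro Γ hΓ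
        obtain ⟨j, hj, rfl⟩ := List.mem_iff_getElem.1 hΓ
        have hj' : j < i ∧ j < Pf.length := by simpa using hj
        rw [List.getElem_take]
        exact ih j hj'.1 hj'.2
      rcases hPf.1 i hi with ⟨p, e⟩ | ⟨Γ, hΓ, Δ, e⟩ | ⟨Γ, Pi, Cs, l, h1, h2, e⟩
      · have unit : ∀ l, {l} ∈ Pf[i] → T W s l := by
          intro l hl
          rcases h.cls _ hl with ⟨t, h1, h2⟩ | h1
          · rw [singleton_inj.1 h1]; exact h2.1
          · have := h1.1; simp at this
        exact T_cons h.wf (unit (p, true) (by simp [e])) (unit (p, false) (by simp [e]))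
      · exact prev Γ hΓ s (h.mono (by rw [e]; exact subset_union_left))
      · obtain ⟨s', h3, h4⟩ := exists_free hW hf h (hg _ (List.getElem_mem hi)) l
        by_cases hT : T W s' l
        · refine prev _ h2 _ ((answer_true hW h3 h4 hT).mono (insert_subset_insert _ ?_))
          rw [e]; exact subset_union_right.trans subset_union_left
        · refine prev _ h1 _ ((answer_false hW h3 h4 hT (Cs := Cs) ?_).mono
            (union_subset_union ?_ subset_rfl))
          · intro C hC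
            rw [e]; exact mem_union_right _ (mem_image_of_mem _ hC)
          · rw [e]; exact subset_union_left.trans subset_union_left
  obtain ⟨s, hs⟩ := exists_init hW k
  have h2 := hPf.2
  rw [List.getLast?_eq_getElem?] at h2
  obtain ⟨h3, h4⟩ := List.getElem?_eq_some_iff.1 h2
  exact key _ h3 s (h4 ▸ hs)

end Pool.Agent.Lib.MP_a300b0_lc
end

-- part Pool.Agent.Lib.MP_a300b0_lc.Det
section

/-! Deterministic part of the proof that lines are good. -/

namespace Pool.Agent.Lib.MP_a300b0_lc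

open Finset

variable {S : Shape} {P : Par S} {W : World P} {k : Cst}
variable {M : Finset (Finset (Lit P))} {Q : Finset (Node P)}

theorem J1.big {C : Finset (Lit P)} (h : J1 W C) (h2 : 2 ≤ C.card) :
    ∃ a : Ax P, a.valid ∧ C ⊆ a.cl ∧ ∀ l ∈ a.cl, l ∉ C → W.F l := by
  rcases h with ⟨l, rfl, _⟩ | h
  · simp at h2
  · exact h.2

theorem J1.unit {l : Lit P} (h : J1 W {l}) : W.F (neg l) := by
  rcases h with ⟨t, h1, h2⟩ | h
  · rw [singleton_inj.1 h1]; exact h2
  · have := h.1; simp at this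

theorem FI_of_Ycl (hJ : ∀ C ∈ M, J1 W C) {l : IL P} (h : Ycl M l) : W.FI l := by
  rcases h with h | ⟨C, hC, h2, v, i, h3, h4, h5, h6⟩ | ⟨C, hC, h2, v, b, w, h3, h4⟩
  · simpa using (hJ _ h).unit
  · obtain ⟨a, ha, hs, hF⟩ := (hJ C hC).big h2
    obtain rfl := eq_leaf ha (owner_of_isG (hs h4) ⟨v, i, rfl, rfl⟩) h3
    exact hF _ (il_mem_leaf.2 h5) h6
  · obtain ⟨a, ha, hs, hF⟩ := (hJ C hC).big h2
    obtain rfl := eq_give (hs h3)
    exact hF (il l) (mem_cl.2 (Or.inr (Or.inr (by simp [dl])))) h4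

theorem orph_pool (hW : W.Fine) {C : Finset (Lit P)} (hJ : J1 W C) (ho : Orph C) :
    ∃ v, W.pool v ∧ ∀ l, il l ∈ C → memI v l := by
  obtain ⟨a, ha, hs, hF⟩ := hJ.big ho.1
  obtain ⟨v, rfl⟩ := leaf_of_orph hs ho
  refine ⟨v, ?_, fun l hl => il_mem_leaf.1 (hs hl)⟩
  by_contra hn
  obtain ⟨u, i, h, _⟩ := nonpool_guard hW hF hn
  exact not_orph_of_guard h ho

theorem touch_bit {v : Node P} {C : Finset (Lit P)} (ht : Touch v C) :
    ∃ t : Option (Fin P.nG) × Bool, ∀ W : World P, ¬ W.pool v → J1 W C → W.γ v t.1 = t.2 := by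
  classical
  have hFE : ∀ (W : World P) b, ¬ W.pool v → W.FE (some v) b → W.γ v none = !b := by
    intro W b hn h
    have := h.resolve_left hn
    cases b <;> simpa using this
  rcases ht with ⟨l, rfl, b, w, h⟩ | ⟨h2, hown, hPF, hG⟩
  · refine ⟨(none, l.2), fun W hn hJ => ?_⟩
    have h1 := hJ.unit
    rcases l with ⟨x, pol⟩
    rcases h with h | ⟨d, h⟩ <;> simp only at h <;> subst h <;> simpa using hFE W _ hn h1
  by_cases hA : AllG v C
  swap
  · obtain ⟨i, hi⟩ := not_forall.1 hA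
    refine ⟨(some i, true), fun W hn hJ => ?_⟩
    obtain ⟨a, ha, hs, hF⟩ := hJ.big h2
    rcases hF _ (guard_mem (owner_of_owned hs hown) i) hi with h | h
    · exact absurd h.1 hn
    · simpa using h.2
  refine ⟨(none, decide (¬ ∃ u b w pol, (Var.edge u b w, pol) ∈ C)), fun W hn hJ => ?_⟩
  obtain ⟨a, ha, hs, hF⟩ := hJ.big h2
  have ho := owner_of_owned hs hown
  have hPF' : ¬ PF a C := fun h => hPF ⟨a, ha, ho, hs, h⟩
  have hG' : ∀ l, isG (some v) l → l ∈ C := by
    rintro l ⟨u, i, e, rfl⟩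
    obtain rfl : v = u := by simpa using e
    exact hA i
  obtain ⟨l1, h11, h12⟩ : ∃ l ∈ C, a.body l := by
    by_contra hc
    refine hG (fun l => ⟨fun hl => ?_, hG' l⟩)
    rcases mem_cl.1 (hs hl) with h | h
    · exact ho ▸ h
    · exact absurd ⟨l, hl, h⟩ hc
  obtain ⟨l2, h21, h22⟩ : ∃ l, l ∉ C ∧ a.body l := by
    by_contra hc
    refine hPF' (Or.inl (Subset.antisymm hs (fun l hl => ?_)))
    by_contra hl2
    rcases mem_cl.1 hl with h | h
    · exact hl2 (hG' l (ho ▸ h))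
    · exact hc ⟨l, hl2, h⟩
  have hF2 := hF l2 (mem_cl.2 (Or.inr h22)) h21
  rcases a with u | ⟨u, b⟩ | ⟨u, b, w, d⟩ | ⟨u, b, w, d⟩ <;> simp only [Ax.owner] at ho
  · obtain rfl : u = v := by simpa using ho
    exact absurd (Or.inr (Or.inr ⟨u, rfl, hA⟩)) hPF'
  · subst ho
    obtain ⟨w1, _, rfl⟩ := h12
    obtain ⟨w2, _, rfl⟩ := h22
    rw [hFE W _ hn hF2]
    simp only [Bool.not_true, false_eq_decide_iff, not_not]
    exact ⟨_, _, _, _, h11⟩
  · subst ho
    rcases h22 with rfl | rfl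
    · rw [hFE W _ hn hF2]
      simp only [Bool.not_false, true_eq_decide_iff]
      rintro ⟨u, b', w', pol, h⟩
      rcases mem_cl.1 (hs h) with ⟨_, _, _, h3⟩ | h3 | h3
      · simp at h3
      · exact h21 (h3 ▸ h)
      · simp at h3
    · rw [hFE W _ hn hF2]
      simp only [Bool.not_true, false_eq_decide_iff, not_not]
      rcases h12 with rfl | rfl
      · exact ⟨_, _, _, _, h11⟩
      · exact absurd h11 h21
  · subst ho
    have hl : (Var.link (some v) b w d, false) ∉ C := by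
      intro hl
      rcases h22 with rfl | rfl
      · exact h21 hl
      · refine hPF' (Or.inr (Or.inl ⟨_, _, _, _, rfl, Subset.antisymm ?_ ?_⟩))
        · intro l hl'
          exact mem_erase.2 ⟨fun e => h21 (e ▸ hl'), hs hl'⟩
        · intro l hl'
          rcases mem_cl.1 (mem_erase.1 hl').2 with h | rfl | h
          · exact hG' l h
          · exact hl
          · exact absurd h (mem_erase.1 hl').1
    rw [hFE W false hn (hF _ (mem_cl.2 (Or.inr (Or.inl rfl))) hl)]
    simp only [Bool.not_false, true_eq_decide_iff]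
    rintro ⟨u, b', w', pol, h⟩
    rcases mem_cl.1 (hs h) with ⟨_, _, _, h3⟩ | h3 | h3
    · simp at h3
    · simp at h3
    · rcases neg_dl w d with ⟨l, _, h4⟩ | ⟨l, _, h4⟩ <;> simp [h4, il] at h3

open Classical in
noncomputable def Heavy (h : ℕ) (Z : Finset (IL P)) : Finset (Node P) :=
  univ.filter (fun v => h ≤ (Iv v ∩ Z).card)

open Classical in
noncomputable def Cont (Z : Finset (IL P)) : Finset (Node P) := univ.filter (fun v => Z ⊆ Iv v)

open Classical in
noncomputable def OI (C : Finset (Lit P)) : Finset (IL P) := univ.filter (fun l => il l ∈ C)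

open Classical in
noncomputable def TouchSet (M : Finset (Finset (Lit P))) : Finset (Node P) :=
  univ.filter (fun v => ∃ C ∈ M, Touch v C)

@[simp] theorem mem_Heavy {h : ℕ} {Z : Finset (IL P)} {v : Node P} :
    v ∈ Heavy h Z ↔ h ≤ (Iv v ∩ Z).card := by simp [Heavy]
@[simp] theorem mem_Cont {Z : Finset (IL P)} {v : Node P} : v ∈ Cont Z ↔ Z ⊆ Iv v := by
  simp [Cont]
@[simp] theorem mem_OI {C : Finset (Lit P)} {l : IL P} : l ∈ OI C ↔ il l ∈ C := by simp [OI]
@[simp] theorem mem_TouchSet {v : Node P} : v ∈ TouchSet M ↔ ∃ C ∈ M, Touch v C := by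
  simp [TouchSet]

theorem card_Heavy {h Nh x : ℕ} (hN : ∀ Z : Finset (IL P), h ≤ Z.card → (Cont Z).card ≤ Nh)
    {Z : Finset (IL P)} (hZ : Z.card ≤ x) : (Heavy h Z).card ≤ x ^ h * Nh := by
  have hsub : Heavy h Z ⊆ (powersetCard h Z).biUnion Cont := by
    intro v hv
    obtain ⟨Z0, h1, h2⟩ := exists_subset_card_eq (mem_Heavy.1 hv)
    exact mem_biUnion.2 ⟨Z0, mem_powersetCard.2 ⟨h1.trans inter_subset_right, h2⟩,
      mem_Cont.2 (h1.trans inter_subset_left)⟩
  refine (card_le_card hsub).trans (card_biUnion_le.trans ?_)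
  refine (sum_le_card_nsmul _ _ Nh (fun Z0 h0 => hN Z0 (mem_powersetCard.1 h0).2.ge)).trans ?_
  rw [card_powersetCard, smul_eq_mul]
  exact Nat.mul_le_mul_right _ ((Nat.choose_le_pow _ _).trans (Nat.pow_le_pow_left hZ _))

theorem not_heavy {h x : ℕ} (h1 : 1 ≤ h) {Y : Finset (IL P)} {q : Node P} (hq : q ∈ Q) :
    q ∉ Heavy h (firstN x (Y \ IQ Q)) := by
  intro hv
  obtain ⟨l, hl⟩ := card_pos.1 (lt_of_lt_of_le h1 (mem_Heavy.1 hv))
  exact (mem_sdiff.1 (firstN_subset _ _ (mem_inter.1 hl).2)).2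
    (mem_IQ.2 ⟨q, hq, mem_Iv.1 (mem_inter.1 hl).1⟩)

def BigO (k : Cst) (M : Finset (Finset (Lit P))) (Q : Finset (Node P)) (Z : Finset (IL P)) : Prop :=
  (∃ C ∈ M, Orph C ∧ Z = OI C) ∧ k.h ≤ Z.card ∧ ∀ q ∈ Q, ¬ Z ⊆ Iv q

open Classical in
/-- The nodes suggested by a line. -/
noncomputable def FM (k : Cst) (M : Finset (Finset (Lit P))) (Q : Finset (Node P)) :
    Finset (Node P) :=
  (if (TouchSet M).card ≤ k.x then TouchSet M else ∅) ∪ Heavy k.h (firstN k.x (Yv M \ IQ Q)) ∪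
    if h : ∃ Z, BigO k M Q Z then Cont h.choose else ∅

theorem card_FM {Nh : ℕ} (hN : ∀ Z : Finset (IL P), k.h ≤ Z.card → (Cont Z).card ≤ Nh) :
    (FM k M Q).card ≤ k.x + k.x ^ k.h * Nh + Nh := by
  unfold FM
  refine (card_union_le _ _).trans (add_le_add ((card_union_le _ _).trans (add_le_add ?_
    (card_Heavy hN (card_firstN_le _ _)))) ?_)
  · split_ifs with h
    · exact h
    · simp
  · split_ifs with h
    · exact hN _ h.choose_spec.2.1
    · simp

open Classical in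
noncomputable def smallO (k : Cst) (M : Finset (Finset (Lit P))) : Finset (Finset (IL P)) :=
  (M.filter (fun C => Orph C ∧ (OI C).card ≤ k.h)).image OI

theorem smallO_card : ∀ Z ∈ smallO k M, Z.card ≤ k.h := by
  intro Z hZ
  simp only [smallO, mem_image, mem_filter] at hZ
  obtain ⟨C, hC, rfl⟩ := hZ
  exact hC.2.2

noncomputable def UM (k : Cst) (M : Finset (Finset (Lit P))) : Finset (IL P) :=
  (hitting_kernel k.h k.c2 (smallO k M) smallO_card).choose

/-- The items listed by a line. -/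
noncomputable def LM (k : Cst) (M : Finset (Finset (Lit P))) (Q : Finset (Node P)) :
    Finset (Key S × Fin P.nEl) :=
  ((if (Yv M \ IQ Q).card ≤ k.x then Yv M \ IQ Q else ∅) ∪ UM k M).image Prod.fst

theorem card_LM : (LM k M Q).card ≤ k.x + (k.h + 1) ^ k.c2 := by
  refine card_image_le.trans ((card_union_le _ _).trans (add_le_add ?_ ?_))
  · split_ifs with h
    · exact h
    · simp
  · have := (hitting_kernel k.h k.c2 (smallO k M) smallO_card).choose_spec.1
    unfold UM; omega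

/-- `Q` is a small closed set of pool nodes and few listed items are selected. -/
structure Closure (W : World P) (k : Cst) (F : Finset (Node P) → Finset (Node P))
    (Li : Finset (Node P) → Finset (Key S × Fin P.nEl)) (Q : Finset (Node P)) : Prop where
  pool : ∀ v ∈ Q, W.pool v
  card : Q.card ≤ k.c
  closed : ∀ v ∈ F Q, W.pool v → v ∈ Q
  few : ((Li Q).filter (fun t => W.ζ t.1 = t.2)).card < k.c2

def Light (W : World P) (k : Cst) (M : Finset (Finset (Lit P))) (Q : Finset (Node P)) : Prop :=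
  k.x ≤ (Yv M \ IQ Q).card ∧ (∀ v, W.pool v → v ∉ Heavy k.h (firstN k.x (Yv M \ IQ Q))) ∧
    ∀ l ∈ firstN k.x (Yv M \ IQ Q), W.FI l

def Burnt (W : World P) (k : Cst) (M : Finset (Finset (Lit P))) (Q : Finset (Node P))
    (R' : Finset (RP S)) : Prop :=
  (Yv M \ IQ Q).card ≤ k.x ∧ ∀ p ∈ R', W.rn p ∉ Q ∧ ∃ l, memI (W.rn p) l ∧ ¬ W.sel l ∧
    neg l ∈ Yv M \ IQ Q

theorem concl_of (hW : W.Fine) (h1 : 1 ≤ k.h) (hJ : ∀ C ∈ M, J1 W C)
    (hQ : Closure W k (FM k M) (LM k M) Q) (hL : ¬ Light W k M Q)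
    (hT : (TouchSet M).card ≤ k.x) (hB : ∀ R', R'.card = k.r + 1 → ¬ Burnt W k M Q R') :
    ∃ J, Concl W k M Q J := by
  classical
  have hsmall : (Yv M \ IQ Q).card ≤ k.x := by
    by_contra hn
    refine hL ⟨by omega, fun v hv hH => not_heavy h1 (hQ.closed v ?_ hv) hH, fun l hl =>
      FI_of_Ycl hJ (mem_Yv.1 (mem_sdiff.1 (firstN_subset _ _ hl)).1)⟩
    exact mem_union_left _ (mem_union_right _ hH)
  set T := (LM k M Q).filter (fun t => W.ζ t.1 = t.2) with hTd
  have hJm : ∀ l : IL P, l ∈ Yv M \ IQ Q ∨ l ∈ UM k M → W.sel l → l.1 ∈ T := by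
    intro l hl hs
    refine mem_filter.2 ⟨mem_image_of_mem _ ?_, hs.symm⟩
    rw [if_pos hsmall]; exact mem_union.2 hl
  refine ⟨T.image Prod.fst, hQ.pool, hQ.card, card_image_le.trans hQ.few.le, ?_, hsmall, ?_, ?_, ?_⟩
  · intro v hv C hC ht
    refine hQ.closed v (mem_union_left _ (mem_union_left _ ?_)) hv
    rw [if_pos hT]; exact mem_TouchSet.2 ⟨C, hC, ht⟩
  · intro l hY hs
    by_cases h : l ∈ IQ Q
    · exact Or.inr h
    · exact Or.inl (mem_image_of_mem _ (hJm l (Or.inl (mem_sdiff.2 ⟨mem_Yv.2 hY, h⟩)) hs))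
  · intro Λ hs hc hh
    have hbig : ¬ ∃ Z, BigO k M Q Z := by
      intro hZ
      obtain ⟨⟨C, hC, ho, e⟩, _, h3⟩ := hZ.choose_spec
      obtain ⟨v, hv, h4⟩ := orph_pool hW (hJ C hC) ho
      have h5 : hZ.choose ⊆ Iv v := by
        rw [e]; exact fun l hl => mem_Iv.2 (h4 l (mem_OI.1 hl))
      refine h3 v (hQ.closed v (mem_union_right _ ?_) hv) h5
      rw [dif_pos hZ]; exact mem_Cont.2 h5
    rcases (hitting_kernel k.h k.c2 (smallO k M) smallO_card).choose_spec.2 Λ (by
      intro Z hZ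
      simp only [smallO, mem_image, mem_filter] at hZ
      obtain ⟨C, hC, rfl⟩ := hZ
      obtain ⟨l, h2, h3⟩ := hh C hC.1 hC.2.1
      exact ⟨l, mem_OI.2 h3, h2⟩) with hU | hU
    · refine ⟨Λ.filter (fun l => l ∈ UM k M ∨ l ∈ IQ Q), filter_subset _ _, ?_, ?_⟩
      · intro l hl
        exact (mem_filter.1 hl).2.imp (fun h => mem_image_of_mem _
          (hJm l (Or.inr h) (hs l (mem_filter.1 hl).1))) id
      · intro C hC ho
        by_cases hsz : (OI C).card ≤ k.h
        · obtain ⟨l, h2, h3⟩ := hU (OI C) (by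
            simp only [smallO, mem_image, mem_filter]
            exact ⟨C, ⟨hC, ho, hsz⟩, rfl⟩)
          exact ⟨l, mem_filter.2 ⟨(mem_inter.1 h3).1, Or.inl (mem_inter.1 h3).2⟩, mem_OI.1 h2⟩
        · obtain ⟨q, hq, h2⟩ : ∃ q ∈ Q, OI C ⊆ Iv q := by
            by_contra h2
            push Not at h2
            exact hbig ⟨OI C, ⟨C, hC, ho, rfl⟩, by omega, h2⟩
          obtain ⟨l, h3, h4⟩ := hh C hC ho
          exact ⟨l, mem_filter.2 ⟨h3, Or.inr (mem_IQ.2 ⟨q, hq, mem_Iv.1 (h2 (mem_OI.2 h4))⟩)⟩, h4⟩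
    · exfalso
      have h2 : (Λ ∩ UM k M).card ≤ T.card := by
        refine card_le_card_of_injOn Prod.fst (fun l hl => ?_) ?_
        · have hl' := mem_inter.1 (mem_coe.1 hl)
          exact hJm l (Or.inr hl'.2) (hs l hl'.1)
        · intro a ha b hb e
          have ha' := (mem_inter.1 (mem_coe.1 ha)).1
          have hb' := (mem_inter.1 (mem_coe.1 hb)).1
          by_contra hne
          apply hc a ha'
          have : neg a = b := by
            rcases a with ⟨a1, a2⟩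
            rcases b with ⟨b1, b2⟩
            simp only at e
            subst e
            cases a2 <;> cases b2 <;> simp_all
          rw [this]; exact hb'
      have h3 : T.card < k.c2 := hQ.few
      unfold UM at h2
      omega
  · intro R' hR'
    by_contra hn
    obtain ⟨R2, h2, h3⟩ := exists_subset_card_eq (show k.r + 1 ≤ R'.card by omega)
    refine hB R2 h3 ⟨hsmall, fun p hp => ?_⟩
    obtain ⟨h4, l, h5, h6, h7, h8⟩ := hR' p (h2 hp)
    exact ⟨h4, l, h5, h6, mem_sdiff.2 ⟨mem_Yv.2 h7, h8⟩⟩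

/-- The nodes suggested by a clause. -/
noncomputable def FC (k : Cst) (Z : Finset (IL P)) (Q : Finset (Node P)) : Finset (Node P) :=
  Q.powerset.biUnion (fun Q' => Heavy k.h (firstN k.x' (Z \ IQ Q')))

/-- The items listed by a clause. -/
noncomputable def LC (k : Cst) (Z : Finset (IL P)) (Q : Finset (Node P)) :
    Finset (Key S × Fin P.nEl) :=
  (Q.powerset.biUnion (fun Q' => if (Z \ IQ Q').card ≤ k.x' then Z \ IQ Q' else ∅)).image Prod.fst

theorem card_FC {Nh : ℕ} (hN : ∀ Z : Finset (IL P), k.h ≤ Z.card → (Cont Z).card ≤ Nh)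
    {Z : Finset (IL P)} (hQ : Q.card ≤ k.c) : (FC k Z Q).card ≤ 2 ^ k.c * (k.x' ^ k.h * Nh) := by
  refine card_biUnion_le.trans ((sum_le_card_nsmul _ _ _
    (fun Q' _ => card_Heavy hN (card_firstN_le _ _))).trans ?_)
  rw [card_powerset, smul_eq_mul]
  exact Nat.mul_le_mul_right _ (Nat.pow_le_pow_right (by omega) hQ)

theorem card_LC {Z : Finset (IL P)} (hQ : Q.card ≤ k.c) : (LC k Z Q).card ≤ 2 ^ k.c * k.x' := by
  refine card_image_le.trans (card_biUnion_le.trans ((sum_le_card_nsmul _ _ k.x' ?_).trans ?_))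
  · intro Q' _
    split_ifs with h
    · exact h
    · simp
  · rw [card_powerset, smul_eq_mul]
    exact Nat.mul_le_mul_right _ (Nat.pow_le_pow_right (by omega) hQ)

theorem clauseGood_of (h1 : 1 ≤ k.h) {Z : Finset (IL P)}
    (hQ : Closure W k (FC k Z) (LC k Z) Q) : ClauseGood W k Z := by
  classical
  refine ⟨Q, ((LC k Z Q).filter (fun t => W.ζ t.1 = t.2)).image Prod.fst, hQ.card,
    card_image_le.trans hQ.few.le, fun z hz hs => ?_⟩
  set Q' := Q.filter (fun q => ¬ memI q z) with hQ'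
  have hp : Q' ∈ Q.powerset := mem_powerset.2 (filter_subset _ _)
  by_cases hsz : (Z \ IQ Q').card ≤ k.x'
  · left
    refine mem_image_of_mem _ (mem_filter.2 ⟨mem_image_of_mem _ (mem_biUnion.2 ⟨Q', hp, ?_⟩),
      hs.symm⟩)
    rw [if_pos hsz]
    refine mem_sdiff.2 ⟨hz, fun h => ?_⟩
    obtain ⟨q, hq, h2⟩ := mem_IQ.1 h
    exact (mem_filter.1 hq).2 h2
  · right
    refine ⟨Q.filter (fun q => memI q z), filter_subset _ _, fun v hv => (mem_filter.1 hv).2,
      firstN k.x' (Z \ IQ Q'), (firstN_subset _ _).trans sdiff_subset, card_firstN (by omega),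
      fun v hv hH => ?_⟩
    have hH' := mem_Heavy.2 hH
    have hvQ := hQ.closed v (mem_biUnion.2 ⟨Q', hp, hH'⟩) hv
    refine mem_filter.2 ⟨hvQ, ?_⟩
    by_contra hn
    exact not_heavy h1 (mem_filter.2 ⟨hvQ, hn⟩) hH'

end Pool.Agent.Lib.MP_a300b0_lc
end
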