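import Pool.Agent.Lib.MP_a300b0_lc.Defs

/-!
Cut-free LK in DAG (sequence) form. A sequent is a pair of lists of formulas. Weakening,
contraction and exchange are built into every rule (the premises are required to be included, as
sets of formulas, in the expected ones), so that every cut-free LK proof, with additive or with
multiplicative rules, is a proof in this sense line by line.
-/

namespace Pool.Agent.Lib.MP_a300b0_lc

/-- Propositional formulas. -/
inductive Fm (V : Type) where
  | atom (p : V)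
  | not (A : Fm V)
  | or (A B : Fm V)
  | and (A B : Fm V)
  | imp (A B : Fm V)

variable {V : Type}

/-- Some earlier sequent is included in the sequent `Γ ⊢ Δ`. -/
def Prem (prev : List (List (Fm V) × List (Fm V))) (Γ Δ : List (Fm V)) : Prop :=
  ∃ s ∈ prev, s.1 ⊆ Γ ∧ s.2 ⊆ Δ

/-- The sequent `Γ ⊢ Δ` is an axiom or follows from earlier sequents by a rule other than cut. -/
def LKStep (prev : List (List (Fm V) × List (Fm V))) (Γ Δ : List (Fm V)) : Prop :=
  (∃ A, A ∈ Γ ∧ A ∈ Δ) ∨ Prem prev Γ Δ ∨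
  (∃ A, Fm.not A ∈ Γ ∧ Prem prev Γ (A :: Δ)) ∨
  (∃ A, Fm.not A ∈ Δ ∧ Prem prev (A :: Γ) Δ) ∨
  (∃ A B, Fm.or A B ∈ Γ ∧ Prem prev (A :: Γ) Δ ∧ Prem prev (B :: Γ) Δ) ∨
  (∃ A B, Fm.or A B ∈ Δ ∧ Prem prev Γ (A :: B :: Δ)) ∨
  (∃ A B, Fm.and A B ∈ Γ ∧ Prem prev (A :: B :: Γ) Δ) ∨
  (∃ A B, Fm.and A B ∈ Δ ∧ Prem prev Γ (A :: Δ) ∧ Prem prev Γ (B :: Δ)) ∨
  (∃ A B, Fm.imp A B ∈ Γ ∧ Prem prev Γ (A :: Δ) ∧ Prem prev (B :: Γ) Δ) ∨
  (∃ A B, Fm.imp A B ∈ Δ ∧ Prem prev (A :: Γ) (B :: Δ))

/-- A cut-free LK proof in DAG form of the sequent `Γ ⊢` (empty succedent). -/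
def IsLKRefutation (P : List (List (Fm V) × List (Fm V))) (Γ : List (Fm V)) : Prop :=
  (∀ (i : ℕ) (h : i < P.length), LKStep (P.take i) P[i].1 P[i].2) ∧ P.getLast? = some (Γ, [])

/-- Number of occurrences of variables in a formula. -/
def Fm.atoms : Fm V → ℕ
  | .atom _ => 1
  | .not A => A.atoms
  | .or A B => A.atoms + B.atoms
  | .and A B => A.atoms + B.atoms
  | .imp A B => A.atoms + B.atoms

/-- Number of occurrences of variables in a sequence of sequents. -/
def atomCount (P : List (List (Fm V) × List (Fm V))) : ℕ :=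
  (P.map fun s => (s.1.map Fm.atoms).sum + (s.2.map Fm.atoms).sum).sum

/-- The formula of a literal. -/
def litFm : V × Bool → Fm V
  | (p, true) => .atom p
  | (p, false) => .not (.atom p)

variable [DecidableEq V]

/-- `A` is a disjunction of the literals of the clause `C`, in any order, bracketed so that each
disjunction has a literal as one of its two arguments (for example nested to the left or to the
right). -/
inductive IsClauseFm : Fm V → Finset (V × Bool) → Prop
  | lit (l : V × Bool) : IsClauseFm (litFm l) {l}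
  | left (l : V × Bool) {A : Fm V} {C : Finset (V × Bool)} :
      IsClauseFm A C → IsClauseFm (.or (litFm l) A) (insert l C)
  | right (l : V × Bool) {A : Fm V} {C : Finset (V × Bool)} :
      IsClauseFm A C → IsClauseFm (.or A (litFm l)) (insert l C)

/-- `A` is a conjunction, with any bracketing, of formulas of the clauses of `T`. -/
inductive IsCNF : Fm V → Finset (Finset (V × Bool)) → Prop
  | clause {A : Fm V} {C : Finset (V × Bool)} : IsClauseFm A C → IsCNF A {C}
  | and {A B : Fm V} {T U : Finset (Finset (V × Bool))} :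
      IsCNF A T → IsCNF B U → IsCNF (.and A B) (T ∪ U)

/-- The list `Γ` consists of CNF formulas whose clauses are exactly the clauses of `S`. -/
def Represents (Γ : List (Fm V)) (S : Finset (Finset (V × Bool))) : Prop :=
  (∀ A ∈ Γ, ∃ T, IsCNF A T ∧ T ⊆ S) ∧ ∀ C ∈ S, ∃ A ∈ Γ, ∃ T, IsCNF A T ∧ C ∈ T

end Pool.Agent.Lib.MP_a300b0_lc
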