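import Pool.Agent.Lib.MP_a300b0_lc.Final
import Pool.Agent.Lib.MP_a300b0_lc.LKDefs

/-! GCNF simulates cut-free LK on clauses with linear bracketing; completeness of cut-free LK. -/

namespace Pool.Agent.Lib.MP_a300b0_lc

open Finset

variable {V : Type}

theorem Fm.one_le_atoms (A : Fm V) : 1 ≤ A.atoms := by
  induction A <;> simp only [Fm.atoms] <;> omega

/-! ### Completeness -/

def LKValid (P : List (List (Fm V) × List (Fm V))) : Prop :=
  ∀ (i : ℕ) (h : i < P.length), LKStep (P.take i) P[i].1 P[i].2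

theorem Prem.mono {A B : List (List (Fm V) × List (Fm V))} {Γ Δ : List (Fm V)} (h : Prem A Γ Δ)
    (hAB : A ⊆ B) : Prem B Γ Δ := by
  obtain ⟨s, h1, h2⟩ := h
  exact ⟨s, hAB h1, h2⟩

theorem Prem.weak {A : List (List (Fm V) × List (Fm V))} {Γ Δ Γ' Δ' : List (Fm V)}
    (h : Prem A Γ Δ) (h1 : Γ ⊆ Γ') (h2 : Δ ⊆ Δ') : Prem A Γ' Δ' := by
  obtain ⟨s, h3, h4, h5⟩ := h
  exact ⟨s, h3, fun _ h => h1 (h4 h), fun _ h => h2 (h5 h)⟩

theorem LKStep.mono {A B : List (List (Fm V) × List (Fm V))} {Γ Δ : List (Fm V)}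
    (h : LKStep A Γ Δ) (hAB : A ⊆ B) : LKStep B Γ Δ := by
  have m : ∀ {Γ Δ}, Prem A Γ Δ → Prem B Γ Δ := fun h => h.mono hAB
  unfold LKStep at h ⊢
  grind

theorem LKValid.append {A B : List (List (Fm V) × List (Fm V))} (hA : LKValid A)
    (hB : ∀ (i : ℕ) (h : i < B.length), LKStep (A ++ B.take i) B[i].1 B[i].2) :
    LKValid (A ++ B) := by
  intro i hi
  by_cases hlt : i < A.length
  · rw [List.getElem_append_left hlt, List.take_append_of_le_length hlt.le]
    exact hA i hlt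
  · rw [List.getElem_append_right (by omega), List.take_append, List.take_of_length_le (by omega)]
    exact hB _ _

theorem LKValid.snoc {A : List (List (Fm V) × List (Fm V))} (hA : LKValid A) {Γ Δ : List (Fm V)}
    (h : LKStep A Γ Δ) : LKValid (A ++ [(Γ, Δ)]) := by
  refine hA.append (fun i hi => ?_)
  obtain rfl : i = 0 := by simpa using hi
  simpa using h

def Der (Γ Δ : List (Fm V)) : Prop := ∃ P, LKValid P ∧ Prem P Γ Δ

theorem der_two {Γ Δ Γ1 Δ1 Γ2 Δ2 : List (Fm V)} (h1 : Der Γ1 Δ1) (h2 : Der Γ2 Δ2)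
    (h : ∀ P, Prem P Γ1 Δ1 → Prem P Γ2 Δ2 → LKStep P Γ Δ) : Der Γ Δ := by
  obtain ⟨P1, a1, a2⟩ := h1
  obtain ⟨P2, b1, b2⟩ := h2
  have hv := a1.append (B := P2) (fun i hi => (b1 i hi).mono (List.subset_append_right _ _))
  exact ⟨_, hv.snoc (h _ (a2.mono (List.subset_append_left _ _))
    (b2.mono (List.subset_append_right _ _))), (Γ, Δ), by simp, fun _ h => h, fun _ h => h⟩

def Fm.ev (α : V → Prop) : Fm V → Prop
  | .atom p => α p
  | .not A => ¬ A.ev α
  | .or A B => A.ev α ∨ B.ev α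
  | .and A B => A.ev α ∧ B.ev α
  | .imp A B => A.ev α → B.ev α

def Fm.cx : Fm V → ℕ
  | .atom _ => 0
  | .not A => A.cx + 1
  | .or A B => A.cx + B.cx + 1
  | .and A B => A.cx + B.cx + 1
  | .imp A B => A.cx + B.cx + 1

theorem lk_complete : ∀ (n : ℕ) (Γ Δ : List (Fm V)), (Γ.map Fm.cx).sum + (Δ.map Fm.cx).sum ≤ n →
    (∀ α, (∀ A ∈ Γ, A.ev α) → ∃ B ∈ Δ, B.ev α) → Der Γ Δ := by
  intro n
  induction n using Nat.strong_induction_on with
  | _ n ih =>
  intro Γ Δ hn hv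
  by_cases h1 : ∃ F ∈ Γ, F.cx ≠ 0
  · obtain ⟨F, hF, h0⟩ := h1
    obtain ⟨Γ1, Γ2, rfl⟩ := List.append_of_mem hF
    have key : ∀ X Y : List (Fm V), (X.map Fm.cx).sum + (Y.map Fm.cx).sum < F.cx →
        (∀ α, (∀ A ∈ X, A.ev α) → (∀ A ∈ Y, ¬ A.ev α) → F.ev α) →
        Der (X ++ (Γ1 ++ F :: Γ2)) (Y ++ Δ) := by
      intro X Y h2 h3
      obtain ⟨P, a1, a2⟩ := ih _ (show _ < n by simp at hn ⊢; omega) (X ++ (Γ1 ++ Γ2)) (Y ++ Δ)
        le_rfl (by
          intro α hα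
          by_contra hc
          push Not at hc
          obtain ⟨B, h4, h5⟩ := hv α (by
            intro A hA
            simp only [List.mem_append, List.mem_cons] at hA
            rcases hA with hA | rfl | hA
            · exact hα A (by simp [hA])
            · exact h3 α (fun A hA => hα A (by simp [hA])) (fun A hA => hc A (by simp [hA]))
            · exact hα A (by simp [hA]))
          exact hc B (by simp [h4]) h5)
      exact ⟨P, a1, a2.weak (by intro x; simp; tauto) (fun _ h => h)⟩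
    rcases F with p | A | ⟨A, B⟩ | ⟨A, B⟩ | ⟨A, B⟩
    · exact absurd rfl h0
    · have := key [] [A] (by simp [Fm.cx]) (by simp only [Fm.ev]; grind)
      exact der_two this this (fun P h _ => Or.inr (Or.inr (Or.inl ⟨A, hF, h⟩)))
    · exact der_two (key [A] [] (by simp only [Fm.cx, List.map, List.sum_cons, List.sum_nil]; omega) (by simp only [Fm.ev]; grind))
        (key [B] [] (by simp only [Fm.cx, List.map, List.sum_cons, List.sum_nil]; omega) (by simp only [Fm.ev]; grind))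
        (fun P h h' => Or.inr (Or.inr (Or.inr (Or.inr (Or.inl ⟨A, B, hF, h, h'⟩)))))
    · have := key [A, B] [] (by simp [Fm.cx]) (by simp only [Fm.ev]; grind)
      exact der_two this this (fun P h _ =>
        Or.inr (Or.inr (Or.inr (Or.inr (Or.inr (Or.inr (Or.inl ⟨A, B, hF, h⟩)))))))
    · exact der_two (key [] [A] (by simp only [Fm.cx, List.map, List.sum_cons, List.sum_nil]; omega) (by simp only [Fm.ev]; grind))
        (key [B] [] (by simp only [Fm.cx, List.map, List.sum_cons, List.sum_nil]; omega) (by simp only [Fm.ev]; grind))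
        (fun P h h' => Or.inr (Or.inr (Or.inr (Or.inr (Or.inr (Or.inr (Or.inr (Or.inr
          (Or.inl ⟨A, B, hF, h, h'⟩)))))))))
  by_cases h2 : ∃ F ∈ Δ, F.cx ≠ 0
  · obtain ⟨F, hF, h0⟩ := h2
    obtain ⟨Δ1, Δ2, rfl⟩ := List.append_of_mem hF
    have key : ∀ X Y : List (Fm V), (X.map Fm.cx).sum + (Y.map Fm.cx).sum < F.cx →
        (∀ α, (∀ A ∈ X, A.ev α) → (∀ A ∈ Y, ¬ A.ev α) → ¬ F.ev α) →
        Der (X ++ Γ) (Y ++ (Δ1 ++ F :: Δ2)) := by
      intro X Y h2 h3
      obtain ⟨P, a1, a2⟩ := ih _ (show _ < n by simp at hn ⊢; omega) (X ++ Γ) (Y ++ (Δ1 ++ Δ2))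
        le_rfl (by
          intro α hα
          by_contra hc
          push Not at hc
          obtain ⟨B, h4, h5⟩ := hv α (fun A hA => hα A (by simp [hA]))
          simp only [List.mem_append, List.mem_cons] at h4
          rcases h4 with h4 | rfl | h4
          · exact hc B (by simp [h4]) h5
          · exact h3 α (fun A hA => hα A (by simp [hA])) (fun A hA => hc A (by simp [hA])) h5
          · exact hc B (by simp [h4]) h5)
      exact ⟨P, a1, a2.weak (fun _ h => h) (by intro x; simp; tauto)⟩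
    rcases F with p | A | ⟨A, B⟩ | ⟨A, B⟩ | ⟨A, B⟩
    · exact absurd rfl h0
    · have := key [A] [] (by simp [Fm.cx]) (by simp only [Fm.ev]; grind)
      exact der_two this this (fun P h _ => Or.inr (Or.inr (Or.inr (Or.inl ⟨A, hF, h⟩))))
    · have := key [] [A, B] (by simp [Fm.cx]) (by simp only [Fm.ev]; grind)
      exact der_two this this (fun P h _ =>
        Or.inr (Or.inr (Or.inr (Or.inr (Or.inr (Or.inl ⟨A, B, hF, h⟩))))))
    · exact der_two (key [] [A] (by simp only [Fm.cx, List.map, List.sum_cons, List.sum_nil]; omega) (by simp only [Fm.ev]; grind))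
        (key [] [B] (by simp only [Fm.cx, List.map, List.sum_cons, List.sum_nil]; omega) (by simp only [Fm.ev]; grind))
        (fun P h h' => Or.inr (Or.inr (Or.inr (Or.inr (Or.inr (Or.inr (Or.inr
          (Or.inl ⟨A, B, hF, h, h'⟩))))))))
    · have := key [A] [B] (by simp [Fm.cx]) (by simp only [Fm.ev]; grind)
      exact der_two this this (fun P h _ => Or.inr (Or.inr (Or.inr (Or.inr (Or.inr (Or.inr
        (Or.inr (Or.inr (Or.inr ⟨A, B, hF, h⟩)))))))))
  push Not at h1 h2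
  have hat : ∀ F : Fm V, F.cx = 0 → ∃ p, F = .atom p := by
    rintro (p | _ | _ | _ | _) h
    · exact ⟨p, rfl⟩
    all_goals simp [Fm.cx] at h
  obtain ⟨B, h3, h4⟩ := hv (fun p => Fm.atom p ∈ Γ) (fun A hA => by
    obtain ⟨p, rfl⟩ := hat A (h1 A hA); exact hA)
  obtain ⟨p, rfl⟩ := hat B (h2 B h3)
  have hv0 : LKValid ([] : List (List (Fm V) × List (Fm V))) := fun i hi => by simp at hi
  exact ⟨_, hv0.snoc (Or.inl ⟨_, h4, h3⟩), (Γ, Δ), by simp, fun _ h => h, fun _ h => h⟩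

variable [DecidableEq V]

theorem IsClauseFm.ev {α : V → Prop} [DecidablePred α] {A : Fm V} {C : Finset (V × Bool)}
    (h : IsClauseFm A C) (hA : A.ev α) : ∃ l ∈ C, decide (α l.1) = l.2 := by
  have key : ∀ l : V × Bool, (litFm l).ev α → decide (α l.1) = l.2 := by
    rintro ⟨p, _ | _⟩ <;> simp [litFm, Fm.ev]
  induction h with
  | lit l => exact ⟨l, mem_singleton_self _, key l hA⟩
  | left l _ ih =>
    rcases hA with hA | hA
    · exact ⟨l, mem_insert_self _ _, key l hA⟩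
    · obtain ⟨t, h1, h2⟩ := ih hA
      exact ⟨t, mem_insert_of_mem h1, h2⟩
  | right l _ ih =>
    rcases hA with hA | hA
    · obtain ⟨t, h1, h2⟩ := ih hA
      exact ⟨t, mem_insert_of_mem h1, h2⟩
    · exact ⟨l, mem_insert_self _ _, key l hA⟩

theorem IsCNF.ev {α : V → Prop} [DecidablePred α] {A : Fm V} {T : Finset (Finset (V × Bool))}
    (h : IsCNF A T) (hA : A.ev α) : ∀ C ∈ T, ∃ l ∈ C, decide (α l.1) = l.2 := by
  induction h with
  | clause h => intro C hC; rw [mem_singleton.1 hC]; exact h.ev hA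
  | and _ _ ih1 ih2 =>
    intro C hC
    rcases mem_union.1 hC with hC | hC
    · exact ih1 hA.1 C hC
    · exact ih2 hA.2 C hC

theorem lk_refutable {Γ : List (Fm V)} {S : Finset (Finset (V × Bool))} (h : Represents Γ S)
    (hS : ¬ Sat S) : ∃ P, IsLKRefutation P Γ := by
  classical
  obtain ⟨P, h1, h2⟩ := lk_complete _ Γ [] le_rfl (fun α hα => by
    refine absurd ⟨fun p => decide (α p), fun C hC => ?_⟩ hS
    obtain ⟨A, h1, T, h2, h3⟩ := h.2 C hC
    exact h2.ev (hα A h1) C h3)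
  exact ⟨_, h1.snoc (Or.inr (Or.inl h2)), by simp⟩

/-! ### Simulation -/

def lits : Fm V → Finset (V × Bool)
  | .atom p => {(p, true)}
  | .not (.atom p) => {(p, false)}
  | .or A B => lits A ∪ lits B
  | _ => ∅

def cls : Fm V → Finset (Finset (V × Bool))
  | .and A B => cls A ∪ cls B
  | F => {lits F}

@[simp] theorem lits_lit (l : V × Bool) : lits (litFm l) = {l} := by
  rcases l with ⟨p, _ | _⟩ <;> rfl

@[simp] theorem cls_lit (l : V × Bool) : cls (litFm l) = {{l}} := by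
  rcases l with ⟨p, _ | _⟩ <;> rfl

theorem IsClauseFm.lits {A : Fm V} {C : Finset (V × Bool)} (h : IsClauseFm A C) :
    lits A = C ∧ cls A = {C} := by
  induction h with
  | lit l => simp
  | left l _ ih => simp [cls, MP_a300b0_lc.lits, ih.1]
  | right l _ ih => simp [cls, MP_a300b0_lc.lits, ih.1]

theorem IsCNF.cls {A : Fm V} {T : Finset (Finset (V × Bool))} (h : IsCNF A T) : cls A = T := by
  induction h with
  | clause h => exact h.lits.2
  | and _ _ ih1 ih2 => simp [MP_a300b0_lc.cls, ih1, ih2]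

theorem card_lits (A : Fm V) : (lits A).card ≤ A.atoms := by
  induction A with
  | atom p => simp [lits, Fm.atoms]
  | not A _ => cases A <;> simp [lits, Fm.atoms]
  | or A B ih1 ih2 => exact (card_union_le _ _).trans (add_le_add ih1 ih2)
  | and A B => simp [lits]
  | imp A B => simp [lits]

def sz (M : Finset (Finset (V × Bool))) : ℕ := ∑ C ∈ M, C.card

theorem sz_union (M N : Finset (Finset (V × Bool))) : sz (M ∪ N) ≤ sz M + sz N :=
  le_of_add_le_left (sum_union_inter (s₁ := M) (s₂ := N) (f := card)).le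

theorem sz_cls (A : Fm V) : sz (cls A) ≤ A.atoms := by
  induction A with
  | and A B ih1 ih2 => exact (sz_union _ _).trans (add_le_add ih1 ih2)
  | _ => simpa [sz, cls] using card_lits _

def clsL : List (Fm V) → Finset (Finset (V × Bool))
  | [] => ∅
  | A :: Γ => cls A ∪ clsL Γ

theorem mem_clsL {Γ : List (Fm V)} {C : Finset (V × Bool)} : C ∈ clsL Γ ↔ ∃ A ∈ Γ, C ∈ cls A := by
  induction Γ with
  | nil => simp [clsL]
  | cons A Γ ih => simp [clsL, ih]

theorem sz_clsL (Γ : List (Fm V)) : sz (clsL Γ) ≤ (Γ.map Fm.atoms).sum := by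
  induction Γ with
  | nil => simp [clsL, sz]
  | cons A Γ ih => exact (sz_union _ _).trans (add_le_add (sz_cls A) ih)

def tr (Γ Δ : List (Fm V)) : Finset (Finset (V × Bool)) := clsL Γ ∪ clsL (Δ.map Fm.not)

theorem mem_tr {Γ Δ : List (Fm V)} {C : Finset (V × Bool)} :
    C ∈ tr Γ Δ ↔ (∃ A ∈ Γ, C ∈ cls A) ∨ ∃ A ∈ Δ, C ∈ cls A.not := by
  simp [tr, mem_clsL]

theorem sz_tr (Γ Δ : List (Fm V)) :
    sz (tr Γ Δ) ≤ (Γ.map Fm.atoms).sum + (Δ.map Fm.atoms).sum := by
  refine (sz_union _ _).trans (add_le_add (sz_clsL _) ((sz_clsL _).trans (le_of_eq ?_)))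
  rw [List.map_map]; rfl

def Shp (Γ Δ : List (Fm V)) : Prop := (∀ A ∈ Γ, ∃ T, IsCNF A T) ∧ ∀ A ∈ Δ, ∃ p, A = .atom p

theorem clause_inv {F : Fm V} {C : Finset (V × Bool)} (h : IsClauseFm F C) : (∃ l, F = litFm l) ∨
    ∃ l A D, IsClauseFm A D ∧ (F = .or (litFm l) A ∨ F = .or A (litFm l)) := by
  cases h with
  | lit l => exact Or.inl ⟨l, rfl⟩
  | left l h => exact Or.inr ⟨l, _, _, h, Or.inl rfl⟩
  | right l h => exact Or.inr ⟨l, _, _, h, Or.inr rfl⟩

theorem cnf_inv {F : Fm V} {T : Finset (Finset (V × Bool))} (h : IsCNF F T) :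
    (∃ p, F = .atom p) ∨ (∃ p, F = .not (.atom p)) ∨
    (∃ l A D, IsClauseFm A D ∧ (F = .or (litFm l) A ∨ F = .or A (litFm l))) ∨
    ∃ A B, F = .and A B ∧ (∃ U, IsCNF A U) ∧ ∃ U, IsCNF B U := by
  cases h with
  | clause h =>
    rcases clause_inv h with ⟨⟨p, _ | _⟩, rfl⟩ | h
    · exact Or.inr (Or.inl ⟨p, rfl⟩)
    · exact Or.inl ⟨p, rfl⟩
    · exact Or.inr (Or.inr (Or.inl h))
  | and h1 h2 => exact Or.inr (Or.inr (Or.inr ⟨_, _, rfl, ⟨_, h1⟩, _, h2⟩))

theorem litCount_append (A B : List (Finset (Finset (V × Bool)))) :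
    litCount (A ++ B) = litCount A + litCount B := by simp [litCount]

theorem sim_step {prev : List (List (Fm V) × List (Fm V))} {G : List (Finset (Finset (V × Bool)))}
    (hG : GValid G) (hp : ∀ s ∈ prev, Shp s.1 s.2 → tr s.1 s.2 ∈ G) {Γ Δ : List (Fm V)}
    (h : LKStep prev Γ Δ) (hs : Shp Γ Δ) :
    ∃ G', GValid (G ++ G') ∧ tr Γ Δ ∈ G' ∧ litCount G' ≤ 5 * sz (tr Γ Δ) := by
  have prem : ∀ Γ' Δ', Prem prev Γ' Δ' → Shp Γ' Δ' → ∀ M, tr Γ' Δ' ⊆ M → GCNFStep G M := by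
    rintro Γ' Δ' ⟨s, h1, h2, h3⟩ h4 M h5
    refine Or.inr (Or.inl ⟨_, hp s h1 ⟨fun A hA => h4.1 A (h2 hA), fun A hA => h4.2 A (h3 hA)⟩,
      M, (union_eq_right.2 (fun C hC => h5 ?_)).symm⟩)
    rcases mem_tr.1 hC with ⟨A, h6, h7⟩ | ⟨A, h6, h7⟩
    · exact mem_tr.2 (Or.inl ⟨A, h2 h6, h7⟩)
    · exact mem_tr.2 (Or.inr ⟨A, h3 h6, h7⟩)
  have one : GCNFStep G (tr Γ Δ) →
      ∃ G', GValid (G ++ G') ∧ tr Γ Δ ∈ G' ∧ litCount G' ≤ 5 * sz (tr Γ Δ) := fun h1 =>
    ⟨[tr Γ Δ], (der_snoc hG h1).1, by simp, by simp [litCount, sz]; omega⟩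
  have split : ∀ l A D, IsClauseFm A D → insert l D ∈ tr Γ Δ → Prem prev (A :: Γ) Δ →
      Prem prev (litFm l :: Γ) Δ →
      ∃ G', GValid (G ++ G') ∧ tr Γ Δ ∈ G' ∧ litCount G' ≤ 5 * sz (tr Γ Δ) := by
    intro l A D h1 h2 h3 h4
    have s1 := prem _ _ h3 ⟨List.forall_mem_cons.2 ⟨⟨_, .clause h1⟩, hs.1⟩, hs.2⟩
      (tr Γ Δ ∪ {D}) (by
        intro C; simp only [mem_tr, mem_union, List.mem_cons, exists_eq_or_imp, h1.lits.2]
        rintro ((h | h) | h)
        exacts [Or.inr h, Or.inl (Or.inl h), Or.inl (Or.inr h)])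
    have s2 := prem _ _ h4 ⟨List.forall_mem_cons.2 ⟨⟨_, .clause (.lit l)⟩, hs.1⟩, hs.2⟩
      (insert {l} (tr Γ Δ)) (by
        intro C
        simp only [mem_tr, mem_insert, List.mem_cons, exists_eq_or_imp, cls_lit, mem_singleton]
        exact or_assoc.1)
    have v1 : GValid _ := (der_snoc hG s1).1
    have v2 : GValid _ := (der_snoc v1 (s2.mono (fun x hx => by simp [hx]))).1
    have v3 : GValid _ := (der_snoc v2 (M := tr Γ Δ) (Or.inr (Or.inr ⟨tr Γ Δ, tr Γ Δ, {D}, l,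
      by simp, by simp, by simp [h2]⟩))).1
    refine ⟨[tr Γ Δ ∪ {D}, insert {l} (tr Γ Δ), tr Γ Δ], by simpa using v3, by simp, ?_⟩
    have a1 := sz_union (tr Γ Δ) {D}
    have a2 := sz_union {{l}} (tr Γ Δ)
    have a3 : (insert l D).card ≤ sz (tr Γ Δ) := single_le_sum (fun _ _ => Nat.zero_le _) h2
    have a4 := card_le_card (subset_insert l D)
    have a5 := card_pos.2 (insert_nonempty l D)
    simp only [sz, sum_singleton, card_singleton, singleton_union] at a1 a2 a3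
    simp only [litCount, sz, List.map_cons, List.sum_cons, List.map_nil, List.sum_nil]
    omega
  rcases h with ⟨A, h1, h2⟩ | h | ⟨A, h1, h2⟩ | ⟨A, h1, _⟩ | ⟨A, B, h1, h2, h3⟩ | ⟨A, B, h1, _⟩ |
    ⟨A, B, h1, h2⟩ | ⟨A, B, h1, _⟩ | ⟨A, B, h1, _⟩ | ⟨A, B, h1, _⟩
  · obtain ⟨p, rfl⟩ := hs.2 A h2
    have hsub : ({{(p, true)}, {(p, false)}} : Finset (Finset (V × Bool))) ⊆ tr Γ Δ := by
      simp only [insert_subset_iff, singleton_subset_iff]
      exact ⟨mem_tr.2 (Or.inl ⟨_, h1, mem_singleton_self _⟩),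
        mem_tr.2 (Or.inr ⟨_, h2, mem_singleton_self _⟩)⟩
    have v1 : GValid _ := (der_snoc hG (Or.inl ⟨p, rfl⟩)).1
    have v2 : GValid _ := (der_snoc v1 (M := tr Γ Δ) (Or.inr (Or.inl ⟨_, by simp, tr Γ Δ,
      (union_eq_right.2 hsub).symm⟩))).1
    refine ⟨[{{(p, true)}, {(p, false)}}, tr Γ Δ], by simpa using v2, by simp, ?_⟩
    have a1 := sum_le_sum_of_subset (f := card) hsub
    simp only [litCount, sz, List.map_cons, List.sum_cons, List.map_nil, List.sum_nil]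
    omega
  · exact one (prem _ _ h hs _ subset_rfl)
  · obtain ⟨T, hT⟩ := hs.1 _ h1
    rcases cnf_inv hT with ⟨p, e⟩ | ⟨p, e⟩ | ⟨_, _, _, _, e | e⟩ | ⟨_, _, e, _⟩ <;> cases e
    refine one (prem _ _ h2 ⟨hs.1, List.forall_mem_cons.2 ⟨⟨p, rfl⟩, hs.2⟩⟩ _ (fun C hC => ?_))
    simp only [mem_tr, List.mem_cons, exists_eq_or_imp] at hC ⊢
    rcases hC with hC | hC | hC
    · exact Or.inl hC
    · exact Or.inl ⟨_, h1, hC⟩
    · exact Or.inr hC
  · obtain ⟨p, e⟩ := hs.2 _ h1; cases e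
  · obtain ⟨T, hT⟩ := hs.1 _ h1
    rcases cnf_inv hT with ⟨p, e⟩ | ⟨p, e⟩ | ⟨l, X, D, h4, e | e⟩ | ⟨_, _, e, _⟩ <;> cases e
    · exact split l _ D h4 (mem_tr.2 (Or.inl ⟨_, h1, by
        rw [(h4.left l).lits.2]; exact mem_singleton_self _⟩)) h3 h2
    · exact split l _ D h4 (mem_tr.2 (Or.inl ⟨_, h1, by
        rw [(h4.right l).lits.2]; exact mem_singleton_self _⟩)) h2 h3
  · obtain ⟨p, e⟩ := hs.2 _ h1; cases e
  · obtain ⟨T, hT⟩ := hs.1 _ h1
    rcases cnf_inv hT with ⟨p, e⟩ | ⟨p, e⟩ | ⟨_, _, _, _, e | e⟩ | ⟨_, _, e, h3, h4⟩ <;> cases e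
    refine one (prem _ _ h2 ⟨List.forall_mem_cons.2 ⟨h3, List.forall_mem_cons.2 ⟨h4, hs.1⟩⟩,
      hs.2⟩ _ (fun C hC => ?_))
    simp only [mem_tr, List.mem_cons, exists_eq_or_imp] at hC ⊢
    rcases hC with (hC | hC | hC) | hC
    · exact Or.inl ⟨_, h1, mem_union_left _ hC⟩
    · exact Or.inl ⟨_, h1, mem_union_right _ hC⟩
    · exact Or.inl hC
    · exact Or.inr hC
  · obtain ⟨p, e⟩ := hs.2 _ h1; cases e
  · obtain ⟨T, hT⟩ := hs.1 _ h1
    rcases cnf_inv hT with ⟨p, e⟩ | ⟨p, e⟩ | ⟨_, _, _, _, e | e⟩ | ⟨_, _, e, _⟩ <;> cases e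
  · obtain ⟨p, e⟩ := hs.2 _ h1; cases e

theorem sim_list (P : List (List (Fm V) × List (Fm V))) (h : LKValid P) :
    ∃ G, GValid G ∧ (∀ s ∈ P, Shp s.1 s.2 → tr s.1 s.2 ∈ G) ∧ litCount G ≤ 5 * atomCount P := by
  induction P using List.reverseRecOn with
  | nil => exact ⟨[], fun i hi => by simp at hi, by simp, by simp [litCount]⟩
  | append_singleton P s ih =>
    obtain ⟨G, h1, h2, h3⟩ := ih (fun i hi => by
      have := h i (by simp; omega)
      rwa [List.getElem_append_left hi, List.take_append_of_le_length hi.le] at this)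
    have h4 : atomCount (P ++ [s]) =
        atomCount P + ((s.1.map Fm.atoms).sum + (s.2.map Fm.atoms).sum) := by simp [atomCount]
    by_cases hs : Shp s.1 s.2
    · obtain ⟨G', a1, a2, a3⟩ := sim_step h1 h2 (by simpa using h P.length (by simp)) hs
      refine ⟨G ++ G', a1, fun t ht h5 => ?_, ?_⟩
      · rcases List.mem_append.1 ht with ht | ht
        · exact List.mem_append_left _ (h2 t ht h5)
        · rw [List.mem_singleton.1 ht]; exact List.mem_append_right _ a2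
      · have := sz_tr s.1 s.2
        rw [litCount_append]; omega
    · refine ⟨G, h1, fun t ht h5 => ?_, by omega⟩
      rcases List.mem_append.1 ht with ht | ht
      · exact h2 t ht h5
      · exact absurd (List.mem_singleton.1 ht ▸ h5) hs

theorem gcnf_of_lk {P : List (List (Fm V) × List (Fm V))} {Γ : List (Fm V)}
    {S : Finset (Finset (V × Bool))} (hr : Represents Γ S) (h : IsLKRefutation P Γ) :
    ∃ G, IsGCNFRefutation G S ∧ litCount G ≤ 6 * atomCount P := by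
  obtain ⟨G, h1, h2, h3⟩ := sim_list P h.1
  have hm := List.mem_of_getLast? h.2
  have e : tr Γ [] = S := by
    ext C
    simp only [mem_tr, List.not_mem_nil, false_and, exists_false, or_false]
    constructor
    · rintro ⟨A, h4, h5⟩
      obtain ⟨T, h6, h7⟩ := hr.1 A h4
      exact h7 (h6.cls ▸ h5)
    · intro hC
      obtain ⟨A, h4, T, h5, h6⟩ := hr.2 C hC
      exact ⟨A, h4, h5.cls ▸ h6⟩
  have h4 := h2 _ hm ⟨fun A hA => (hr.1 A hA).imp (fun _ h => h.1), by simp⟩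
  refine ⟨_, der_snoc h1 (Or.inr (Or.inl ⟨_, h4, ∅, by simp [e]⟩)), ?_⟩
  have h5 := sz_tr Γ []
  have h6 : (Γ.map Fm.atoms).sum + (([] : List (Fm V)).map Fm.atoms).sum ≤ atomCount P :=
    List.single_le_sum (fun _ _ => Nat.zero_le _) _ (List.mem_map_of_mem hm)
  rw [e] at h5
  rw [litCount_append]
  simp only [litCount, sz, List.map_cons, List.sum_cons, List.map_nil, List.sum_nil] at h3 h5 h6 ⊢
  omega

theorem exists_represents [Nonempty V] {S : Finset (Finset (V × Bool))} (h0 : ∅ ∉ S) :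
    ∃ Γ, Represents Γ S ∧ (Γ.map Fm.atoms).sum = ∑ C ∈ S, C.card := by
  have hl : ∀ l : V × Bool, (litFm l).atoms = 1 := by rintro ⟨p, _ | _⟩ <;> rfl
  have h1 : ∀ C : Finset (V × Bool), C.Nonempty → ∃ A, IsClauseFm A C ∧ A.atoms = C.card := by
    intro C hC
    induction hC using Nonempty.cons_induction with
    | singleton l => exact ⟨_, .lit l, by simp [hl]⟩
    | cons l C h1 h2 ih =>
      obtain ⟨A, h3, h4⟩ := ih
      exact ⟨_, cons_eq_insert _ _ h1 ▸ h3.left l, by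
        rw [card_cons]; simp [Fm.atoms, hl, h4, add_comm]⟩
  have : Nonempty (Fm V) := ⟨.atom (Classical.arbitrary V)⟩
  choose! F hF using h1
  have h2 : ∀ C ∈ S, C.Nonempty := fun C hC => nonempty_iff_ne_empty.2 (fun e => h0 (e ▸ hC))
  refine ⟨S.toList.map F, ⟨fun A hA => ?_, fun C hC => ⟨F C, List.mem_map_of_mem (mem_toList.2 hC),
    _, .clause (hF C (h2 C hC)).1, mem_singleton_self _⟩⟩, ?_⟩
  · obtain ⟨C, hC, rfl⟩ := List.mem_map.1 hA
    exact ⟨_, .clause (hF C (h2 C (mem_toList.1 hC))).1, singleton_subset_iff.2 (mem_toList.1 hC)⟩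
  · rw [List.map_map, sum_map_toList]
    exact sum_congr rfl (fun C hC => (hF C (h2 C hC)).2)

theorem separation_lk (p : Polynomial ℕ) : ∃ (S : Finset (Finset (ℕ × Bool)))
    (R : List (Finset (ℕ × Bool))), IsResRefutation R S ∧
      (∃ Γ, Represents Γ S ∧ (Γ.map Fm.atoms).sum = ∑ C ∈ S, C.card) ∧
      ∀ Γ, Represents Γ S → (∃ P, IsLKRefutation P Γ) ∧
        ∀ P, IsLKRefutation P Γ → p.eval (inputBits S R) < atomCount P := by
  obtain ⟨S, R, h1, h2, _, h3⟩ := separation (Polynomial.C 6 * p)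
  refine ⟨S, R, h2, exists_represents h1, fun Γ hΓ => ⟨lk_refutable hΓ (res_sound h2),
    fun P hP => ?_⟩⟩
  obtain ⟨G, h4, h5⟩ := gcnf_of_lk hΓ hP
  have := h3 G h4
  rw [Polynomial.eval_C_mul] at this
  omega

end Pool.Agent.Lib.MP_a300b0_lc
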